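import Pool.Agent.EllSch.Zeta
import Pool.Agent.EllSch.FS

/-! # [LG] Legendre's relation -/

open Filter Topology

namespace Pool.Agent.EllSch

namespace Legendre

open UpperHalfPlane EisensteinSeries SummationFilter

/-- a telescoping unconditional sum over the integers -/
theorem tele (g : ℤ → ℂ) (hs : Summable fun n => g (n + 1) - g n)
    (h1 : Tendsto (fun N : ℕ => g (N : ℤ)) atTop (𝓝 0))
    (h2 : Tendsto (fun N : ℕ => g (-(N : ℤ))) atTop (𝓝 0)) :
    ∑' n, (g (n + 1) - g n) = 0 := by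
  have h3 : Tendsto (fun N : ℕ => ∑ n ∈ Finset.Ico (-(N : ℤ)) N, (g (n + 1) - g n)) atTop
      (𝓝 (∑' n, (g (n + 1) - g n))) := by
    have h4 := hs.hasSum
    have h5 : Tendsto (fun N : ℕ => Finset.Ico (-(N : ℤ)) N) atTop atTop :=
      (Finset.tendsto_Ico_neg_atTop_atTop (α := ℤ)).comp tendsto_natCast_atTop_atTop
    have h6 : Tendsto (fun s : Finset ℤ => ∑ n ∈ s, (g (n + 1) - g n)) atTop
      (𝓝 (∑' n, (g (n + 1) - g n))) := by
      simpa [HasSum] using h4
    exact h6.comp h5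
  have h4 : ∀ N : ℕ, ∑ n ∈ Finset.Ico (-(N : ℤ)) N, (g (n + 1) - g n) =
      g (N : ℤ) - g (-(N : ℤ)) := by
    intro N
    have := Finset.sum_Ico_int_sub N (fun n => -g n)
    simp only [neg_sub_neg] at this
    exact this
  simp only [h4] at h3
  have h5 := h1.sub h2
  rw [sub_zero] at h5
  exact tendsto_nhds_unique h3 h5

theorem inv_tend (c : ℂ) {t : ℂ} (ht : t ≠ 0) :
    Tendsto (fun N : ℕ => 1 / (c + (N : ℂ) * t)) atTop (𝓝 0) := by
  have h1 := (tendsto_zero_inv_linear (c / t) 1).const_mul t⁻¹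
  rw [mul_zero] at h1
  refine h1.congr fun N => ?_
  have : c + (N : ℂ) * t = t * (((1 : ℤ) : ℂ) * (c / t) + N) := by
    push_cast
    field_simp
  rw [this]
  rw [one_div, one_div, mul_inv]

/-- the telescoping sum of the reciprocals along an arithmetic progression -/
theorem tele_inv (c : ℂ) {t : ℂ} (ht : t ≠ 0)
    (hs : Summable fun n : ℤ => 1 / (c + t - (n : ℂ) * t) - 1 / (c - (n : ℂ) * t)) :
    ∑' n : ℤ, (1 / (c + t - (n : ℂ) * t) - 1 / (c - (n : ℂ) * t)) = 0 := by
  let g : ℤ → ℂ := fun n => -(1 / (c + t - (n : ℂ) * t))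
  have e : (fun n : ℤ => 1 / (c + t - (n : ℂ) * t) - 1 / (c - (n : ℂ) * t)) =
      fun n : ℤ => g (n + 1) - g n := by
    funext n
    have : c + t - ((n + 1 : ℤ) : ℂ) * t = c - (n : ℂ) * t := by
      push_cast
      ring
    simp only [g, this]
    ring
  rw [e] at hs ⊢
  refine tele g hs ?_ ?_
  · have h5 := (inv_tend (c + t) (t := -t) (neg_ne_zero.2 ht)).neg
    rw [neg_zero] at h5
    refine h5.congr fun N => ?_
    have : c + t - (((N : ℕ) : ℤ) : ℂ) * t = c + t + (N : ℂ) * -t := by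
      push_cast
      ring
    simp only [g, this]
  · have h5 := (inv_tend (c + t) (t := t) ht).neg
    rw [neg_zero] at h5
    refine h5.congr fun N => ?_
    have : c + t - ((-((N : ℕ) : ℤ) : ℤ) : ℂ) * t = c + t + (N : ℂ) * t := by
      push_cast
      ring
    simp only [g, this]

theorem ind_tau (τ : ℍ) : Ind (τ : ℂ) 1 := by
  unfold Ind
  simp only [Complex.one_re, Complex.one_im, mul_zero, mul_one, zero_sub]
  exact neg_ne_zero.2 τ.im_ne_zero

/-- the difference of the zeta series at two points -/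
theorem diff_summable {a b : ℂ} (h : Ind a b) (z w : ℂ) :
    Summable fun x : ℤ × ℤ => 1 / (z + w - lat a b x) - 1 / (z - lat a b x) + w / lat a b x ^ 2 := by
  refine ((summable_wz h (z + w)).sub (summable_wz h z)).congr fun x => ?_
  ring

theorem diff_tsum {a b : ℂ} (h : Ind a b) (z w : ℂ) :
    wz a b (z + w) - wz a b z =
      ∑' x : ℤ × ℤ, (1 / (z + w - lat a b x) - 1 / (z - lat a b x) + w / lat a b x ^ 2) := by
  unfold wz
  rw [← (summable_wz h (z + w)).tsum_sub (summable_wz h z)]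
  apply tsum_congr
  intro x
  ring

theorem eta2_tau (τ : ℍ) : eta2 (τ : ℂ) 1 = EisensteinSeries.G2 τ := by
  have h := ind_tau τ
  set a : ℂ := (τ : ℂ) with ha
  have hz := FS.off_half_a h
  set z : ℂ := a / 2
  have e1 : eta2 a 1 = wz a 1 (z + 1) - wz a 1 z := by
    have := wz_add_lat h hz (0, 1)
    have e2 : lat a 1 (0, 1) = 1 := by simp [lat]
    have e3 : eta a 1 (0, 1) = eta2 a 1 := by simp [eta]
    rw [e2, e3] at this
    rw [this]
    ring
  rw [e1, diff_tsum h]
  have hF := diff_summable h z 1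
  rw [hF.tsum_prod]
  have hm : ∀ m : ℤ, ∑' n : ℤ, (1 / (z + 1 - lat a 1 (m, n)) - 1 / (z - lat a 1 (m, n)) +
      1 / lat a 1 (m, n) ^ 2) = e2Summand m τ := by
    intro m
    have hs1 : Summable fun n : ℤ => (1 / (z + 1 - lat a 1 (m, n)) - 1 / (z - lat a 1 (m, n)) +
      1 / lat a 1 (m, n) ^ 2) := hF.prod_factor m
    have hs2 : Summable fun n : ℤ => 1 / lat a 1 (m, n) ^ 2 := by
      refine (linear_right_summable a m (k := 2) le_rfl).congr fun n => ?_
      simp only [lat, mul_one, one_div]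
      norm_cast
    have hs3 : Summable fun n : ℤ => (1 / (z + 1 - lat a 1 (m, n)) - 1 / (z - lat a 1 (m, n))) := by
      refine (hs1.sub hs2).congr fun n => ?_
      ring
    rw [hs3.tsum_add hs2]
    have h0 : ∑' n : ℤ, (1 / (z + 1 - lat a 1 (m, n)) - 1 / (z - lat a 1 (m, n))) = 0 := by
      have e3 : (fun n : ℤ => 1 / (z + 1 - lat a 1 (m, n)) - 1 / (z - lat a 1 (m, n))) =
          fun n : ℤ => 1 / ((z - m * a) + 1 - (n : ℂ) * 1) - 1 / ((z - m * a) - (n : ℂ) * 1) := by
        funext n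
        have e4 : z + 1 - lat a 1 (m, n) = (z - m * a) + 1 - (n : ℂ) * 1 := by
          simp only [lat]
          ring
        have e5 : z - lat a 1 (m, n) = (z - m * a) - (n : ℂ) * 1 := by
          simp only [lat]
          ring
        rw [e4, e5]
      rw [e3] at hs3 ⊢
      exact tele_inv (z - m * a) one_ne_zero hs3
    rw [h0, zero_add]
    unfold e2Summand
    apply tsum_congr
    intro n
    simp only [eisSummand, lat, mul_one, one_div]
    simp [ha, zpow_neg, zpow_ofNat]
  have hsum : Summable fun m : ℤ => e2Summand m τ := by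
    have := hF.prod
    refine this.congr fun m => ?_
    exact hm m
  rw [EisensteinSeries.G2, tsum_eq_of_summable_unconditional hsum]
  exact tsum_congr hm

theorem eta1_tau (τ : ℍ) :
    eta1 (τ : ℂ) 1 = (τ : ℂ) * (((τ : ℂ) ^ 2)⁻¹ * EisensteinSeries.G2 (ModularGroup.S • τ)) := by
  have h := ind_tau τ
  set a : ℂ := (τ : ℂ) with ha
  have ha0 : a ≠ 0 := ne_zero τ
  have hz := FS.off_half_a h
  set z : ℂ := a / 2
  have e1 : eta1 a 1 = wz a 1 (z + a) - wz a 1 z := by
    have := wz_add_lat h hz (1, 0)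
    have e2 : lat a 1 (1, 0) = a := by simp [lat]
    have e3 : eta a 1 (1, 0) = eta1 a 1 := by simp [eta]
    rw [e2, e3] at this
    rw [this]
    ring
  rw [e1, diff_tsum h]
  have hF := diff_summable h z a
  have hF' := (Equiv.prodComm ℤ ℤ).summable_iff.2 hF
  rw [← (Equiv.prodComm ℤ ℤ).tsum_eq]
  have hF'' : Summable fun x : ℤ × ℤ => (1 / (z + a - lat a 1 (x.2, x.1)) -
    1 / (z - lat a 1 (x.2, x.1)) + a / lat a 1 (x.2, x.1) ^ 2) := hF'
  have hprod : ∑' x : ℤ × ℤ, (1 / (z + a - lat a 1 ((Equiv.prodComm ℤ ℤ) x)) -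
      1 / (z - lat a 1 ((Equiv.prodComm ℤ ℤ) x)) + a / lat a 1 ((Equiv.prodComm ℤ ℤ) x) ^ 2) =
      ∑' n : ℤ, ∑' m : ℤ, (1 / (z + a - lat a 1 (m, n)) -
    1 / (z - lat a 1 (m, n)) + a / lat a 1 (m, n) ^ 2) := hF''.tsum_prod
  rw [hprod]
  have hm : ∀ n : ℤ, ∑' m : ℤ, (1 / (z + a - lat a 1 (m, n)) - 1 / (z - lat a 1 (m, n)) +
      a / lat a 1 (m, n) ^ 2) = a * ∑' m : ℤ, 1 / ((m : ℂ) * τ + n) ^ 2 := by
    intro n
    have hs1 : Summable fun m : ℤ => (1 / (z + a - lat a 1 (m, n)) - 1 / (z - lat a 1 (m, n)) +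
      a / lat a 1 (m, n) ^ 2) := hF''.prod_factor n
    have hs2 : Summable fun m : ℤ => a / lat a 1 (m, n) ^ 2 := by
      refine ((linear_left_summable ha0 n (k := 2) le_rfl).mul_left a).congr fun m => ?_
      simp only [lat, mul_one, div_eq_mul_inv]
      norm_cast
    have hs3 : Summable fun m : ℤ => (1 / (z + a - lat a 1 (m, n)) - 1 / (z - lat a 1 (m, n))) := by
      refine (hs1.sub hs2).congr fun n => ?_
      ring
    rw [hs3.tsum_add hs2]
    have h0 : ∑' m : ℤ, (1 / (z + a - lat a 1 (m, n)) - 1 / (z - lat a 1 (m, n))) = 0 := by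
      have e3 : (fun m : ℤ => 1 / (z + a - lat a 1 (m, n)) - 1 / (z - lat a 1 (m, n))) =
          fun m : ℤ => 1 / ((z - n) + a - (m : ℂ) * a) - 1 / ((z - n) - (m : ℂ) * a) := by
        funext m
        have e4 : z + a - lat a 1 (m, n) = (z - n) + a - (m : ℂ) * a := by
          simp only [lat]
          ring
        have e5 : z - lat a 1 (m, n) = (z - n) - (m : ℂ) * a := by
          simp only [lat]
          ring
        rw [e4, e5]
      rw [e3] at hs3 ⊢
      exact tele_inv (z - n) ha0 hs3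
    rw [h0, zero_add, ← tsum_mul_left]
    apply tsum_congr
    intro m
    simp only [lat, mul_one, ha]
    ring
  have hsum : Summable fun n : ℤ => ∑' m : ℤ, 1 / ((m : ℂ) * τ + n) ^ 2 := by
    have h6 : Summable fun n : ℤ => a * ∑' m : ℤ, 1 / ((m : ℂ) * τ + n) ^ 2 :=
      hF''.prod.congr fun n => hm n
    exact (summable_mul_left_iff ha0).1 h6
  rw [← tsum_symmetricIco_tsum_eq_S_act τ, tsum_eq_of_summable_unconditional hsum, ← tsum_mul_left]
  exact tsum_congr hm

theorem det_tau (τ : ℍ) : det (τ : ℂ) 1 = 2 * Real.pi * Complex.I := by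
  unfold det
  rw [eta2_tau, eta1_tau]
  have h1 := G2_S_transform τ
  have h0 : (τ : ℂ) ≠ 0 := ne_zero τ
  rw [h1]
  field_simp
  ring

theorem wz_neg_left (a b z : ℂ) : wz (-a) b z = wz a b z := by
  unfold wz
  rw [← ((Equiv.neg ℤ).prodCongr (Equiv.refl ℤ)).tsum_eq]
  apply tsum_congr
  intro x
  have h1 : lat (-a) b (((Equiv.neg ℤ).prodCongr (Equiv.refl ℤ)) x) = lat a b x := by
    simp [lat]
  rw [h1]

theorem det_neg_left (a b : ℂ) : det (-a) b = -det a b := by
  unfold det eta1 eta2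
  rw [wz_neg_left, wz_neg_left, neg_div, wz_neg]
  ring

theorem det_smul {a b c : ℂ} (hc : c ≠ 0) : det (c * a) (c * b) = det a b := by
  unfold det
  rw [eta1_smul hc, eta2_smul hc]
  field_simp

end Legendre

/-- Legendre's relation (squared, so that the orientation of the basis does not matter) -/
theorem det_sq {a b : ℂ} (h : Ind a b) : det a b ^ 2 = -(4 * (Real.pi : ℂ) ^ 2) := by
  have hI : (2 * (Real.pi : ℂ) * Complex.I) ^ 2 = -(4 * (Real.pi : ℂ) ^ 2) := by
    rw [mul_pow, Complex.I_sq]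
    ring
  have hb : b ≠ 0 := by
    rintro rfl
    apply h
    simp
  have him : (a / b).im ≠ 0 := by
    intro h0
    apply h
    have h1 : a = ((a / b).re : ℂ) * b := by
      have h2 : a / b = ((a / b).re : ℂ) := Complex.ext rfl (by simpa using h0)
      rw [← h2, div_mul_cancel₀ _ hb]
    rw [h1]
    simp only [Complex.re_ofReal_mul, Complex.im_ofReal_mul]
    ring
  have e1 : det a b = det (a / b) 1 := by
    have := Legendre.det_smul (a := a / b) (b := 1) hb
    rwa [mul_div_cancel₀ _ hb, mul_one] at this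
  rw [e1]
  rcases lt_or_gt_of_ne him with h1 | h1
  · have h2 := Legendre.det_tau ⟨-(a / b), by simpa using h1⟩
    have h3 : det (-(a / b)) 1 = 2 * Real.pi * Complex.I := h2
    rw [Legendre.det_neg_left] at h3
    rw [← hI, ← h3]
    ring
  · have h2 := Legendre.det_tau ⟨a / b, h1⟩
    have h3 : det (a / b) 1 = 2 * Real.pi * Complex.I := h2
    rw [h3, hI]

end Pool.Agent.EllSch
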