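import Pool.Agent.EllSch.Fix.EvenPoly

/-! # [CM] Multiplication by an endomorphism of the lattice is given by rational functions -/

open Filter Topology Polynomial

namespace Pool.Agent.EllSch

namespace CMul

theorem off_of_off_mul {a b α z : ℂ} (hα : α ∈ EndL a b) (hz : Off a b (α * z)) : Off a b z := by
  intro x hx
  obtain ⟨y, hy⟩ := hα x
  exact hz y (by rw [hx, hy])

theorem wp_mul_add_lat {a b : ℂ} (h : Ind a b) {α : ℂ} (hα : α ∈ EndL a b) (z : ℂ) (x : ℤ × ℤ) :
    wp a b (α * (z + lat a b x)) = wp a b (α * z) := by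
  obtain ⟨y, hy⟩ := hα x
  rw [mul_add, hy, wp_add_lat h]

/-- the values of `℘` at the points of `α⁻¹ Λ` off `Λ` form a finite set -/
theorem finite_vals {a b : ℂ} (h : Ind a b) {α : ℂ} (hα : α ∈ EndL a b) (h0 : α ≠ 0) :
    {v : ℂ | ∃ s, Off a b s ∧ ¬ Off a b (α * s) ∧ wp a b s = v}.Finite := by
  obtain ⟨p, hp⟩ := hα (1, 0)
  obtain ⟨q, hq⟩ := hα (0, 1)
  have hp' : α * a = p.1 * a + p.2 * b := by
    simpa [lat] using hp
  have hq' : α * b = q.1 * a + q.2 * b := by
    simpa [lat] using hq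
  set D : ℤ := p.1 * q.2 - p.2 * q.1 with hD
  have hDa : (D : ℂ) * a = α * (q.2 * a - p.2 * b) := by
    rw [hD]; push_cast
    linear_combination (-(q.2 : ℂ)) * hp' + (p.2 : ℂ) * hq'
  have hDb : (D : ℂ) * b = α * (-q.1 * a + p.1 * b) := by
    rw [hD]; push_cast
    linear_combination (q.1 : ℂ) * hp' - (p.1 : ℂ) * hq'
  have hD0 : D ≠ 0 := by
    intro hz
    rw [hz] at hDa hDb
    have e1 : lat a b (q.2, -p.2) = lat a b 0 := by
      rw [lat_zero]
      have : α * (q.2 * a - p.2 * b) = 0 := by rw [← hDa]; simp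
      rcases mul_eq_zero.1 this with h1 | h1
      · exact absurd h1 h0
      · simp only [lat]; push_cast; linear_combination h1
    have e2 : lat a b (-q.1, p.1) = lat a b 0 := by
      rw [lat_zero]
      have : α * (-q.1 * a + p.1 * b) = 0 := by rw [← hDb]; simp
      rcases mul_eq_zero.1 this with h1 | h1
      · exact absurd h1 h0
      · simp only [lat]; push_cast; linear_combination h1
    have i1 := lat_injective h e1
    have i2 := lat_injective h e2
    have j1 : q.2 = 0 ∧ p.2 = 0 := by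
      have := Prod.ext_iff.1 i1
      simpa using this
    have j2 : q.1 = 0 ∧ p.1 = 0 := by
      have := Prod.ext_iff.1 i2
      simpa using this
    rw [j1.2, j2.2] at hp'
    have ha : a = 0 := by
      have : α * a = 0 := by rw [hp']; simp
      rcases mul_eq_zero.1 this with h1 | h1
      · exact absurd h1 h0
      · exact h1
    exact h (by rw [ha]; simp)
  have hDc : (D : ℂ) ≠ 0 := by exact_mod_cast hD0
  refine Set.Finite.subset (((Set.finite_Icc (0 : ℤ) |D|).prod (Set.finite_Icc (0 : ℤ) |D|)).image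
    (fun r : ℤ × ℤ => wp a b (lat a b r / D))) ?_
  rintro v ⟨s, _, hs, rfl⟩
  obtain ⟨y, hy⟩ := (Basic.not_off_iff a b _).1 hs
  set y' : ℤ × ℤ := (y.1 * q.2 - y.2 * q.1, -y.1 * p.2 + y.2 * p.1) with hy'
  have hs' : (D : ℂ) * s = lat a b y' := by
    have e : α * ((D : ℂ) * s) = α * lat a b y' := by
      have : α * ((D : ℂ) * s) = (D : ℂ) * lat a b y := by rw [← hy]; ring
      rw [this, hy']
      simp only [lat]
      push_cast
      linear_combination (y.1 : ℂ) * hDa + (y.2 : ℂ) * hDb
    exact mul_left_cancel₀ h0 e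
  refine ⟨(y'.1 % D, y'.2 % D), ⟨?_, ?_⟩, ?_⟩
  · exact ⟨Int.emod_nonneg _ hD0, (Int.emod_lt_abs _ hD0).le⟩
  · exact ⟨Int.emod_nonneg _ hD0, (Int.emod_lt_abs _ hD0).le⟩
  · have e : s = lat a b (y'.1 % D, y'.2 % D) / D + lat a b (y'.1 / D, y'.2 / D) := by
      have h1 : ((D : ℂ)) * ((y'.1 / D : ℤ) : ℂ) + ((y'.1 % D : ℤ) : ℂ) = (y'.1 : ℂ) := by
        exact_mod_cast Int.mul_ediv_add_emod y'.1 D
      have h2 : ((D : ℂ)) * ((y'.2 / D : ℤ) : ℂ) + ((y'.2 % D : ℤ) : ℂ) = (y'.2 : ℂ) := by
        exact_mod_cast Int.mul_ediv_add_emod y'.2 D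
      have h3 : s = lat a b y' / D := by
        rw [← hs']; field_simp
      rw [h3]
      simp only [lat]
      rw [← h1, ← h2]
      field_simp
      ring
    change wp a b (lat a b (y'.1 % D, y'.2 % D) / D) = wp a b s
    conv_rhs => rw [e]
    rw [wp_add_lat h]

theorem eq_or_neg {a b : ℂ} (h : Ind a b) {z w : ℂ} (hz : Off a b z) (hw : Off a b w)
    (h1 : wp a b z = wp a b w) : (∃ x, z = w + lat a b x) ∨ (∃ x, z = -w + lat a b x) := by
  have h2 : wq a b z ^ 2 = wq a b w ^ 2 := by rw [ode h hz, ode h hw, h1]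
  rcases sq_eq_sq_iff_eq_or_eq_neg.1 h2 with h3 | h3
  · exact Or.inl (exists_lat_of_eq h hz hw h1 h3)
  · refine Or.inr (exists_lat_of_eq h hz (off_neg.2 hw) ?_ ?_)
    · rw [wp_neg h, h1]
    · rw [wq_neg h, h3]

theorem tendsto_mul_nhdsNE {α : ℂ} (h0 : α ≠ 0) (s : ℂ) :
    Tendsto (fun z => α * (z - s)) (𝓝[≠] s) (𝓝[≠] 0) := by
  rw [tendsto_nhdsWithin_iff]
  constructor
  · have : Tendsto (fun z : ℂ => α * (z - s)) (𝓝 s) (𝓝 (α * (s - s))) :=
      (continuous_const.mul (continuous_id.sub continuous_const)).tendsto s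
    rw [sub_self, mul_zero] at this
    exact this.mono_left nhdsWithin_le_nhds
  · filter_upwards [self_mem_nhdsWithin] with z hz
    exact mul_ne_zero h0 (sub_ne_zero.2 hz)

theorem eventually_off_mul {a b : ℂ} (h : Ind a b) {α : ℂ} (h0 : α ≠ 0) (s : ℂ) :
    ∀ᶠ z in 𝓝[≠] s, Off a b (α * z) := by
  have ht : Tendsto (fun z => α * z) (𝓝[≠] s) (𝓝[≠] (α * s)) := by
    rw [tendsto_nhdsWithin_iff]
    constructor
    · exact ((continuous_const.mul continuous_id).tendsto s).mono_left nhdsWithin_le_nhds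
    · filter_upwards [self_mem_nhdsWithin] with z hz
      intro he
      exact hz (mul_left_cancel₀ h0 he)
  exact ht.eventually (Basic.eventually_off h (α * s))

/-- the limit at a point off the lattice -/
theorem exists_limit {a b : ℂ} (h : Ind a b) {α : ℂ} (h0 : α ≠ 0)
    (V : Finset ℂ) (hV : ∀ s, Off a b s → ¬ Off a b (α * s) → wp a b s ∈ V) {s : ℂ}
    (hs : Off a b s) :
    ∃ c, Tendsto (fun z => (∏ v ∈ V, (X - C v) ^ 2 : ℂ[X]).eval (wp a b z) * wp a b (α * z))
      (𝓝[≠] s) (𝓝 c) := by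
  have cwp : ContinuousAt (wp a b) s := (hasDerivAt_wp h hs).continuousAt
  by_cases hαs : Off a b (α * s)
  · have c2 : ContinuousAt (fun z => wp a b (α * z)) s := by
      have : ContinuousAt (wp a b) (α * s) := (hasDerivAt_wp h hαs).continuousAt
      exact ContinuousAt.comp (f := fun z => α * z) this (by fun_prop)
    have c1 : ContinuousAt (fun z => (∏ v ∈ V, (X - C v) ^ 2 : ℂ[X]).eval (wp a b z)) s :=
      ContinuousAt.comp (f := wp a b) (Polynomial.continuous _).continuousAt cwp
    exact ⟨_, (c1.mul c2).tendsto.mono_left nhdsWithin_le_nhds⟩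
  · obtain ⟨y, hy⟩ := (Basic.not_off_iff a b _).1 hαs
    have hmem := hV s hs hαs
    have hsl : Tendsto (fun z => (wp a b z - wp a b s) / (z - s)) (𝓝[≠] s) (𝓝 (wq a b s)) := by
      have := hasDerivAt_iff_tendsto_slope.1 (hasDerivAt_wp h hs)
      refine this.congr' (Eventually.of_forall fun z => ?_)
      rw [slope_def_field]
    have h3 : Tendsto (fun z => (α * (z - s)) ^ 2 * wp a b (α * (z - s))) (𝓝[≠] s) (𝓝 1) :=
      (Basic.tendsto_sq_mul_wp h).comp (tendsto_mul_nhdsNE h0 s)
    have h4 : Tendsto (fun z => (∏ v ∈ V.erase (wp a b s), (X - C v) ^ 2 : ℂ[X]).eval (wp a b z))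
        (𝓝[≠] s) (𝓝 ((∏ v ∈ V.erase (wp a b s), (X - C v) ^ 2 : ℂ[X]).eval (wp a b s))) :=
      (ContinuousAt.comp (f := wp a b) (Polynomial.continuous _).continuousAt cwp).tendsto.mono_left
        nhdsWithin_le_nhds
    refine ⟨_, (((hsl.pow 2).mul h4).mul (h3.const_mul (α ^ 2)⁻¹)).congr' ?_⟩
    filter_upwards [self_mem_nhdsWithin] with z hz
    have hz' : z - s ≠ 0 := sub_ne_zero.2 hz
    have e1 : wp a b (α * z) = wp a b (α * (z - s)) := by
      rw [← wp_add_lat h (α * (z - s)) y, ← hy]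
      congr 1
      ring
    rw [← Finset.mul_prod_erase V _ hmem, eval_mul, e1]
    simp only [eval_pow, eval_sub, eval_X, eval_C]
    field_simp

end CMul

/-- `℘ (α z)` is a rational function of `℘ z` -/
theorem cmul {a b : ℂ} (h : Ind a b) {α : ℂ} (hα : α ∈ EndL a b) (h0 : α ≠ 0) :
    ∃ N Q : ℂ[X], ∀ z, Off a b (α * z) →
      Off a b z ∧ Q.eval (wp a b z) ≠ 0 ∧ wp a b (α * z) = N.eval (wp a b z) / Q.eval (wp a b z) := by
  classical
  set V : Finset ℂ := (CMul.finite_vals h hα h0).toFinset with hVdef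
  have hV : ∀ s, Off a b s → ¬ Off a b (α * s) → wp a b s ∈ V := by
    intro s hs hs'
    rw [hVdef, Set.Finite.mem_toFinset]
    exact ⟨s, hs, hs', rfl⟩
  set Q : ℂ[X] := ∏ v ∈ V, (X - C v) ^ 2 with hQ
  set f : ℂ → ℂ := fun z => Q.eval (wp a b z) * wp a b (α * z) with hf
  have fneg : ∀ z, f (-z) = f z := by
    intro z
    simp only [hf]
    rw [wp_neg h, mul_neg, wp_neg h]
  have fper : ∀ v z, f (z + lat a b v) = f z := by
    intro v z
    simp only [hf]
    rw [wp_add_lat h, CMul.wp_mul_add_lat h hα]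
  set F : ℂ → ℂ := fun z => limUnder (𝓝[≠] z) f with hF
  have hlim : ∀ z, Off a b z → Tendsto f (𝓝[≠] z) (𝓝 (F z)) := by
    intro z hz
    exact tendsto_nhds_limUnder (CMul.exists_limit h h0 V hV hz)
  have hfd : ∀ z, Off a b (α * z) → DifferentiableAt ℂ f z := by
    intro z hz
    have hz' := CMul.off_of_off_mul hα hz
    have d1 : DifferentiableAt ℂ (fun z => Q.eval (wp a b z)) z :=
      DifferentiableAt.comp z (Polynomial.differentiable Q).differentiableAt
        (Basic.differentiableAt_wp h hz')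
    have d2 : DifferentiableAt ℂ (fun z => wp a b (α * z)) z :=
      DifferentiableAt.comp z (Basic.differentiableAt_wp h hz) (by fun_prop)
    exact d1.mul d2
  have hFf : ∀ z, Off a b (α * z) → F z = f z := by
    intro z hz
    exact tendsto_nhds_unique (hlim z (CMul.off_of_off_mul hα hz))
      ((hfd z hz).continuousAt.tendsto.mono_left nhdsWithin_le_nhds)
  have hFev : ∀ s, F =ᶠ[𝓝[≠] s] f := fun s => by
    filter_upwards [CMul.eventually_off_mul h h0 s] with z hz using hFf z hz
  have hFd : ∀ z, Off a b z → DifferentiableAt ℂ F z := by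
    intro z hz
    refine (Complex.analyticAt_of_differentiable_on_punctured_nhds_of_continuousAt ?_
      ?_).differentiableAt
    · filter_upwards [CMul.eventually_off_mul h h0 z] with u hu
      refine (hfd u hu).congr_of_eventuallyEq ?_
      have hopen : IsOpen {z : ℂ | Off a b (α * z)} :=
        (isOpen_off h).preimage (continuous_const.mul continuous_id)
      filter_upwards [hopen.mem_nhds hu] with v hv using hFf v hv
    · rw [continuousAt_iff_punctured_nhds]
      exact (hlim z hz).congr' (hFev z).symm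
  have hFneg : ∀ z, Off a b z → F (-z) = F z := by
    intro z hz
    have h1 := hlim (-z) (off_neg.2 hz)
    have h2 : Tendsto (fun u : ℂ => -u) (𝓝[≠] z) (𝓝[≠] (-z)) := by
      rw [tendsto_nhdsWithin_iff]
      constructor
      · exact (continuous_neg.tendsto z).mono_left nhdsWithin_le_nhds
      · filter_upwards [self_mem_nhdsWithin] with u hu
        exact fun he => hu (neg_injective he)
    refine tendsto_nhds_unique ((h1.comp h2).congr' (Eventually.of_forall fun u => ?_)) (hlim z hz)
    simp only [Function.comp_apply]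
    exact fneg u
  have hFper : ∀ v z, Off a b z → F (z + lat a b v) = F z := by
    intro v z hz
    have h1 := hlim (z + lat a b v) ((off_add_lat v).2 hz)
    have h2 : Tendsto (fun u : ℂ => u + lat a b v) (𝓝[≠] z) (𝓝[≠] (z + lat a b v)) := by
      rw [tendsto_nhdsWithin_iff]
      constructor
      · exact ((continuous_id.add continuous_const).tendsto z).mono_left nhdsWithin_le_nhds
      · filter_upwards [self_mem_nhdsWithin] with u hu
        exact fun he => hu (add_right_cancel he)
    refine tendsto_nhds_unique ((h1.comp h2).congr' (Eventually.of_forall fun u => ?_)) (hlim z hz)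
    simp only [Function.comp_apply]
    exact fper v u
  have hFm : MeromorphicAt F 0 := by
    have m1 : MeromorphicAt (fun z => wp a b (α * z)) 0 :=
      MeromorphicAt.comp_analyticAt (f := wp a b) (g := fun z => α * z)
        (EvenPoly.meromorphicAt_wp h _) (by fun_prop)
    have m2 : MeromorphicAt (fun z => Q.eval (wp a b z)) 0 := by
      have e : (fun z => Q.eval (wp a b z)) = fun z => ∏ v ∈ V, (wp a b z - v) ^ 2 := by
        ext z
        rw [hQ, eval_prod]
        simp
      rw [e]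
      have := EvenPoly.meromorphicAt_wp h 0
      fun_prop
    exact (m2.mul m1).congr (hFev 0).symm
  obtain ⟨N, hN⟩ := even_poly h hFd hFper hFneg hFm
  refine ⟨N, Q, fun z hz => ?_⟩
  have hz' := CMul.off_of_off_mul hα hz
  have hQz : Q.eval (wp a b z) ≠ 0 := by
    rw [hQ, eval_prod, Finset.prod_ne_zero_iff]
    intro v hv hv0
    rw [hVdef, Set.Finite.mem_toFinset] at hv
    obtain ⟨s, hs, hs', rfl⟩ := hv
    have he : wp a b z = wp a b s := by
      have : wp a b z - wp a b s = 0 := by simpa using hv0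
      exact sub_eq_zero.1 this
    obtain ⟨y, hy⟩ := (Basic.not_off_iff a b _).1 hs'
    rcases CMul.eq_or_neg h hz' hs he with ⟨x, hx⟩ | ⟨x, hx⟩
    · obtain ⟨w, hw⟩ := hα x
      refine hz (y + w) ?_
      rw [hx, mul_add, hy, hw, lat_add]
    · obtain ⟨w, hw⟩ := hα x
      refine hz (-y + w) ?_
      rw [hx, mul_add, mul_neg, hy, hw, lat_add, lat_neg]
  refine ⟨hz', hQz, ?_⟩
  rw [← hN z hz', hFf z hz, eq_div_iff hQz]
  simp only [hf]
  ring

end Pool.Agent.EllSch
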