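import Pool.Agent.EllSch.Final2

/-! # [TD] Transcendence degrees of finitely generated fields -/

open Cardinal

namespace Pool.Agent.EllSch

theorem card_le_trdeg {k B ι : Type} [Field k] [Field B] [Algebra k B] {e : ι → B} {s : Finset ι}
    (hs : AlgebraicIndependent k (fun i : s => e i)) (K : IntermediateField k B)
    (hK : ∀ i ∈ s, e i ∈ K) : (s.card : Cardinal) ≤ Algebra.trdeg k K := by
  have h1 : AlgebraicIndependent k (fun i : s => (⟨e i, hK i i.2⟩ : K)) := by
    have h2 : AlgebraicIndependent k (K.val ∘ fun i : s => (⟨e i, hK i i.2⟩ : K)) := hs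
    exact h2.of_comp K.val
  have h3 := h1.cardinalMk_le_trdeg
  rwa [Cardinal.mk_coe_finset] at h3

theorem exists_trdeg_eq {k B ι : Type} [Field k] [Field B] [Algebra k B] [Fintype ι]
    (e : ι → B) :
    ∃ s : Finset ι, AlgebraicIndependent k (fun i : s => e i) ∧
      Algebra.trdeg k (IntermediateField.adjoin k (Set.range e)) = s.card := by
  classical
  obtain ⟨s, hs1, hs2⟩ := Final2.exists_max2 (E := k) e
  refine ⟨s, hs1, le_antisymm ?_ ?_⟩
  · let L := IntermediateField.adjoin k (e '' s)
    let A : IntermediateField k B := (algebraicClosure L B).restrictScalars k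
    have hmem : ∀ x, x ∈ A ↔ IsAlgebraic L x := fun x => mem_algebraicClosure_iff
    have hes : ∀ i, e i ∈ A := fun i => (hmem _).2 (hs2 i)
    let T : Set A := Set.range fun i : s => (⟨e i, hes i⟩ : A)
    have halg : Algebra.IsAlgebraic (Algebra.adjoin k T) A := by
      refine ⟨fun x => ?_⟩
      have hx : IsAlgebraic L (x : B) := (hmem _).1 x.2
      have h1 : IsAlgebraic (IntermediateField.adjoin k T) x := by
        have h2 : L = (IntermediateField.adjoin k T).map A.val := by
          have h3 : e '' (s : Set ι) = A.val '' T := by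
            ext c
            constructor
            · rintro ⟨i, hi, rfl⟩
              exact ⟨⟨e i, hes i⟩, ⟨⟨i, hi⟩, rfl⟩, rfl⟩
            · rintro ⟨_, ⟨i, rfl⟩, rfl⟩
              exact ⟨i, i.2, rfl⟩
          rw [IntermediateField.adjoin_map, ← h3]
        have hx' : IsAlgebraic ((IntermediateField.adjoin k T).map A.val) (A.val x) := by
          rw [← h2]; exact hx
        exact (isAlgebraic_ringHom_iff_of_comp_eq (IntermediateField.equivMap _ A.val) A.val
          A.val.injective rfl).1 hx'
      open scoped IntermediateField.algebraAdjoinAdjoin in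
      exact (IsFractionRing.isAlgebraic_iff (Algebra.adjoin k T) (IntermediateField.adjoin k T)
        A).2 h1
    have h1 : Algebra.trdeg k A ≤ #T := Algebra.IsAlgebraic.trdeg_le_cardinalMk k T
    have hle : IntermediateField.adjoin k (Set.range e) ≤ A := by
      rw [IntermediateField.adjoin_le_iff]
      rintro _ ⟨i, rfl⟩
      exact hes i
    have h2 : Algebra.trdeg k (IntermediateField.adjoin k (Set.range e)) ≤ Algebra.trdeg k A :=
      trdeg_le_of_injective (IntermediateField.inclusion hle)
        (IntermediateField.inclusion hle).injective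
    have h3 : #T ≤ #s := Cardinal.mk_range_le
    rw [Cardinal.mk_coe_finset] at h3
    exact (h2.trans h1).trans h3
  · exact card_le_trdeg hs1 _ fun i _ => IntermediateField.subset_adjoin _ _ ⟨i, rfl⟩

theorem card_le_trdeg_rat {ι : Type} {e : ι → ℂ} {s : Finset ι}
    (hs : AlgebraicIndependent ℚ (fun i : s => e i)) (K : IntermediateField ℚ ℂ)
    (hK : ∀ i ∈ s, e i ∈ K) : (s.card : Cardinal) ≤ Algebra.trdeg ℚ K := by
  convert! card_le_trdeg hs K hK

theorem exists_trdeg_eq_rat {ι : Type} [Fintype ι] (e : ι → ℂ) :
    ∃ s : Finset ι, AlgebraicIndependent ℚ (fun i : s => e i) ∧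
      Algebra.trdeg ℚ (IntermediateField.adjoin ℚ (Set.range e)) = s.card := by
  obtain ⟨s, h1, h2⟩ := exists_trdeg_eq (k := ℚ) e
  refine ⟨s, h1, ?_⟩
  convert! h2

end Pool.Agent.EllSch
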