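import Mathlib

/-! # [PI] Transcendence of `π` -/

namespace Pool.Agent.EllSch

namespace PiTr

open Polynomial

/-- an algebraic closure of the rationals -/
theorem exists_closure (k : Type) [Field k] : ∃ (Ω : Type) (_ : Field Ω) (_ : Algebra k Ω),
    Algebra.IsAlgebraic k Ω ∧ IsAlgClosed Ω :=
  ⟨AlgebraicClosure k, inferInstance, inferInstance, inferInstance, inferInstance⟩

theorem isGalois (Ω : Type) [Field Ω] [Algebra ℚ Ω] [Algebra.IsAlgebraic ℚ Ω] [IsAlgClosed Ω] :
    IsGalois ℚ Ω :=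
  haveI : IsAlgClosure ℚ Ω := ⟨inferInstance, inferInstance⟩
  inferInstance

/-- clearing denominators in the value of an integral polynomial -/
theorem isIntegral_aeval {Ω : Type} [Field Ω] (a : ℤ) (x : Ω) (hx : IsIntegral ℤ (a • x))
    (g : ℤ[X]) (N : ℕ) (hN : g.natDegree ≤ N) : IsIntegral ℤ (a ^ N • aeval x g) := by
  rw [aeval_eq_sum_range' (lt_of_le_of_lt hN (Nat.lt_succ_self N)), Finset.smul_sum]
  apply IsIntegral.sum
  intro i hi
  have hi' : i ≤ N := Nat.lt_succ_iff.mp (Finset.mem_range.mp hi)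
  have e : a ^ N • g.coeff i • x ^ i = (g.coeff i * a ^ (N - i)) • (a • x) ^ i := by
    simp only [zsmul_eq_mul, mul_pow]
    push_cast
    have : (a : Ω) ^ N = (a : Ω) ^ (N - i) * (a : Ω) ^ i := by
      rw [← pow_add]
      congr 1
      omega
    rw [this]
    ring
  rw [e]
  exact (hx.pow i).smul _

/-- large primes kill the error term -/
theorem exists_large (B C : ℝ) (hB : 0 ≤ B) (hC : 0 ≤ C) : ∃ N : ℕ, ∀ p : ℕ, N ≤ p → 0 < p →
    B * (C ^ p / ((p - 1).factorial : ℝ)) < 1 := by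
  have h := FloorSemiring.tendsto_pow_div_factorial_atTop C
  have h2 := (h.eventually (gt_mem_nhds (show (0 : ℝ) < 1 / (B * C + 1) by positivity)))
  obtain ⟨N, hN⟩ := Filter.eventually_atTop.mp h2
  refine ⟨N + 1, ?_⟩
  intro p hp hp0
  have h3 := hN (p - 1) (by omega)
  have e : B * (C ^ p / ((p - 1).factorial : ℝ)) = (B * C) * (C ^ (p - 1) / ((p - 1).factorial : ℝ)) := by
    obtain ⟨q, rfl⟩ : ∃ q, p = q + 1 := ⟨p - 1, by omega⟩
    rw [Nat.add_sub_cancel, pow_succ]
    ring
  rw [e]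
  have h4 : 0 ≤ B * C := mul_nonneg hB hC
  calc (B * C) * (C ^ (p - 1) / ((p - 1).factorial : ℝ)) ≤ (B * C) * (1 / (B * C + 1)) :=
        mul_le_mul_of_nonneg_left h3.le h4
    _ < 1 := by
        rw [mul_one_div, div_lt_one (by positivity)]
        linarith

theorem key (Ω : Type) [Field Ω] [Algebra ℚ Ω] [Algebra.IsAlgebraic ℚ Ω] [IsAlgClosed Ω]
    (φ : Ω →ₐ[ℚ] ℂ) (ω : Ω) : Complex.exp (φ ω) ≠ -1 := by
  classical
  intro h
  have : IsGalois ℚ Ω := isGalois Ω
  have : CharZero Ω := charZero_of_injective_algebraMap (algebraMap ℚ Ω).injective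
  have hωi : IsIntegral ℚ ω := (Algebra.IsAlgebraic.isAlgebraic ω).isIntegral
  set m := minpoly ℚ ω with hm
  have hm0 : m ≠ 0 := minpoly.ne_zero hωi
  set R : Finset Ω := (m.aroots Ω).toFinset with hR
  have hRmem : ∀ r, r ∈ R ↔ aeval r m = 0 := by
    intro r
    rw [hR, Multiset.mem_toFinset, mem_aroots]
    exact ⟨fun h => h.2, fun h => ⟨hm0, h⟩⟩
  have hω : ω ∈ R := (hRmem ω).mpr (minpoly.aeval ℚ ω)
  have hτmem : ∀ (τ : Ω ≃ₐ[ℚ] Ω) r, r ∈ R → τ r ∈ R := by
    intro τ r hr
    rw [hRmem] at hr ⊢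
    have e : aeval (τ r) m = τ (aeval r m) := aeval_algHom_apply (τ : Ω →ₐ[ℚ] Ω) r m
    rw [e, hr, map_zero]
  set s : Finset Ω → Ω := fun S => ∑ r ∈ S, r with hs
  -- the expanded product
  have hprod : ∑ S ∈ R.powerset, Complex.exp (φ (s S)) = 0 := by
    have h1 : ∏ r ∈ R, (1 + Complex.exp (φ r)) = 0 :=
      Finset.prod_eq_zero hω (by rw [h]; ring)
    rw [Finset.prod_one_add] at h1
    rw [← h1]
    apply Finset.sum_congr rfl
    intro S _
    rw [hs]
    dsimp only
    rw [map_sum, Complex.exp_sum]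
  set P0 := R.powerset.filter (fun S => s S = 0) with hP0
  set P1 := R.powerset.filter (fun S => ¬ s S = 0) with hP1
  have hk : 0 < P0.card := by
    apply Finset.card_pos.mpr
    refine ⟨∅, ?_⟩
    rw [hP0, Finset.mem_filter]
    exact ⟨Finset.empty_mem_powerset _, by simp [hs]⟩
  have hsum : ((P0.card : ℤ) : ℂ) + ∑ S ∈ P1, Complex.exp (φ (s S)) = 0 := by
    rw [← hprod, ← Finset.sum_filter_add_sum_filter_not R.powerset (fun S => s S = 0)]
    congr 1
    rw [Finset.sum_congr rfl (g := fun _ => (1 : ℂ))]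
    · simp [hP0]
    · intro S hS
      rw [Finset.mem_filter] at hS
      rw [hS.2, map_zero, Complex.exp_zero]
  -- integrality
  have hZalg : Algebra.IsAlgebraic ℤ Ω :=
    (IsFractionRing.comap_isAlgebraic_iff (A := ℤ) (K := ℚ) (C := Ω)).mpr inferInstance
  obtain ⟨a, ha, haint⟩ := Algebra.IsAlgebraic.exists_integral_multiples ℤ R
  have hint : ∀ S ∈ R.powerset, IsIntegral ℤ (a • s S) := by
    intro S hS
    rw [hs]
    dsimp only
    rw [Finset.smul_sum]
    apply IsIntegral.sum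
    intro r hr
    exact haint r (Finset.mem_powerset.mp hS hr)
  -- the auxiliary polynomial
  have hq : ∀ S : Finset Ω, ∃ q : ℤ[X], q.eval 0 ≠ 0 ∧ (¬ s S = 0 → aeval (s S) q = 0) := by
    intro S
    by_cases hS : s S = 0
    · exact ⟨1, by simp, fun h => absurd hS h⟩
    · obtain ⟨q, h1, h2⟩ := IsAlgebraic.exists_nonzero_coeff_and_aeval_eq_zero
        (Algebra.IsAlgebraic.isAlgebraic (R := ℤ) (s S)) (mem_nonZeroDivisors_of_ne_zero hS)
      refine ⟨q, ?_, fun _ => h2⟩
      rwa [← coeff_zero_eq_eval_zero]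
  choose q hq0 hq1 using hq
  set f : ℤ[X] := ∏ S ∈ P1, q S with hf
  have hf0 : f.eval 0 ≠ 0 := by
    rw [hf, eval_prod]
    exact Finset.prod_ne_zero_iff.mpr (fun S _ => hq0 S)
  have hfne : f ≠ 0 := by
    rintro h0
    apply hf0
    rw [h0, eval_zero]
  have hmap : ∀ (g : ℤ[X]) (x : Ω), φ (aeval x g) = aeval (φ x) g := by
    intro g x
    exact (aeval_algHom_apply (φ.toRingHom.toIntAlgHom) x g).symm
  have hroot : ∀ S ∈ P1, φ (s S) ∈ f.aroots ℂ := by
    intro S hS
    rw [mem_aroots]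
    refine ⟨hfne, ?_⟩
    rw [← hmap]
    have : aeval (s S) f = 0 := by
      rw [hf, map_prod]
      apply Finset.prod_eq_zero hS
      apply hq1
      rw [hP1, Finset.mem_filter] at hS
      exact hS.2
    rw [this, map_zero]
  obtain ⟨c, hc⟩ := LindemannWeierstrass.exp_polynomial_approx f hf0
  -- choice of the prime
  obtain ⟨N, hN⟩ := exists_large P1.card ((|a| : ℤ) ^ f.natDegree * |c|) (by positivity) (by positivity)
  obtain ⟨p, hpN, hp⟩ := Nat.exists_infinite_primes
    (N + (eval 0 f).natAbs + a.natAbs + P0.card + 1)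
  obtain ⟨n, hn, g, hg, happ⟩ := hc p (by omega) hp
  set T : Ω := ∑ S ∈ P1, aeval (s S) g with hT
  have hTfix : ∀ τ : Ω ≃ₐ[ℚ] Ω, τ T = T := by
    intro τ
    rw [hT, map_sum]
    have himg : ∀ S, s (S.image τ) = τ (s S) := by
      intro S
      rw [hs]
      dsimp only
      rw [Finset.sum_image (fun x _ y _ hxy => τ.injective hxy), map_sum]
    have himg' : ∀ S, s (S.image τ.symm) = τ.symm (s S) := by
      intro S
      rw [hs]
      dsimp only
      rw [Finset.sum_image (fun x _ y _ hxy => τ.symm.injective hxy), map_sum]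
    refine Finset.sum_bij' (i := fun (S : Finset Ω) _ => S.image τ) (j := fun (S : Finset Ω) _ => S.image τ.symm)
      (hi := ?_) (hj := ?_) (left_neg := ?_) (right_neg := ?_) (h := ?_)
    · intro S hS
      rw [hP1, Finset.mem_filter, Finset.mem_powerset] at hS ⊢
      refine ⟨?_, ?_⟩
      · intro r hr
        obtain ⟨r', hr', rfl⟩ := Finset.mem_image.mp hr
        exact hτmem τ r' (hS.1 hr')
      · rw [himg]
        intro h0
        exact hS.2 (by simpa using h0)
    · intro S hS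
      rw [hP1, Finset.mem_filter, Finset.mem_powerset] at hS ⊢
      refine ⟨?_, ?_⟩
      · intro r hr
        obtain ⟨r', hr', rfl⟩ := Finset.mem_image.mp hr
        exact hτmem τ.symm r' (hS.1 hr')
      · rw [himg']
        intro h0
        exact hS.2 (by simpa using h0)
    · intro S _
      rw [Finset.image_image]
      have : (τ.symm : Ω → Ω) ∘ τ = id := by
        funext x
        simp
      rw [this, Finset.image_id]
    · intro S _
      rw [Finset.image_image]
      have : (τ : Ω → Ω) ∘ τ.symm = id := by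
        funext x
        simp
      rw [this, Finset.image_id]
    · intro S _
      rw [himg]
      have e : aeval (τ (s S)) g = τ (aeval (s S) g) :=
        aeval_algHom_apply ((τ : Ω →ₐ[ℚ] Ω).toRingHom.toIntAlgHom) (s S) g
      rw [e]
  have hTrat : T ∈ Set.range (algebraMap ℚ Ω) :=
    (InfiniteGalois.mem_range_algebraMap_iff_fixed T).mpr hTfix
  obtain ⟨t, ht⟩ := hTrat
  have hTint : IsIntegral ℤ (a ^ (p * f.natDegree) • T) := by
    rw [hT, Finset.smul_sum]
    apply IsIntegral.sum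
    intro S hS
    apply isIntegral_aeval a (s S) (hint S (Finset.mem_filter.mp hS).1) g
    omega
  obtain ⟨M, hM⟩ : ∃ M : ℤ, (M : Ω) = a ^ (p * f.natDegree) • T := by
    have h1 : IsIntegral ℤ ((a : ℚ) ^ (p * f.natDegree) * t) := by
      rw [← isIntegral_algebraMap_iff (algebraMap ℚ Ω).injective]
      convert! hTint using 1
      rw [map_mul, ht, zsmul_eq_mul, map_pow, map_intCast]
      push_cast
      rfl
    obtain ⟨M, hM⟩ := IsIntegrallyClosed.isIntegral_iff.mp h1
    refine ⟨M, ?_⟩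
    have h2 := congrArg (algebraMap ℚ Ω) hM
    rw [map_mul, ht] at h2
    rw [zsmul_eq_mul]
    push_cast
    simpa using h2
  have hM' : (M : ℂ) = (a : ℂ) ^ (p * f.natDegree) * ∑ S ∈ P1, aeval (φ (s S)) g := by
    have h1 := congrArg φ hM
    rw [map_intCast, zsmul_eq_mul, map_mul, hT, map_sum] at h1
    rw [h1, map_intCast]
    push_cast
    congr 1
    apply Finset.sum_congr rfl
    intro S _
    exact hmap g (s S)
  -- the estimate
  have hest : ‖∑ S ∈ P1, (n • Complex.exp (φ (s S)) - p • aeval (φ (s S)) g)‖ ≤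
      P1.card * (c ^ p / ((p - 1).factorial : ℝ)) := by
    refine (norm_sum_le _ _).trans ?_
    refine (Finset.sum_le_sum (fun S hS => happ (hroot S hS))).trans ?_
    rw [Finset.sum_const, nsmul_eq_mul]
  have hid : (((a ^ (p * f.natDegree) * n * P0.card + p * M : ℤ)) : ℂ) =
      -((a : ℂ) ^ (p * f.natDegree) * ∑ S ∈ P1, (n • Complex.exp (φ (s S)) - p • aeval (φ (s S)) g)) := by
    rw [Finset.sum_sub_distrib, ← Finset.smul_sum, ← Finset.smul_sum]
    push_cast
    rw [hM']
    have h1 : ∑ S ∈ P1, Complex.exp (φ (s S)) = -((P0.card : ℤ) : ℂ) := by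
      linear_combination hsum
    rw [h1]
    simp only [zsmul_eq_mul, nsmul_eq_mul]
    push_cast
    ring
  have hlt : |a ^ (p * f.natDegree) * n * P0.card + p * M| < 1 := by
    have h1 : ‖(((a ^ (p * f.natDegree) * n * P0.card + p * M : ℤ)) : ℂ)‖ < 1 := by
      rw [hid, norm_neg, norm_mul]
      have h2 := hN p (by omega) hp.pos
      refine lt_of_le_of_lt ?_ h2
      refine (mul_le_mul_of_nonneg_left hest (norm_nonneg _)).trans ?_
      have h3 : c ^ p ≤ |c| ^ p := by
        rw [← abs_pow]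
        exact le_abs_self _
      have h4 : ‖(a : ℂ) ^ (p * f.natDegree)‖ = (((|a| : ℤ) : ℝ) ^ f.natDegree) ^ p := by
        rw [norm_pow, ← pow_mul, mul_comm f.natDegree p]
        congr 1
        rw [Complex.norm_intCast]
        push_cast
        rfl
      rw [h4, mul_pow]
      have h5 : 0 < ((p - 1).factorial : ℝ) := by positivity
      have h6 : 0 ≤ (((|a| : ℤ) : ℝ) ^ f.natDegree) ^ p := by positivity
      have h7 : c ^ p / ((p - 1).factorial : ℝ) ≤ |c| ^ p / ((p - 1).factorial : ℝ) := by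
        gcongr
      calc (((|a| : ℤ) : ℝ) ^ f.natDegree) ^ p * (P1.card * (c ^ p / ((p - 1).factorial : ℝ)))
          ≤ (((|a| : ℤ) : ℝ) ^ f.natDegree) ^ p * (P1.card * (|c| ^ p / ((p - 1).factorial : ℝ))) := by
            gcongr
        _ = _ := by ring
    rw [Complex.norm_intCast] at h1
    exact_mod_cast h1
  have hzero : a ^ (p * f.natDegree) * n * P0.card + p * M = 0 := Int.abs_lt_one_iff.mp hlt
  have hdvd : (p : ℤ) ∣ a ^ (p * f.natDegree) * n * P0.card := ⟨-M, by linear_combination hzero⟩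
  have hp' : Prime (p : ℤ) := Nat.prime_iff_prime_int.mp hp
  rcases hp'.dvd_or_dvd hdvd with h1 | h1
  · rcases hp'.dvd_or_dvd h1 with h2 | h2
    · have h3 := hp'.dvd_of_dvd_pow h2
      have h4 := Nat.le_of_dvd (Int.natAbs_pos.mpr ha) (Int.natCast_dvd.mp h3)
      omega
    · exact hn h2
  · have h4 := Nat.le_of_dvd hk (Int.natCast_dvd_natCast.mp h1)
    omega

end PiTr

open PiTr in
theorem transcendental_pi : Transcendental ℚ (Real.pi : ℂ) := by
  intro halg
  obtain ⟨Ω, iF, iA, h1, h2⟩ := exists_closure ℚ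
  have hI : IsAlgebraic ℚ Complex.I := by
    refine ⟨Polynomial.X ^ 2 + 1, ?_, ?_⟩
    · intro h0
      have := congrArg (Polynomial.eval 0) h0
      simp at this
    · simp
  have hθ : IsAlgebraic ℚ ((Real.pi : ℂ) * Complex.I) := halg.mul hI
  let φ : Ω →ₐ[ℚ] ℂ := IsAlgClosed.lift
  set m := minpoly ℚ ((Real.pi : ℂ) * Complex.I) with hm
  have hm0 : m ≠ 0 := minpoly.ne_zero hθ.isIntegral
  have hsplit : (m.map (algebraMap ℚ Ω)).Splits := IsAlgClosed.splits _
  have hroots := hsplit.roots_map φ.toRingHom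
  have hmem : (Real.pi : ℂ) * Complex.I ∈ ((m.map (algebraMap ℚ Ω)).map φ.toRingHom).roots := by
    rw [Polynomial.map_map]
    have e : φ.toRingHom.comp (algebraMap ℚ Ω) = algebraMap ℚ ℂ := φ.comp_algebraMap
    rw [e, Polynomial.mem_roots (Polynomial.map_ne_zero hm0), Polynomial.IsRoot.def,
      Polynomial.eval_map_algebraMap]
    exact minpoly.aeval _ _
  rw [hroots, Multiset.mem_map] at hmem
  obtain ⟨ω, _, hω⟩ := hmem
  apply key Ω φ ω
  have : φ ω = (Real.pi : ℂ) * Complex.I := hω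
  rw [this, Complex.exp_pi_mul_I]

end Pool.Agent.EllSch
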