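import Pool.Agent.EllSch.AxDescent
import Pool.Agent.EllSch.FieldThy

/-! # [AF] The algebraic Ax theorem for a constant curve -/

namespace Pool.Agent.EllSch

namespace AxF

section
variable {C K : Type*} [Field C] [Field K] [Algebra C K]

/-- the relation between the values of a derivation at the two coordinates -/
theorem two_mul_der (g2 g3 : C) {x y : K}
    (hxy : y ^ 2 = 4 * x ^ 3 - algebraMap C K g2 * x - algebraMap C K g3)
    (δ : Derivation C K K) :
    2 * y * δ y = (12 * x ^ 2 - algebraMap C K g2) * δ x := by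
  have h4 : δ (4 : K) = 0 := by simpa using δ.map_natCast 4
  have h := congrArg δ hxy
  simp only [map_sub, Derivation.leibniz, Derivation.leibniz_pow, smul_eq_mul, nsmul_eq_mul, h4,
    Derivation.map_algebraMap] at h
  push_cast at h
  simp only [pow_one] at h
  linear_combination h

theorem cross [CharZero K] (g2 g3 : C) {x y : K} (hy : y ≠ 0)
    (hxy : y ^ 2 = 4 * x ^ 3 - algebraMap C K g2 * x - algebraMap C K g3)
    (δ δ' : Derivation C K K) : δ x * δ' y = δ' x * δ y := by
  have h1 := two_mul_der g2 g3 hxy δ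
  have h2 := two_mul_der g2 g3 hxy δ'
  have h2y : 2 * y ≠ 0 := by simpa using hy
  apply mul_left_cancel₀ h2y
  linear_combination δ x * h2 - δ' x * h1

theorem der_div (δ : Derivation C K K) (a : K) {b : K} (hb : b ≠ 0) :
    δ (a / b) = δ a / b - a * δ b / b ^ 2 := by
  rw [div_eq_mul_inv, Derivation.leibniz, Derivation.leibniz_inv]
  simp only [smul_eq_mul]
  field_simp
  ring

/-- the invariant differential is closed -/
theorem closed1 [CharZero K] (g2 g3 : C) {x y : K} (hy : y ≠ 0)
    (hxy : y ^ 2 = 4 * x ^ 3 - algebraMap C K g2 * x - algebraMap C K g3)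
    (δ δ' : Derivation C K K) :
    ⁅δ, δ'⁆ x / y = δ (δ' x / y) - δ' (δ x / y) := by
  have h := cross g2 g3 hy hxy δ δ'
  rw [der_div δ _ hy, der_div δ' _ hy, Derivation.commutator_apply]
  field_simp
  linear_combination -h

/-- the differential of the second kind is closed -/
theorem closed2 [CharZero K] (g2 g3 : C) {x y : K} (hy : y ≠ 0)
    (hxy : y ^ 2 = 4 * x ^ 3 - algebraMap C K g2 * x - algebraMap C K g3)
    (δ δ' : Derivation C K K) :
    x * ⁅δ, δ'⁆ x / y = δ (x * δ' x / y) - δ' (x * δ x / y) := by
  have h := closed1 g2 g3 hy hxy δ δ'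
  rw [mul_div_assoc, mul_div_assoc, mul_div_assoc, Derivation.leibniz, Derivation.leibniz, h]
  simp only [smul_eq_mul]
  ring

/-- the logarithmic differential -/
def Th {n : ℕ} (x y p z : Fin n → K) : Derivation C K K →ₗ[K] (Fin n ⊕ Fin n → K) where
  toFun δ := Sum.elim (fun i => δ (p i) - δ (x i) / y i) (fun i => δ (z i) + x i * δ (x i) / y i)
  map_add' := by
    intro δ δ'
    funext k
    rcases k with i | i
    · simp only [Sum.elim_inl, Derivation.add_apply, Pi.add_apply]; ring
    · simp only [Sum.elim_inr, Derivation.add_apply, Pi.add_apply]; ring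
  map_smul' := by
    intro k δ
    funext k
    rcases k with i | i
    · simp only [Sum.elim_inl, Derivation.smul_apply, Pi.smul_apply, smul_eq_mul,
        RingHom.id_apply]; ring
    · simp only [Sum.elim_inr, Derivation.smul_apply, Pi.smul_apply, smul_eq_mul,
        RingHom.id_apply]; ring

theorem Th_inl {n : ℕ} (x y p z : Fin n → K) (δ : Derivation C K K) (i : Fin n) :
    Th x y p z δ (Sum.inl i) = δ (p i) - δ (x i) / y i := rfl

theorem Th_inr {n : ℕ} (x y p z : Fin n → K) (δ : Derivation C K K) (i : Fin n) :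
    Th x y p z δ (Sum.inr i) = δ (z i) + x i * δ (x i) / y i := rfl

theorem Th_D {n : ℕ} {x y p z : Fin n → K} (hy : ∀ i, y i ≠ 0) (D : Derivation C K K)
    (hx : ∀ i, D (x i) = y i * D (p i)) (hz : ∀ i, D (z i) = -(x i * D (p i))) :
    Th x y p z D = 0 := by
  funext k
  rcases k with i | i
  · rw [Th_inl, hx i, mul_div_cancel_left₀ _ (hy i), sub_self]; rfl
  · rw [Th_inr, hx i, hz i, mul_left_comm, mul_div_cancel_left₀ _ (hy i), neg_add_cancel]; rfl

theorem Th_comm [CharZero K] (g2 g3 : C) {n : ℕ} {x y p z : Fin n → K} (hy : ∀ i, y i ≠ 0)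
    (hxy : ∀ i, y i ^ 2 = 4 * x i ^ 3 - algebraMap C K g2 * x i - algebraMap C K g3)
    (D : Derivation C K K) (hD : Th x y p z D = 0) (δ : Derivation C K K) :
    Th x y p z ⁅D, δ⁆ = fun k => D (Th x y p z δ k) := by
  funext k
  rcases k with i | i
  · have h0 := congrFun hD (Sum.inl i)
    rw [Th_inl] at h0
    rw [Th_inl, Th_inl, closed1 g2 g3 (hy i) (hxy i), Derivation.commutator_apply, map_sub]
    have h1 := congrArg δ h0
    rw [map_sub] at h1
    simp only [Pi.zero_apply, map_zero] at h1
    linear_combination -h1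
  · have h0 := congrFun hD (Sum.inr i)
    rw [Th_inr] at h0
    rw [Th_inr, Th_inr, closed2 g2 g3 (hy i) (hxy i), Derivation.commutator_apply, map_add]
    have h1 := congrArg δ h0
    rw [map_add] at h1
    simp only [Pi.zero_apply, map_zero] at h1
    linear_combination -h1

/-- the constant vectors in a subspace -/
def cSub {ι : Type*} (V : Submodule K (ι → K)) : Submodule C (ι → C) where
  carrier := {e | (fun k => algebraMap C K (e k)) ∈ V}
  zero_mem' := by
    simp only [Set.mem_ofPred_eq, Pi.zero_apply, map_zero]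
    exact V.zero_mem
  add_mem' := by
    intro a b ha hb
    simp only [Set.mem_ofPred_eq, Pi.add_apply, map_add] at *
    exact V.add_mem ha hb
  smul_mem' := by
    intro k a ha
    simp only [Set.mem_ofPred_eq, Pi.smul_apply, smul_eq_mul, map_mul] at *
    exact V.smul_mem (algebraMap C K k) ha

/-- a subspace spanned by constant vectors is everything or is killed by a constant functional -/
theorem alternative {ι : Type*} [Fintype ι] (V : Submodule K (ι → K))
    (hV : ∀ v ∈ V, v ∈ Submodule.span K
      {w : ι → K | w ∈ V ∧ ∃ e : ι → C, w = fun i => algebraMap C K (e i)}) :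
    V = ⊤ ∨ ∃ f : ι → C, f ≠ 0 ∧ ∀ v ∈ V, ∑ i, algebraMap C K (f i) * v i = 0 := by
  classical
  by_cases hT : cSub (C := C) V = ⊤
  · left
    rw [eq_top_iff]
    rintro v -
    have h1 : ∀ k : ι, (Pi.single k 1 : ι → K) ∈ V := by
      intro k
      have h0 : (Pi.single k 1 : ι → C) ∈ cSub (C := C) V := by rw [hT]; trivial
      have h2 : (fun j => algebraMap C K ((Pi.single k 1 : ι → C) j)) = Pi.single k 1 := by
        funext j
        by_cases hj : j = k
        · subst hj; simp
        · simp [hj]
      have h3 : (fun j => algebraMap C K ((Pi.single k 1 : ι → C) j)) ∈ V := h0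
      rwa [h2] at h3
    have h2 : v = ∑ k, v k • (Pi.single k 1 : ι → K) := by
      funext j
      simp [Finset.sum_apply, Pi.single_apply]
    rw [h2]
    exact Submodule.sum_mem _ fun k _ => Submodule.smul_mem _ _ (h1 k)
  · right
    obtain ⟨f, hf, hfW⟩ := Submodule.exists_le_ker_of_lt_top _ (lt_top_iff_ne_top.2 hT)
    have hfc : ∀ a : ι → C, f a = ∑ i, f (Pi.single i 1) * a i := by
      intro a
      conv_lhs => rw [LinearMap.pi_apply_eq_sum_univ f a]
      refine Finset.sum_congr rfl fun i _ => ?_
      rw [smul_eq_mul, mul_comm]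
      congr 2
      funext j
      simp [Pi.single_apply, eq_comm]
    refine ⟨fun i => f (Pi.single i 1), ?_, ?_⟩
    · intro h0
      apply hf
      refine LinearMap.ext fun a => ?_
      rw [hfc]
      refine Finset.sum_eq_zero fun i _ => ?_
      have := congrFun h0 i
      simp only [Pi.zero_apply] at this
      rw [this, zero_mul]
    · intro v hv
      refine Submodule.span_induction ?_ ?_ ?_ ?_ (hV v hv)
      · rintro w ⟨hw, e, rfl⟩
        have h1 : f e = 0 := hfW hw
        rw [hfc] at h1
        have := congrArg (algebraMap C K) h1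
        simpa only [map_sum, map_mul, map_zero] using this
      · simp
      · intro a b _ _ ha hb
        simp only [Pi.add_apply, mul_add, Finset.sum_add_distrib, ha, hb, add_zero]
      · intro k a _ ha
        simp only [Pi.smul_apply, smul_eq_mul]
        rw [show ∑ i, algebraMap C K (f (Pi.single i 1)) * (k * a i) =
          k * ∑ i, algebraMap C K (f (Pi.single i 1)) * a i by
          rw [Finset.mul_sum]; exact Finset.sum_congr rfl fun i _ => by ring]
        rw [ha, mul_zero]

/-- evaluation of derivations at finitely many points -/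
def ev {d : ℕ} (t : Fin d → K) : Derivation C K K →ₗ[K] (Fin d → K) where
  toFun δ := fun i => δ (t i)
  map_add' _ _ := rfl
  map_smul' _ _ := rfl

/-- the counting step -/
theorem count {n : ℕ} {ι : Type*} [Fintype ι] (hι : Fintype.card ι = 2 * n)
    (T : Derivation C K K →ₗ[K] (ι → K))
    (hs : Function.Surjective T) (D : Derivation C K K) (hD : T D = 0)
    {d : ℕ} (hd : d ≤ 2 * n) (t : Fin d → K)
    (hk : ∀ δ : Derivation C K K, (∀ i, δ (t i) = 0) → T δ = 0) (q : K) (hq : D q ≠ 0)
    (hk' : ∀ δ : Derivation C K K, (∀ i, δ (t i) = 0) → δ q = 0) : False := by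
  classical
  choose f hf using fun k : ι => hs (Pi.single k 1)
  let F : Option ι → Derivation C K K := fun o => o.elim D f
  have hcard : Fintype.card (Option ι) = 2 * n + 1 := by
    rw [Fintype.card_option, hι]
  have hdep : ¬ LinearIndependent K (fun o => ev t (F o)) := by
    intro hli
    have := hli.fintype_card_le_finrank
    rw [hcard, Module.finrank_fin_fun] at this
    omega
  obtain ⟨g, hg, o, ho⟩ := Fintype.not_linearIndependent_iff.1 hdep
  set δ : Derivation C K K := ∑ o, g o • F o with hδ
  have hev : ev t δ = 0 := by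
    rw [hδ, map_sum, ← hg]
    exact Finset.sum_congr rfl fun o _ => by rw [map_smul]
  have kT := hk δ fun i => congrFun hev i
  have kq := hk' δ fun i => congrFun hev i
  have hTh : T δ = fun k => g (some k) := by
    rw [hδ, map_sum, Fintype.sum_option, map_smul]
    have h0 : T (F none) = 0 := hD
    rw [h0, smul_zero, zero_add]
    funext k
    rw [Finset.sum_apply]
    have : ∀ j : ι, T (g (some j) • F (some j)) k = if j = k then g (some j) else 0 := by
      intro j
      rw [map_smul]
      have h1 : T (F (some j)) = Pi.single j 1 := hf j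
      rw [h1, Pi.smul_apply, Pi.single_apply]
      by_cases hjk : k = j
      · subst hjk; simp
      · simp [hjk, Ne.symm hjk]
    simp only [this]
    simp
  have hz : ∀ k, g (some k) = 0 := by
    intro k
    rw [hTh] at kT
    exact congrFun kT k
  have hδ' : δ = g none • D := by
    rw [hδ, Fintype.sum_option]
    simp only [hz, zero_smul, Finset.sum_const_zero, add_zero]
    rfl
  have hn : g none ≠ 0 := by
    rcases o with _ | k
    · exact ho
    · exact absurd (hz k) ho
  rw [hδ', Derivation.smul_apply, smul_eq_mul] at kq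
  exact hq ((mul_eq_zero.1 kq).resolve_left hn)

end

end AxF

theorem ax_flat {C K : Type*} [Field C] [Field K] [Algebra C K] [CharZero C]
    (D : Derivation C K K) (hD : ∀ x, D x = 0 → x ∈ Set.range (algebraMap C K)) (g2 g3 : C)
    {n : ℕ} (x y p z : Fin n → K) (hy : ∀ i, y i ≠ 0)
    (hxy : ∀ i, y i ^ 2 = 4 * x i ^ 3 - algebraMap C K g2 * x i - algebraMap C K g3)
    (hx : ∀ i, D (x i) = y i * D (p i)) (hz : ∀ i, D (z i) = -(x i * D (p i)))
    (hp : ∃ i, D (p i) ≠ 0) {d : ℕ} (hd : d ≤ 2 * n) (t : Fin d → K)
    (ax : ∀ i, IsAlgebraic (IntermediateField.adjoin C (Set.range t)) (x i))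
    (ap : ∀ i, IsAlgebraic (IntermediateField.adjoin C (Set.range t)) (p i))
    (az : ∀ i, IsAlgebraic (IntermediateField.adjoin C (Set.range t)) (z i)) :
    ∃ c e : Fin n → C, (c ≠ 0 ∨ e ≠ 0) ∧ ∃ u : K, ∀ δ : Derivation C K K,
      δ u = ∑ i, (algebraMap C K (c i) * (δ (x i) / y i) -
        algebraMap C K (e i) * (x i * δ (x i) / y i)) := by
  have : CharZero K := charZero_of_injective_algebraMap (algebraMap C K).injective
  have hT0 : AxF.Th x y p z D = 0 := AxF.Th_D hy D hx hz
  have key : ∀ δ : Derivation C K K, (∀ i, δ (t i) = 0) → ∀ {e : K},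
      IsAlgebraic (IntermediateField.adjoin C (Set.range t)) e → δ e = 0 := by
    intro δ hδ e he
    exact derivation_eq_zero_of_algebraic δ (by rintro _ ⟨i, rfl⟩; exact hδ i) he
  have hstab := descent D hD (LinearMap.range (AxF.Th x y p z)) (by
    rintro v ⟨δ, rfl⟩
    exact ⟨⁅D, δ⁆, AxF.Th_comm g2 g3 hy hxy D hT0 δ⟩)
  rcases AxF.alternative (C := C) _ hstab with htop | ⟨f, hf, hfV⟩
  · obtain ⟨i, hi⟩ := hp
    refine (AxF.count (n := n) (by simp [two_mul]) (AxF.Th x y p z)
      (LinearMap.range_eq_top.1 htop) D hT0 hd t ?_ (p i) hi ?_).elim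
    · intro δ hδ
      funext k
      rcases k with j | j
      · rw [AxF.Th_inl, key δ hδ (ax j), key δ hδ (ap j)]; simp
      · rw [AxF.Th_inr, key δ hδ (ax j), key δ hδ (az j)]; simp
    · intro δ hδ
      exact key δ hδ (ap i)
  · refine ⟨fun i => f (Sum.inl i), fun i => f (Sum.inr i), ?_,
      ∑ i, (algebraMap C K (f (Sum.inl i)) * p i + algebraMap C K (f (Sum.inr i)) * z i), ?_⟩
    · by_contra hcon
      push Not at hcon
      apply hf
      funext k
      rcases k with j | j
      · exact congrFun hcon.1 j
      · exact congrFun hcon.2 j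
    · intro δ
      have h := hfV _ ⟨δ, rfl⟩
      rw [Fintype.sum_sum_type] at h
      simp only [AxF.Th_inl, AxF.Th_inr] at h
      rw [← Finset.sum_add_distrib] at h
      rw [map_sum, ← sub_eq_zero, ← Finset.sum_sub_distrib, ← h]
      refine Finset.sum_congr rfl fun i _ => ?_
      simp only [map_add, Derivation.leibniz, smul_eq_mul, Derivation.map_algebraMap, mul_zero,
        add_zero]
      ring

end Pool.Agent.EllSch
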