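import Pool.Agent.EllSch.Fix.FDefs
import Pool.Agent.EllSch.PtMap

/-! # [OM] The differentials `dx / y` and `x dx / y` are additive (the second up to an exact one) -/

namespace Pool.Agent.EllSch

namespace Om

set_option linter.unusedSectionVars false

section
variable {L : Type*} [Field L] [CharZero L] [DecidableEq L] {g2 g3 : L}

lemma D_ofNat_mul (D : Derivation ℤ L L) (n : ℕ) (x : L) : D ((n : L) * x) = n * D x := by
  have := map_nsmul D n x
  rwa [nsmul_eq_mul, nsmul_eq_mul] at this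

lemma D_mul (D : Derivation ℤ L L) (x y : L) : D (x * y) = x * D y + y * D x := by
  rw [D.leibniz, smul_eq_mul, smul_eq_mul]

lemma D_sq (D : Derivation ℤ L L) (x : L) : D (x ^ 2) = 2 * x * D x := by
  rw [pow_two, D_mul]
  ring

/-- every point is zero or of the form `pt x y` -/
lemma exists_pt (P : (crv g2 g3).Point) :
    P = 0 ∨ ∃ x y, P = pt g2 g3 x y ∧ y ^ 2 = 4 * x ^ 3 - g2 * x - g3 := by
  rcases P with _ | @⟨x, y, h⟩
  · left; rfl
  · right
    have e : 2 * y / 2 = y := by field_simp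
    refine ⟨x, 2 * y, ?_, ?_⟩
    · have h' : (crv g2 g3).Nonsingular x (2 * y / 2) := by rw [e]; exact h
      unfold pt
      rw [dif_pos h']
      apply Hom.some_congr
      · rfl
      · rw [e]
    · apply PtMap.crv_of_nonsing
      rw [e]
      exact h

lemma disc_ne {x y : L} (hΔ : g2 ^ 3 - 27 * g3 ^ 2 ≠ 0) (hxy : y ^ 2 = 4 * x ^ 3 - g2 * x - g3)
    (hy : y = 0) : 12 * x ^ 2 - g2 ≠ 0 := by
  intro h
  apply hΔ
  subst hy
  have h1 : g2 = 12 * x ^ 2 := by linear_combination -h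
  subst h1
  have h2 : g3 = -8 * x ^ 3 := by linear_combination hxy
  subst h2
  ring

/-- `D x = a y`, `D y = (6 x^2 - g2/2) a` with `a = D x / y` -/
lemma D_curve (D : Derivation ℤ L L) (h2 : D g2 = 0) (h3 : D g3 = 0)
    (hΔ : g2 ^ 3 - 27 * g3 ^ 2 ≠ 0) {x y : L} (hxy : y ^ 2 = 4 * x ^ 3 - g2 * x - g3) :
    D x = D x / y * y ∧ D y = (6 * x ^ 2 - g2 / 2) * (D x / y) := by
  have h1 : 2 * y * D y = (12 * x ^ 2 - g2) * D x := by
    have := congrArg D hxy
    rw [D_sq, map_sub, map_sub, D_mul D g2 x, h2, h3, show (4 : L) * x ^ 3 = ((4 : ℕ) : L) * x ^ 3 by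
      norm_num, D_ofNat_mul, pow_succ, D_mul, D_sq] at this
    rw [this]
    push_cast
    ring
  by_cases hy : y = 0
  · have hD : D x = 0 := by
      have h4 := disc_ne hΔ hxy hy
      have h5 : (12 * x ^ 2 - g2) * D x = 0 := by rw [← h1, hy]; ring
      exact (mul_eq_zero.mp h5).resolve_left h4
    rw [hD, hy]
    simp
  · refine ⟨by field_simp, ?_⟩
    field_simp
    linear_combination h1

/-- the derivative of the third point -/
lemma third (D : Derivation ℤ L L) {x1 y1 x2 y2 x3 y3 l a b : L}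
    (hl : y1 - y2 = l * (x1 - x2)) (hx3 : 4 * x3 = l ^ 2 - 4 * x1 - 4 * x2)
    (hy3 : y3 = -(y1 + l * (x3 - x1)))
    (hx1 : D x1 = a * y1) (hx2 : D x2 = b * y2) (hy1 : D y1 = (6 * x1 ^ 2 - g2 / 2) * a)
    (hDl : D l = 2 * (x1 - x3) * a + 2 * (x2 - x3) * b)
    (e1 : 6 * x1 ^ 2 - g2 / 2 = 2 * (x1 - x2) * (x1 - x3) + l * y1)
    (e3 : 6 * x3 ^ 2 - g2 / 2 = 2 * (x3 - x1) * (x3 - x2) - l * y3) :
    D x3 = (a + b) * y3 ∧ D y3 = (6 * x3 ^ 2 - g2 / 2) * (a + b) := by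
  have h4 : D x3 = (a + b) * y3 := by
    have := congrArg D hx3
    rw [show (4 : L) * x3 = ((4 : ℕ) : L) * x3 by norm_num,
      show (4 : L) * x1 = ((4 : ℕ) : L) * x1 by norm_num,
      show (4 : L) * x2 = ((4 : ℕ) : L) * x2 by norm_num, map_sub, map_sub, D_sq,
      D_ofNat_mul, D_ofNat_mul, D_ofNat_mul, hDl, hx1, hx2] at this
    push_cast at this
    have h5 : (4 : L) * D x3 = 4 * ((a + b) * y3) := by
      rw [this, hy3]
      linear_combination (4 * b) * hl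
    exact mul_left_cancel₀ (by norm_num) h5
  refine ⟨h4, ?_⟩
  have := congrArg D hy3
  rw [map_neg, map_add, D_mul, map_sub, hDl, h4, hx1, hy1] at this
  rw [this, e3]
  linear_combination (-a) * e1

lemma slope_ne (D : Derivation ℤ L L) {x1 y1 x2 y2 x3 l a b : L}
    (hc1 : y1 ^ 2 = 4 * x1 ^ 3 - g2 * x1 - g3) (hc2 : y2 ^ 2 = 4 * x2 ^ 3 - g2 * x2 - g3)
    (hne : x1 ≠ x2) (hl : y1 - y2 = l * (x1 - x2)) (hx3 : 4 * x3 = l ^ 2 - 4 * x1 - 4 * x2)
    (hx1 : D x1 = a * y1) (hx2 : D x2 = b * y2)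
    (hy1 : D y1 = (6 * x1 ^ 2 - g2 / 2) * a) (hy2 : D y2 = (6 * x2 ^ 2 - g2 / 2) * b) :
    D l = 2 * (x1 - x3) * a + 2 * (x2 - x3) * b ∧
    6 * x1 ^ 2 - g2 / 2 = 2 * (x1 - x2) * (x1 - x3) + l * y1 ∧
    6 * x3 ^ 2 - g2 / 2 = 2 * (x3 - x1) * (x3 - x2) - l * (-(y1 + l * (x3 - x1))) := by
  have hsub : x1 - x2 ≠ 0 := sub_ne_zero.mpr hne
  have k1 : l * (y1 + y2) = 4 * (x1 ^ 2 + x1 * x2 + x2 ^ 2) - g2 := by
    apply mul_left_cancel₀ hsub
    linear_combination (-(y1 + y2)) * hl + hc1 - hc2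
  have e1 : 6 * x1 ^ 2 - g2 / 2 = 2 * (x1 - x2) * (x1 - x3) + l * y1 := by
    linear_combination (1/2 : L) * k1 * (-1) + (x1 - x2) / 2 * hx3 - l / 2 * hl
  have e2 : 6 * x2 ^ 2 - g2 / 2 = 2 * (x2 - x1) * (x2 - x3) + l * y2 := by
    linear_combination (1/2 : L) * k1 * (-1) - (x1 - x2) / 2 * hx3 + l / 2 * hl
  refine ⟨?_, e1, ?_⟩
  · have := congrArg D hl
    rw [map_sub, D_mul, map_sub, hx1, hx2, hy1, hy2] at this
    apply mul_left_cancel₀ hsub
    linear_combination -this + a * e1 - b * e2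
  · linear_combination e1 + (x3 - x1) * hx3
lemma om_pt' (D : Derivation ℤ L L) (hΔ : g2 ^ 3 - 27 * g3 ^ 2 ≠ 0) {x y : L}
    (hxy : y ^ 2 = 4 * x ^ 3 - g2 * x - g3) : om D (pt g2 g3 x y) = D x / y := by
  rw [PtMap.pt_some hΔ hxy]
  simp only [om]
  congr 1
  field_simp

lemma et_pt' (D : Derivation ℤ L L) (hΔ : g2 ^ 3 - 27 * g3 ^ 2 ≠ 0) {x y : L}
    (hxy : y ^ 2 = 4 * x ^ 3 - g2 * x - g3) : et D (pt g2 g3 x y) = x * D x / y := by
  rw [PtMap.pt_some hΔ hxy]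
  simp only [et]
  congr 1
  field_simp

/-- both additivity statements -/
lemma add_both (D : Derivation ℤ L L) (h2 : D g2 = 0) (h3 : D g3 = 0)
    (hΔ : g2 ^ 3 - 27 * g3 ^ 2 ≠ 0) (P Q : (crv g2 g3).Point) :
    om D (P + Q) = om D P + om D Q ∧ ∃ w : L, et D (P + Q) = et D P + et D Q + D w := by
  have hom0 : om D (0 : (crv g2 g3).Point) = 0 := rfl
  have het0 : et D (0 : (crv g2 g3).Point) = 0 := rfl
  rcases exists_pt P with rfl | ⟨x1, y1, rfl, hc1⟩
  · rw [zero_add]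
    exact ⟨by rw [hom0, zero_add], 0, by rw [het0, zero_add, map_zero, add_zero]⟩
  rcases exists_pt Q with rfl | ⟨x2, y2, rfl, hc2⟩
  · rw [add_zero]
    exact ⟨by rw [hom0, add_zero], 0, by rw [het0, add_zero, map_zero, add_zero]⟩
  obtain ⟨dx1, dy1⟩ := D_curve D h2 h3 hΔ hc1
  obtain ⟨dx2, dy2⟩ := D_curve D h2 h3 hΔ hc2
  rw [om_pt' D hΔ hc1, om_pt' D hΔ hc2, et_pt' D hΔ hc1, et_pt' D hΔ hc2]
  -- the common end of the argument
  have fin : ∀ (x3 y3 l : L), y3 ^ 2 = 4 * x3 ^ 3 - g2 * x3 - g3 →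
      D x3 = (D x1 / y1 + D x2 / y2) * y3 →
      D y3 = (6 * x3 ^ 2 - g2 / 2) * (D x1 / y1 + D x2 / y2) →
      D l = 2 * (x1 - x3) * (D x1 / y1) + 2 * (x2 - x3) * (D x2 / y2) →
      om D (pt g2 g3 x3 y3) = D x1 / y1 + D x2 / y2 ∧
      ∃ w : L, et D (pt g2 g3 x3 y3) = x1 * D x1 / y1 + x2 * D x2 / y2 + D w := by
    intro x3 y3 l hc3 k1 k2 k3
    have hom : D x3 / y3 = D x1 / y1 + D x2 / y2 := by
      by_cases hy : y3 = 0
      · have h12 := disc_ne hΔ hc3 hy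
        have h5 : (12 * x3 ^ 2 - g2) * (D x1 / y1 + D x2 / y2) = 0 := by
          have : D y3 = 0 := by rw [hy, map_zero]
          rw [this] at k2
          linear_combination -2 * k2
        rw [(mul_eq_zero.mp h5).resolve_left h12, hy, div_zero]
      · rw [k1]
        field_simp
    refine ⟨by rw [om_pt' D hΔ hc3, hom], -(l / 2), ?_⟩
    rw [et_pt' D hΔ hc3, mul_div_assoc, hom]
    have h6 : D (-(l / 2)) = -(D l / 2) := by
      rw [map_neg]
      congr 1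
      have : (2 : L) * D (l / 2) = D l := by
        have := D_ofNat_mul D 2 (l / 2)
        push_cast at this
        rw [← this]
        congr 1
        field_simp
      field_simp
      linear_combination this
    rw [h6, k3]
    ring
  by_cases hx : x1 = x2
  · subst hx
    have hyy : (y1 - y2) * (y1 + y2) = 0 := by linear_combination hc1 - hc2
    rcases mul_eq_zero.mp hyy with hy | hy
    · have hy' : y1 = y2 := sub_eq_zero.mp hy
      subst hy'
      by_cases hy0 : y1 = 0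
      · have hs := Hom.pt_add_of_neg hΔ hc1 hc1 rfl (by rw [hy0, neg_zero])
        rw [hs, hom0, het0, hy0]
        exact ⟨by simp, 0, by simp⟩
      · -- doubling
        set l := (6 * x1 ^ 2 - g2 / 2) / y1 with hl
        set x3 := l ^ 2 / 4 - 2 * x1 with hx3
        set y3 := -(y1 + l * (x3 - x1)) with hy3
        have hly : l * y1 = 6 * x1 ^ 2 - g2 / 2 := by rw [hl]; field_simp
        obtain ⟨hsum, hc3⟩ := PtMap.add_pt_self (X := x3) (Y := y3) hΔ hc1 hy0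
          (by rw [hx3]; linear_combination 2 * (l * y1 * 2 + (12 * x1 ^ 2 - g2)) * hly)
          (by rw [hy3]; linear_combination (-2) * (x3 - x1) * hly)
        rw [hsum]
        have hx3' : 4 * x3 = l ^ 2 - 4 * x1 - 4 * x1 := by rw [hx3]; ring
        have hDl : D l = 2 * (x1 - x3) * (D x1 / y1) + 2 * (x1 - x3) * (D x1 / y1) := by
          have := congrArg D hly
          have hg : D (g2 / 2) = 0 := by
            have h7 := D_ofNat_mul D 2 (g2 / 2)
            push_cast at h7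
            rw [show 2 * (g2 / 2) = g2 by ring, h2] at h7
            exact (mul_eq_zero.mp h7.symm).resolve_left (by norm_num)
          rw [D_mul, map_sub, hg, show (6 : L) * x1 ^ 2 = ((6 : ℕ) : L) * x1 ^ 2 by norm_num,
            D_ofNat_mul, D_sq, dy1] at this
          push_cast at this
          apply mul_left_cancel₀ hy0
          have h8 : y1 * D l = 12 * x1 * D x1 - l * ((6 * x1 ^ 2 - g2 / 2) * (D x1 / y1)) := by
            linear_combination this
          rw [h8, ← hly]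
          linear_combination (12 * x1) * dx1 + y1 * (D x1 / y1) * hx3'
        have e1 : 6 * x1 ^ 2 - g2 / 2 = 2 * (x1 - x1) * (x1 - x3) + l * y1 := by
          rw [hly]; ring
        have e3 : 6 * x3 ^ 2 - g2 / 2 = 2 * (x3 - x1) * (x3 - x1) - l * y3 := by
          rw [hy3]
          linear_combination (x3 - x1) * hx3' - hly
        obtain ⟨k1, k2⟩ := third D (y2 := y1) (by ring) hx3' hy3 dx1 dx1 dy1 hDl e1 e3
        exact fin x3 y3 l hc3 k1 k2 hDl
    · have hy' : y1 = -y2 := by linear_combination hy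
      have hs := Hom.pt_add_of_neg hΔ hc1 hc2 rfl hy'
      rw [hs, hom0, het0, hy']
      refine ⟨?_, 0, ?_⟩
      · rw [div_neg]; ring
      · rw [div_neg, map_zero]; ring
  · set l := (y1 - y2) / (x1 - x2) with hl
    have hsub : x1 - x2 ≠ 0 := sub_ne_zero.mpr hx
    have hl' : y1 - y2 = l * (x1 - x2) := by rw [hl]; field_simp
    set x3 := l ^ 2 / 4 - x1 - x2 with hx3
    set y3 := -(y1 + l * (x3 - x1)) with hy3
    obtain ⟨hsum, hc3⟩ := PtMap.add_pt_of_X_ne (X := x3) (Y := y3) hΔ hc1 hc2 hx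
      (by rw [hl', hx3]; ring) (by rw [hl', hy3]; ring)
    rw [hsum]
    have hx3' : 4 * x3 = l ^ 2 - 4 * x1 - 4 * x2 := by rw [hx3]; ring
    obtain ⟨hDl, e1, e3⟩ := slope_ne D hc1 hc2 hx hl' hx3' dx1 dx2 dy1 dy2
    obtain ⟨k1, k2⟩ := third D hl' hx3' hy3 dx1 dx2 dy1 hDl e1 e3
    exact fin x3 y3 l hc3 k1 k2 hDl

end

end Om

section
variable {L : Type*} [Field L] [CharZero L] [DecidableEq L] {g2 g3 : L}

theorem om_pt (D : Derivation ℤ L L) (hΔ : g2 ^ 3 - 27 * g3 ^ 2 ≠ 0) {x y : L}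
    (hxy : y ^ 2 = 4 * x ^ 3 - g2 * x - g3) : om D (pt g2 g3 x y) = D x / y :=
  Om.om_pt' D hΔ hxy

theorem et_pt (D : Derivation ℤ L L) (hΔ : g2 ^ 3 - 27 * g3 ^ 2 ≠ 0) {x y : L}
    (hxy : y ^ 2 = 4 * x ^ 3 - g2 * x - g3) : et D (pt g2 g3 x y) = x * D x / y :=
  Om.et_pt' D hΔ hxy

/-- additivity of `dx / y` -/
theorem om_add (D : Derivation ℤ L L) (h2 : D g2 = 0) (h3 : D g3 = 0)
    (hΔ : g2 ^ 3 - 27 * g3 ^ 2 ≠ 0) (P Q : (crv g2 g3).Point) :
    om D (P + Q) = om D P + om D Q :=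
  (Om.add_both D h2 h3 hΔ P Q).1

/-- additivity of `x dx / y` up to an exact differential -/
theorem et_add (D : Derivation ℤ L L) (h2 : D g2 = 0) (h3 : D g3 = 0)
    (hΔ : g2 ^ 3 - 27 * g3 ^ 2 ≠ 0) (P Q : (crv g2 g3).Point) :
    ∃ w : L, et D (P + Q) = et D P + et D Q + D w :=
  (Om.add_both D h2 h3 hΔ P Q).2

theorem om_sum (D : Derivation ℤ L L) (h2 : D g2 = 0) (h3 : D g3 = 0)
    (hΔ : g2 ^ 3 - 27 * g3 ^ 2 ≠ 0) {ι : Type*} (s : Finset ι) (P : ι → (crv g2 g3).Point) :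
    om D (∑ i ∈ s, P i) = ∑ i ∈ s, om D (P i) := by
  classical
  induction s using Finset.induction_on with
  | empty => rfl
  | insert i s hi ih => rw [Finset.sum_insert hi, Finset.sum_insert hi, om_add D h2 h3 hΔ, ih]

theorem et_sum (D : Derivation ℤ L L) (h2 : D g2 = 0) (h3 : D g3 = 0)
    (hΔ : g2 ^ 3 - 27 * g3 ^ 2 ≠ 0) {ι : Type*} (s : Finset ι) (P : ι → (crv g2 g3).Point) :
    ∃ w : L, et D (∑ i ∈ s, P i) = ∑ i ∈ s, et D (P i) + D w := by
  classical
  induction s using Finset.induction_on with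
  | empty => exact ⟨0, by rw [map_zero, add_zero]; rfl⟩
  | insert i s hi ih =>
    obtain ⟨w, hw⟩ := ih
    obtain ⟨v, hv⟩ := et_add D h2 h3 hΔ (P i) (∑ j ∈ s, P j)
    refine ⟨w + v, ?_⟩
    rw [Finset.sum_insert hi, Finset.sum_insert hi, hv, hw, map_add]
    ring

end

end Pool.Agent.EllSch
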