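import Pool.Agent.EllSch.Fix.CMul
import Pool.Agent.EllSch.Fix.Om

/-! # [CB] Combinations of points with coefficients in the endomorphism ring -/

open Filter Topology

namespace Pool.Agent.EllSch

/-- `S` contains the coefficients of all the formulas for combinations of points with coefficients
in the endomorphism ring -/
def CombProp (a b : ℂ) (S : Set ℂ) : Prop :=
  (EndL a b : Set ℂ) ⊆ S ∧ G2 a b ∈ S ∧ G3 a b ∈ S ∧
  ∀ (K : Type) [Field K] (ι : K →+* ℂ), (∀ s ∈ S, ∃ k, ι k = s) → ∀ (n : ℕ) (z : Fin n → ℂ),
    (∀ β : Fin n → ℂ, (∀ i, β i ∈ EndL a b) → β ≠ 0 → Off a b (∑ i, β i * z i)) →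
    ∀ x y : Fin n → K, (∀ i, ι (x i) = wp a b (z i)) → (∀ i, ι (y i) = wq a b (z i)) →
    ∀ β' : Fin n → K, (∀ i, ι (β' i) ∈ EndL a b) → β' ≠ 0 →
      ∃ X Y : K, ι X = wp a b (∑ i, ι (β' i) * z i) ∧ ι Y = wq a b (∑ i, ι (β' i) * z i) ∧
        ∀ D : Derivation ℤ K K, (∀ s, ι s ∈ S → D s = 0) →
          D X / Y = ∑ i, β' i * (D (x i) / y i)

namespace Comb

theorem ne_zero_left {a b : ℂ} (h : Ind a b) : a ≠ 0 := by
  rintro rfl
  exact h (by simp)

end Comb

theorem countable_EndL {a b : ℂ} (h : Ind a b) : (EndL a b : Set ℂ).Countable := by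
  refine Set.Countable.mono ?_ (Set.countable_range (fun y : ℤ × ℤ => lat a b y / a))
  intro α hα
  obtain ⟨y, hy⟩ := hα (1, 0)
  refine ⟨y, ?_⟩
  have ha := Comb.ne_zero_left h
  simp only
  rw [← hy]
  simp only [lat]
  push_cast
  field_simp
  ring

namespace Comb

/-- derivative of the value of a polynomial with constant coefficients -/
theorem der_eval {K : Type*} [Field K] (D : Derivation ℤ K K) (p : Polynomial K)
    (hp : ∀ i, D (p.coeff i) = 0) (x : K) :
    D (p.eval x) = (Polynomial.derivative p).eval x * D x := by
  rw [Polynomial.eval_eq_sum_range, map_sum, Polynomial.derivative_eval, Polynomial.sum_over_range,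
    Finset.sum_mul]
  · refine Finset.sum_congr rfl (fun i _ => ?_)
    rw [D.leibniz, hp, smul_zero, add_zero, Derivation.leibniz_pow]
    simp only [smul_eq_mul, nsmul_eq_mul]
    ring
  · intro i; simp

/-- the derivative of the relation between `℘ (α z)` and `℘ z` -/
theorem cmul_deriv {a b : ℂ} (h : Ind a b) {α : ℂ} {N Q : Polynomial ℂ}
    (hNQ : ∀ z, Off a b (α * z) →
      Off a b z ∧ Q.eval (wp a b z) ≠ 0 ∧ wp a b (α * z) = N.eval (wp a b z) / Q.eval (wp a b z))
    {z : ℂ} (hz : Off a b (α * z)) :
    wq a b (α * z) * α = ((Polynomial.derivative N).eval (wp a b z) * Q.eval (wp a b z) -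
      N.eval (wp a b z) * (Polynomial.derivative Q).eval (wp a b z)) * wq a b z /
        Q.eval (wp a b z) ^ 2 := by
  obtain ⟨hz', hQ, -⟩ := hNQ z hz
  have d1 : HasDerivAt (fun u => wp a b (α * u)) (wq a b (α * z) * α) z := by
    have e0 : HasDerivAt (fun u => α * u) α z := by
      simpa using (hasDerivAt_id z).const_mul α
    exact HasDerivAt.comp z (h₂ := wp a b) (h := fun u => α * u) (hasDerivAt_wp h hz) e0
  have dN : HasDerivAt (fun u => N.eval (wp a b u))
      ((Polynomial.derivative N).eval (wp a b z) * wq a b z) z :=
    HasDerivAt.comp z (h₂ := fun v => N.eval v) (h := wp a b) (N.hasDerivAt _) (hasDerivAt_wp h hz')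
  have dQ : HasDerivAt (fun u => Q.eval (wp a b u))
      ((Polynomial.derivative Q).eval (wp a b z) * wq a b z) z :=
    HasDerivAt.comp z (h₂ := fun v => Q.eval v) (h := wp a b) (Q.hasDerivAt _) (hasDerivAt_wp h hz')
  have d2 := dN.div dQ hQ
  have hopen : IsOpen {z : ℂ | Off a b (α * z)} :=
    (isOpen_off h).preimage (continuous_const.mul continuous_id)
  have heq : (fun u => wp a b (α * u)) =ᶠ[𝓝 z]
      ((fun u => N.eval (wp a b u)) / (fun u => Q.eval (wp a b u))) := by
    filter_upwards [hopen.mem_nhds hz] with u hu
    exact (hNQ u hu).2.2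
  have := (d1.congr_of_eventuallyEq heq.symm).unique d2
  rw [this]
  ring

end Comb

theorem exists_comb {a b : ℂ} (h : Ind a b) : ∃ S : Set ℂ, S.Countable ∧ CombProp a b S := by
  classical
  -- the polynomials
  have hex : ∀ α : EndL a b, ∃ N Q : Polynomial ℂ, (α : ℂ) ≠ 0 → ∀ z, Off a b (α * z) →
      Off a b z ∧ Q.eval (wp a b z) ≠ 0 ∧
        wp a b (α * z) = N.eval (wp a b z) / Q.eval (wp a b z) := by
    intro α
    by_cases h0 : (α : ℂ) = 0
    · exact ⟨0, 0, fun h' => absurd h0 h'⟩
    · obtain ⟨N, Q, hNQ⟩ := cmul h α.2 h0
      exact ⟨N, Q, fun _ => hNQ⟩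
  choose N Q hNQ using hex
  have : Countable (EndL a b) := (countable_EndL h).to_subtype
  set S : Set ℂ := (EndL a b : Set ℂ) ∪ {G2 a b, G3 a b} ∪
    ((⋃ α : EndL a b, Set.range (N α).coeff) ∪ (⋃ α : EndL a b, Set.range (Q α).coeff)) with hS
  have hSc : S.Countable := by
    refine ((countable_EndL h).union ((Set.countable_singleton _).insert _)).union
      ((Set.countable_iUnion fun α => Set.countable_range _).union
        (Set.countable_iUnion fun α => Set.countable_range _))
  have hSE : (EndL a b : Set ℂ) ⊆ S := fun α hα => Or.inl (Or.inl hα)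
  have hS2 : G2 a b ∈ S := Or.inl (Or.inr (by simp))
  have hS3 : G3 a b ∈ S := Or.inl (Or.inr (by simp))
  have hSN : ∀ (α : EndL a b) i, (N α).coeff i ∈ S := fun α i =>
    Or.inr (Or.inl (Set.mem_iUnion.2 ⟨α, i, rfl⟩))
  have hSQ : ∀ (α : EndL a b) i, (Q α).coeff i ∈ S := fun α i =>
    Or.inr (Or.inr (Set.mem_iUnion.2 ⟨α, i, rfl⟩))
  refine ⟨S, hSc, hSE, hS2, hS3, ?_⟩
  clear_value S
  intro K _ ι hι n z hz x y hx hy β' hβ' hβ0
  have hinj : Function.Injective ι := ι.injective
  have : CharZero K := by
    refine ⟨fun m n hmn => ?_⟩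
    have := congrArg ι hmn
    simpa using this
  obtain ⟨g2, hg2⟩ := hι _ hS2
  obtain ⟨g3, hg3⟩ := hι _ hS3
  have hΔ : g2 ^ 3 - 27 * g3 ^ 2 ≠ 0 := by
    intro h0
    apply disc_ne_zero h
    rw [← hg2, ← hg3]
    have := congrArg ι h0
    simpa only [map_sub, map_mul, map_pow, map_ofNat, map_zero] using this
  -- single points
  have hone : ∀ i, β' i ≠ 0 → ∃ X Y : K, ι X = wp a b (ι (β' i) * z i) ∧
      ι Y = wq a b (ι (β' i) * z i) ∧ ∀ D : Derivation ℤ K K, (∀ s, ι s ∈ S → D s = 0) →
      D X / Y = β' i * (D (x i) / y i) := by
    intro i hi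
    set α : EndL a b := ⟨ι (β' i), hβ' i⟩ with hα
    have hα0 : (α : ℂ) ≠ 0 := by
      rw [hα]
      simpa using hi
    have hoffc : ∀ γ : ℂ, γ ∈ EndL a b → γ ≠ 0 → Off a b (γ * z i) := by
      intro γ hγ hγ0
      have := hz (Pi.single i γ) (fun j => by
        by_cases hj : j = i
        · subst hj; simpa using hγ
        · rw [Pi.single_eq_of_ne hj]; exact (EndL a b).zero_mem) (by
          intro h0
          exact hγ0 (by simpa using congrFun h0 i))
      have e : ∑ j, (Pi.single i γ : Fin n → ℂ) j * z j = γ * z i := by
        rw [Finset.sum_eq_single i]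
        · simp
        · intro j _ hj
          rw [Pi.single_eq_of_ne hj, zero_mul]
        · simp
      rw [e] at this
      exact this
    have hoff : Off a b (α * z i) := hoffc _ α.2 hα0
    obtain ⟨-, hQ0, hval⟩ := hNQ α hα0 (z i) hoff
    have hder := Comb.cmul_deriv h (hNQ α hα0) hoff
    -- lift the polynomials
    obtain ⟨NK, hNK⟩ : ∃ p : Polynomial K, p.map ι = N α := by
      have : N α ∈ Polynomial.lifts ι := by
        rw [Polynomial.lifts_iff_coeff_lifts]
        intro j
        obtain ⟨k, hk⟩ := hι _ (hSN α j)
        exact ⟨k, hk⟩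
      exact (Polynomial.mem_lifts _).1 this
    obtain ⟨QK, hQK⟩ : ∃ p : Polynomial K, p.map ι = Q α := by
      have : Q α ∈ Polynomial.lifts ι := by
        rw [Polynomial.lifts_iff_coeff_lifts]
        intro j
        obtain ⟨k, hk⟩ := hι _ (hSQ α j)
        exact ⟨k, hk⟩
      exact (Polynomial.mem_lifts _).1 this
    have eN : ι (NK.eval (x i)) = (N α).eval (wp a b (z i)) := by
      rw [← hNK, Polynomial.eval_map, ← hx, Polynomial.eval₂_hom]
    have eQ : ι (QK.eval (x i)) = (Q α).eval (wp a b (z i)) := by
      rw [← hQK, Polynomial.eval_map, ← hx, Polynomial.eval₂_hom]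
    have eN' : ι ((Polynomial.derivative NK).eval (x i)) =
        (Polynomial.derivative (N α)).eval (wp a b (z i)) := by
      rw [← hNK, Polynomial.derivative_map, Polynomial.eval_map, ← hx, Polynomial.eval₂_hom]
    have eQ' : ι ((Polynomial.derivative QK).eval (x i)) =
        (Polynomial.derivative (Q α)).eval (wp a b (z i)) := by
      rw [← hQK, Polynomial.derivative_map, Polynomial.eval_map, ← hx, Polynomial.eval₂_hom]
    have hQK0 : QK.eval (x i) ≠ 0 := by
      intro h0
      apply hQ0
      rw [← eQ, h0, map_zero]
    set W : K := (Polynomial.derivative NK).eval (x i) * QK.eval (x i) -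
      NK.eval (x i) * (Polynomial.derivative QK).eval (x i) with hW
    have hιW : ι W = (Polynomial.derivative (N α)).eval (wp a b (z i)) *
        (Q α).eval (wp a b (z i)) - (N α).eval (wp a b (z i)) *
        (Polynomial.derivative (Q α)).eval (wp a b (z i)) := by
      rw [hW, map_sub, map_mul, map_mul, eN, eQ, eN', eQ']
    have hYval : ι (W * y i / (QK.eval (x i) ^ 2 * β' i)) = wq a b (ι (β' i) * z i) := by
      rw [map_div₀, map_mul, map_mul, map_pow, hιW, hy, eQ, div_eq_iff
        (mul_ne_zero (pow_ne_zero 2 hQ0) hα0)]
      have h1 : wq a b (ι (β' i) * z i) * ι (β' i) * (Q α).eval (wp a b (z i)) ^ 2 =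
        ((Polynomial.derivative (N α)).eval (wp a b (z i)) * (Q α).eval (wp a b (z i)) -
          (N α).eval (wp a b (z i)) * (Polynomial.derivative (Q α)).eval (wp a b (z i))) *
          wq a b (z i) := (eq_div_iff (pow_ne_zero 2 hQ0)).1 hder
      linear_combination -h1
    refine ⟨NK.eval (x i) / QK.eval (x i), W * y i / (QK.eval (x i) ^ 2 * β' i), ?_, hYval, ?_⟩
    · rw [map_div₀, eN, eQ]
      exact hval.symm
    · intro D hD
      have hy0 : ι (W * y i / (QK.eval (x i) ^ 2 * β' i)) ≠ 0 := by
        rw [hYval]
        apply wq_ne_zero h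
        have := hoffc (2 * ι (β' i)) ((EndL a b).mul_mem (ofNat_mem _ 2) (hβ' i))
          (mul_ne_zero two_ne_zero hα0)
        rwa [mul_assoc] at this
      have hWy : W * y i ≠ 0 := by
        intro h0
        apply hy0
        rw [h0, zero_div, map_zero]
      have hW0 : W ≠ 0 := left_ne_zero_of_mul hWy
      have hyi : y i ≠ 0 := right_ne_zero_of_mul hWy
      have hDN : D (NK.eval (x i)) = (Polynomial.derivative NK).eval (x i) * D (x i) := by
        apply Comb.der_eval
        intro j
        apply hD
        rw [← Polynomial.coeff_map, hNK]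
        exact hSN α j
      have hDQ : D (QK.eval (x i)) = (Polynomial.derivative QK).eval (x i) * D (x i) := by
        apply Comb.der_eval
        intro j
        apply hD
        rw [← Polynomial.coeff_map, hQK]
        exact hSQ α j
      have hDX : D (NK.eval (x i) / QK.eval (x i)) = W * D (x i) / QK.eval (x i) ^ 2 := by
        rw [D.leibniz_div, hDN, hDQ, hW]
        simp only [smul_eq_mul]
        field_simp
      rw [hDX]
      field_simp
  -- sums
  have hsum : ∀ s : Finset (Fin n), (∀ i ∈ s, β' i = 0) ∨ ∃ X Y : K,
      ι X = wp a b (∑ i ∈ s, ι (β' i) * z i) ∧ ι Y = wq a b (∑ i ∈ s, ι (β' i) * z i) ∧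
      ∀ D : Derivation ℤ K K, (∀ s, ι s ∈ S → D s = 0) →
      D X / Y = ∑ i ∈ s, β' i * (D (x i) / y i) := by
    intro s
    induction s using Finset.induction_on with
    | empty => left; simp
    | insert i s his ih =>
      by_cases hi : β' i = 0
      · rcases ih with h1 | ⟨X, Y, hX, hY, hD⟩
        · left
          intro j hj
          rcases Finset.mem_insert.1 hj with h2 | h2
          · rw [h2]; exact hi
          · exact h1 j h2
        · right
          refine ⟨X, Y, ?_, ?_, ?_⟩
          · rw [Finset.sum_insert his, hi, map_zero, zero_mul, zero_add]; exact hX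
          · rw [Finset.sum_insert his, hi, map_zero, zero_mul, zero_add]; exact hY
          · intro D hD'
            rw [Finset.sum_insert his, hi, zero_mul, zero_add]
            exact hD D hD'
      · right
        obtain ⟨X1, Y1, hX1, hY1, hD1⟩ := hone i hi
        rcases ih with h1 | ⟨X2, Y2, hX2, hY2, hD2⟩
        · refine ⟨X1, Y1, ?_, ?_, ?_⟩
          · rw [Finset.sum_insert his, Finset.sum_eq_zero, add_zero]
            · exact hX1
            · intro j hj; rw [h1 j hj, map_zero, zero_mul]
          · rw [Finset.sum_insert his, Finset.sum_eq_zero, add_zero]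
            · exact hY1
            · intro j hj; rw [h1 j hj, map_zero, zero_mul]
          · intro D hD'
            rw [Finset.sum_insert his, Finset.sum_eq_zero (s := s), add_zero]
            · exact hD1 D hD'
            · intro j hj; rw [h1 j hj, zero_mul]
        · by_cases hall : ∀ j ∈ s, β' j = 0
          · refine ⟨X1, Y1, ?_, ?_, ?_⟩
            · rw [Finset.sum_insert his, Finset.sum_eq_zero, add_zero]
              · exact hX1
              · intro j hj; rw [hall j hj, map_zero, zero_mul]
            · rw [Finset.sum_insert his, Finset.sum_eq_zero, add_zero]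
              · exact hY1
              · intro j hj; rw [hall j hj, map_zero, zero_mul]
            · intro D hD'
              rw [Finset.sum_insert his, Finset.sum_eq_zero (s := s), add_zero]
              · exact hD1 D hD'
              · intro j hj; rw [hall j hj, zero_mul]
          push Not at hall
          obtain ⟨j₀, hj₀, hj₀0⟩ := hall
          set u : ℂ := ι (β' i) * z i with hu
          set v : ℂ := ∑ j ∈ s, ι (β' j) * z j with hv
          -- general combination
          have hcomb : ∀ γ δ : ℂ, γ ∈ EndL a b → δ ∈ EndL a b → (γ ≠ 0 ∨ δ ≠ 0) →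
              Off a b (γ * u + δ * v) := by
            intro γ δ hγ hδ hne
            have := hz (fun j => if j = i then γ * ι (β' i) else if j ∈ s then δ * ι (β' j) else 0)
              (fun j => by
                split_ifs
                · exact (EndL a b).mul_mem hγ (hβ' i)
                · exact (EndL a b).mul_mem hδ (hβ' j)
                · exact (EndL a b).zero_mem)
              (by
                intro h0
                rcases hne with hne | hne
                · have h2 := congrFun h0 i
                  simp only [if_true, Pi.zero_apply, mul_eq_zero] at h2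
                  rcases h2 with h2 | h2
                  · exact hne h2
                  · exact hi ((map_eq_zero ι).1 h2)
                · have h2 := congrFun h0 j₀
                  have hji : j₀ ≠ i := fun he => his (he ▸ hj₀)
                  simp only [hji, if_false, hj₀, if_true, Pi.zero_apply, mul_eq_zero] at h2
                  rcases h2 with h2 | h2
                  · exact hne h2
                  · exact hj₀0 ((map_eq_zero ι).1 h2))
            have e : ∑ j, (if j = i then γ * ι (β' i) else if j ∈ s then δ * ι (β' j) else 0) * z j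
                = γ * u + δ * v := by
              have e1 : ∀ j, (if j = i then γ * ι (β' i) else if j ∈ s then δ * ι (β' j) else 0) *
                  z j = (if j = i then γ * ι (β' i) * z i else 0) +
                    (if j ∈ s then δ * (ι (β' j) * z j) else 0) := by
                intro j
                by_cases hj : j = i
                · subst hj
                  simp [his]
                · by_cases hjs : j ∈ s
                  · simp [hj, hjs, mul_assoc]
                  · simp [hj, hjs]
              rw [Finset.sum_congr rfl (fun j _ => e1 j), Finset.sum_add_distrib,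
                Finset.sum_ite_eq' Finset.univ i, if_pos (Finset.mem_univ i), hu, hv,
                Finset.mul_sum, ← Finset.sum_filter, Finset.filter_mem_eq_inter,
                Finset.univ_inter, mul_assoc]
            rw [e] at this
            exact this
          have hE1 : (1 : ℂ) ∈ EndL a b := (EndL a b).one_mem
          have hE0 : (0 : ℂ) ∈ EndL a b := (EndL a b).zero_mem
          have hEm1 : (-1 : ℂ) ∈ EndL a b := (EndL a b).neg_mem hE1
          have ou : Off a b u := by
            have := hcomb 1 0 hE1 hE0 (Or.inl one_ne_zero)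
            simpa using this
          have ov : Off a b v := by
            have := hcomb 0 1 hE0 hE1 (Or.inr one_ne_zero)
            simpa using this
          have ouv : Off a b (u + v) := by
            have := hcomb 1 1 hE1 hE1 (Or.inl one_ne_zero)
            simpa using this
          have ouv' : Off a b (u - v) := by
            have := hcomb 1 (-1) hE1 hEm1 (Or.inl one_ne_zero)
            simpa [sub_eq_add_neg] using this
          have hne : wp a b u ≠ wp a b v := by
            intro he
            rcases CMul.eq_or_neg h ou ov he with ⟨w, hw⟩ | ⟨w, hw⟩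
            · exact ouv' w (by rw [hw]; ring)
            · exact ouv w (by rw [hw]; ring)
          have hneK : X1 ≠ X2 := by
            intro he
            apply hne
            rw [← hX1, ← hX2, he]
          have hneK' : X1 - X2 ≠ 0 := sub_ne_zero.2 hneK
          set l : K := (Y1 - Y2) / (X1 - X2) with hl
          set X3 : K := l ^ 2 / 4 - X1 - X2 with hX3
          set Y3 : K := -(Y1 + l * (X3 - X1)) with hY3
          have hιl : ι l = (wq a b u - wq a b v) / (wp a b u - wp a b v) := by
            rw [hl, map_div₀, map_sub, map_sub, hX1, hX2, hY1, hY2]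
          have hιX3 : ι X3 = wp a b (u + v) := by
            rw [wp_add h ou ov ouv hne, hX3, map_sub, map_sub, map_div₀, map_pow, hιl, hX1, hX2,
              map_ofNat]
          have hιY3 : ι Y3 = wq a b (u + v) := by
            rw [wq_add h ou ov ouv hne, hY3, map_neg, map_add, map_mul, map_sub, hιl, hX1, hY1,
              hιX3]
          -- the curve
          have c1 : Y1 ^ 2 = 4 * X1 ^ 3 - g2 * X1 - g3 := by
            apply hinj
            simp only [map_sub, map_mul, map_pow, map_ofNat]
            rw [hX1, hY1, hg2, hg3]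
            exact ode h ou
          have c2 : Y2 ^ 2 = 4 * X2 ^ 3 - g2 * X2 - g3 := by
            apply hinj
            simp only [map_sub, map_mul, map_pow, map_ofNat]
            rw [hX2, hY2, hg2, hg3]
            exact ode h ov
          have c3 : Y3 ^ 2 = 4 * X3 ^ 3 - g2 * X3 - g3 := by
            apply hinj
            simp only [map_sub, map_mul, map_pow, map_ofNat]
            rw [hιX3, hιY3, hg2, hg3]
            exact ode h ouv
          refine ⟨X3, Y3, ?_, ?_, ?_⟩
          · rw [Finset.sum_insert his]; exact hιX3
          · rw [Finset.sum_insert his]; exact hιY3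
          · intro D hD
            have hp := Hom.pt_add_of_ne (y3 := Y3) hΔ c1 c2 c3 hneK hX3 hY3
            have h4 := om_add D (hD g2 (by rw [hg2]; exact hS2)) (hD g3 (by rw [hg3]; exact hS3))
              hΔ (pt g2 g3 X1 Y1) (pt g2 g3 X2 Y2)
            rw [← hp, om_pt D hΔ c1, om_pt D hΔ c2, om_pt D hΔ c3] at h4
            rw [h4, Finset.sum_insert his, hD1 D hD, hD2 D hD]
  rcases hsum Finset.univ with h1 | h1
  · exact absurd (funext fun i => h1 i (Finset.mem_univ i)) hβ0
  · exact h1

end Pool.Agent.EllSch
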