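import Pool.Agent.EllSch.Fix.DerH
import Pool.Agent.EllSch.Fix.Comb

/-! # [D1] Derivations and multiplication by endomorphisms: the function `℘` -/

open Polynomial

namespace Pool.Agent.EllSch

/-- apply a derivation to the coefficients of a polynomial -/
noncomputable def dco (δ : Derivation ℤ ℂ ℂ) (p : ℂ[X]) : ℂ[X] :=
  p.sum fun i c => monomial i (δ c)

theorem coeff_dco (δ : Derivation ℤ ℂ ℂ) (p : ℂ[X]) (i : ℕ) :
    (dco δ p).coeff i = δ (p.coeff i) := by
  rw [dco, Polynomial.sum, finsetSum_coeff]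
  simp only [coeff_monomial]
  rw [Finset.sum_ite_eq']
  split_ifs with h
  · rfl
  · rw [notMem_support_iff.1 h, map_zero]

theorem der_poly (δ : Derivation ℤ ℂ ℂ) (p : ℂ[X]) (x : ℂ) :
    δ (p.eval x) = (dco δ p).eval x + (derivative p).eval x * δ x := by
  have hd : (dco δ p).natDegree < p.natDegree + 1 := by
    rw [Nat.lt_succ_iff, natDegree_le_iff_coeff_eq_zero]
    intro n hn
    rw [coeff_dco, coeff_eq_zero_of_natDegree_lt hn, map_zero]
  rw [eval_eq_sum_range' hd, eval_eq_sum_range, map_sum, derivative_eval, Polynomial.sum_over_range,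
    Finset.sum_mul, ← Finset.sum_add_distrib]
  · refine Finset.sum_congr rfl (fun i _ => ?_)
    rw [δ.leibniz, Derivation.leibniz_pow, coeff_dco]
    simp only [smul_eq_mul, nsmul_eq_mul]
    ring
  · intro i; simp

namespace DerC

theorem ne_zero_right {a b : ℂ} (h : Ind a b) : b ≠ 0 := by
  rintro rfl
  exact h (by simp)

/-- the coordinates in the basis `a, b` -/
theorem coord {a b : ℂ} (h : Ind a b) {s t s' t' : ℝ}
    (he : (s : ℂ) * a + t * b = s' * a + t' * b) : s = s' ∧ t = t' := by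
  have h1 := congrArg Complex.re he
  have h2 := congrArg Complex.im he
  simp only [Complex.add_re, Complex.add_im, Complex.re_ofReal_mul, Complex.im_ofReal_mul] at h1 h2
  have e1 : (s - s') * (a.re * b.im - a.im * b.re) = 0 := by
    linear_combination b.im * h1 - b.re * h2
  have e2 : (t - t') * (a.re * b.im - a.im * b.re) = 0 := by
    linear_combination a.re * h2 - a.im * h1
  constructor
  · rcases mul_eq_zero.1 e1 with h3 | h3
    · exact sub_eq_zero.1 h3
    · exact absurd h3 h
  · rcases mul_eq_zero.1 e2 with h3 | h3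
    · exact sub_eq_zero.1 h3
    · exact absurd h3 h

theorem off_div {a b : ℂ} (h : Ind a b) {l : ℕ} (hl : 2 ≤ l) : Off a b (a / l) := by
  intro x hx
  have hl0 : (l : ℝ) ≠ 0 := by positivity
  have : ((1 / l : ℝ) : ℂ) * a + ((0 : ℝ) : ℂ) * b = ((x.1 : ℝ) : ℂ) * a + ((x.2 : ℝ) : ℂ) * b := by
    push_cast
    simp only [lat] at hx
    rw [← hx]
    ring
  have h1 := (coord h this).1
  have h2 : (1 : ℝ) = x.1 * l := by
    field_simp at h1
    linarith
  have h3 : (1 : ℤ) = x.1 * l := by exact_mod_cast h2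
  have h4 : (l : ℤ) ∣ 1 := ⟨x.1, by rw [mul_comm]; exact h3⟩
  have h5 := Int.le_of_dvd one_pos h4
  omega

theorem div_inj {a b : ℂ} (h : Ind a b) {l l' : ℕ} (hl : 3 ≤ l) (hl' : 3 ≤ l')
    (he : wp a b (a / l) = wp a b (a / l')) : l = l' := by
  have p1 : (0 : ℝ) < l := by exact_mod_cast (by omega : 0 < l)
  have p2 : (0 : ℝ) < l' := by exact_mod_cast (by omega : 0 < l')
  have q1 : (1 / l : ℝ) ≤ 1 / 3 := by
    apply one_div_le_one_div_of_le (by norm_num)
    exact_mod_cast hl
  have q2 : (1 / l' : ℝ) ≤ 1 / 3 := by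
    apply one_div_le_one_div_of_le (by norm_num)
    exact_mod_cast hl'
  have q3 : (0 : ℝ) < 1 / l := by positivity
  have q4 : (0 : ℝ) < 1 / l' := by positivity
  rcases CMul.eq_or_neg h (off_div h (by omega)) (off_div h (by omega)) he with ⟨x, hx⟩ | ⟨x, hx⟩
  · have : ((1 / l : ℝ) : ℂ) * a + ((0 : ℝ) : ℂ) * b =
        ((1 / l' + x.1 : ℝ) : ℂ) * a + ((x.2 : ℝ) : ℂ) * b := by
      push_cast
      simp only [lat] at hx
      linear_combination hx
    have h1 := (coord h this).1
    have h2 : (x.1 : ℝ) = 1 / l - 1 / l' := by linarith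
    have h3 : x.1 < 1 := by
      have : (x.1 : ℝ) < 1 := by linarith
      exact_mod_cast this
    have h4 : -1 < x.1 := by
      have : (-1 : ℝ) < x.1 := by linarith
      exact_mod_cast this
    have h5 : x.1 = 0 := by omega
    rw [h5] at h2
    have h6 : (1 / l : ℝ) = 1 / l' := by
      push_cast at h2
      linarith
    have h7 : (l : ℝ) = l' := by
      field_simp at h6
      exact h6.symm
    exact_mod_cast h7
  · exfalso
    have : ((1 / l : ℝ) : ℂ) * a + ((0 : ℝ) : ℂ) * b =
        ((-(1 / l') + x.1 : ℝ) : ℂ) * a + ((x.2 : ℝ) : ℂ) * b := by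
      push_cast
      simp only [lat] at hx
      linear_combination hx
    have h1 := (coord h this).1
    have h2 : (x.1 : ℝ) = 1 / l + 1 / l' := by linarith
    have h3 : x.1 < 1 := by
      have : (x.1 : ℝ) < 1 := by linarith
      exact_mod_cast this
    have h4 : 0 < x.1 := by
      have : (0 : ℝ) < x.1 := by linarith
      exact_mod_cast this
    omega

end DerC

/-- infinitely many torsion values: a polynomial which vanishes at `℘ z` for all torsion points
`z` with `α z` off the lattice is zero -/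
theorem poly_eq_zero_of_torsion {a b : ℂ} (h : Ind a b) {α : ℂ} (h0 : α ≠ 0) {T : ℂ[X]}
    (hT : ∀ (x : ℤ × ℤ) (l : ℕ), 0 < l → Off a b (lat a b x / l) → Off a b (α * (lat a b x / l)) →
      T.eval (wp a b (lat a b x / l)) = 0) : T = 0 := by
  have ha : a ≠ 0 := Comb.ne_zero_left h
  have hlat : lat a b (1, 0) = a := by simp [lat]
  have ht : Filter.Tendsto (fun l : ℕ => α * (a / l)) Filter.atTop (nhdsWithin 0 {0}ᶜ) := by
    rw [tendsto_nhdsWithin_iff]
    constructor
    · have h1 : Filter.Tendsto (fun l : ℕ => (α * a) / (l : ℂ)) Filter.atTop (nhds 0) :=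
        tendsto_const_div_atTop_nhds_zero_nat (α * a)
      refine h1.congr (fun l => ?_)
      rw [mul_div_assoc]
    · filter_upwards [Filter.eventually_gt_atTop 0] with l hl
      have hl0 : (l : ℂ) ≠ 0 := by exact_mod_cast hl.ne'
      exact mul_ne_zero h0 (div_ne_zero ha hl0)
  have hev := ht.eventually (Basic.eventually_off h 0)
  obtain ⟨M, hM⟩ := Filter.eventually_atTop.1 hev
  apply Polynomial.eq_zero_of_infinite_isRoot
  have hinf : (Set.range fun i : ℕ => wp a b (a / ((i + (M + 3) : ℕ) : ℂ))).Infinite := by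
    apply Set.infinite_range_of_injective
    intro i j hij
    have := DerC.div_inj h (by omega) (by omega) hij
    omega
  refine hinf.mono ?_
  rintro _ ⟨i, rfl⟩
  have h1 := hT (1, 0) (i + (M + 3)) (by omega)
  rw [hlat] at h1
  exact h1 (DerC.off_div h (by omega)) (hM _ (by omega))

namespace DerC

theorem der_int (δ : Derivation ℤ ℂ ℂ) (m : ℤ) : δ (m : ℂ) = 0 := by
  simp

/-- the quadratic equation of an endomorphism -/
theorem quad {a b : ℂ} (h : Ind a b) {α : ℂ} (hα : α ∈ EndL a b) :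
    ∃ t n : ℤ, α ^ 2 = t * α - n ∧ (α.im = 0 → ∃ p : ℤ, α = p) := by
  obtain ⟨x, hx⟩ := hα (1, 0)
  obtain ⟨y, hy⟩ := hα (0, 1)
  have hx' : α * a = x.1 * a + x.2 * b := by simpa [lat] using hx
  have hy' : α * b = y.1 * a + y.2 * b := by simpa [lat] using hy
  refine ⟨x.1 + y.2, x.1 * y.2 - x.2 * y.1, ?_, ?_⟩
  · have hab : a * b ≠ 0 := mul_ne_zero (Comb.ne_zero_left h) (ne_zero_right h)
    apply mul_right_cancel₀ hab
    push_cast
    linear_combination (α * b - y.2 * b) * hx' + (x.2 * b) * hy'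
  · intro him
    have hre : α = (α.re : ℂ) := by
      apply Complex.ext
      · simp
      · simp [him]
    refine ⟨x.1, ?_⟩
    have : ((α.re : ℝ) : ℂ) * a + ((0 : ℝ) : ℂ) * b =
        ((x.1 : ℝ) : ℂ) * a + ((x.2 : ℝ) : ℂ) * b := by
      rw [← hre]
      push_cast
      linear_combination hx'
    have h1 := (coord h this).1
    rw [hre, h1]
    simp

end DerC

/-- an endomorphism of the lattice is algebraic, hence killed by derivations, its conjugate is an
endomorphism too, and its norm is a natural number -/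
theorem der_end {a b : ℂ} (h : Ind a b) {α : ℂ} (hα : α ∈ EndL a b) :
    (∀ δ : Derivation ℤ ℂ ℂ, δ α = 0 ∧ δ ((starRingEnd ℂ) α) = 0) ∧
      (starRingEnd ℂ) α ∈ EndL a b ∧ ∃ N : ℕ, (starRingEnd ℂ) α * α = N := by
  obtain ⟨t, n, h1, h2⟩ := DerC.quad h hα
  by_cases him : α.im = 0
  · obtain ⟨p, hp⟩ := h2 him
    have hc : (starRingEnd ℂ) α = α := Complex.conj_eq_iff_im.2 him
    refine ⟨fun δ => ?_, ?_, p.natAbs * p.natAbs, ?_⟩
    · rw [hc, hp]
      exact ⟨DerC.der_int δ p, DerC.der_int δ p⟩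
    · rw [hc]; exact hα
    · rw [hc, hp]
      have : ((p.natAbs * p.natAbs : ℕ) : ℤ) = p * p := by
        rw [Nat.cast_mul]
        exact Int.natAbs_mul_self' p
      have h3 : (((p.natAbs * p.natAbs : ℕ) : ℤ) : ℂ) = ((p * p : ℤ) : ℂ) := congrArg _ this
      rw [Int.cast_natCast] at h3
      rw [h3, Int.cast_mul]
  · set γ := (starRingEnd ℂ) α with hγ
    have hne : α - γ ≠ 0 := by
      intro h3
      apply him
      exact Complex.conj_eq_iff_im.1 (sub_eq_zero.1 h3).symm
    have h3 : γ ^ 2 = t * γ - n := by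
      have := congrArg (starRingEnd ℂ) h1
      simpa using this
    have h4 : α + γ = t := by
      apply mul_left_cancel₀ hne
      linear_combination h1 - h3
    have h5 : γ = t - α := by linear_combination h4
    have h6 : γ * α = n := by
      rw [h5]
      linear_combination -h1
    have hδ : ∀ δ : Derivation ℤ ℂ ℂ, δ α = 0 := by
      intro δ
      have h7 : δ (α ^ 2) = δ (t * α - n) := by rw [h1]
      rw [map_sub, DerC.der_int, δ.leibniz, DerC.der_int, sq, δ.leibniz] at h7
      simp only [smul_eq_mul] at h7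
      have h8 : (α - γ) * δ α = 0 := by
        rw [h5]
        linear_combination h7
      rcases mul_eq_zero.1 h8 with h9 | h9
      · exact absurd h9 hne
      · exact h9
    refine ⟨fun δ => ⟨hδ δ, ?_⟩, ?_, ?_⟩
    · rw [h5, map_sub, DerC.der_int, hδ, sub_zero]
    · rw [h5]
      exact (EndL a b).sub_mem (intCast_mem _ t) hα
    · have h7 : (n : ℝ) = Complex.normSq α := by
        have : ((n : ℝ) : ℂ) = (Complex.normSq α : ℂ) := by
          rw [Complex.normSq_eq_conj_mul_self, ← hγ, h6]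
          simp
        exact_mod_cast this
      have h8 : 0 ≤ n := by
        have : (0 : ℝ) ≤ n := by rw [h7]; exact Complex.normSq_nonneg α
        exact_mod_cast this
      refine ⟨n.toNat, ?_⟩
      rw [h6]
      have := Int.toNat_of_nonneg h8
      have h9 := congrArg (Int.cast : ℤ → ℂ) this
      push_cast at h9
      exact h9.symm

namespace DerC

/-- `L` vanishes at torsion points -/
theorem L_tors {a b : ℂ} {δ : Derivation ℤ ℂ ℂ} {L H : ℂ →+ ℂ} (hLH : LH a b δ L H) {z : ℂ}
    {n : ℕ} (hn : n ≠ 0) (hz : ¬ Off a b (n * z)) : L z = 0 := by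
  obtain ⟨x, hx⟩ := (Basic.not_off_iff a b _).1 hz
  have h1 : L ((n : ℂ) * z) = 0 := by rw [hx]; exact hLH.L_lat x
  have h2 : L ((n : ℂ) * z) = n * L z := by
    rw [← nsmul_eq_mul, map_nsmul, nsmul_eq_mul]
  rw [h2] at h1
  rcases mul_eq_zero.1 h1 with h3 | h3
  · exact absurd (by exact_mod_cast h3) hn
  · exact h3

theorem wp_tors {a b : ℂ} (h : Ind a b) {δ : Derivation ℤ ℂ ℂ} (h2 : δ (G2 a b) = 0)
    (h3 : δ (G3 a b) = 0) {z : ℂ} (hz : Off a b z)
    {n : ℕ} (hn : n ≠ 0) (hz' : ¬ Off a b (n * z)) : δ (wp a b z) = 0 := by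
  obtain ⟨L, H, hLH⟩ := exists_LH h δ h2 h3
  rw [(hLH.vals h h2 h3 hz).1, L_tors hLH hn hz', mul_zero]

end DerC

/-- the coefficients of the rational function of multiplication by `α` are killed: if
`℘ (α z) = (N / Q) (℘ z)` then `N^δ Q = N Q^δ`, with `δ` acting on the coefficients -/
theorem der_coeff {a b : ℂ} (h : Ind a b) {δ : Derivation ℤ ℂ ℂ} (h2 : δ (G2 a b) = 0)
    (h3 : δ (G3 a b) = 0) {α : ℂ} (hα : α ∈ EndL a b) (h0 : α ≠ 0) {N Q : ℂ[X]}
    (hNQ : ∀ z, Off a b (α * z) →
      Off a b z ∧ Q.eval (wp a b z) ≠ 0 ∧ wp a b (α * z) = N.eval (wp a b z) / Q.eval (wp a b z)) :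
    dco δ N * Q = N * dco δ Q := by
  rw [← sub_eq_zero]
  apply poly_eq_zero_of_torsion h h0
  intro x l hl hz hαz
  set z := lat a b x / l with hzdef
  have hl0 : (l : ℂ) ≠ 0 := by exact_mod_cast hl.ne'
  have e1 : (l : ℂ) * z = lat a b x := by
    rw [hzdef]
    field_simp
  obtain ⟨y, hy⟩ := hα x
  have t1 : ¬ Off a b (l * z) := by
    rw [e1]; exact Basic.not_off_lat a b x
  have t2 : ¬ Off a b (l * (α * z)) := by
    have : (l : ℂ) * (α * z) = lat a b y := by
      rw [← hy, ← e1]; ring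
    rw [this]; exact Basic.not_off_lat a b y
  have d1 := DerC.wp_tors h h2 h3 hz hl.ne' t1
  have d2 := DerC.wp_tors h h2 h3 hαz hl.ne' t2
  obtain ⟨-, hQ, hv⟩ := hNQ z hαz
  have hv' : wp a b (α * z) * Q.eval (wp a b z) = N.eval (wp a b z) := by
    rw [hv]; field_simp
  have h4 := congrArg δ hv'
  rw [δ.leibniz, d2, der_poly, der_poly, d1] at h4
  simp only [smul_eq_mul, mul_zero, add_zero] at h4
  rw [eval_sub, eval_mul, eval_mul, ← h4, ← hv']
  ring

/-- `L (α z) = α L z` -/
theorem LH.L_end {a b : ℂ} (h : Ind a b) {δ : Derivation ℤ ℂ ℂ} (h2 : δ (G2 a b) = 0)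
    (h3 : δ (G3 a b) = 0) {L H : ℂ →+ ℂ} (hLH : LH a b δ L H) {α : ℂ} (hα : α ∈ EndL a b)
    (z : ℂ) : L (α * z) = α * L z := by
  by_cases h0 : α = 0
  · rw [h0]; simp
  obtain ⟨-, hc, n, hn⟩ := der_end h hα
  have hn0 : n ≠ 0 := by
    rintro rfl
    rw [Nat.cast_zero] at hn
    rcases mul_eq_zero.1 hn with h4 | h4
    · exact h0 ((map_eq_zero _).1 h4)
    · exact h0 h4
  -- if `m α z` is in the lattice then `L z = 0`
  have key : ∀ m : ℕ, m ≠ 0 → ¬ Off a b (m * (α * z)) → L (α * z) = α * L z := by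
    intro m hm hz
    rw [DerC.L_tors hLH hm hz]
    obtain ⟨x, hx⟩ := (Basic.not_off_iff a b _).1 hz
    obtain ⟨y, hy⟩ := hc x
    have : ¬ Off a b (((m * n : ℕ) : ℂ) * z) := by
      have e : ((m * n : ℕ) : ℂ) * z = lat a b y := by
        rw [← hy, ← hx]
        push_cast
        rw [← hn]
        ring
      rw [e]; exact Basic.not_off_lat a b y
    rw [DerC.L_tors hLH (mul_ne_zero hm hn0) this, mul_zero]
  by_cases hz : Off a b (α * z)
  · obtain ⟨N, Q, hNQ⟩ := cmul h hα h0
    obtain ⟨hz', hQ, hv⟩ := hNQ z hz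
    have hd := Comb.cmul_deriv h hNQ hz
    by_cases hq : wq a b (α * z) = 0
    · apply key 2 two_ne_zero
      intro h4
      apply wq_ne_zero h _ hq
      exact_mod_cast h4
    · have hco := der_coeff h h2 h3 hα h0 hNQ
      have hco' := congrArg (Polynomial.eval (wp a b z)) hco
      rw [eval_mul, eval_mul] at hco'
      have hv' : wp a b (α * z) * Q.eval (wp a b z) = N.eval (wp a b z) := by
        rw [hv]; field_simp
      have h4 := congrArg δ hv'
      rw [δ.leibniz, der_poly, der_poly, (hLH.vals h h2 h3 hz).1, (hLH.vals h h2 h3 hz').1] at h4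
      simp only [smul_eq_mul] at h4
      have hd' : wq a b (α * z) * α * Q.eval (wp a b z) ^ 2 =
          ((Polynomial.derivative N).eval (wp a b z) * Q.eval (wp a b z) -
          N.eval (wp a b z) * (Polynomial.derivative Q).eval (wp a b z)) * wq a b z := by
        rw [hd]; field_simp
      apply mul_left_cancel₀ hq
      apply mul_left_cancel₀ (pow_ne_zero 2 hQ)
      rw [hv] at h4
      set n0 := N.eval (wp a b z)
      set q0 := Q.eval (wp a b z)
      have h5 : n0 / q0 * q0 = n0 := by field_simp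
      have h6 : n0 / q0 * ((dco δ Q).eval (wp a b z) + (derivative Q).eval (wp a b z) *
          (wq a b z * L z)) * q0 = n0 * ((dco δ Q).eval (wp a b z) +
            (derivative Q).eval (wp a b z) * (wq a b z * L z)) := by
        field_simp
      linear_combination q0 * h4 - h6 + hco' - L z * hd'
  · apply key 1 one_ne_zero
    rw [Nat.cast_one, one_mul]
    exact hz

end Pool.Agent.EllSch
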