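import Mathlib

/-! # [DE] Extension of derivations -/

namespace Pool.Agent.EllSch

open scoped TensorProduct

theorem formallySmooth_of_charZero (K L : Type*) [Field K] [Field L] [Algebra K L] [CharZero K] :
    Algebra.FormallySmooth K L := by
  obtain ⟨s, hs⟩ := exists_isTranscendenceBasis K L
  have halg : Algebra.IsAlgebraic (IntermediateField.adjoin K (Set.range ((↑) : s → L))) L :=
    hs.isAlgebraic_field
  have : CharZero (IntermediateField.adjoin K (Set.range ((↑) : s → L))) :=
    charZero_of_injective_algebraMap (algebraMap K _).injective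
  exact .of_algebraicIndependent_of_isSeparable hs.1

/-- a derivation of a field of characteristic zero into an extension field extends to the
extension field -/
theorem exists_ext_der {k K L : Type*} [CommRing k] [Field K] [Field L] [Algebra k K] [Algebra K L]
    [Algebra k L] [IsScalarTower k K L] [CharZero K] (δ : Derivation k K L) :
    ∃ δ' : Derivation k L L, ∀ x : K, δ' (algebraMap K L x) = δ x := by
  have := formallySmooth_of_charZero K L
  have hsub : Subsingleton (Algebra.H1Cotangent K L) :=
    Algebra.FormallySmooth.subsingleton_h1Cotangent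
  have hinj : Function.Injective (KaehlerDifferential.mapBaseChange k K L) := by
    rw [injective_iff_map_eq_zero]
    intro x hx
    obtain ⟨y, hy⟩ := (Algebra.H1Cotangent.exact_δ_mapBaseChange k K L x).mp hx
    rw [← hy, Subsingleton.elim y 0, map_zero]
  obtain ⟨r, hr⟩ := (KaehlerDifferential.mapBaseChange k K L).exists_leftInverse_of_injective
    (LinearMap.ker_eq_bot.mpr hinj)
  let φ : L ⊗[K] Ω[K⁄k] →ₗ[L] L := TensorProduct.AlgebraTensorModule.lift
    ((LinearMap.toSpanSingleton L (Ω[K⁄k] →ₗ[K] L) δ.liftKaehlerDifferential))
  refine ⟨(φ ∘ₗ r).compDer (KaehlerDifferential.D k L), fun x => ?_⟩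
  have h1 : KaehlerDifferential.D k L (algebraMap K L x)
      = KaehlerDifferential.mapBaseChange k K L (1 ⊗ₜ KaehlerDifferential.D k K x) := by
    rw [KaehlerDifferential.mapBaseChange_tmul, one_smul, KaehlerDifferential.map_D]
  have h2 : r (KaehlerDifferential.mapBaseChange k K L (1 ⊗ₜ KaehlerDifferential.D k K x))
      = 1 ⊗ₜ KaehlerDifferential.D k K x := LinearMap.congr_fun hr _
  change φ (r (KaehlerDifferential.D k L (algebraMap K L x))) = δ x
  rw [h1, h2]
  simp [φ]

section
variable {F K L : Type*} [Field F] [Field K] [Field L] [Algebra F K] [Algebra F L] [CharZero F]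

/-- a derivation of `F` extends to an algebraic extension (or any extension) -/
theorem exists_der_ext (d : Derivation ℤ F F) :
    ∃ D : Derivation ℤ L L, ∀ f, D (algebraMap F L f) = algebraMap F L (d f) := by
  have hsc : IsScalarTower ℤ F L := inferInstance
  exact exists_ext_der (k := ℤ) (K := F) (L := L)
    ((Algebra.linearMap F L).compDer d)

/-- the extension to algebraic extensions is unique, hence commutes with embeddings -/
theorem der_comm [Algebra.IsAlgebraic F K] {d : Derivation ℤ F F} {DK : Derivation ℤ K K}
    {DL : Derivation ℤ L L} (hK : ∀ f, DK (algebraMap F K f) = algebraMap F K (d f))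
    (hL : ∀ f, DL (algebraMap F L f) = algebraMap F L (d f)) (σ : K →ₐ[F] L) (x : K) :
    DL (σ x) = σ (DK x) := by
  let _ : Algebra K L := σ.toRingHom.toAlgebra
  have hmap : ∀ y, algebraMap K L y = σ y := fun y => rfl
  have : IsScalarTower F K L := IsScalarTower.of_algebraMap_eq fun f => by
    rw [hmap, σ.commutes]
  have hE : ∀ a b : K, DL (σ (a * b)) - σ (DK (a * b))
      = a • (DL (σ b) - σ (DK b)) + b • (DL (σ a) - σ (DK a)) := by
    intro a b
    rw [map_mul, DL.leibniz, DK.leibniz, map_add, smul_eq_mul, smul_eq_mul, smul_eq_mul,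
      smul_eq_mul, map_mul, map_mul, Algebra.smul_def, Algebra.smul_def, hmap, hmap]
    ring
  let E : Derivation F K L :=
    { toFun := fun y => DL (σ y) - σ (DK y)
      map_add' := fun a b => by rw [map_add, map_add, map_add, map_add]; ring
      map_smul' := fun c a => by
        rw [Algebra.smul_def, hE, RingHom.id_apply, hK, σ.commutes, σ.commutes, hL, sub_self,
          smul_zero, add_zero, Algebra.smul_def, Algebra.smul_def, hmap, σ.commutes]
      map_one_eq_zero' := by
        change DL (σ 1) - σ (DK 1) = 0
        rw [map_one, Derivation.map_one_eq_zero, Derivation.map_one_eq_zero, map_zero, sub_zero]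
      leibniz' := fun a b => hE a b }
  have hsep : Algebra.IsSeparable F K := inferInstance
  have hunr : Algebra.FormallyUnramified F K := Algebra.FormallyUnramified.of_isSeparable F K
  have hsub : Subsingleton (Ω[K⁄F]) := inferInstance
  have hE0 : E x = 0 := by
    have h := Derivation.liftKaehlerDifferential_comp_D E x
    rw [← h, Subsingleton.elim (KaehlerDifferential.D F K x) 0, map_zero]
  exact sub_eq_zero.mp hE0

/-- derivations commute with the trace -/
theorem trace_der [FiniteDimensional F K] {d : Derivation ℤ F F} {DK : Derivation ℤ K K}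
    (hK : ∀ f, DK (algebraMap F K f) = algebraMap F K (d f)) (x : K) :
    Algebra.trace F K (DK x) = d (Algebra.trace F K x) := by
  obtain ⟨D, hD⟩ := exists_der_ext (F := F) (L := AlgebraicClosure F) d
  apply (algebraMap F (AlgebraicClosure F)).injective
  rw [trace_eq_sum_embeddings (AlgebraicClosure F), ← hD, trace_eq_sum_embeddings (AlgebraicClosure F), map_sum]
  exact Finset.sum_congr rfl fun σ _ => (der_comm hK hD σ x).symm

/-- an element of `F` which is a derivative in an algebraic extension is a derivative in `F` -/
theorem exact_descend [Algebra.IsAlgebraic F L] {d : Derivation ℤ F F} {DL : Derivation ℤ L L}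
    (hL : ∀ f, DL (algebraMap F L f) = algebraMap F L (d f)) (w : L) (f : F)
    (h : DL w = algebraMap F L f) : ∃ w' : F, d w' = f := by
  have hfin : FiniteDimensional F (IntermediateField.adjoin F {w}) :=
    IntermediateField.adjoin.finiteDimensional (Algebra.IsIntegral.isIntegral w)
  obtain ⟨D, hD⟩ := exists_der_ext (F := F) (L := IntermediateField.adjoin F {w}) d
  have h1 := der_comm hD hL (IntermediateField.adjoin F {w}).val
    (IntermediateField.AdjoinSimple.gen F w)
  have hgen : (IntermediateField.adjoin F {w}).val (IntermediateField.AdjoinSimple.gen F w) = w :=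
    rfl
  rw [hgen, h] at h1
  have h2 : D (IntermediateField.AdjoinSimple.gen F w)
      = algebraMap F (IntermediateField.adjoin F {w}) f := by
    apply (IntermediateField.adjoin F {w}).val.injective
    exact h1.symm.trans (AlgHom.commutes _ f).symm
  have h3 := trace_der hD (IntermediateField.AdjoinSimple.gen F w)
  rw [h2, Algebra.trace_algebraMap] at h3
  have hn : (Module.finrank F (IntermediateField.adjoin F {w}) : F) ≠ 0 :=
    Nat.cast_ne_zero.mpr (Module.finrank_pos).ne'
  refine ⟨(Module.finrank F (IntermediateField.adjoin F {w}) : F)⁻¹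
    * Algebra.trace F (IntermediateField.adjoin F {w}) (IntermediateField.AdjoinSimple.gen F w), ?_⟩
  have h4 : d ((Module.finrank F (IntermediateField.adjoin F {w}) : F)⁻¹) = 0 := by
    rw [Derivation.leibniz_inv]
    simp
  rw [Derivation.leibniz, h4, smul_zero, add_zero, ← h3, smul_eq_mul, nsmul_eq_mul,
    inv_mul_cancel_left₀ hn]

end

end Pool.Agent.EllSch
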