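import Pool.Agent.EllSch.Fix.Om
import Pool.Agent.EllSch.Fix.CMul

/-! # [D0] The two additive maps attached to a derivation which kills the invariants -/

namespace Pool.Agent.EllSch

/-- `L = δ ℘ / ℘'` and `H = δ ζ + ℘ L` as additive maps on `ℂ` -/
structure LH (a b : ℂ) (δ : Derivation ℤ ℂ ℂ) (L H : ℂ →+ ℂ) : Prop where
  L_off : ∀ z, Off a b z → L z = δ (wp a b z) / wq a b z
  H_off : ∀ z, Off a b z → H z = δ (wz a b z) + wp a b z * (δ (wp a b z) / wq a b z)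
  L_lat : ∀ x, L (lat a b x) = 0
  H_lat : ∀ x, H (lat a b x) = δ (eta a b x)

namespace DerH

/-- the function `δ ℘ / ℘'` -/
noncomputable def Lf (a b : ℂ) (δ : Derivation ℤ ℂ ℂ) (z : ℂ) : ℂ := om δ (Hom.fn a b z)

variable {a b : ℂ} {δ : Derivation ℤ ℂ ℂ}

theorem Lf_add (h : Ind a b) (h2 : δ (G2 a b) = 0) (h3 : δ (G3 a b) = 0) (z w : ℂ) :
    Lf a b δ (z + w) = Lf a b δ z + Lf a b δ w := by
  unfold Lf
  rw [Hom.fn_add h, om_add δ h2 h3 (disc_ne_zero h)]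

theorem Lf_off (h : Ind a b) {z : ℂ} (hz : Off a b z) :
    Lf a b δ z = δ (wp a b z) / wq a b z := by
  rw [Lf, Hom.fn_off hz, om_pt δ (disc_ne_zero h) (ode h hz)]

theorem Lf_lat (a b : ℂ) (δ : Derivation ℤ ℂ ℂ) (x : ℤ × ℤ) : Lf a b δ (lat a b x) = 0 := by
  rw [Lf, Hom.fn_not_off (Hom.not_off_lat a b x)]
  rfl

theorem Lf_neg (h : Ind a b) (h2 : δ (G2 a b) = 0) (h3 : δ (G3 a b) = 0) (z : ℂ) :
    Lf a b δ (-z) = -Lf a b δ z := by
  have e0 : Lf a b δ 0 = 0 := by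
    have := Lf_lat a b δ 0
    rwa [Hom.lat_zero] at this
  have := Lf_add h h2 h3 (-z) z
  rw [neg_add_cancel, e0] at this
  linear_combination -this

/-- the values of the derivation -/
theorem vals (h : Ind a b) (h2 : δ (G2 a b) = 0) (h3 : δ (G3 a b) = 0) {z : ℂ}
    (hz : Off a b z) : δ (wp a b z) = Lf a b δ z * wq a b z ∧
      δ (wq a b z) = (6 * wp a b z ^ 2 - G2 a b / 2) * Lf a b δ z := by
  rw [Lf_off h hz]
  exact Om.D_curve δ h2 h3 (disc_ne_zero h) (ode h hz)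

open Classical in
/-- the function `δ ζ + ℘ L` -/
noncomputable def Hf (a b : ℂ) (δ : Derivation ℤ ℂ ℂ) (z : ℂ) : ℂ :=
  if hz : Off a b z then δ (wz a b z) + wp a b z * Lf a b δ z else
    δ (eta a b (Hom.not_off hz).choose)

theorem Hf_off {z : ℂ} (hz : Off a b z) :
    Hf a b δ z = δ (wz a b z) + wp a b z * Lf a b δ z := by
  rw [Hf, dif_pos hz]

theorem Hf_lat (h : Ind a b) (δ : Derivation ℤ ℂ ℂ) (x : ℤ × ℤ) :
    Hf a b δ (lat a b x) = δ (eta a b x) := by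
  have hz := Hom.not_off_lat a b x
  rw [Hf, dif_neg hz]
  have := lat_injective h (Hom.not_off hz).choose_spec
  rw [← this]

theorem half (t : ℂ) : δ (1 / 2 * t) = 1 / 2 * δ t := by
  have := Om.D_ofNat_mul δ 2 (1 / 2 * t)
  push_cast at this
  rw [show (2 : ℂ) * (1 / 2 * t) = t by ring] at this
  linear_combination (-1 / 2 : ℂ) * this

theorem two (t : ℂ) : δ (2 * t) = 2 * δ t := by
  have := Om.D_ofNat_mul δ 2 t
  push_cast at this
  exact this

theorem Hf_add_lat (h : Ind a b) (h2 : δ (G2 a b) = 0) (h3 : δ (G3 a b) = 0) (z : ℂ)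
    (x : ℤ × ℤ) : Hf a b δ (z + lat a b x) = Hf a b δ z + δ (eta a b x) := by
  by_cases hz : Off a b z
  · rw [Hf_off hz, Hf_off ((off_add_lat x).2 hz), wz_add_lat h hz, map_add, wp_add_lat h,
      Lf_add h h2 h3, Lf_lat]
    ring
  · obtain ⟨y, rfl⟩ := Hom.not_off hz
    rw [← Hom.lat_add, Hf_lat h, Hf_lat h, Hom.eta_add, map_add]

theorem Hf_neg (h : Ind a b) (h2 : δ (G2 a b) = 0) (h3 : δ (G3 a b) = 0) {z : ℂ}
    (hz : Off a b z) : Hf a b δ (-z) = -Hf a b δ z := by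
  rw [Hf_off (off_neg.2 hz), Hf_off hz, wz_neg, wp_neg h, Lf_neg h h2 h3, map_neg]
  ring

theorem Hf_two (h : Ind a b) (h2 : δ (G2 a b) = 0) (h3 : δ (G3 a b) = 0) {w : ℂ}
    (hw : Off a b w) (hww : Off a b (2 * w)) : Hf a b δ (2 * w) = 2 * Hf a b δ w := by
  have hq := wq_ne_zero h hww
  obtain ⟨dx, dy⟩ := vals h h2 h3 hw
  have hL : Lf a b δ (2 * w) = 2 * Lf a b δ w := by
    rw [two_mul, Lf_add h h2 h3, two_mul]
  rw [Hf_off hww, Hf_off hw, wz_two_mul h hw hww, map_add, half, two, hL, wp_two_mul h hw hww]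
  set x := wp a b w
  set y := wq a b w
  set A := Lf a b δ w
  set l := (6 * x ^ 2 - G2 a b / 2) / y with hl
  have hly : l * y = 6 * x ^ 2 - 1 / 2 * G2 a b := by rw [hl]; field_simp
  have hD : δ l = 12 * x * A - l ^ 2 * A := by
    have := congrArg δ hly
    rw [Om.D_mul, map_sub, half, h2, show (6 : ℂ) * x ^ 2 = ((6 : ℕ) : ℂ) * x ^ 2 by norm_num,
      Om.D_ofNat_mul, Om.D_sq, dx, dy] at this
    push_cast at this
    apply mul_left_cancel₀ hq
    have e : 6 * x ^ 2 - G2 a b / 2 = l * y := by rw [hly]; ring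
    rw [e] at this
    linear_combination this
  rw [hD]
  ring

theorem Hf_add (h : Ind a b) (h2 : δ (G2 a b) = 0) (h3 : δ (G3 a b) = 0) (z w : ℂ) :
    Hf a b δ (z + w) = Hf a b δ z + Hf a b δ w := by
  by_cases hz : Off a b z
  swap
  · obtain ⟨x, rfl⟩ := Hom.not_off hz
    rw [add_comm, Hf_add_lat h h2 h3, Hf_lat h, add_comm]
  by_cases hw : Off a b w
  swap
  · obtain ⟨x, rfl⟩ := Hom.not_off hw
    rw [Hf_add_lat h h2 h3, Hf_lat h]
  by_cases hzw : Off a b (z + w)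
  swap
  · obtain ⟨x, hx⟩ := Hom.not_off hzw
    have hw' : w = -z + lat a b x := by rw [← hx]; ring
    have e := Hf_add_lat h h2 h3 (-z) x
    rw [← hw', Hf_neg h h2 h3 hz] at e
    rw [hx, Hf_lat h, e]
    ring
  by_cases he : wp a b z = wp a b w
  · obtain ⟨x, hx, k2, -⟩ := Hom.double_case h hz hw hzw he
    have e1 : z + w = 2 * w + lat a b x := by rw [hx]; ring
    rw [e1, Hf_add_lat h h2 h3, Hf_two h h2 h3 hw k2, hx, Hf_add_lat h h2 h3]
    ring
  · obtain ⟨dx1, dy1⟩ := vals h h2 h3 hz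
    obtain ⟨dx2, dy2⟩ := vals h h2 h3 hw
    have hsub : wp a b z - wp a b w ≠ 0 := sub_ne_zero.2 he
    rw [Hf_off hz, Hf_off hw, Hf_off hzw, wz_add h hz hw hzw he, map_add, map_add, half,
      Lf_add h h2 h3]
    have hx3 := wp_add h hz hw hzw he
    set l := (wq a b z - wq a b w) / (wp a b z - wp a b w) with hl
    have hl' : wq a b z - wq a b w = l * (wp a b z - wp a b w) := by rw [hl]; field_simp
    obtain ⟨hDl, -, -⟩ := Om.slope_ne δ (ode h hz) (ode h hw) he hl'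
      (x3 := wp a b (z + w)) (by rw [hx3]; ring) dx1 dx2 dy1 dy2
    rw [hDl]
    ring

end DerH

/-- existence, i.e. additivity of the two maps -/
theorem exists_LH {a b : ℂ} (h : Ind a b) (δ : Derivation ℤ ℂ ℂ) (h2 : δ (G2 a b) = 0)
    (h3 : δ (G3 a b) = 0) : ∃ L H : ℂ →+ ℂ, LH a b δ L H :=
  ⟨AddMonoidHom.mk' (DerH.Lf a b δ) (DerH.Lf_add h h2 h3),
    AddMonoidHom.mk' (DerH.Hf a b δ) (DerH.Hf_add h h2 h3),
    { L_off := fun z hz => DerH.Lf_off h hz
      H_off := fun z hz => by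
        rw [AddMonoidHom.mk'_apply, DerH.Hf_off hz, DerH.Lf_off h hz]
      L_lat := fun x => DerH.Lf_lat a b δ x
      H_lat := fun x => DerH.Hf_lat h δ x }⟩

/-- the values of the derivation (also at the two-torsion points, where `℘' = 0`) -/
theorem LH.vals {a b : ℂ} (h : Ind a b) {δ : Derivation ℤ ℂ ℂ} (h2 : δ (G2 a b) = 0)
    (h3 : δ (G3 a b) = 0) {L H : ℂ →+ ℂ} (hLH : LH a b δ L H) {z : ℂ} (hz : Off a b z) :
    δ (wp a b z) = wq a b z * L z ∧ δ (wq a b z) = (6 * wp a b z ^ 2 - G2 a b / 2) * L z ∧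
      δ (wz a b z) = H z - wp a b z * L z := by
  obtain ⟨e1, e2⟩ := Om.D_curve δ h2 h3 (disc_ne_zero h) (ode h hz)
  rw [hLH.H_off z hz, hLH.L_off z hz]
  exact ⟨by rw [mul_comm]; exact e1, e2, by ring⟩

end Pool.Agent.EllSch
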