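import Pool.Agent.EllSch.Fix.EndT1

/-! # [E2] Meromorphic maps between an elliptic curve and itself -/

open Filter Topology

namespace Pool.Agent.EllSch

namespace EndT

open EndT1

theorem meromorphicAt_wp {a b : ℂ} (h : Ind a b) (s : ℂ) : MeromorphicAt (wp a b) s := by
  have e : wp a b = (pp h).weierstrassP := funext fun z => wp_eq h z
  rw [e]
  exact (pp h).meromorphic_weierstrassP s

theorem meromorphicAt_wq {a b : ℂ} (h : Ind a b) (s : ℂ) : MeromorphicAt (wq a b) s := by
  have e : wq a b = (pp h).derivWeierstrassP := funext fun z => wq_eq h z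
  rw [e]
  exact (pp h).meromorphic_derivWeierstrassP s

/-- identity theorem -/
theorem cod_of_eventually {F G : ℂ → ℂ} (hF : ∀ s, MeromorphicAt F s)
    (hG : ∀ s, MeromorphicAt G s) {z1 : ℂ} (h : ∀ᶠ z in 𝓝 z1, F z = G z) :
    Cod fun z => F z = G z := by
  have hm : MeromorphicOn (F - G) Set.univ := fun s _ => (hF s).sub (hG s)
  have h1 := (hm.exists_meromorphicOrderAt_ne_top_iff_forall isConnected_univ).1
  have h2 : meromorphicOrderAt (F - G) z1 = ⊤ := by
    rw [meromorphicOrderAt_eq_top_iff]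
    filter_upwards [nhdsWithin_le_nhds h] with z hz
    simp [hz]
  intro s
  have h3 : meromorphicOrderAt (F - G) s = ⊤ := by
    by_contra hne
    exact h1 ⟨⟨s, Set.mem_univ s⟩, hne⟩ ⟨z1, Set.mem_univ z1⟩ h2
  rw [meromorphicOrderAt_eq_top_iff] at h3
  filter_upwards [h3] with z hz
  simpa [sub_eq_zero] using hz

theorem cod_affine {P : ℂ → Prop} (hP : Cod P) {t : ℂ} (ht : t ≠ 0) (κ : ℂ) :
    Cod fun z => P (t * z + κ) := by
  intro s
  have hc : Tendsto (fun z : ℂ => t * z + κ) (𝓝[≠] s) (𝓝[≠] (t * s + κ)) := by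
    apply tendsto_nhdsWithin_of_tendsto_nhds_of_eventually_within
    · have : Continuous fun z : ℂ => t * z + κ := by fun_prop
      exact (this.tendsto s).mono_left nhdsWithin_le_nhds
    · filter_upwards [self_mem_nhdsWithin] with z hz
      intro h'
      exact hz (mul_left_cancel₀ ht (add_right_cancel h'))
  exact hc.eventually (hP (t * s + κ))

theorem exists_nhds {P : ℂ → Prop} (hP : Cod P) : ∃ z, ∀ᶠ x in 𝓝 z, P x := by
  have h1 : ∀ᶠ y in 𝓝[≠] (0 : ℂ), ∀ᶠ x in 𝓝[≠] y, P x :=
    Eventually.of_forall fun y => hP y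
  have h2 : ∀ᶠ y in 𝓝[≠] (0 : ℂ), ∀ᶠ x in 𝓝[{0}ᶜ] y, P x :=
    eventually_eventually_nhdsWithin.2 (hP 0)
  obtain ⟨y, hy, hy0⟩ := (h2.and self_mem_nhdsWithin).exists
  refine ⟨y, ?_⟩
  have hopen : IsOpen ({0}ᶜ : Set ℂ) := isOpen_compl_singleton
  rwa [hopen.nhdsWithin_eq hy0] at hy

end EndT

open EndT1 EndT

/-- a meromorphic map between the curve and itself comes from an affine map of `ℂ` -/
theorem end_of_mero {a b : ℂ} (h : Ind a b) {f q g : ℂ → ℂ} (hf : ∀ s, MeromorphicAt f s)
    (hq : ∀ s, MeromorphicAt q s) (hg : ∀ s, MeromorphicAt g s)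
    (pf : ∀ v z, f (z + lat a b v) = f z) (pq : ∀ v z, q (z + lat a b v) = q z)
    (pg : ∀ v z, g (z + lat a b v) = g z)
    (h1 : Cod fun z => q z ^ 2 = 4 * f z ^ 3 - G2 a b * f z - G3 a b)
    (h2 : Cod fun z => q z ≠ 0)
    (h3 : Cod fun z => HasDerivAt f (g z * q z) z) :
    ∃ t ∈ EndL a b, (Cod fun z => g z = t) ∧
      (t = 0 ∨ ∃ κ, Cod fun z => Off a b (t * z + κ) ∧ f z = wp a b (t * z + κ) ∧
        q z = wq a b (t * z + κ)) := by
  obtain ⟨t, ht⟩ := const_of_mero h hg pg fun s =>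
    order_nonneg (disc_ne_zero h) (hf s) (hq s) (hg s) (h1 s) (h2 s) (h3 s)
  by_cases ht0 : t = 0
  · subst ht0
    exact ⟨0, (EndL a b).zero_mem, ht, Or.inl rfl⟩
  -- a good point
  have hqa : Cod fun z => AnalyticAt ℂ q z := fun s => (hq s).eventually_analyticAt
  obtain ⟨z1, hz1⟩ := exists_nhds ((h1.and h2).and ((h3.and ht).and hqa))
  have hz1' : ∀ᶠ z in 𝓝 z1, HasDerivAt f (t * q z) z ∧
      HasDerivAt q (t * (6 * f z ^ 2 - G2 a b / 2)) z := by
    filter_upwards [hz1.eventually_nhds] with z hz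
    obtain ⟨⟨_, hq0⟩, ⟨hd, hgt⟩, hqz⟩ := hz.self_of_nhds
    rw [hgt] at hd
    refine ⟨hd, ?_⟩
    have d1 : HasDerivAt (fun z => q z ^ 2) (2 * q z * deriv q z) z := by
      have := hqz.differentiableAt.hasDerivAt.fun_pow 2
      refine this.congr_deriv ?_
      push_cast
      ring
    have d2 : HasDerivAt (fun z => 4 * f z ^ 3 - G2 a b * f z - G3 a b)
        ((12 * f z ^ 2 - G2 a b) * (t * q z)) z := by
      have := (((hd.fun_pow 3).const_mul 4).fun_sub (hd.const_mul (G2 a b))).sub_const (G3 a b)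
      refine this.congr_deriv ?_
      push_cast
      ring
    have e : (fun z => q z ^ 2) =ᶠ[𝓝 z] fun z => 4 * f z ^ 3 - G2 a b * f z - G3 a b := by
      filter_upwards [hz] with y hy
      exact hy.1.1
    have e2 := d1.unique (d2.congr_of_eventuallyEq e)
    have e3 : deriv q z = t * (6 * f z ^ 2 - G2 a b / 2) := by
      apply mul_left_cancel₀ hq0
      linear_combination e2 / 2
    rw [← e3]
    exact hqz.differentiableAt.hasDerivAt
  obtain ⟨w1, hw1, hx1, hy1⟩ := exists_wp_eq h hz1.self_of_nhds.1.1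
  -- the rescaled solution
  have hscale : ∀ᶠ v in 𝓝 (t * z1), HasDerivAt (fun v => f (v / t)) (q (v / t)) v ∧
      HasDerivAt (fun v => q (v / t)) (6 * f (v / t) ^ 2 - G2 a b / 2) v := by
    have hc : Tendsto (fun v : ℂ => v / t) (𝓝 (t * z1)) (𝓝 z1) := by
      have h4 : Continuous fun v : ℂ => v / t := by fun_prop
      have h5 := h4.tendsto (t * z1)
      rwa [mul_div_cancel_left₀ _ ht0] at h5
    filter_upwards [hc.eventually hz1'] with v hv
    have hdv : HasDerivAt (fun v : ℂ => v / t) (1 / t) v := (hasDerivAt_id v).div_const t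
    constructor
    · have := hv.1.comp v hdv
      refine this.congr_deriv ?_
      field_simp
    · have := hv.2.comp v hdv
      refine this.congr_deriv ?_
      field_simp
  have hode := Basic.ode_unique (g := G2 a b) (f₁ := fun v => f (v / t))
    (q₁ := fun v => q (v / t)) (z₁ := t * z1) hscale (Basic.ode_wp h hw1)
    (by simp only [mul_div_cancel_left₀ _ ht0]; exact hx1.symm)
    (by simp only [mul_div_cancel_left₀ _ ht0]; exact hy1.symm)
  set κ := w1 - t * z1 with hκ
  have hoff : Cod fun z => Off a b (t * z + κ) := cod_affine (cod_off h) ht0 κ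
  have hloc : ∀ᶠ z in 𝓝 z1, f z = wp a b (t * z + κ) := by
    have hc : Tendsto (fun z : ℂ => t * (z - z1)) (𝓝 z1) (𝓝 0) := by
      have h4 : Continuous fun z : ℂ => t * (z - z1) := by fun_prop
      have h5 := h4.tendsto z1
      simpa using h5
    filter_upwards [hc.eventually hode] with z hz
    have e1 : (t * z1 + t * (z - z1)) / t = z := by
      field_simp
      ring
    have e2 : w1 + t * (z - z1) = t * z + κ := by rw [hκ]; ring
    simp only [e1, e2] at hz
    exact hz
  have hmf : ∀ s, MeromorphicAt (fun z => wp a b (t * z + κ)) s := fun s =>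
    (meromorphicAt_wp h (t * s + κ)).comp_analyticAt (g := fun z => t * z + κ) (by fun_prop)
  have hcf : Cod fun z => f z = wp a b (t * z + κ) := cod_of_eventually hf hmf hloc
  have hcq : Cod fun z => q z = wq a b (t * z + κ) := by
    intro s
    have hev : ∀ᶠ z in 𝓝[≠] s, f =ᶠ[𝓝 z] fun z => wp a b (t * z + κ) := by
      have h6 : ∀ᶠ y in 𝓝[≠] s, ∀ᶠ x in 𝓝[{s}ᶜ] y, f x = wp a b (t * x + κ) :=
        eventually_eventually_nhdsWithin.2 (hcf s)
      have hopen : IsOpen ({s}ᶜ : Set ℂ) := isOpen_compl_singleton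
      filter_upwards [h6, self_mem_nhdsWithin] with y hy hys
      rwa [hopen.nhdsWithin_eq hys] at hy
    filter_upwards [hev, hoff s, h3 s, ht s] with z hz hoz hdz hgz
    rw [hgz] at hdz
    have h7 : HasDerivAt (fun z => wp a b (t * z + κ)) (wq a b (t * z + κ) * t) z := by
      have h8 := hasDerivAt_wp h hoz
      have h9 : HasDerivAt (fun z : ℂ => t * z + κ) t z := by
        simpa using ((hasDerivAt_id z).const_mul t).add_const κ
      exact h8.comp z h9
    have h10 := hdz.unique (h7.congr_of_eventuallyEq hz)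
    apply mul_left_cancel₀ ht0
    rw [h10, mul_comm]
  have hall : Cod fun z => Off a b (t * z + κ) ∧ f z = wp a b (t * z + κ) ∧
      q z = wq a b (t * z + κ) := hoff.and (hcf.and hcq)
  refine ⟨t, ?_, ht, Or.inr ⟨κ, hall⟩⟩
  rw [mem_EndL]
  intro v
  have h11 := eventually_trans (lat a b v) 0 (hall (0 + lat a b v))
  obtain ⟨z, hz, hz'⟩ := ((hall 0).and h11).exists
  obtain ⟨o1, p1, r1⟩ := hz
  obtain ⟨o2, p2, r2⟩ := hz'
  rw [pf v z, p1] at p2
  rw [pq v z, r1] at r2
  obtain ⟨y, hy⟩ := exists_lat_of_eq h o2 o1 p2.symm r2.symm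
  refine ⟨y, ?_⟩
  linear_combination hy

end Pool.Agent.EllSch
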