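import Pool.Agent.EllSch.Fix.Real
import Pool.Agent.EllSch.Fix.EndT
import Pool.Agent.EllSch.Zeta

/-! # [EX] Exact combinations of the differentials over the function field of the curve -/

open Filter Topology ComplexConjugate

namespace Pool.Agent.EllSch

namespace EX

theorem cod_exists {P : ℂ → Prop} (h : Cod P) : ∃ z, P z := (h 0).exists

theorem cod_shift {P : ℂ → Prop} (h : Cod P) (w : ℂ) : Cod fun z => P (z + w) := by
  intro s
  have h1 : Tendsto (fun z : ℂ => z + w) (𝓝[≠] s) (𝓝[≠] (s + w)) := by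
    rw [tendsto_nhdsWithin_iff]
    constructor
    · exact ((continuous_id.add continuous_const).tendsto s).mono_left nhdsWithin_le_nhds
    · filter_upwards [self_mem_nhdsWithin] with z hz
      intro he
      exact hz (add_right_cancel he)
  exact h1.eventually (h (s + w))

theorem cod_all {ι : Type*} [Finite ι] {P : ι → ℂ → Prop} (h : ∀ i, Cod (P i)) :
    Cod fun z => ∀ i, P i z := fun s => eventually_all.mpr fun i => h i s

/-- the nice points of a codiscrete property -/
theorem cod_nhds {P : ℂ → Prop} (h : Cod P) : Cod fun z => ∀ᶠ u in 𝓝 z, P u := by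
  intro s
  have h1 := eventually_eventually_nhdsWithin.mpr (h s)
  filter_upwards [h1, self_mem_nhdsWithin] with z hz hne
  rwa [isOpen_compl_singleton.nhdsWithin_eq hne] at hz

theorem countable_compl {P : ℂ → Prop} (h : Cod P) : {z | ¬ P z}.Countable := by
  have hd : DiscreteTopology {z | ¬ P z} := by
    rw [discreteTopology_subtype_iff]
    intro x _
    rw [← disjoint_iff, disjoint_principal_right]
    filter_upwards [h x] with z hz
    exact fun hz' => hz' hz
  have : Countable {z | ¬ P z} := countable_of_Lindelof_of_discrete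
  exact Set.countable_coe_iff.mp this

/-- a function whose derivative vanishes off a locally finite set is constant off a locally finite
set -/
theorem const_of_cod {W : ℂ → ℂ} (h : Cod fun z => HasDerivAt W 0 z) :
    ∃ C : ℂ, Cod fun z => W z = C := by
  have h1 := cod_nhds h
  set G : Set ℂ := {z | ∀ᶠ u in 𝓝 z, HasDerivAt W 0 u} with hG
  have hGo : IsOpen G := by
    rw [isOpen_iff_mem_nhds]
    intro z hz
    exact eventually_eventually_nhds.mpr hz
  have hGc : IsPreconnected G := by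
    have hc : ({z | ¬ ∀ᶠ u in 𝓝 z, HasDerivAt W 0 u} : Set ℂ).Countable := countable_compl h1
    have hset : G = {z | ¬ ∀ᶠ u in 𝓝 z, HasDerivAt W 0 u}ᶜ := by
      ext z
      simp [hG]
    rw [hset]
    have hr : 1 < Module.rank ℝ ℂ := by
      rw [Complex.rank_real_complex]
      norm_num
    exact (hc.isPathConnected_compl_of_one_lt_rank hr).isConnected.isPreconnected
  obtain ⟨z0, hz0⟩ := cod_exists h1
  refine ⟨W z0, h1.mono fun z hz => ?_⟩
  have hder : ∀ z ∈ G, HasDerivAt W 0 z := fun z hz => Filter.Eventually.self_of_nhds hz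
  exact hGo.is_const_of_deriv_eq_zero hGc
    (fun z hz => (hder z hz).differentiableAt.differentiableWithinAt)
    (fun z hz => (hder z hz).deriv) hz hz0

/-- the value at an analytic point of a function which is constant off a locally finite set -/
theorem value_of_cod {f : ℂ → ℂ} {z t : ℂ} (hf : AnalyticAt ℂ f z) (h : Cod fun z => f z = t) :
    f z = t := by
  have h1 : Tendsto f (𝓝[≠] z) (𝓝 (f z)) := hf.continuousAt.tendsto.mono_left nhdsWithin_le_nhds
  have h2 : Tendsto f (𝓝[≠] z) (𝓝 t) := tendsto_const_nhds.congr' ((h z).mono fun u hu => hu.symm)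
  exact tendsto_nhds_unique h1 h2

theorem conj_ne {a b : ℂ} (h : Ind a b) : a * conj b - b * conj a ≠ 0 := by
  intro h0
  apply h
  have h1 := congrArg Complex.im h0
  simp [Complex.mul_im] at h1
  linarith

theorem solve {a b p q : ℂ} (h : Ind a b) (h1 : p * a + q * conj a = 0)
    (h2 : p * b + q * conj b = 0) : p = 0 ∧ q = 0 := by
  have h0 := conj_ne h
  have hp : p * (a * conj b - b * conj a) = 0 := by
    linear_combination conj b * h1 - conj a * h2
  have hq : q * (a * conj b - b * conj a) = 0 := by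
    linear_combination a * h2 - b * h1
  exact ⟨(mul_eq_zero.mp hp).resolve_right h0, (mul_eq_zero.mp hq).resolve_right h0⟩

end EX

/-- the quasi-period homomorphism is the restriction of a real linear map which is not complex
linear -/
theorem eta_lin {a b : ℂ} (h : Ind a b) :
    ∃ A B : ℂ, B ≠ 0 ∧ ∀ x : ℤ × ℤ, eta a b x = A * lat a b x + B * conj (lat a b x) := by
  have h0 := EX.conj_ne h
  refine ⟨(eta1 a b * conj b - eta2 a b * conj a) / (a * conj b - b * conj a),
    det a b / (a * conj b - b * conj a), div_ne_zero (det_ne_zero h) h0, fun x => ?_⟩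
  unfold eta lat det
  rw [map_add, map_mul, map_mul, map_intCast, map_intCast,
    div_mul_eq_mul_div, div_mul_eq_mul_div, ← add_div, eq_div_iff h0]
  ring

namespace EX

variable {a b : ℂ} {F : Type} [Field F] {ι : F →+* ℂ} {M : Subfield F} {x y g2 g3 : F}
    {D : Derivation ℤ F F} {z0 : ℂ}

/-- the primitive of `x dx / y` attached to a point -/
theorem single (H : EllF a b ι M x y g2 g3 D z0) {A B : ℂ}
    (hAB : ∀ x : ℤ × ℤ, eta a b x = A * lat a b x + B * conj (lat a b x)) {r : F → ℂ → ℂ}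
    (r1 : ∀ f s, MeromorphicAt (r f) s)
    (r2 : ∀ f v z, r f (z + lat a b v) = r f z)
    (r3 : ∀ f, r f z0 = ι f ∧ AnalyticAt ℂ (r f) z0)
    (r4 : ∀ m ∈ M, Cod fun z => r m z = ι m)
    (r5 : ∀ f g, Cod fun z => r (f + g) z = r f z + r g z)
    (r6 : ∀ f g, Cod fun z => r (f * g) z = r f z * r g z)
    (r8 : ∀ f, f ≠ 0 → Cod fun z => r f z ≠ 0)
    (r9 : ∀ f, Cod fun z => HasDerivAt (r f) (r (D f) z) z) (om et : F)
    (hpt : (om = 0 ∧ et = 0) ∨ ∃ X Y : F, Y ≠ 0 ∧ Y ^ 2 = 4 * X ^ 3 - g2 * X - g3 ∧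
      om = D X / Y ∧ et = X * D X / Y) :
    ∃ (t : ℂ) (Z : ℂ → ℂ), t ∈ EndL a b ∧ ι om = t ∧ (Cod fun z => r om z = t) ∧
      (Cod fun z => HasDerivAt Z (r et z) z) ∧
      ∀ v : ℤ × ℤ, Cod fun z =>
        Z (z + lat a b v) = Z z - (A * (t * lat a b v) + B * (conj t * conj (lat a b v))) := by
  have r0 : Cod fun z => r 0 z = 0 := by
    have := r4 0 M.zero_mem
    rwa [map_zero] at this
  have hzero : om = 0 → et = 0 → ∃ (t : ℂ) (Z : ℂ → ℂ), t ∈ EndL a b ∧ ι om = t ∧
      (Cod fun z => r om z = t) ∧ (Cod fun z => HasDerivAt Z (r et z) z) ∧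
      ∀ v : ℤ × ℤ, Cod fun z =>
        Z (z + lat a b v) = Z z - (A * (t * lat a b v) + B * (conj t * conj (lat a b v))) := by
    rintro rfl rfl
    refine ⟨0, fun _ => 0, (EndL a b).zero_mem, map_zero ι, r0, r0.mono fun z hz => ?_,
      fun v => cod_of_forall fun z => ?_⟩
    · rw [hz]
      exact hasDerivAt_const z 0
    · simp
  rcases hpt with ⟨h1, h2⟩ | ⟨X, Y, hY, hXY, h1, h2⟩
  · exact hzero h1 h2
  have hDX : D X = om * Y := by rw [h1, div_mul_cancel₀ _ hY]
  have hcurve : Cod fun z => r Y z ^ 2 = 4 * r X z ^ 3 - G2 a b * r X z - G3 a b := by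
    have e1 : Y * Y + (g2 * X + g3) = 4 * (X * (X * X)) := by linear_combination hXY
    have h4 : (4 : F) ∈ M := by
      simpa only [Nat.cast_ofNat] using natCast_mem M 4
    intro s
    filter_upwards [r5 (Y * Y) (g2 * X + g3) s, r5 (g2 * X) g3 s, r6 Y Y s, r6 g2 X s,
      r4 g2 H.hg2 s, r4 g3 H.hg3 s, r6 4 (X * (X * X)) s, r6 X (X * X) s, r6 X X s, r4 4 h4 s]
      with z e2 e3 e4 e5 e6 e7 e8 e9 e10 e11
    rw [e1, e8, e9, e10, e11, e3, e4, e5, e6, e7, H.e2, H.e3, map_ofNat] at e2
    linear_combination -e2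
  obtain ⟨t, ht, hgt, hκ⟩ := end_of_mero H.ind (r1 X) (r1 Y) (r1 om) (r2 X) (r2 Y) (r2 om) hcurve
    (r8 Y hY) (fun s => by
      filter_upwards [r9 X s, r6 om Y s] with z e1 e2
      rw [hDX, e2] at e1
      exact e1)
  have hιt : ι om = t := by
    rw [← (r3 om).1]
    exact value_of_cod (r3 om).2 hgt
  have het : et = X * om := by rw [h2, h1, mul_div_assoc]
  rcases hκ with h0 | ⟨κ, hκ⟩
  · have hom : om = 0 := by
      rw [h0] at hιt
      exact (map_eq_zero ι).mp hιt
    exact hzero hom (by rw [het, hom, mul_zero])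
  refine ⟨t, fun z => -wz a b (t * z + κ), ht, hιt, hgt, fun s => ?_, fun v => hκ.mono ?_⟩
  · filter_upwards [hκ s, hgt s, r6 X om s] with z e1 e2 e3
    obtain ⟨hoff, e4, -⟩ := e1
    rw [het, e3, e2, e4]
    have hin : HasDerivAt (fun z : ℂ => t * z + κ) t z := by
      simpa using ((hasDerivAt_id z).const_mul t).add_const κ
    have := ((hasDerivAt_wz H.ind hoff).comp z hin).neg
    refine this.congr_deriv ?_
    ring
  · rintro z ⟨hoff, -, -⟩
    obtain ⟨w, hw⟩ := mem_EndL.mp ht v
    have e1 : t * (z + lat a b v) + κ = (t * z + κ) + lat a b w := by rw [← hw]; ring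
    change -wz a b (t * (z + lat a b v) + κ) = -wz a b (t * z + κ) - _
    rw [e1, wz_add_lat H.ind hoff, hAB, ← hw, map_mul]
    ring

end EX

/-- relations between the differentials of finitely many points over `F = M (℘ z₀, ℘' z₀)` -/
theorem exact_rel {a b : ℂ} {F : Type} [Field F] {ι : F →+* ℂ} {M : Subfield F} {x y g2 g3 : F}
    {D : Derivation ℤ F F} {z0 : ℂ} (H : EllF a b ι M x y g2 g3 D z0) {n : ℕ}
    (om et w c e : Fin n → F) (U : F) (hc : ∀ i, c i ∈ M) (he : ∀ i, e i ∈ M)
    (hpt : ∀ i, (om i = 0 ∧ et i = 0) ∨ ∃ X Y : F, Y ≠ 0 ∧ Y ^ 2 = 4 * X ^ 3 - g2 * X - g3 ∧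
      om i = D X / Y ∧ et i = X * D X / Y)
    (hU : D U = ∑ i, (c i * om i - e i * (et i + D (w i)))) :
    ∃ t : Fin n → ℂ, (∀ i, t i ∈ EndL a b) ∧ (∀ i, ι (om i) = t i) ∧
      ∑ i, ι (e i) * conj (t i) = 0 ∧ ((∀ i, e i = 0) → ∑ i, ι (c i) * t i = 0) := by
  obtain ⟨A, B, hB, hAB⟩ := eta_lin H.ind
  obtain ⟨r, r1, r2, r3, r4, r5, r6, r7, r8, r9⟩ := realize H
  choose t Z ht hιt hrt hZ hper using fun i =>
    EX.single H hAB r1 r2 r3 r4 r5 r6 r8 r9 (om i) (et i) (hpt i)
  have r0 : Cod fun z => r 0 z = 0 := by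
    have := r4 0 M.zero_mem
    rwa [map_zero] at this
  have rsum : ∀ (s : Finset (Fin n)) (f : Fin n → F),
      Cod fun z => r (∑ i ∈ s, f i) z = ∑ i ∈ s, r (f i) z := by
    intro s f
    classical
    induction s using Finset.induction_on with
    | empty => simpa using r0
    | insert i s hi ih =>
      intro u
      filter_upwards [ih u, r5 (f i) (∑ j ∈ s, f j) u] with z e1 e2
      rw [Finset.sum_insert hi, Finset.sum_insert hi, e2, e1]
  -- the derivative of `U`
  have hDU : Cod fun z => r (D U) z = ∑ i, ι (c i) * t i -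
      ∑ i, ι (e i) * (r (et i) z + r (D (w i)) z) := by
    have e1 : D U + ∑ i, e i * (et i + D (w i)) = ∑ i, c i * om i := by
      rw [hU, ← Finset.sum_add_distrib]
      exact Finset.sum_congr rfl fun i _ => by ring
    intro s
    filter_upwards [r5 (D U) (∑ i, e i * (et i + D (w i))) s,
      rsum Finset.univ (fun i => e i * (et i + D (w i))) s,
      rsum Finset.univ (fun i => c i * om i) s,
      EX.cod_all (fun i => r6 (e i) (et i + D (w i))) s,
      EX.cod_all (fun i => r6 (c i) (om i)) s,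
      EX.cod_all (fun i => r5 (et i) (D (w i))) s,
      EX.cod_all (fun i => r4 (e i) (he i)) s,
      EX.cod_all (fun i => r4 (c i) (hc i)) s, EX.cod_all hrt s]
      with z k1 k2 k3 k4 k5 k6 k7 k8 k9
    rw [e1, k3, k2] at k1
    have k10 : ∑ i, r (c i * om i) z = ∑ i, ι (c i) * t i :=
      Finset.sum_congr rfl fun i _ => by rw [k5, k8, k9]
    have k11 : ∑ i, r (e i * (et i + D (w i))) z = ∑ i, ι (e i) * (r (et i) z + r (D (w i)) z) :=
      Finset.sum_congr rfl fun i _ => by rw [k4, k7, k6]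
    rw [k10, k11] at k1
    linear_combination -k1
  set W : ℂ → ℂ := fun z => r U z + ∑ i, ι (e i) * (Z i z + r (w i) z) - (∑ i, ι (c i) * t i) * z
    with hW
  have hW0 : Cod fun z => HasDerivAt W 0 z := by
    intro s
    filter_upwards [hDU s, r9 U s, EX.cod_all hZ s, EX.cod_all (fun i => r9 (w i)) s]
      with z k1 k2 k3 k4
    have k5 : HasDerivAt (fun z => ∑ i, ι (e i) * (Z i z + r (w i) z))
        (∑ i, ι (e i) * (r (et i) z + r (D (w i)) z)) z :=
      HasDerivAt.fun_sum fun i _ => ((k3 i).add (k4 i)).const_mul _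
    have k6 : HasDerivAt (fun z : ℂ => (∑ i, ι (c i) * t i) * z) (∑ i, ι (c i) * t i) z := by
      simpa using (hasDerivAt_id z).const_mul (∑ i, ι (c i) * t i)
    refine ((k2.add k5).sub k6).congr_deriv ?_
    rw [k1]
    ring
  obtain ⟨C, hC⟩ := EX.const_of_cod hW0
  have hrel : ∀ v : ℤ × ℤ, (A * (∑ i, ι (e i) * t i) + ∑ i, ι (c i) * t i) * lat a b v +
      B * (∑ i, ι (e i) * conj (t i)) * conj (lat a b v) = 0 := by
    intro v
    obtain ⟨z, k1, k2, k3⟩ := EX.cod_exists (hC.and ((EX.cod_shift hC (lat a b v)).and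
      (EX.cod_all fun i => hper i v)))
    have k4 : ∑ i, ι (e i) * (Z i (z + lat a b v) + r (w i) z) =
        ∑ i, ι (e i) * (Z i z + r (w i) z) - (A * (∑ i, ι (e i) * t i) * lat a b v +
          B * (∑ i, ι (e i) * conj (t i)) * conj (lat a b v)) := by
      rw [Finset.mul_sum, Finset.mul_sum, Finset.sum_mul, Finset.sum_mul,
        ← Finset.sum_add_distrib, ← Finset.sum_sub_distrib]
      refine Finset.sum_congr rfl fun i _ => ?_
      rw [k3 i]
      ring
    have k5 : W (z + lat a b v) = W z := by rw [k1, k2]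
    simp only [hW, r2, k4] at k5
    linear_combination -k5
  obtain ⟨p1, p2⟩ := EX.solve H.ind (by simpa [lat] using hrel (1, 0))
    (by simpa [lat] using hrel (0, 1))
  refine ⟨t, ht, hιt, (mul_eq_zero.mp p2).resolve_left hB, fun h0 => ?_⟩
  have h1 : ∑ i, ι (e i) * t i = 0 := Finset.sum_eq_zero fun i _ => by rw [h0 i, map_zero, zero_mul]
  rw [h1, mul_zero, zero_add] at p1
  exact p1

end Pool.Agent.EllSch
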