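import Pool.Agent.EllSch.Fix.DerC
import Pool.Agent.EllSch.Zeta
import Pool.Agent.EllSch.Fix.Exact

/-! # [D2] Derivations and multiplication by endomorphisms: the function `ζ` -/

open Filter Topology Polynomial ComplexConjugate

namespace Pool.Agent.EllSch

namespace DerZ

theorem tendsto_mul_wz {a b : ℂ} (h : Ind a b) :
    Tendsto (fun z => z * wz a b z) (𝓝[≠] 0) (𝓝 1) := by
  have h1 := Add.tendsto_wz_sub h
  have h0 : Tendsto (fun z : ℂ => z) (𝓝[≠] 0) (𝓝 0) := tendsto_nhdsWithin_of_tendsto_nhds tendsto_id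
  have h2 := (h0.mul h1).add_const 1
  rw [mul_zero, zero_add] at h2
  refine h2.congr' ?_
  filter_upwards [self_mem_nhdsWithin] with z hz
  have hz' : z ≠ 0 := hz
  field_simp
  ring

theorem meromorphicAt_wz {a b : ℂ} (h : Ind a b) : MeromorphicAt (wz a b) 0 := by
  classical
  have h1 := tendsto_mul_wz h
  let g : ℂ → ℂ := Function.update (fun z => z * wz a b z) 0 1
  have hg0 : g 0 = 1 := Function.update_self _ _ _
  have hg : ∀ z, z ≠ 0 → g z = z * wz a b z := fun z hz => Function.update_of_ne hz _ _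
  have hga : AnalyticAt ℂ g 0 := by
    apply Complex.analyticAt_of_differentiable_on_punctured_nhds_of_continuousAt
    · filter_upwards [Basic.eventually_off h 0, self_mem_nhdsWithin] with z hz hz0
      have hz0' : z ≠ 0 := hz0
      have d1 : DifferentiableAt ℂ (fun z => z * wz a b z) z :=
        differentiableAt_id.mul (hasDerivAt_wz h hz).differentiableAt
      refine d1.congr_of_eventuallyEq ?_
      filter_upwards [isOpen_ne.mem_nhds hz0'] with w hw using hg w hw
    · rw [continuousAt_iff_punctured_nhds, hg0]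
      refine h1.congr' ?_
      filter_upwards [self_mem_nhdsWithin] with z hz using (hg z hz).symm
  have h2 : MeromorphicAt (fun z => g z / z) 0 := hga.meromorphicAt.div (MeromorphicAt.id 0)
  refine h2.congr ?_
  filter_upwards [self_mem_nhdsWithin] with z hz
  have hz' : z ≠ 0 := hz
  rw [hg z hz']
  field_simp

/-- the function `ζ (α z) - conj α ζ (z) - s z` -/
noncomputable def G (a b α s z : ℂ) : ℂ := wz a b (α * z) - conj α * wz a b z - s * z

theorem G_neg (a b α s z : ℂ) : G a b α s (-z) = -G a b α s z := by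
  unfold G
  rw [mul_neg, wz_neg, wz_neg]
  ring

/-- the relation satisfied by `s` -/
def Rel (a b α s : ℂ) : Prop :=
  ∀ x y : ℤ × ℤ, α * lat a b x = lat a b y → eta a b y = conj α * eta a b x + s * lat a b x

theorem exists_rel {a b : ℂ} (h : Ind a b) (α : ℂ) : ∃ s, Rel a b α s := by
  obtain ⟨A, B, _, hAB⟩ := eta_lin h
  refine ⟨A * (α - conj α), ?_⟩
  intro x y hxy
  rw [hAB, hAB, ← hxy, map_mul]
  ring

theorem G_add_lat {a b α s : ℂ} (h : Ind a b) (hα : α ∈ EndL a b) (hs : Rel a b α s) {z : ℂ}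
    (hz : Off a b (α * z)) (x : ℤ × ℤ) : G a b α s (z + lat a b x) = G a b α s z := by
  obtain ⟨y, hy⟩ := hα x
  have hz' := CMul.off_of_off_mul hα hz
  unfold G
  rw [mul_add, hy, wz_add_lat h hz, wz_add_lat h hz', hs x y hy]
  ring

theorem hasDerivAt_G {a b α s : ℂ} (h : Ind a b) (hα : α ∈ EndL a b) {z : ℂ}
    (hz : Off a b (α * z)) :
    HasDerivAt (G a b α s) (-(α * wp a b (α * z)) + conj α * wp a b z - s) z := by
  have hz' := CMul.off_of_off_mul hα hz
  have h1 : HasDerivAt (fun z => wz a b (α * z)) (-wp a b (α * z) * α) z := by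
    have h2 : HasDerivAt (fun z : ℂ => α * z) α z := by
      simpa using (hasDerivAt_id z).const_mul α
    exact HasDerivAt.comp z (hasDerivAt_wz h hz) h2
  have h2 := (hasDerivAt_wz h hz').const_mul (conj α)
  have h3 : HasDerivAt (fun z : ℂ => s * z) s z := by
    simpa using (hasDerivAt_id z).const_mul s
  refine ((h1.sub h2).sub h3).congr_deriv ?_
  ring

/-- the limit at a point off the lattice -/
theorem exists_limit {a b α s : ℂ} (h : Ind a b) (h0 : α ≠ 0)
    (V : Finset ℂ) (hV : ∀ s, Off a b s → ¬ Off a b (α * s) → wp a b s ∈ V) {u : ℂ}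
    (hu : Off a b u) :
    ∃ c, Tendsto (fun z => (∏ v ∈ V, (X - C v) : ℂ[X]).eval (wp a b z) * G a b α s z *
      wq a b z) (𝓝[≠] u) (𝓝 c) := by
  have cwp : ContinuousAt (wp a b) u := (hasDerivAt_wp h hu).continuousAt
  have cwq : ContinuousAt (wq a b) u := (hasDerivAt_wq h hu).continuousAt
  have cwz : ContinuousAt (wz a b) u := (hasDerivAt_wz h hu).continuousAt
  have cQ : ContinuousAt (fun z => (∏ v ∈ V, (X - C v) : ℂ[X]).eval (wp a b z)) u :=
    ContinuousAt.comp (f := wp a b) (Polynomial.continuous _).continuousAt cwp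
  -- it is enough to treat the product with `ζ (α z)`
  have key : ∃ c, Tendsto (fun z => (∏ v ∈ V, (X - C v) : ℂ[X]).eval (wp a b z) *
      wz a b (α * z)) (𝓝[≠] u) (𝓝 c) := by
    by_cases hαu : Off a b (α * u)
    · have c2 : ContinuousAt (fun z => wz a b (α * z)) u := by
        have : ContinuousAt (wz a b) (α * u) := (hasDerivAt_wz h hαu).continuousAt
        exact ContinuousAt.comp (f := fun z => α * z) this (by fun_prop)
      exact ⟨_, (cQ.mul c2).tendsto.mono_left nhdsWithin_le_nhds⟩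
    · obtain ⟨y, hy⟩ := (Basic.not_off_iff a b _).1 hαu
      have hmem := hV u hu hαu
      have hsl : Tendsto (fun z => (wp a b z - wp a b u) / (z - u)) (𝓝[≠] u)
          (𝓝 (wq a b u)) := by
        have := hasDerivAt_iff_tendsto_slope.1 (hasDerivAt_wp h hu)
        refine this.congr' (Eventually.of_forall fun z => ?_)
        rw [slope_def_field]
      have h3 : Tendsto (fun z => (α * (z - u)) * wz a b (α * (z - u))) (𝓝[≠] u) (𝓝 1) :=
        (tendsto_mul_wz h).comp (CMul.tendsto_mul_nhdsNE h0 u)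
      have h4 : Tendsto (fun z => (∏ v ∈ V.erase (wp a b u), (X - C v) : ℂ[X]).eval (wp a b z))
          (𝓝[≠] u) (𝓝 ((∏ v ∈ V.erase (wp a b u), (X - C v) : ℂ[X]).eval (wp a b u))) :=
        (ContinuousAt.comp (f := wp a b) (Polynomial.continuous _).continuousAt
          cwp).tendsto.mono_left nhdsWithin_le_nhds
      have h5 : Tendsto (fun z => (∏ v ∈ V, (X - C v) : ℂ[X]).eval (wp a b z)) (𝓝[≠] u)
          (𝓝 ((∏ v ∈ V, (X - C v) : ℂ[X]).eval (wp a b u))) :=
        cQ.tendsto.mono_left nhdsWithin_le_nhds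
      have h6 : ∀ᶠ z in 𝓝[≠] u, Off a b (α * (z - u)) :=
        (CMul.tendsto_mul_nhdsNE h0 u).eventually (Basic.eventually_off h 0)
      refine ⟨_, ((((hsl.mul h4).mul (h3.const_mul α⁻¹))).add
        (h5.mul_const (eta a b y))).congr' ?_⟩
      filter_upwards [self_mem_nhdsWithin, h6] with z hz hz6
      have hz' : z - u ≠ 0 := sub_ne_zero.2 hz
      have e1 : wz a b (α * z) = wz a b (α * (z - u)) + eta a b y := by
        rw [← wz_add_lat h hz6 y, ← hy]
        congr 1
        ring
      rw [← Finset.mul_prod_erase V _ hmem, eval_mul, e1]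
      simp only [eval_sub, eval_X, eval_C]
      field_simp
  obtain ⟨c, hc⟩ := key
  have t1 : Tendsto (fun z => (∏ v ∈ V, (X - C v) : ℂ[X]).eval (wp a b z)) (𝓝[≠] u)
      (𝓝 ((∏ v ∈ V, (X - C v) : ℂ[X]).eval (wp a b u))) :=
    cQ.tendsto.mono_left nhdsWithin_le_nhds
  have t2 : Tendsto (wz a b) (𝓝[≠] u) (𝓝 (wz a b u)) := cwz.tendsto.mono_left nhdsWithin_le_nhds
  have t3 : Tendsto (wq a b) (𝓝[≠] u) (𝓝 (wq a b u)) := cwq.tendsto.mono_left nhdsWithin_le_nhds
  have t4 : Tendsto (fun z : ℂ => z) (𝓝[≠] u) (𝓝 u) :=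
    tendsto_nhdsWithin_of_tendsto_nhds tendsto_id
  refine ⟨_, (((hc.sub (t1.mul (t2.const_mul (conj α)))).sub
    (t1.mul (t4.const_mul s))).mul t3).congr' (Eventually.of_forall fun z => ?_)⟩
  simp only [G]
  ring

/-- `G (z) ℘' (z)` is a rational function of `℘ z` -/
theorem exists_fun {a b α s : ℂ} (h : Ind a b) (hα : α ∈ EndL a b) (h0 : α ≠ 0)
    (hs : Rel a b α s) :
    ∃ N Q : ℂ[X], ∀ z, Off a b (α * z) →
      Q.eval (wp a b z) ≠ 0 ∧ Q.eval (wp a b z) * G a b α s z * wq a b z = N.eval (wp a b z) := by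
  classical
  set V : Finset ℂ := (CMul.finite_vals h hα h0).toFinset with hVdef
  have hV : ∀ s, Off a b s → ¬ Off a b (α * s) → wp a b s ∈ V := by
    intro s hs hs'
    rw [hVdef, Set.Finite.mem_toFinset]
    exact ⟨s, hs, hs', rfl⟩
  set Q : ℂ[X] := ∏ v ∈ V, (X - C v) with hQ
  set f : ℂ → ℂ := fun z => Q.eval (wp a b z) * G a b α s z * wq a b z with hf
  have fneg : ∀ z, f (-z) = f z := by
    intro z
    simp only [hf]
    rw [wp_neg h, G_neg, wq_neg h]
    ring
  have fper : ∀ v z, Off a b (α * z) → f (z + lat a b v) = f z := by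
    intro v z hz
    simp only [hf]
    rw [wp_add_lat h, G_add_lat h hα hs hz, wq_add_lat h]
  set F : ℂ → ℂ := fun z => limUnder (𝓝[≠] z) f with hF
  have hlim : ∀ z, Off a b z → Tendsto f (𝓝[≠] z) (𝓝 (F z)) := by
    intro z hz
    exact tendsto_nhds_limUnder (exists_limit h h0 V hV hz)
  have hfd : ∀ z, Off a b (α * z) → DifferentiableAt ℂ f z := by
    intro z hz
    have hz' := CMul.off_of_off_mul hα hz
    have d1 : DifferentiableAt ℂ (fun z => Q.eval (wp a b z)) z :=
      DifferentiableAt.comp z (Polynomial.differentiable Q).differentiableAt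
        (Basic.differentiableAt_wp h hz')
    exact (d1.mul (hasDerivAt_G h hα hz).differentiableAt).mul (Basic.differentiableAt_wq h hz')
  have hFf : ∀ z, Off a b (α * z) → F z = f z := by
    intro z hz
    exact tendsto_nhds_unique (hlim z (CMul.off_of_off_mul hα hz))
      ((hfd z hz).continuousAt.tendsto.mono_left nhdsWithin_le_nhds)
  have hFev : ∀ s, F =ᶠ[𝓝[≠] s] f := fun s => by
    filter_upwards [CMul.eventually_off_mul h h0 s] with z hz using hFf z hz
  have hFd : ∀ z, Off a b z → DifferentiableAt ℂ F z := by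
    intro z hz
    refine (Complex.analyticAt_of_differentiable_on_punctured_nhds_of_continuousAt ?_
      ?_).differentiableAt
    · filter_upwards [CMul.eventually_off_mul h h0 z] with u hu
      refine (hfd u hu).congr_of_eventuallyEq ?_
      have hopen : IsOpen {z : ℂ | Off a b (α * z)} :=
        (isOpen_off h).preimage (continuous_const.mul continuous_id)
      filter_upwards [hopen.mem_nhds hu] with v hv using hFf v hv
    · rw [continuousAt_iff_punctured_nhds]
      exact (hlim z hz).congr' (hFev z).symm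
  have hFneg : ∀ z, Off a b z → F (-z) = F z := by
    intro z hz
    have h1 := hlim (-z) (off_neg.2 hz)
    have h2 : Tendsto (fun u : ℂ => -u) (𝓝[≠] z) (𝓝[≠] (-z)) := by
      rw [tendsto_nhdsWithin_iff]
      constructor
      · exact (continuous_neg.tendsto z).mono_left nhdsWithin_le_nhds
      · filter_upwards [self_mem_nhdsWithin] with u hu
        exact fun he => hu (neg_injective he)
    refine tendsto_nhds_unique ((h1.comp h2).congr' (Eventually.of_forall fun u => ?_)) (hlim z hz)
    simp only [Function.comp_apply]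
    exact fneg u
  have hFper : ∀ v z, Off a b z → F (z + lat a b v) = F z := by
    intro v z hz
    have h1 := hlim (z + lat a b v) ((off_add_lat v).2 hz)
    have h2 : Tendsto (fun u : ℂ => u + lat a b v) (𝓝[≠] z) (𝓝[≠] (z + lat a b v)) := by
      rw [tendsto_nhdsWithin_iff]
      constructor
      · exact ((continuous_id.add continuous_const).tendsto z).mono_left nhdsWithin_le_nhds
      · filter_upwards [self_mem_nhdsWithin] with u hu
        exact fun he => hu (add_right_cancel he)
    refine tendsto_nhds_unique ((h1.comp h2).congr' ?_) (hlim z hz)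
    filter_upwards [CMul.eventually_off_mul h h0 z] with u hu
    simp only [Function.comp_apply]
    exact fper v u hu
  have hFm : MeromorphicAt F 0 := by
    have m1 : MeromorphicAt (fun z => wz a b (α * z)) 0 := by
      have hm : MeromorphicAt (wz a b) (α * 0) := by
        rw [mul_zero]
        exact meromorphicAt_wz h
      exact MeromorphicAt.comp_analyticAt (f := wz a b) (g := fun z => α * z) hm (by fun_prop)
    have m3 := meromorphicAt_wz h
    have m4 : MeromorphicAt (wq a b) 0 := by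
      have := (EvenPoly.meromorphicAt_wp h 0).deriv
      refine this.congr ?_
      filter_upwards [Basic.eventually_off h 0] with z hz
      exact (hasDerivAt_wp h hz).deriv
    have m2 : MeromorphicAt (fun z => Q.eval (wp a b z)) 0 := by
      have e : (fun z => Q.eval (wp a b z)) = fun z => ∏ v ∈ V, (wp a b z - v) := by
        ext z
        rw [hQ, eval_prod]
        simp
      rw [e]
      have := EvenPoly.meromorphicAt_wp h 0
      fun_prop
    have m5 : MeromorphicAt (G a b α s) 0 := by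
      unfold G
      fun_prop
    exact ((m2.mul m5).mul m4).congr (hFev 0).symm
  obtain ⟨N, hN⟩ := even_poly h hFd hFper hFneg hFm
  refine ⟨N, Q, fun z hz => ?_⟩
  have hz' := CMul.off_of_off_mul hα hz
  have hQz : Q.eval (wp a b z) ≠ 0 := by
    rw [hQ, eval_prod, Finset.prod_ne_zero_iff]
    intro v hv hv0
    rw [hVdef, Set.Finite.mem_toFinset] at hv
    obtain ⟨s, hs, hs', rfl⟩ := hv
    have he : wp a b z = wp a b s := by
      have : wp a b z - wp a b s = 0 := by simpa using hv0
      exact sub_eq_zero.1 this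
    obtain ⟨y, hy⟩ := (Basic.not_off_iff a b _).1 hs'
    rcases CMul.eq_or_neg h hz' hs he with ⟨x, hx⟩ | ⟨x, hx⟩
    · obtain ⟨w, hw⟩ := hα x
      refine hz (y + w) ?_
      rw [hx, mul_add, hy, hw, lat_add]
    · obtain ⟨w, hw⟩ := hα x
      refine hz (-y + w) ?_
      rw [hx, mul_add, mul_neg, hy, hw, lat_add, lat_neg]
  refine ⟨hQz, ?_⟩
  rw [← hN z hz', hFf z hz]

/-- the identity obtained by differentiating with respect to `z` -/
theorem deriv_identity {a b α s : ℂ} (h : Ind a b) (hα : α ∈ EndL a b) {N Q : ℂ[X]}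
    (hNQ : ∀ z, Off a b (α * z) →
      Q.eval (wp a b z) ≠ 0 ∧ Q.eval (wp a b z) * G a b α s z * wq a b z = N.eval (wp a b z))
    {z : ℂ} (hz : Off a b (α * z)) :
    (derivative Q).eval (wp a b z) * wq a b z * G a b α s z * wq a b z +
      Q.eval (wp a b z) * (-(α * wp a b (α * z)) + conj α * wp a b z - s) * wq a b z +
      Q.eval (wp a b z) * G a b α s z * (6 * wp a b z ^ 2 - G2 a b / 2) =
      (derivative N).eval (wp a b z) * wq a b z := by
  have hz' := CMul.off_of_off_mul hα hz
  have dP := hasDerivAt_wp h hz'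
  have dQ : HasDerivAt (fun z => Q.eval (wp a b z)) ((derivative Q).eval (wp a b z) * wq a b z) z :=
    HasDerivAt.comp z (Q.hasDerivAt _) dP
  have dN : HasDerivAt (fun z => N.eval (wp a b z)) ((derivative N).eval (wp a b z) * wq a b z) z :=
    HasDerivAt.comp z (N.hasDerivAt _) dP
  have d1 := (dQ.mul (hasDerivAt_G (s := s) h hα hz)).mul (hasDerivAt_wq h hz')
  have hopen : IsOpen {z : ℂ | Off a b (α * z)} :=
    (isOpen_off h).preimage (continuous_const.mul continuous_id)
  have d2 := d1.congr_of_eventuallyEq (f₁ := fun z => N.eval (wp a b z)) (by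
    filter_upwards [hopen.mem_nhds hz] with v hv using (hNQ v hv).2.symm)
  have := d2.unique dN
  simp only [Pi.mul_apply] at this
  linear_combination this

theorem L_torsion {a b : ℂ} {δ : Derivation ℤ ℂ ℂ} {L H : ℂ →+ ℂ} (hLH : LH a b δ L H) {z : ℂ}
    {n : ℕ} (hn : 0 < n) {x : ℤ × ℤ} (hz : (n : ℂ) * z = lat a b x) :
    L z = 0 ∧ (n : ℂ) * H z = δ (eta a b x) := by
  have h1 : (n : ℂ) * L z = 0 := by
    rw [← hLH.L_lat x, ← hz, ← nsmul_eq_mul, ← nsmul_eq_mul, map_nsmul]
  have h2 : (n : ℂ) * H z = δ (eta a b x) := by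
    rw [← hLH.H_lat x, ← hz, ← nsmul_eq_mul, ← nsmul_eq_mul, map_nsmul]
  have hn' : (n : ℂ) ≠ 0 := by exact_mod_cast hn.ne'
  exact ⟨(mul_eq_zero.1 h1).resolve_left hn', h2⟩

theorem der_nat_mul (δ : Derivation ℤ ℂ ℂ) (n : ℕ) (z : ℂ) : δ ((n : ℂ) * z) = n * δ z := by
  rw [← nsmul_eq_mul, ← nsmul_eq_mul, map_nsmul]

theorem der_mul (δ : Derivation ℤ ℂ ℂ) (x y : ℂ) : δ (x * y) = x * δ y + y * δ x := by
  rw [Derivation.leibniz, smul_eq_mul, smul_eq_mul]

/-- at the torsion points `G` is killed -/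
theorem der_G_torsion {a b α s : ℂ} (h : Ind a b) (hα : α ∈ EndL a b)
    (hs : Rel a b α s) {δ : Derivation ℤ ℂ ℂ} (h2 : δ (G2 a b) = 0) (h3 : δ (G3 a b) = 0)
    {L H : ℂ →+ ℂ} (hLH : LH a b δ L H) {z : ℂ} {n : ℕ} (hn : 0 < n) {x : ℤ × ℤ}
    (hz : (n : ℂ) * z = lat a b x) (hz1 : Off a b z) (hz2 : Off a b (α * z)) :
    δ (wp a b z) = 0 ∧ δ (wq a b z) = 0 ∧ δ (wp a b (α * z)) = 0 ∧ δ (G a b α s z) = 0 := by
  obtain ⟨y, hy⟩ := hα x
  have hαz : (n : ℂ) * (α * z) = lat a b y := by rw [← hy, ← hz]; ring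
  obtain ⟨t1, t2⟩ := L_torsion hLH hn hz
  obtain ⟨t3, t4⟩ := L_torsion hLH hn hαz
  obtain ⟨v1, v2, v3⟩ := LH.vals h h2 h3 hLH hz1
  obtain ⟨w1, w2, w3⟩ := LH.vals h h2 h3 hLH hz2
  obtain ⟨c1, c2⟩ := (der_end h hα).1 δ
  rw [t1, mul_zero] at v1 v2
  rw [t1, mul_zero, sub_zero] at v3
  rw [t3, mul_zero] at w1
  rw [t3, mul_zero, sub_zero] at w3
  refine ⟨v1, v2, w1, ?_⟩
  have hn' : (n : ℂ) ≠ 0 := by exact_mod_cast hn.ne'
  apply (mul_eq_zero.1 (?_ : (n : ℂ) * δ (G a b α s z) = 0)).resolve_left hn'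
  have e1 : δ (eta a b y) = conj α * δ (eta a b x) + δ (s * lat a b x) := by
    rw [hs x y hy, map_add, der_mul δ (conj α), c2, mul_zero, add_zero]
  have e2 : δ (s * lat a b x) = n * δ (s * z) := by
    rw [← der_nat_mul, ← hz]
    congr 1
    ring
  unfold G
  rw [map_sub, map_sub, der_mul δ (conj α), c2, mul_zero, add_zero, v3, w3]
  rw [e2, ← t4, ← t2] at e1
  linear_combination e1

/-- the coefficients of the rational function are killed -/
theorem der_coeff_G {a b α s : ℂ} (h : Ind a b) (hα : α ∈ EndL a b) (h0 : α ≠ 0)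
    (hs : Rel a b α s) {δ : Derivation ℤ ℂ ℂ} (h2 : δ (G2 a b) = 0) (h3 : δ (G3 a b) = 0)
    {L H : ℂ →+ ℂ} (hLH : LH a b δ L H) {N Q : ℂ[X]}
    (hNQ : ∀ z, Off a b (α * z) →
      Q.eval (wp a b z) ≠ 0 ∧ Q.eval (wp a b z) * G a b α s z * wq a b z = N.eval (wp a b z)) :
    dco δ N * Q = N * dco δ Q := by
  rw [← sub_eq_zero]
  apply poly_eq_zero_of_torsion h h0
  intro x l hl hz1 hz2
  have hl' : (l : ℂ) ≠ 0 := by exact_mod_cast hl.ne'
  have hz : (l : ℂ) * (lat a b x / l) = lat a b x := mul_div_cancel₀ _ hl'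
  set z : ℂ := lat a b x / l
  obtain ⟨k1, k2, k3, k4⟩ := der_G_torsion h hα hs h2 h3 hLH hl hz hz1 hz2
  obtain ⟨q0, q1⟩ := hNQ z hz2
  have e1 := congrArg δ q1
  rw [der_mul, der_mul, k2, k4, der_poly, der_poly, k1] at e1
  simp only [mul_zero, zero_add, add_zero] at e1
  rw [eval_sub, eval_mul, eval_mul, ← q1, ← e1]
  ring

/-- the number `s` is killed -/
theorem der_s {a b α s : ℂ} (h : Ind a b) (hα : α ∈ EndL a b) (h0 : α ≠ 0)
    (hs : Rel a b α s) {δ : Derivation ℤ ℂ ℂ} (h2 : δ (G2 a b) = 0) (h3 : δ (G3 a b) = 0)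
    {L H : ℂ →+ ℂ} (hLH : LH a b δ L H) {N Q : ℂ[X]}
    (hNQ : ∀ z, Off a b (α * z) →
      Q.eval (wp a b z) ≠ 0 ∧ Q.eval (wp a b z) * G a b α s z * wq a b z = N.eval (wp a b z)) :
    δ s = 0 := by
  by_contra hne
  have hT := der_coeff_G h hα h0 hs h2 h3 hLH hNQ
  obtain ⟨c1, c2⟩ := (der_end h hα).1 δ
  -- the polynomial `4 X ^ 3 - g2 X - g3` would vanish
  have hzero : (C 4 * X ^ 3 - C (G2 a b) * X - C (G3 a b) : ℂ[X]) = 0 := by
    apply poly_eq_zero_of_torsion h h0
    intro x l hl hz1 hz2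
    have hl' : (l : ℂ) ≠ 0 := by exact_mod_cast hl.ne'
    have hz : (l : ℂ) * (lat a b x / l) = lat a b x := mul_div_cancel₀ _ hl'
    set z : ℂ := lat a b x / l
    obtain ⟨k1, k2, k3, k4⟩ := der_G_torsion h hα hs h2 h3 hLH hl hz hz1 hz2
    obtain ⟨q0, q1⟩ := hNQ z hz2
    have hE := deriv_identity h hα hNQ hz2
    have hd := congrArg δ hE
    have e0 : δ (N.eval (wp a b z)) = (dco δ N).eval (wp a b z) := by
      rw [der_poly, k1, mul_zero, add_zero]
    have e1 : δ (Q.eval (wp a b z)) = (dco δ Q).eval (wp a b z) := by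
      rw [der_poly, k1, mul_zero, add_zero]
    have hdd : ∀ p : ℂ[X], dco δ (derivative p) = derivative (dco δ p) := by
      intro p
      ext i
      rw [coeff_dco, coeff_derivative, coeff_derivative, coeff_dco]
      have : ((i : ℂ) + 1) = ((i + 1 : ℕ) : ℂ) := by push_cast; ring
      rw [this, mul_comm, der_nat_mul, mul_comm]
    have e2 : δ ((derivative N).eval (wp a b z)) = (derivative (dco δ N)).eval (wp a b z) := by
      rw [der_poly, k1, mul_zero, add_zero, hdd]
    have e3 : δ ((derivative Q).eval (wp a b z)) = (derivative (dco δ Q)).eval (wp a b z) := by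
      rw [der_poly, k1, mul_zero, add_zero, hdd]
    have e4 : δ (6 * wp a b z ^ 2 - G2 a b / 2) = 0 := by
      have i1 : δ (6 * wp a b z ^ 2) = 0 := by
        have := der_nat_mul δ 6 (wp a b z ^ 2)
        have i2 : ((6 : ℕ) : ℂ) = 6 := by norm_num
        rw [i2] at this
        rw [this, pow_two, der_mul, k1]
        ring
      have i3 : δ (G2 a b / 2) = 0 := by
        have := der_nat_mul δ 2 (G2 a b / 2)
        have i2 : ((2 : ℕ) : ℂ) = 2 := by norm_num
        rw [i2, mul_div_cancel₀ _ (by norm_num : (2 : ℂ) ≠ 0), h2] at this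
        have := this.symm
        rcases mul_eq_zero.1 this with j | j
        · norm_num at j
        · exact j
      rw [map_sub, i1, i3, sub_zero]
    have e5 : δ (-(α * wp a b (α * z)) + conj α * wp a b z - s) = -δ s := by
      rw [map_sub, map_add, map_neg, der_mul, der_mul, c1, c2, k1, k3]
      ring
    simp only [map_add, der_mul, e1, e2, e3, e4, e5, k2, k4] at hd
    have hode := ode h hz1
    rw [eval_sub, eval_sub, eval_mul, eval_mul, eval_pow, eval_C, eval_C, eval_C, eval_X, ← hode]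
    have hT1 := congrArg (fun p => p.eval (wp a b z)) hT
    have hT2 := congrArg (fun p => (derivative p).eval (wp a b z)) hT
    simp only [derivative_mul, eval_add, eval_mul] at hT1 hT2
    generalize wp a b z = c at *
    generalize wq a b z = y at *
    generalize G a b α s z = g at *
    generalize wp a b (α * z) = c' at *
    generalize (dco δ N).eval c = dn at *
    generalize (dco δ Q).eval c = dq at *
    generalize (derivative (dco δ N)).eval c = dn1 at *
    generalize (derivative (dco δ Q)).eval c = dq1 at *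
    generalize (derivative N).eval c = n1 at *
    generalize (derivative Q).eval c = qq1 at *
    generalize N.eval c = n at *
    generalize Q.eval c = q at *
    have a1 : dn = g * y * dq := mul_left_cancel₀ q0 (by linear_combination hT1 - dq * q1)
    have a2 : q ^ 2 * y * δ s = 0 := by
      linear_combination -q * hd + dq * hE - y * hT2 + y * qq1 * a1 + y * dq1 * q1
    rcases mul_eq_zero.1 a2 with a3 | a3
    · rcases mul_eq_zero.1 a3 with a4 | a4
      · exact absurd (pow_eq_zero_iff two_ne_zero |>.1 a4) q0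
      · rw [a4]
        ring
    · exact absurd a3 hne
  have := congrArg (fun p => coeff p 3) hzero
  simp at this

/-- the formula when some multiple of `z` is in the lattice -/
theorem H_torsion {a b α s : ℂ} (hα : α ∈ EndL a b) (h : Ind a b)
    (hs : Rel a b α s) {δ : Derivation ℤ ℂ ℂ} (hδs : δ s = 0)
    {L H : ℂ →+ ℂ} (hLH : LH a b δ L H) {z : ℂ} {n : ℕ} (hn : 0 < n) {x : ℤ × ℤ}
    (hz : (n : ℂ) * z = lat a b x) : H (α * z) = conj α * H z + s * (δ z - L z) := by
  obtain ⟨y, hy⟩ := hα x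
  have hαz : (n : ℂ) * (α * z) = lat a b y := by rw [← hy, ← hz]; ring
  obtain ⟨t1, t2⟩ := L_torsion hLH hn hz
  obtain ⟨t3, t4⟩ := L_torsion hLH hn hαz
  obtain ⟨c1, c2⟩ := (der_end h hα).1 δ
  have hn' : (n : ℂ) ≠ 0 := by exact_mod_cast hn.ne'
  apply mul_left_cancel₀ hn'
  rw [t4, hs x y hy, map_add, der_mul δ (conj α), c2, mul_zero, add_zero, der_mul δ s, hδs,
    mul_zero, add_zero, t1, sub_zero, ← t2, ← hz, der_nat_mul]
  ring

/-- the formula at the other points -/
theorem H_generic {a b α s : ℂ} (h : Ind a b) (hα : α ∈ EndL a b) (h0 : α ≠ 0)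
    (hs : Rel a b α s) {δ : Derivation ℤ ℂ ℂ} (h2 : δ (G2 a b) = 0) (h3 : δ (G3 a b) = 0)
    {L H : ℂ →+ ℂ} (hLH : LH a b δ L H) {N Q : ℂ[X]}
    (hNQ : ∀ z, Off a b (α * z) →
      Q.eval (wp a b z) ≠ 0 ∧ Q.eval (wp a b z) * G a b α s z * wq a b z = N.eval (wp a b z))
    {z : ℂ} (hz2 : Off a b (α * z)) (hq : wq a b z ≠ 0) :
    H (α * z) = conj α * H z + s * (δ z - L z) := by
  have hδs := der_s h hα h0 hs h2 h3 hLH hNQ
  have hT := der_coeff_G h hα h0 hs h2 h3 hLH hNQ
  obtain ⟨c1, c2⟩ := (der_end h hα).1 δ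
  have hz1 := CMul.off_of_off_mul hα hz2
  obtain ⟨v1, v2, v3⟩ := LH.vals h h2 h3 hLH hz1
  obtain ⟨w1, w2, w3⟩ := LH.vals h h2 h3 hLH hz2
  have hL := LH.L_end h h2 h3 hLH hα z
  obtain ⟨q0, q1⟩ := hNQ z hz2
  have hE := deriv_identity h hα hNQ hz2
  have hd := congrArg δ q1
  have hT1 := congrArg (fun p => p.eval (wp a b z)) hT
  simp only [eval_mul] at hT1
  rw [der_mul, der_mul, der_poly, der_poly, v1, v2] at hd
  have e5 : δ (G a b α s z) = δ (wz a b (α * z)) - conj α * δ (wz a b z) - s * δ z := by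
    unfold G
    rw [map_sub, map_sub, der_mul δ (conj α), c2, mul_zero, add_zero, der_mul δ s, hδs, mul_zero,
      add_zero]
  rw [w3, v3, hL] at e5
  generalize δ (G a b α s z) = dg at *
  generalize wp a b z = c at *
  generalize wq a b z = y at *
  generalize G a b α s z = g at *
  generalize wp a b (α * z) = c' at *
  generalize (dco δ N).eval c = dn at *
  generalize (dco δ Q).eval c = dq at *
  generalize (derivative N).eval c = n1 at *
  generalize (derivative Q).eval c = qq1 at *
  generalize N.eval c = n at *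
  generalize Q.eval c = q at *
  have a1 : dn = g * y * dq := mul_left_cancel₀ q0 (by linear_combination hT1 - dq * q1)
  have a2 : q * y * (dg - (-(α * c') + conj α * c - s) * L z) = 0 := by
    linear_combination hd - L z * hE + a1
  have a3 : dg - (-(α * c') + conj α * c - s) * L z = 0 := by
    rcases mul_eq_zero.1 a2 with a4 | a4
    · rcases mul_eq_zero.1 a4 with a5 | a5
      · exact absurd a5 q0
      · exact absurd a5 hq
    · exact a4
  linear_combination a3 - e5

end DerZ

/-- for `α` in the endomorphism ring, the quasi-periods satisfy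
`η (α ω) = conj α η (ω) + s ω`, where `s` is killed by all derivations which kill the invariants,
and `H (α z) = conj α H z + s (δ z - L z)` -/
theorem H_end {a b : ℂ} (h : Ind a b) {α : ℂ} (hα : α ∈ EndL a b) :
    ∃ s : ℂ, (∀ x y : ℤ × ℤ, α * lat a b x = lat a b y →
        eta a b y = conj α * eta a b x + s * lat a b x) ∧
      ∀ (δ : Derivation ℤ ℂ ℂ) (L H : ℂ →+ ℂ), δ (G2 a b) = 0 → δ (G3 a b) = 0 →
        LH a b δ L H → δ s = 0 ∧ ∀ z, H (α * z) = conj α * H z + s * (δ z - L z) := by
  by_cases h0 : α = 0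
  · subst h0
    refine ⟨0, ?_, ?_⟩
    · intro x y hxy
      rw [zero_mul] at hxy
      have : y = 0 := by
        apply lat_injective h
        rw [← hxy, lat_zero]
      rw [this]
      simp [eta]
    · intro δ L H _ _ _
      refine ⟨map_zero _, fun z => ?_⟩
      simp
  · obtain ⟨s, hs⟩ := DerZ.exists_rel h α
    obtain ⟨N, Q, hNQ⟩ := DerZ.exists_fun h hα h0 hs
    refine ⟨s, hs, ?_⟩
    intro δ L H h2 h3 hLH
    have hδs := DerZ.der_s h hα h0 hs h2 h3 hLH hNQ
    refine ⟨hδs, fun z => ?_⟩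
    by_cases hz2 : Off a b (α * z)
    · by_cases hq : wq a b z = 0
      · have hz1 := CMul.off_of_off_mul hα hz2
        have h5 : ¬ Off a b (2 * z) := fun h6 => wq_ne_zero h h6 hq
        obtain ⟨x, hx⟩ := (Basic.not_off_iff a b _).1 h5
        exact DerZ.H_torsion hα h hs hδs hLH (n := 2) (by norm_num) (by push_cast; exact hx)
      · exact DerZ.H_generic h hα h0 hs h2 h3 hLH hNQ hz2 hq
    · obtain ⟨y, hy⟩ := (Basic.not_off_iff a b _).1 hz2
      obtain ⟨_, hc, n, hn⟩ := der_end h hα
      obtain ⟨x, hx⟩ := hc y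
      have hn0 : 0 < n := by
        rcases Nat.eq_zero_or_pos n with h6 | h6
        · exfalso
          rw [h6, Nat.cast_zero] at hn
          rcases mul_eq_zero.1 hn with h7 | h7
          · exact h0 (by simpa using h7)
          · exact h0 h7
        · exact h6
      refine DerZ.H_torsion hα h hs hδs hLH hn0 (x := x) ?_
      rw [← hx, ← hy, ← hn]
      ring

end Pool.Agent.EllSch
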