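import Pool.Agent.EllSch.Fix.FDefs

/-! # [E1] Local lemmas on meromorphic maps to an elliptic curve -/

open Filter Topology

namespace Pool.Agent.EllSch

namespace EndT1

theorem eventually_trans {P : ℂ → Prop} (l s : ℂ) (h : ∀ᶠ z in 𝓝[≠] (s + l), P z) :
    ∀ᶠ z in 𝓝[≠] s, P (z + l) := by
  have hc : Tendsto (fun z : ℂ => z + l) (𝓝[≠] s) (𝓝[≠] (s + l)) := by
    apply tendsto_nhdsWithin_of_tendsto_nhds_of_eventually_within
    · exact ((continuous_id.add continuous_const).tendsto s).mono_left nhdsWithin_le_nhds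
    · filter_upwards [self_mem_nhdsWithin] with z hz
      intro h'
      exact hz (add_right_cancel h')
  exact hc.eventually h

theorem analytic_eq_of_nhdsNE {F G : ℂ → ℂ} {s : ℂ} (hF : ContinuousAt F s)
    (hG : ContinuousAt G s) (h : F =ᶠ[𝓝[≠] s] G) : F s = G s := by
  have h1 : Tendsto F (𝓝[≠] s) (𝓝 (F s)) := hF.tendsto.mono_left nhdsWithin_le_nhds
  have h2 : Tendsto G (𝓝[≠] s) (𝓝 (G s)) := hG.tendsto.mono_left nhdsWithin_le_nhds
  exact tendsto_nhds_unique (h1.congr' h) h2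

theorem eq_nhds {F G : ℂ → ℂ} {s : ℂ} (hF : ContinuousAt F s)
    (hG : ContinuousAt G s) (h : F =ᶠ[𝓝[≠] s] G) : F =ᶠ[𝓝 s] G := by
  have h0 := analytic_eq_of_nhdsNE hF hG h
  have h1 : ∀ᶠ z in 𝓝 s, z ≠ s → F z = G z := by
    rw [EventuallyEq, eventually_nhdsWithin_iff] at h
    exact h
  filter_upwards [h1] with z hz
  by_cases hzs : z = s
  · rw [hzs, h0]
  · exact hz hzs

theorem order_nonneg_of_analytic {g F : ℂ → ℂ} {s : ℂ} (hF : AnalyticAt ℂ F s)
    (h : g =ᶠ[𝓝[≠] s] F) : 0 ≤ meromorphicOrderAt g s := by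
  rw [meromorphicOrderAt_congr h]
  exact hF.meromorphicOrderAt_nonneg

/-- pole case -/
theorem order_cubic {g2 g3 : ℂ} {f : ℂ → ℂ} {s : ℂ} {m : ℕ} (hm : 1 ≤ m)
    (hf : MeromorphicAt f s) (hn : meromorphicOrderAt f s = ((-(m : ℤ) : ℤ) : WithTop ℤ)) :
    meromorphicOrderAt (fun z => 4 * f z ^ 3 - g2 * f z - g3) s =
      ((-(3 * (m : ℤ)) : ℤ) : WithTop ℤ) := by
  obtain ⟨u, hu, hu0, hfu⟩ := (meromorphicOrderAt_eq_int_iff hf).1 hn
  have hmer : MeromorphicAt (fun z => 4 * f z ^ 3 - g2 * f z - g3) s := by fun_prop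
  rw [meromorphicOrderAt_eq_int_iff hmer]
  refine ⟨fun z => 4 * u z ^ 3 - g2 * u z * (z - s) ^ (2 * m) - g3 * (z - s) ^ (3 * m),
    by fun_prop, ?_, ?_⟩
  · have h1 : m ≠ 0 := by omega
    simp [h1, hu0]
  · filter_upwards [hfu, self_mem_nhdsWithin] with z hz hzs
    have hne : z - s ≠ 0 := sub_ne_zero.2 hzs
    have hp : (z - s) ^ m ≠ 0 := pow_ne_zero _ hne
    rw [hz, smul_eq_mul, smul_eq_mul, zpow_neg, zpow_neg, zpow_natCast]
    have e3 : (z - s) ^ (3 * (m : ℤ)) = ((z - s) ^ m) ^ 3 := by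
      rw [← pow_mul, ← zpow_natCast]
      congr 1
      push_cast
      ring
    rw [e3, pow_mul' (z - s) 2 m, pow_mul' (z - s) 3 m]
    field_simp

theorem poly_ne {g2 g3 x : ℂ} (hΔ : g2 ^ 3 - 27 * g3 ^ 2 ≠ 0)
    (h : 4 * x ^ 3 - g2 * x - g3 = 0) : 12 * x ^ 2 - g2 ≠ 0 := by
  intro h'
  have e2 : g2 = 12 * x ^ 2 := (sub_eq_zero.1 h').symm
  have e3 : g3 = -8 * x ^ 3 := by
    rw [e2] at h
    linear_combination -h
  apply hΔ
  rw [e2, e3]
  ring

end EndT1

open EndT1

/-- a meromorphic elliptic function without poles is constant -/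
theorem const_of_mero {a b : ℂ} (h : Ind a b) {g : ℂ → ℂ} (hg : ∀ s, MeromorphicAt g s)
    (pg : ∀ v z, g (z + lat a b v) = g z) (h0 : ∀ s, 0 ≤ meromorphicOrderAt g s) :
    ∃ t : ℂ, Cod fun z => g z = t := by
  have hgo : MeromorphicOn g Set.univ := fun s _ => hg s
  set G := toMeromorphicNFOn g Set.univ with hG
  have hGn : MeromorphicNFOn G Set.univ := meromorphicNFOn_toMeromorphicNFOn g Set.univ
  have hGg : ∀ s, G =ᶠ[𝓝[≠] s] g := fun s =>
    hgo.toMeromorphicNFOn_eq_self_on_nhdsNE (Set.mem_univ s)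
  have hGa : ∀ s, AnalyticAt ℂ G s := by
    intro s
    rw [← (hGn (Set.mem_univ s)).meromorphicOrderAt_nonneg_iff_analyticAt,
      meromorphicOrderAt_congr (hGg s)]
    exact h0 s
  have hper : ∀ z x, G (z + lat a b x) = G z := by
    intro z0 x
    have hc1 : ContinuousAt (fun z => G (z + lat a b x)) z0 := by
      have h1 : ContinuousAt G (z0 + lat a b x) := (hGa _).continuousAt
      exact ContinuousAt.comp (g := G) (f := fun z => z + lat a b x) h1
        (continuous_id.add continuous_const).continuousAt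
    refine analytic_eq_of_nhdsNE hc1 (hGa z0).continuousAt ?_
    have h2 : ∀ᶠ z in 𝓝[≠] z0, G (z + lat a b x) = g (z + lat a b x) :=
      eventually_trans (P := fun z => G z = g z) _ _ (hGg (z0 + lat a b x))
    filter_upwards [h2, hGg z0] with z h3 h4
    rw [h3, h4, pg]
  obtain ⟨c, hc⟩ := const_of_periodic h
    (fun z => (hGa z).differentiableAt) hper
  refine ⟨c, fun s => ?_⟩
  filter_upwards [hGg s] with z hz
  rw [← hz, hc]

/-- the pullback of the invariant differential under a meromorphic map to the curve has no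
poles -/
theorem order_nonneg {g2 g3 : ℂ} (hΔ : g2 ^ 3 - 27 * g3 ^ 2 ≠ 0) {f q g : ℂ → ℂ} {s : ℂ}
    (hf : MeromorphicAt f s) (hq : MeromorphicAt q s) (hg : MeromorphicAt g s)
    (h1 : ∀ᶠ z in 𝓝[≠] s, q z ^ 2 = 4 * f z ^ 3 - g2 * f z - g3)
    (h2 : ∀ᶠ z in 𝓝[≠] s, q z ≠ 0)
    (h3 : ∀ᶠ z in 𝓝[≠] s, HasDerivAt f (g z * q z) z) : 0 ≤ meromorphicOrderAt g s := by
  have e1 : (q ^ 2) =ᶠ[𝓝[≠] s] fun z => 4 * f z ^ 3 - g2 * f z - g3 := by
    filter_upwards [h1] with z hz
    simpa using hz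
  have e3 : deriv f =ᶠ[𝓝[≠] s] g * q := by
    filter_upwards [h3] with z hz
    simpa using hz.deriv
  by_cases hneg : meromorphicOrderAt f s < 0
  · -- the pole case
    obtain ⟨n, hn⟩ : ∃ n : ℤ, meromorphicOrderAt f s = (n : WithTop ℤ) := by
      lift meromorphicOrderAt f s to ℤ using hneg.ne_top with n hn
      exact ⟨n, rfl⟩
    have hn0 : n < 0 := by
      rw [hn] at hneg
      exact_mod_cast hneg
    obtain ⟨m, hm⟩ : ∃ m : ℕ, n = -(m : ℤ) := ⟨n.natAbs, by omega⟩
    have hm1 : 1 ≤ m := by omega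
    subst hm
    have o1 := order_cubic (g2 := g2) (g3 := g3) hm1 hf hn
    rw [← meromorphicOrderAt_congr e1, meromorphicOrderAt_pow hq] at o1
    have o2 : meromorphicOrderAt (deriv f) s = ((-(m : ℤ) - 1 : ℤ) : WithTop ℤ) :=
      meromorphicOrderAt_deriv_eq_sub_one (by
        push_cast
        simp
        omega) hn
    rw [meromorphicOrderAt_congr e3, meromorphicOrderAt_mul hg hq] at o2
    have hqt : meromorphicOrderAt q s ≠ ⊤ := by
      intro htop
      rw [htop, WithTop.add_top] at o2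
      exact WithTop.top_ne_coe o2
    have hgt : meromorphicOrderAt g s ≠ ⊤ := by
      intro htop
      rw [htop, WithTop.top_add] at o2
      exact WithTop.top_ne_coe o2
    lift meromorphicOrderAt q s to ℤ using hqt with k hk
    lift meromorphicOrderAt g s to ℤ using hgt with r hr
    have o1' : 2 * k = -(3 * (m : ℤ)) := by
      have c2 : ((2 : ℕ) : WithTop ℤ) = ((2 : ℤ) : WithTop ℤ) := rfl
      rw [c2, ← WithTop.coe_mul] at o1
      exact WithTop.coe_injective o1
    have o2' : r + k = -(m : ℤ) - 1 := by exact_mod_cast o2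
    have : 0 ≤ r := by omega
    exact_mod_cast this
  · -- the regular case
    have hf0 : 0 ≤ meromorphicOrderAt f s := not_lt.1 hneg
    set F := toMeromorphicNFAt f s with hF
    have hFa : AnalyticAt ℂ F s :=
      hf.meromorphicOrderAt_nonneg_iff_analyticAt_toMeromorphicNFAt.1 hf0
    have hFf : f =ᶠ[𝓝[≠] s] F := hf.eq_nhdsNE_toMeromorphicNFAt
    have e1' : (q ^ 2) =ᶠ[𝓝[≠] s] fun z => 4 * F z ^ 3 - g2 * F z - g3 := by
      filter_upwards [e1, hFf] with z hz hz'
      rw [hz, hz']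
    have hPa : AnalyticAt ℂ (fun z => 4 * F z ^ 3 - g2 * F z - g3) s := by fun_prop
    have hq0 : 0 ≤ meromorphicOrderAt q s := by
      have h4 := order_nonneg_of_analytic hPa e1'
      rw [meromorphicOrderAt_pow hq] at h4
      by_cases htop : meromorphicOrderAt q s = ⊤
      · rw [htop]
        exact le_top
      · lift meromorphicOrderAt q s to ℤ using htop with k hk
        have : (0 : ℤ) ≤ 2 * k := by
          have c2 : ((2 : ℕ) : WithTop ℤ) = ((2 : ℤ) : WithTop ℤ) := rfl
          rw [c2, ← WithTop.coe_mul] at h4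
          exact WithTop.coe_le_coe.1 h4
        have : 0 ≤ k := by omega
        exact_mod_cast this
    set Q := toMeromorphicNFAt q s with hQ
    have hQa : AnalyticAt ℂ Q s :=
      hq.meromorphicOrderAt_nonneg_iff_analyticAt_toMeromorphicNFAt.1 hq0
    have hQq : q =ᶠ[𝓝[≠] s] Q := hq.eq_nhdsNE_toMeromorphicNFAt
    have e4 : (fun z => Q z ^ 2) =ᶠ[𝓝[≠] s] fun z => 4 * F z ^ 3 - g2 * F z - g3 := by
      filter_upwards [e1', hQq] with z hz hz'
      rw [← hz']
      simpa using hz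
    have hQ2 : AnalyticAt ℂ (fun z => Q z ^ 2) s := by fun_prop
    have e5 : (fun z => Q z ^ 2) =ᶠ[𝓝 s] fun z => 4 * F z ^ 3 - g2 * F z - g3 :=
      eq_nhds hQ2.continuousAt hPa.continuousAt e4
    have e6 : deriv F =ᶠ[𝓝[≠] s] g * Q := by
      have := hFf.nhdsNE_deriv
      filter_upwards [this, e3, hQq] with z hz hz' hz''
      rw [← hz, hz']
      simp [hz'']
    by_cases hQs : Q s = 0
    · have h5 : 4 * F s ^ 3 - g2 * F s - g3 = 0 := by
        have h7 : Q s ^ 2 = 4 * F s ^ 3 - g2 * F s - g3 := e5.eq_of_nhds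
        rw [← h7, hQs]
        ring
      have h6 : 12 * F s ^ 2 - g2 ≠ 0 := poly_ne hΔ h5
      have hD : AnalyticAt ℂ (fun z => 12 * F z ^ 2 - g2) s := by fun_prop
      have hD0 : ∀ᶠ z in 𝓝[≠] s, 12 * F z ^ 2 - g2 ≠ 0 :=
        (hD.continuousAt.eventually_ne h6).filter_mono nhdsWithin_le_nhds
      have hres : AnalyticAt ℂ (fun z => 2 * deriv Q z / (12 * F z ^ 2 - g2)) s := by
        apply AnalyticAt.div _ hD h6
        exact analyticAt_const.mul hQa.deriv
      refine order_nonneg_of_analytic hres ?_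
      have e7 : ∀ᶠ z in 𝓝[≠] s, 2 * Q z * deriv Q z = (12 * F z ^ 2 - g2) * deriv F z := by
        have h7 := e4.nhdsNE_deriv
        have h8 : ∀ᶠ z in 𝓝[≠] s, AnalyticAt ℂ Q z :=
          hQa.eventually_analyticAt.filter_mono nhdsWithin_le_nhds
        have h9 : ∀ᶠ z in 𝓝[≠] s, AnalyticAt ℂ F z :=
          hFa.eventually_analyticAt.filter_mono nhdsWithin_le_nhds
        filter_upwards [h7, h8, h9] with z hz hQz hFz
        have d1 : HasDerivAt (fun z => Q z ^ 2) (2 * Q z * deriv Q z) z := by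
          have := hQz.differentiableAt.hasDerivAt.fun_pow 2
          refine this.congr_deriv ?_
          push_cast
          ring
        have d2 : HasDerivAt (fun z => 4 * F z ^ 3 - g2 * F z - g3)
            ((12 * F z ^ 2 - g2) * deriv F z) z := by
          have hd := hFz.differentiableAt.hasDerivAt
          have := (((hd.fun_pow 3).const_mul 4).fun_sub (hd.const_mul g2)).sub_const g3
          refine this.congr_deriv ?_
          push_cast
          ring
        rw [d1.deriv, d2.deriv] at hz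
        exact hz
      filter_upwards [e7, hD0, e6, h2, hQq] with z hz hz0 hz6 hz2 hzq
      rw [eq_div_iff hz0]
      have hQz : Q z ≠ 0 := by rw [← hzq]; exact hz2
      rw [hz6] at hz
      apply mul_left_cancel₀ hQz
      simp only [Pi.mul_apply] at hz
      linear_combination -hz
    · have hres : AnalyticAt ℂ (fun z => deriv F z / Q z) s := hFa.deriv.div hQa hQs
      refine order_nonneg_of_analytic hres ?_
      filter_upwards [e6, h2, hQq] with z hz hz2 hzq
      have hQz : Q z ≠ 0 := by rw [← hzq]; exact hz2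
      rw [eq_div_iff hQz, hz]
      rfl

end Pool.Agent.EllSch
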