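import Pool.Agent.EllSch.Fix.FFin

/-! # [UN] One countable field for all lattices -/

open Cardinal

namespace Pool.Agent.EllSch

/-- the numbers attached to points -/
noncomputable def pnum (a b : ℂ) {n : ℕ} (p : Fin n → ℂ) (q : Fin 3 × Fin n) : ℂ :=
  ![p q.2, wp a b (p q.2), wz a b (p q.2)] q.1

/-- the field `E` satisfies the relative Schanuel property for the lattice -/
structure GoodE (a b : ℂ) (E : Subfield ℂ) : Prop where
  lat_mem : ∀ x, lat a b x ∈ E
  end_mem : (EndL a b : Set ℂ) ⊆ E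
  G2_mem : G2 a b ∈ E
  G3_mem : G3 a b ∈ E
  cl : ∀ z ∈ E, Off a b z → wp a b z ∈ E ∧ wq a b z ∈ E ∧ wz a b z ∈ E
  rel : ∀ (n : ℕ) (p : Fin n → ℂ), 0 < n →
    (∀ α : Fin n → ℂ, (∀ i, α i ∈ EndL a b) → ∑ i, α i * p i ∈ E → α = 0) →
    ∃ s : Finset (Fin 3 × Fin n), 2 * n + 1 ≤ s.card ∧
      AlgebraicIndependent E (fun i : s => pnum a b p i)

theorem exists_goodE {a b : ℂ} (h : Ind a b) {A : Set ℂ} (hA : A.Countable) :
    ∃ E : Subfield ℂ, (E : Set ℂ).Countable ∧ A ⊆ E ∧ (∀ x : ℂ, IsAlgebraic E x → x ∈ E) ∧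
      GoodE a b E := by
  obtain ⟨E, h1, h2, h3, h4, h5, h6, h7, h8, h9⟩ := fix_main h hA
  exact ⟨E, h1, h2, h3, h4, h5, h6, h7, h8, h9⟩

namespace Uni

/-- scaling an algebraically independent family by nonzero constants -/
theorem algInd_smul {ι E K : Type*} [Field E] [Field K] [Algebra E K] {x : ι → K}
    (hx : AlgebraicIndependent E x) (c : ι → E) (hc : ∀ i, c i ≠ 0) :
    AlgebraicIndependent E (fun i => algebraMap E K (c i) * x i) := by
  rw [algebraicIndependent_iff_injective_aeval] at hx ⊢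
  let f : (i : ι) → MvPolynomial ι E := fun i => MvPolynomial.C (c i) * MvPolynomial.X i
  let g : (i : ι) → MvPolynomial ι E := fun i => MvPolynomial.C (c i)⁻¹ * MvPolynomial.X i
  have e1 : MvPolynomial.aeval (R := E) (fun i => algebraMap E K (c i) * x i) =
      (MvPolynomial.aeval (R := E) x).comp (MvPolynomial.aeval f) := by
    apply MvPolynomial.algHom_ext
    intro i
    simp [f]
  have e2 : (MvPolynomial.aeval (R := E) g).comp (MvPolynomial.aeval f) = AlgHom.id E _ := by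
    apply MvPolynomial.algHom_ext
    intro i
    simp only [AlgHom.comp_apply, MvPolynomial.aeval_X, f, map_mul, MvPolynomial.aeval_C, g,
      AlgHom.id_apply, MvPolynomial.algebraMap_eq]
    rw [← mul_assoc, ← MvPolynomial.C_mul, mul_inv_cancel₀ (hc i), MvPolynomial.C_1, one_mul]
  rw [e1]
  intro P Q hPQ
  have h1 := hx hPQ
  have h2 := congrArg (MvPolynomial.aeval (R := E) g) h1
  have h3 : ∀ P, (MvPolynomial.aeval (R := E) g) ((MvPolynomial.aeval f) P) = P := fun P =>
    DFunLike.congr_fun e2 P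
  exact (h3 P).symm.trans (h2.trans (h3 Q))

end Uni

/-- the endomorphisms do not depend on the scale -/
theorem EndL_smul {a b c : ℂ} (hc : c ≠ 0) : EndL (c * a) (c * b) = EndL a b := by
  ext α
  rw [mem_EndL, mem_EndL]
  refine forall_congr' fun x => exists_congr fun y => ?_
  rw [lat_smul, lat_smul, mul_left_comm, mul_right_inj' hc]

theorem GoodE.smul {a b : ℂ} {E : Subfield ℂ} (H : GoodE a b E) {c : ℂ} (hc : c ≠ 0)
    (hcE : c ∈ E) : GoodE (c * a) (c * b) E where
  lat_mem x := by rw [lat_smul]; exact mul_mem hcE (H.lat_mem x)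
  end_mem := by rw [EndL_smul hc]; exact H.end_mem
  G2_mem := by rw [G2_smul hc]; exact div_mem H.G2_mem (pow_mem hcE 4)
  G3_mem := by rw [G3_smul hc]; exact div_mem H.G3_mem (pow_mem hcE 6)
  cl z hz hoff := by
    obtain ⟨w, rfl⟩ : ∃ w, z = c * w := ⟨z / c, by field_simp⟩
    rw [off_smul hc] at hoff
    have hw : w ∈ E := by
      have := div_mem hz hcE
      rwa [mul_div_cancel_left₀ _ hc] at this
    obtain ⟨h1, h2, h3⟩ := H.cl w hw hoff
    rw [wp_smul hc, wq_smul hc, wz_smul hc]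
    exact ⟨div_mem h1 (pow_mem hcE 2), div_mem h2 (pow_mem hcE 3), div_mem h3 hcE⟩
  rel n p hn hp := by
    rw [EndL_smul hc] at hp
    obtain ⟨s, hs1, hs2⟩ := H.rel n (fun i => p i / c) hn (by
      intro α hα h0
      apply hp α hα
      have e : ∑ i, α i * p i = c * ∑ i, α i * (p i / c) := by
        rw [Finset.mul_sum]
        refine Finset.sum_congr rfl fun i _ => ?_
        field_simp
      rw [e]
      exact mul_mem hcE h0)
    refine ⟨s, hs1, ?_⟩
    have h1 := Uni.algInd_smul hs2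
      (fun i => ![(⟨c, hcE⟩ : E), ⟨c, hcE⟩⁻¹ ^ 2, ⟨c, hcE⟩⁻¹] (i : Fin 3 × Fin n).1) (by
      rintro ⟨⟨i, j⟩, hi⟩
      have hc' : (⟨c, hcE⟩ : E) ≠ 0 := fun h0 => hc (congrArg Subtype.val h0)
      fin_cases i
      · exact hc'
      · exact pow_ne_zero _ (inv_ne_zero hc')
      · exact inv_ne_zero hc')
    convert! h1 using 1
    funext i
    obtain ⟨⟨i, j⟩, hi⟩ := i
    have e1 : p j = c * (p j / c) := by field_simp
    have e2 : wp (c * a) (c * b) (p j) = wp a b (p j / c) / c ^ 2 := by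
      conv_lhs => rw [e1]
      rw [wp_smul hc]
    have e3 : wz (c * a) (c * b) (p j) = wz a b (p j / c) / c := by
      conv_lhs => rw [e1]
      rw [wz_smul hc]
    fin_cases i
    · exact e1
    · show wp (c * a) (c * b) (p j) = (c⁻¹ ^ 2) * wp a b (p j / c)
      rw [e2]
      field_simp
    · show wz (c * a) (c * b) (p j) = c⁻¹ * wz a b (p j / c)
      rw [e3]
      field_simp

/-- the relative Schanuel property passes to the union of a chain -/
theorem GoodE.iSup {a b : ℂ} {F : ℕ → Subfield ℂ} (hF : Monotone F) (H : ∀ k, GoodE a b (F k)) :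
    GoodE a b (⨆ k, F k) := by
  have hmem : ∀ x, x ∈ (⨆ k, F k) ↔ ∃ k, x ∈ F k := fun x =>
    Subfield.mem_iSup_of_directed hF.directed_le
  have hle : ∀ k, F k ≤ ⨆ k, F k := fun k => le_iSup F k
  refine ⟨fun x => hle 0 ((H 0).lat_mem x), fun x hx => hle 0 ((H 0).end_mem hx),
    hle 0 (H 0).G2_mem, hle 0 (H 0).G3_mem, ?_, ?_⟩
  · intro z hz hoff
    obtain ⟨k, hk⟩ := (hmem z).1 hz
    obtain ⟨h1, h2, h3⟩ := (H k).cl z hk hoff
    exact ⟨hle k h1, hle k h2, hle k h3⟩
  · intro n p hn hp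
    have h1 : ∀ k, ∃ s : Finset (Fin 3 × Fin n), 2 * n + 1 ≤ s.card ∧
        AlgebraicIndependent (F k) (fun i : s => pnum a b p i) := fun k =>
      (H k).rel n p hn (fun α hα h0 => hp α hα (hle k h0))
    choose s hs1 hs2 using h1
    -- one of the finite sets occurs infinitely often
    obtain ⟨t, ht⟩ : ∃ t : Finset (Fin 3 × Fin n), ∀ k, ∃ l ≥ k, s l = t := by
      by_contra hcon
      push Not at hcon
      choose K hK using hcon
      let M := Finset.univ.sup K
      exact hK (s M) M (Finset.le_sup (Finset.mem_univ _)) rfl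
    refine ⟨t, ?_, ?_⟩
    · obtain ⟨l, -, hl⟩ := ht 0
      rw [← hl]; exact hs1 l
    · have h2 : ∀ k, AlgebraicIndependent (F k) (fun i : t => pnum a b p i) := by
        intro k
        obtain ⟨l, hkl, hl⟩ := ht k
        have h3 : AlgebraicIndependent (F l) (fun i : t => pnum a b p i) := by
          rw [← hl]; exact hs2 l
        let iA : Algebra (F k) (F l) := (Subfield.inclusion (hF hkl)).toAlgebra
        have iT : IsScalarTower (F k) (F l) ℂ := IsScalarTower.of_algebraMap_eq fun x => rfl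
        exact h3.restrictScalars (Subfield.inclusion (hF hkl)).injective
      rw [algebraicIndependent_iff]
      intro P hP
      -- the coefficients of `P` lie in some `F k`
      obtain ⟨k, hk⟩ : ∃ k, ∀ m, ((P.coeff m : (⨆ k, F k : Subfield ℂ)) : ℂ) ∈ F k := by
        have h3 : ∀ m ∈ P.support, ∃ k, ((P.coeff m : (⨆ k, F k : Subfield ℂ)) : ℂ) ∈ F k := fun m _ =>
          (hmem _).1 (P.coeff m).2
        choose! κ hκ using h3
        refine ⟨P.support.sup κ, fun m => ?_⟩
        by_cases hm : m ∈ P.support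
        · exact hF (Finset.le_sup hm) (hκ m hm)
        · rw [MvPolynomial.notMem_support_iff.1 hm]
          exact zero_mem _
      let iA : Algebra (F k) (⨆ k, F k : Subfield ℂ) := (Subfield.inclusion (hle k)).toAlgebra
      have iT : IsScalarTower (F k) (⨆ k, F k : Subfield ℂ) ℂ :=
        IsScalarTower.of_algebraMap_eq fun x => rfl
      obtain ⟨Q, hQ⟩ : ∃ Q : MvPolynomial t (F k),
          MvPolynomial.map (Subfield.inclusion (hle k)) Q = P := by
        have : P ∈ Set.range (MvPolynomial.map (σ := t) (Subfield.inclusion (hle k))) := by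
          rw [MvPolynomial.mem_range_map_iff_coeffs_subset]
          intro c hc
          obtain ⟨m, hm, rfl⟩ := MvPolynomial.mem_coeffs_iff.1 hc
          exact ⟨⟨_, hk m⟩, rfl⟩
        exact this
      have h4 := (algebraicIndependent_iff.1 (h2 k)) Q (by
        rw [← hP, ← hQ]
        exact (MvPolynomial.aeval_map_algebraMap (A := (⨆ k, F k : Subfield ℂ)) _ _).symm)
      rw [← hQ, h4, map_zero]

namespace Uni

/-- a number algebraic over the union of a chain is algebraic over a member -/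
theorem algebraic_iSup {F : ℕ → Subfield ℂ} (hF : Monotone F) {x : ℂ}
    (hx : IsAlgebraic (⨆ k, F k : Subfield ℂ) x) : ∃ k, IsAlgebraic (F k) x := by
  have hmem : ∀ x, x ∈ (⨆ k, F k) ↔ ∃ k, x ∈ F k := fun x =>
    Subfield.mem_iSup_of_directed hF.directed_le
  have hle : ∀ k, F k ≤ ⨆ k, F k := fun k => le_iSup F k
  obtain ⟨P, hP0, hP⟩ := hx
  obtain ⟨k, hk⟩ : ∃ k, ∀ m, ((P.coeff m : (⨆ k, F k : Subfield ℂ)) : ℂ) ∈ F k := by
    have h3 : ∀ m ∈ P.support, ∃ k, ((P.coeff m : (⨆ k, F k : Subfield ℂ)) : ℂ) ∈ F k :=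
      fun m _ => (hmem _).1 (P.coeff m).2
    choose! κ hκ using h3
    refine ⟨P.support.sup κ, fun m => ?_⟩
    by_cases hm : m ∈ P.support
    · exact hF (Finset.le_sup hm) (hκ m hm)
    · rw [Polynomial.notMem_support_iff.1 hm]
      exact zero_mem _
  obtain ⟨Q, hQ⟩ : ∃ Q : Polynomial (F k),
      Polynomial.map (Subfield.inclusion (hle k)) Q = P := by
    have : P ∈ Polynomial.lifts (Subfield.inclusion (hle k)) := by
      rw [Polynomial.lifts_iff_coeff_lifts]
      exact fun n => ⟨⟨_, hk n⟩, rfl⟩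
    exact this
  refine ⟨k, Q, ?_, ?_⟩
  · rintro rfl
    exact hP0 (by rw [← hQ, Polynomial.map_zero])
  · rw [← hP, ← hQ, Polynomial.aeval_def, Polynomial.aeval_def, Polynomial.eval₂_map]
    rfl

end Uni

/-- one countable algebraically closed field which is good for all lattices with periods in it -/
theorem exists_uni {A : Set ℂ} (hA : A.Countable) :
    ∃ E : Subfield ℂ, (E : Set ℂ).Countable ∧ A ⊆ E ∧ (∀ x : ℂ, IsAlgebraic E x → x ∈ E) ∧
      ∀ a b, Ind a b → a ∈ E → b ∈ E → GoodE a b E := by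
  have hex : ∀ (B : {B : Set ℂ // B.Countable}) (τ : ℂ), ∃ E : Subfield ℂ,
      (E : Set ℂ).Countable ∧ (B : Set ℂ) ⊆ E ∧ (∀ x : ℂ, IsAlgebraic E x → x ∈ E) ∧
      (Ind 1 τ → GoodE 1 τ E) := by
    intro B τ
    by_cases h : Ind 1 τ
    · obtain ⟨E, h1, h2, h3, h4⟩ := exists_goodE h B.2
      exact ⟨E, h1, h2, h3, fun _ => h4⟩
    · have hI : Ind 1 Complex.I := by simp [Ind]
      obtain ⟨E, h1, h2, h3, h4⟩ := exists_goodE hI B.2
      exact ⟨E, h1, h2, h3, fun h' => absurd h' h⟩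
  choose f f1 f2 f3 f4 using hex
  let step : {B : Set ℂ // B.Countable} → {B : Set ℂ // B.Countable} := fun B =>
    ⟨(B : Set ℂ) ∪ ⋃ τ ∈ (B : Set ℂ), (f B τ : Set ℂ),
      B.2.union (B.2.biUnion fun τ _ => f1 B τ)⟩
  let S : ℕ → {B : Set ℂ // B.Countable} := fun k =>
    step^[k] ⟨A ∪ {Complex.I}, hA.union (Set.countable_singleton _)⟩
  have hSs : ∀ k, S (k + 1) = step (S k) := fun k => Function.iterate_succ_apply' step k _
  have hS1 : ∀ k, (S k : Set ℂ) ⊆ S (k + 1) := by
    intro k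
    rw [hSs]
    exact Set.subset_union_left
  have hSmono : Monotone fun k => (S k : Set ℂ) := monotone_nat_of_le_succ hS1
  have hfS : ∀ k τ, τ ∈ (S k : Set ℂ) → (f (S k) τ : Set ℂ) ⊆ S (k + 1) := by
    intro k τ hτ x hx
    rw [hSs]
    exact Or.inr (Set.mem_biUnion hτ hx)
  -- for each point of the union a chain of good fields
  have chain : ∀ k0 τ, τ ∈ (S k0 : Set ℂ) → Monotone (fun k => f (S (k0 + k)) τ) ∧
      ((⨆ k, f (S (k0 + k)) τ : Subfield ℂ) : Set ℂ) = ⋃ k, (S k : Set ℂ) := by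
    intro k0 τ hτ
    have h1 : ∀ k, τ ∈ (S (k0 + k) : Set ℂ) := fun k => hSmono (Nat.le_add_right k0 k) hτ
    have hm : Monotone (fun k => f (S (k0 + k)) τ) := by
      refine monotone_nat_of_le_succ fun k => ?_
      intro x hx
      exact f2 (S (k0 + (k + 1))) τ (hfS (k0 + k) τ (h1 k) hx)
    refine ⟨hm, ?_⟩
    ext x
    rw [SetLike.mem_coe, Subfield.mem_iSup_of_directed hm.directed_le, Set.mem_iUnion]
    constructor
    · rintro ⟨k, hk⟩
      exact ⟨k0 + k + 1, hfS (k0 + k) τ (h1 k) hk⟩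
    · rintro ⟨k, hk⟩
      exact ⟨k, f2 _ _ (hSmono (Nat.le_add_left k k0) hk)⟩
  have hI0 : Complex.I ∈ (S 0 : Set ℂ) := Or.inr rfl
  obtain ⟨hm, hE⟩ := chain 0 Complex.I hI0
  refine ⟨⨆ k, f (S (0 + k)) Complex.I, ?_, ?_, ?_, ?_⟩
  · rw [hE]
    exact Set.countable_iUnion fun k => (S k).2
  · intro x hx
    rw [hE]
    exact Set.mem_iUnion.2 ⟨0, Or.inl hx⟩
  · intro x hx
    obtain ⟨k, hk⟩ := Uni.algebraic_iSup hm hx
    exact (le_iSup (fun k => f (S (0 + k)) Complex.I) k) (f3 _ _ x hk)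
  · intro a b h ha hb
    have ha0 : a ≠ 0 := by
      rintro rfl
      exact h (by simp)
    have hτ : b / a ∈ ((⨆ k, f (S (0 + k)) Complex.I : Subfield ℂ) : Set ℂ) := div_mem hb ha
    rw [hE] at hτ
    obtain ⟨k0, hk0⟩ := Set.mem_iUnion.1 hτ
    obtain ⟨hm', hE'⟩ := chain k0 (b / a) hk0
    have hEE : (⨆ k, f (S (k0 + k)) (b / a)) = ⨆ k, f (S (0 + k)) Complex.I :=
      SetLike.coe_injective (hE'.trans hE.symm)
    have h1 : Ind 1 (b / a) := by
      have := ind_smul h (inv_ne_zero ha0)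
      rwa [inv_mul_cancel₀ ha0, mul_comm, ← div_eq_mul_inv] at this
    have h2 : GoodE 1 (b / a) (⨆ k, f (S (k0 + k)) (b / a)) :=
      GoodE.iSup hm' fun k => f4 _ _ h1
    rw [hEE] at h2
    have h3 := h2.smul ha0 ha
    rwa [mul_one, mul_div_cancel₀ _ ha0] at h3

end Pool.Agent.EllSch
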