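import Pool.Agent.EllSch.Fix.FDefs

/-! # [EP] Even elliptic functions with poles on the lattice only -/

open Filter Topology Polynomial

namespace Pool.Agent.EllSch

namespace EvenPoly

theorem meromorphicAt_wp {a b : ℂ} (h : Ind a b) (z : ℂ) : MeromorphicAt (wp a b) z := by
  have h1 : wp a b = (pp h).weierstrassP := funext (wp_eq h)
  rw [h1]
  exact (pp h).meromorphic_weierstrassP z

theorem order_pow_mul {f : ℂ → ℂ} (h0 : MeromorphicAt f 0) (n : ℕ) :
    meromorphicOrderAt (fun z => z ^ n * f z) 0 = ((n : ℤ) : WithTop ℤ) + meromorphicOrderAt f 0 := by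
  have h1 : MeromorphicAt (fun z : ℂ => z ^ n) 0 := by fun_prop
  have h2 : meromorphicOrderAt (fun z : ℂ => z ^ n) 0 = ((n : ℤ) : WithTop ℤ) := by
    rw [meromorphicOrderAt_eq_int_iff h1]
    refine ⟨fun _ => 1, by fun_prop, one_ne_zero, Eventually.of_forall fun z => ?_⟩
    simp
  have h3 := meromorphicOrderAt_mul h1 h0
  rw [h2] at h3
  exact h3

theorem aux {a b : ℂ} (h : Ind a b) (n : ℕ) : ∀ {f : ℂ → ℂ},
    (∀ z, Off a b z → DifferentiableAt ℂ f z) →
    (∀ v z, Off a b z → f (z + lat a b v) = f z) → (∀ z, Off a b z → f (-z) = f z) →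
    MeromorphicAt f 0 → (0 : WithTop ℤ) ≤ meromorphicOrderAt (fun z => z ^ n * f z) 0 →
    ∃ N : ℂ[X], ∀ z, Off a b z → f z = N.eval (wp a b z) := by
  induction n with
  | zero =>
    intro f hf pf hev h0 hord
    simp only [pow_zero, one_mul] at hord
    obtain ⟨c, hc⟩ := (tendsto_nhds_iff_meromorphicOrderAt_nonneg h0).2 hord
    exact ⟨C c, fun z hz => by
      rw [eval_C]
      exact Basic.const_of_off h hf (fun z x hz => pf x z hz) hc z hz⟩
  | succ n ih =>
    intro f hf pf hev h0 hord
    have hm1 : MeromorphicAt (fun z => z ^ (n + 1) * f z) 0 := by fun_prop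
    obtain ⟨c, hc⟩ := (tendsto_nhds_iff_meromorphicOrderAt_nonneg hm1).2 hord
    -- a general step
    have step : ∀ {g : ℂ → ℂ}, MeromorphicAt g 0 →
        Tendsto (fun z => z ^ (n + 1) * g z) (𝓝[≠] 0) (𝓝 0) →
        (0 : WithTop ℤ) ≤ meromorphicOrderAt (fun z => z ^ n * g z) 0 := by
      intro g hg hlim
      have hm2 : MeromorphicAt (fun z => z ^ (n + 1) * g z) 0 := by fun_prop
      have h3 := (tendsto_zero_iff_meromorphicOrderAt_pos hm2).1 hlim
      rw [order_pow_mul hg] at h3 ⊢
      cases hh : meromorphicOrderAt g 0 with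
      | top => simp
      | coe m =>
        rw [hh] at h3
        norm_cast at h3 ⊢
        push_cast at h3
        omega
    by_cases hc0 : c = 0
    · rw [hc0] at hc
      exact ih hf pf hev h0 (step h0 hc)
    -- parity
    have hneg : Tendsto (fun z : ℂ => -z) (𝓝[≠] 0) (𝓝[≠] 0) := by
      rw [tendsto_nhdsWithin_iff]
      constructor
      · have : Tendsto (fun z : ℂ => -z) (𝓝 0) (𝓝 (-0)) := continuous_neg.tendsto 0
        rw [neg_zero] at this
        exact this.mono_left nhdsWithin_le_nhds
      · filter_upwards [self_mem_nhdsWithin] with z hz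
        exact neg_ne_zero.2 hz
    have hc2 : Tendsto (fun z => (-1 : ℂ) ^ (n + 1) * (z ^ (n + 1) * f z)) (𝓝[≠] 0) (𝓝 c) := by
      refine (hc.comp hneg).congr' ?_
      filter_upwards [Basic.eventually_off h 0] with z hz
      simp only [Function.comp_apply]
      rw [hev z hz, neg_pow, mul_assoc]
    have hc3 := tendsto_nhds_unique hc2 (hc.const_mul ((-1 : ℂ) ^ (n + 1)))
    have hpar : (-1 : ℂ) ^ (n + 1) = 1 := by
      have : (1 - (-1 : ℂ) ^ (n + 1)) * c = 0 := by
        linear_combination hc3
      rcases mul_eq_zero.1 this with h1 | h1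
      · linear_combination -h1
      · exact absurd h1 hc0
    have heven : Even (n + 1) := (neg_one_pow_eq_one_iff_even (by norm_num)).1 hpar
    obtain ⟨N, hN⟩ := heven
    set g : ℂ → ℂ := fun z => f z - c * wp a b z ^ N with hg
    have hgm : MeromorphicAt g 0 := by
      have := meromorphicAt_wp h 0
      rw [hg]
      fun_prop
    have hglim : Tendsto (fun z => z ^ (n + 1) * g z) (𝓝[≠] 0) (𝓝 0) := by
      have h1 := hc.sub (((Basic.tendsto_sq_mul_wp h).pow N).const_mul c)
      rw [one_pow, mul_one, sub_self] at h1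
      refine h1.congr' (Eventually.of_forall fun z => ?_)
      simp only [hg, hN]
      rw [← two_mul, pow_mul, mul_pow]
      ring
    obtain ⟨P, hP⟩ := ih (f := g)
      (fun z hz => (hf z hz).sub (((Basic.differentiableAt_wp h hz).pow N).const_mul c))
      (fun v z hz => by simp only [hg]; rw [pf v z hz, wp_add_lat h])
      (fun z hz => by simp only [hg]; rw [hev z hz, wp_neg h]) hgm (step hgm hglim)
    refine ⟨P + C c * X ^ N, fun z hz => ?_⟩
    have h1 := hP z hz
    simp only [hg] at h1
    simp only [eval_add, eval_mul, eval_C, eval_pow, eval_X]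
    linear_combination h1

end EvenPoly

/-- an even elliptic function with poles only on the lattice is a polynomial in `℘` -/
theorem even_poly {a b : ℂ} (h : Ind a b) {f : ℂ → ℂ}
    (hf : ∀ z, Off a b z → DifferentiableAt ℂ f z)
    (pf : ∀ v z, Off a b z → f (z + lat a b v) = f z) (hev : ∀ z, Off a b z → f (-z) = f z)
    (h0 : MeromorphicAt f 0) :
    ∃ N : ℂ[X], ∀ z, Off a b z → f z = N.eval (wp a b z) := by
  cases hh : meromorphicOrderAt f 0 with
  | top =>
    refine EvenPoly.aux h 0 hf pf hev h0 ?_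
    rw [EvenPoly.order_pow_mul h0, hh]
    simp
  | coe m =>
    refine EvenPoly.aux h m.natAbs hf pf hev h0 ?_
    rw [EvenPoly.order_pow_mul h0, hh]
    norm_cast
    have := neg_abs_le m
    omega

end Pool.Agent.EllSch
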