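import Pool.Agent.EllSch.Basic
import Pool.Agent.EllSch.Hom

/-! # Definitions for the theorem on a fixed lattice -/

open Filter Topology

namespace Pool.Agent.EllSch

/-- the endomorphism ring of the lattice `ℤ a + ℤ b` -/
def EndL (a b : ℂ) : Subring ℂ where
  carrier := {α | ∀ x : ℤ × ℤ, ∃ y : ℤ × ℤ, α * lat a b x = lat a b y}
  mul_mem' := by
    intro α β hα hβ x
    obtain ⟨y, hy⟩ := hβ x
    obtain ⟨w, hw⟩ := hα y
    exact ⟨w, by rw [mul_assoc, hy, hw]⟩
  one_mem' := fun x => ⟨x, one_mul _⟩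
  add_mem' := by
    intro α β hα hβ x
    obtain ⟨y, hy⟩ := hα x
    obtain ⟨w, hw⟩ := hβ x
    exact ⟨y + w, by rw [add_mul, hy, hw, lat_add]⟩
  zero_mem' := fun x => ⟨0, by rw [zero_mul, lat_zero]⟩
  neg_mem' := by
    intro α hα x
    obtain ⟨y, hy⟩ := hα x
    exact ⟨-y, by rw [neg_mul, hy, lat_neg]⟩

theorem mem_EndL {a b α : ℂ} : α ∈ EndL a b ↔ ∀ x : ℤ × ℤ, ∃ y : ℤ × ℤ, α * lat a b x = lat a b y :=
  Iff.rfl

/-- a property holds off a locally finite set -/
def Cod (P : ℂ → Prop) : Prop := ∀ s : ℂ, ∀ᶠ z in 𝓝[≠] s, P z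

theorem Cod.mono {P Q : ℂ → Prop} (h : Cod P) (hPQ : ∀ z, P z → Q z) : Cod Q :=
  fun s => (h s).mono hPQ

theorem Cod.and {P Q : ℂ → Prop} (h : Cod P) (h' : Cod Q) : Cod fun z => P z ∧ Q z :=
  fun s => (h s).and (h' s)

theorem cod_of_forall {P : ℂ → Prop} (h : ∀ z, P z) : Cod P :=
  fun _ => Filter.Eventually.of_forall h

theorem cod_off {a b : ℂ} (h : Ind a b) : Cod (Off a b) := fun s => Basic.eventually_off h s

section
variable {L : Type*} [Field L] {g2 g3 : L}

/-- the invariant differential `dx / y` at a point, evaluated at a derivation -/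
def om (D : Derivation ℤ L L) : (crv g2 g3).Point → L
  | .zero => 0
  | .some x y _ => D x / (2 * y)

/-- the differential of the second kind `x dx / y` at a point, evaluated at a derivation -/
def et (D : Derivation ℤ L L) : (crv g2 g3).Point → L
  | .zero => 0
  | .some x y _ => x * D x / (2 * y)

end

end Pool.Agent.EllSch
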