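import Pool.Agent.EllSch.Fix.FTr

/-! # [TR2] The countable field attached to a lattice -/

namespace Pool.Agent.EllSch

/-- `x` is killed by all derivations which respect the Weierstrass functions at the elements of a
suitable finite set -/
def Rigid (a b : ℂ) (k0 : Subfield ℂ) (x : ℂ) : Prop :=
  ∃ V : Finset ℂ, (∀ v ∈ V, Off a b v) ∧
    ∀ δ : Derivation k0 ℂ ℂ, (∀ v ∈ V, GoodAt a b δ v) → δ x = 0

namespace FE

variable {a b : ℂ} {k0 : Subfield ℂ}

theorem rigid_of_mem {x : ℂ} (hx : x ∈ k0) : Rigid a b k0 x :=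
  ⟨∅, by simp, fun δ _ => δ.map_algebraMap (⟨x, hx⟩ : k0)⟩

theorem rigid_two {x y z : ℂ} (hx : Rigid a b k0 x) (hy : Rigid a b k0 y)
    (hz : ∀ δ : Derivation k0 ℂ ℂ, δ x = 0 → δ y = 0 → δ z = 0) : Rigid a b k0 z := by
  classical
  obtain ⟨V, hV, h1⟩ := hx
  obtain ⟨W, hW, h2⟩ := hy
  refine ⟨V ∪ W, ?_, ?_⟩
  · intro v hv
    rcases Finset.mem_union.1 hv with hv | hv
    · exact hV v hv
    · exact hW v hv
  · intro δ hδ
    exact hz δ (h1 δ fun v hv => hδ v (Finset.mem_union_left _ hv))
      (h2 δ fun v hv => hδ v (Finset.mem_union_right _ hv))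

theorem rigid_finset (S : Finset ℂ) (hS : ∀ x ∈ S, Rigid a b k0 x) {z : ℂ}
    (hz : ∀ δ : Derivation k0 ℂ ℂ, (∀ x ∈ S, δ x = 0) → δ z = 0) : Rigid a b k0 z := by
  classical
  choose! W hWoff hW using hS
  refine ⟨S.biUnion W, ?_, ?_⟩
  · intro v hv
    obtain ⟨s, hs, hv⟩ := Finset.mem_biUnion.1 hv
    exact hWoff s hs v hv
  · intro δ hδ
    apply hz
    intro x hx
    exact hW x hx δ fun v hv => hδ v (Finset.mem_biUnion.2 ⟨x, hx, hv⟩)

/-- the field of rigid numbers -/
def fld (a b : ℂ) (k0 : Subfield ℂ) : Subfield ℂ where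
  carrier := {x | Rigid a b k0 x}
  zero_mem' := rigid_of_mem (zero_mem _)
  one_mem' := rigid_of_mem (one_mem _)
  add_mem' := by
    intro x y hx hy
    exact rigid_two hx hy fun δ h1 h2 => by rw [map_add, h1, h2, add_zero]
  mul_mem' := by
    intro x y hx hy
    exact rigid_two hx hy fun δ h1 h2 => by
      rw [Derivation.leibniz, h1, h2, smul_zero, smul_zero, add_zero]
  neg_mem' := by
    intro x hx
    exact rigid_two hx hx fun δ h1 _ => by rw [map_neg, h1, neg_zero]
  inv_mem' := by
    intro x hx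
    exact rigid_two hx hx fun δ h1 _ => by rw [Derivation.leibniz_inv, h1, smul_zero]

theorem mem_fld {x : ℂ} : x ∈ fld a b k0 ↔ Rigid a b k0 x := Iff.rfl

theorem rigid_of_algebraic {x : ℂ} (hx : IsAlgebraic (fld a b k0) x) : Rigid a b k0 x := by
  classical
  obtain ⟨p, hp0, hp⟩ := hx
  let S : Finset ℂ := (Finset.range (p.natDegree + 1)).image fun i => ((p.coeff i : fld a b k0) : ℂ)
  refine rigid_finset S ?_ ?_
  · intro y hy
    obtain ⟨i, _, rfl⟩ := Finset.mem_image.1 hy
    exact (p.coeff i).2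
  · intro δ hδ
    apply derivation_eq_zero_of_algebraic (S := (S : Set ℂ)) δ (fun s hs => hδ s hs)
    let A := IntermediateField.adjoin k0 (S : Set ℂ)
    let q : Polynomial ℂ := p.map (algebraMap (fld a b k0) ℂ)
    have hq0 : q ≠ 0 := by
      rw [Polynomial.map_ne_zero_iff (algebraMap (fld a b k0) ℂ).injective]
      exact hp0
    have hq : q.eval x = 0 := by
      rw [Polynomial.eval_map_algebraMap]
      exact hp
    have hl : q ∈ Polynomial.lifts (algebraMap A ℂ) := by
      rw [Polynomial.lifts_iff_coeff_lifts]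
      intro i
      rw [Polynomial.coeff_map]
      by_cases hi : i ∈ Finset.range (p.natDegree + 1)
      · refine ⟨⟨((p.coeff i : fld a b k0) : ℂ), ?_⟩, rfl⟩
        apply IntermediateField.subset_adjoin
        exact Finset.mem_image_of_mem (fun i => ((p.coeff i : fld a b k0) : ℂ)) hi
      · refine ⟨0, ?_⟩
        rw [Polynomial.coeff_eq_zero_of_natDegree_lt, map_zero, map_zero]
        rw [Finset.mem_range] at hi
        omega
    obtain ⟨r, hr⟩ := (Polynomial.mem_lifts q).1 hl
    refine ⟨r, ?_, ?_⟩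
    · rintro rfl
      rw [Polynomial.map_zero] at hr
      exact hq0 hr.symm
    · rw [← Polynomial.eval_map_algebraMap, hr]
      exact hq

theorem rigid_third (h : Ind a b) (h2 : G2 a b ∈ k0) (h3 : G3 a b ∈ k0) {u : ℂ}
    (hu : Off a b u) (x : ℤ × ℤ) (h3u : 3 * u = lat a b x) : Rigid a b k0 u := by
  refine ⟨{u}, ?_, ?_⟩
  · intro v hv
    rw [Finset.mem_singleton.1 hv]
    exact hu
  · intro δ hδ
    obtain ⟨g1, g2, g3⟩ := hδ u (Finset.mem_singleton_self u)
    have e2 : 2 * u = -u + lat a b x := by rw [← h3u]; ring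
    have hoff2 : Off a b (2 * u) := by
      rw [e2, off_add_lat, off_neg]
      exact hu
    have hq := wq_ne_zero h hoff2
    have e3 : wp a b (2 * u) = wp a b u := by rw [e2, wp_add_lat h, wp_neg h]
    have e4 := wp_two_mul h hu hoff2
    have e5 := ode h hu
    rw [e3] at e4
    have hd2 : δ (G2 a b) = 0 := δ.map_algebraMap (⟨G2 a b, h2⟩ : k0)
    have hd3 : δ (G3 a b) = 0 := δ.map_algebraMap (⟨G3 a b, h3⟩ : k0)
    generalize hP : wp a b u = P at *
    generalize hQ : wq a b u = Q at *
    generalize hg : G2 a b = g at *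
    generalize hg' : G3 a b = g' at *
    have e6 : 12 * P ^ 4 - 6 * (g * P ^ 2) - 12 * (g' * P) - g ^ 2 / 4 = 0 := by
      have e7 : 12 * P * Q ^ 2 = (6 * P ^ 2 - g / 2) ^ 2 := by
        field_simp at e4
        linear_combination (1 / 4) * e4
      rw [e5] at e7
      linear_combination e7
    have e8 : δ (12 * P ^ 4 - 6 * (g * P ^ 2) - 12 * (g' * P) - g ^ 2 / 4) = 0 := by
      rw [e6, map_zero]
    have e9 : (12 * Q ^ 2) * δ P = 0 := by
      have c12 : ∀ z : ℂ, δ (12 * z) = 12 * δ z := by
        intro z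
        have h' : δ (12 : ℂ) = 0 := by
          have := δ.map_natCast 12
          exact_mod_cast this
        rw [Derivation.leibniz, h', smul_zero, add_zero, smul_eq_mul]
      have c6 : ∀ z : ℂ, δ (6 * z) = 6 * δ z := by
        intro z
        have h' : δ (6 : ℂ) = 0 := by
          have := δ.map_natCast 6
          exact_mod_cast this
        rw [Derivation.leibniz, h', smul_zero, add_zero, smul_eq_mul]
      have c4 : ∀ z : ℂ, δ (z / 4) = δ z / 4 := by
        intro z
        have h' : δ (4 : ℂ) = 0 := by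
          have := δ.map_natCast 4
          exact_mod_cast this
        have h'' : δ z = 4 * δ (z / 4) := by
          have := δ.leibniz (4 : ℂ) (z / 4)
          rw [h', smul_zero, add_zero, smul_eq_mul, mul_div_cancel₀ z (by norm_num : (4 : ℂ) ≠ 0)]
            at this
          exact this
        rw [h'']
        ring
      rw [map_sub, map_sub, map_sub, c12, c6, c12, c4, Derivation.leibniz, Derivation.leibniz,
        Derivation.leibniz_pow, Derivation.leibniz_pow, Derivation.leibniz_pow, hd2, hd3] at e8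
      simp only [smul_eq_mul, nsmul_eq_mul] at e8
      rw [e5]
      push_cast at e8
      linear_combination e8
    have e10 : δ P = 0 := by
      rcases mul_eq_zero.1 e9 with h' | h'
      · exfalso
        apply hq
        have : Q ^ 2 = 0 := by
          rcases mul_eq_zero.1 h' with h'' | h''
          · norm_num at h''
          · exact h''
        exact pow_eq_zero_iff (two_ne_zero) |>.1 this
      · exact h'
    rw [e10] at g1
    rcases mul_eq_zero.1 g1.symm with h' | h'
    · exact absurd h' hq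
    · exact h'

theorem off_third_left (h : Ind a b) : Off a b (a / 3) := by
  rintro ⟨m, n⟩ he
  have e1 : ((3 * m - 1 : ℝ) : ℂ) * a + ((3 * n : ℝ) : ℂ) * b = 0 := by
    unfold lat at he
    push_cast
    linear_combination -3 * he
  have r := congrArg Complex.re e1
  have i := congrArg Complex.im e1
  simp only [Complex.add_re, Complex.add_im, Complex.re_ofReal_mul, Complex.im_ofReal_mul,
    Complex.zero_re, Complex.zero_im] at r i
  have e2 : (3 * m - 1 : ℝ) * (a.re * b.im - a.im * b.re) = 0 := by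
    linear_combination b.im * r - b.re * i
  rcases mul_eq_zero.1 e2 with h' | h'
  · have h'' : 3 * m - 1 = 0 := by exact_mod_cast h'
    omega
  · exact h h'

theorem off_third_right (h : Ind a b) : Off a b (b / 3) := by
  rintro ⟨m, n⟩ he
  have e1 : ((3 * m : ℝ) : ℂ) * a + ((3 * n - 1 : ℝ) : ℂ) * b = 0 := by
    unfold lat at he
    push_cast
    linear_combination -3 * he
  have r := congrArg Complex.re e1
  have i := congrArg Complex.im e1
  simp only [Complex.add_re, Complex.add_im, Complex.re_ofReal_mul, Complex.im_ofReal_mul,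
    Complex.zero_re, Complex.zero_im] at r i
  have e2 : (3 * n - 1 : ℝ) * (a.re * b.im - a.im * b.re) = 0 := by
    linear_combination a.re * i - a.im * r
  rcases mul_eq_zero.1 e2 with h' | h'
  · have h'' : 3 * n - 1 = 0 := by exact_mod_cast h'
    omega
  · exact h h'

theorem countable_fld (h : Ind a b) (hk : (k0 : Set ℂ).Countable)
    (h2 : G2 a b ∈ k0) (h3 : G3 a b ∈ k0) : ((fld a b k0 : Subfield ℂ) : Set ℂ).Countable := by
  classical
  have ht := fun (m : ℕ) (k : Fin m) => transfer_fix h k0 hk h2 h3 m k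
  choose S hSc hS using ht
  have hc : (Set.range (lat a b) ∪ ⋃ m, ⋃ k : Fin m, S m k).Countable :=
    (Set.countable_range _).union
      (Set.countable_iUnion fun m => Set.countable_iUnion fun k => hSc m k)
  refine hc.mono ?_
  rintro x ⟨V, hV, hx⟩
  by_cases hoff : Off a b x
  · right
    let W : Finset ℂ := insert x V
    have hWoff : ∀ v ∈ W, Off a b v := by
      intro v hv
      rcases Finset.mem_insert.1 hv with rfl | hv
      · exact hoff
      · exact hV v hv
    let e : W ≃ Fin W.card := W.equivFin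
    have hxW : x ∈ W := Finset.mem_insert_self _ _
    let k : Fin W.card := e ⟨x, hxW⟩
    refine Set.mem_iUnion.2 ⟨W.card, Set.mem_iUnion.2 ⟨k, ?_⟩⟩
    by_contra hcon
    have hvk : ((e.symm k : W) : ℂ) = x := by
      simp only [k, Equiv.symm_apply_apply]
    obtain ⟨δ, hδ, hne⟩ := hS W.card k (fun i => ((e.symm i : W) : ℂ))
      (fun i => hWoff _ (e.symm i).2) (by rw [hvk]; exact hcon)
    apply hne
    simp only [hvk]
    apply hx
    intro v hv
    have := hδ (e ⟨v, Finset.mem_insert_of_mem hv⟩)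
    simpa only [Equiv.symm_apply_apply] using this
  · left
    obtain ⟨y, hy⟩ := (Basic.not_off_iff a b x).1 hoff
    exact ⟨y, hy.symm⟩

end FE

theorem rigid_field {a b : ℂ} (h : Ind a b) (k0 : Subfield ℂ) (hk : (k0 : Set ℂ).Countable)
    (h2 : G2 a b ∈ k0) (h3 : G3 a b ∈ k0) :
    ∃ E : Subfield ℂ, (∀ x, x ∈ E ↔ Rigid a b k0 x) ∧ (E : Set ℂ).Countable ∧ k0 ≤ E ∧
      (∀ x : ℂ, IsAlgebraic E x → x ∈ E) ∧ (∀ x, lat a b x ∈ E) ∧
      (∀ z ∈ E, Off a b z → wp a b z ∈ E ∧ wq a b z ∈ E ∧ wz a b z ∈ E) := by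
  classical
  have hthree : (3 : ℂ) ∈ FE.fld a b k0 := by
    have := natCast_mem (FE.fld a b k0) 3
    exact_mod_cast this
  have ha : a ∈ FE.fld a b k0 := by
    have h1 : a / 3 ∈ FE.fld a b k0 := FE.rigid_third h h2 h3 (FE.off_third_left h) (1, 0) (by
      unfold lat; push_cast; ring)
    have := mul_mem h1 hthree
    rwa [div_mul_cancel₀ _ (by norm_num : (3 : ℂ) ≠ 0)] at this
  have hb : b ∈ FE.fld a b k0 := by
    have h1 : b / 3 ∈ FE.fld a b k0 := FE.rigid_third h h2 h3 (FE.off_third_right h) (0, 1) (by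
      unfold lat; push_cast; ring)
    have := mul_mem h1 hthree
    rwa [div_mul_cancel₀ _ (by norm_num : (3 : ℂ) ≠ 0)] at this
  refine ⟨FE.fld a b k0, fun x => Iff.rfl, FE.countable_fld h hk h2 h3, ?_, ?_, ?_, ?_⟩
  · intro x hx
    exact FE.rigid_of_mem hx
  · intro x hx
    exact FE.rigid_of_algebraic hx
  · intro x
    exact add_mem (mul_mem (intCast_mem _ _) ha) (mul_mem (intCast_mem _ _) hb)
  · rintro z ⟨V, hV, hz⟩ hoff
    have key : ∀ w : ℂ, (∀ δ : Derivation k0 ℂ ℂ, GoodAt a b δ z → δ z = 0 → δ w = 0) →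
        Rigid a b k0 w := by
      intro w hw
      refine ⟨insert z V, ?_, ?_⟩
      · intro v hv
        rcases Finset.mem_insert.1 hv with rfl | hv
        · exact hoff
        · exact hV v hv
      · intro δ hδ
        exact hw δ (hδ z (Finset.mem_insert_self _ _))
          (hz δ fun v hv => hδ v (Finset.mem_insert_of_mem hv))
    refine ⟨key _ ?_, key _ ?_, key _ ?_⟩
    · intro δ hg h0
      rw [hg.1, h0, mul_zero]
    · intro δ hg h0
      rw [hg.2.1, h0, mul_zero]
    · intro δ hg h0
      rw [hg.2.2, h0, mul_zero]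

end Pool.Agent.EllSch
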