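import Pool.Agent.EllSch.Fix.FE

/-! # [TR3] A generic derivation -/

namespace Pool.Agent.EllSch

namespace FGen

section
variable {k L : Type*} [Field k] [Field L] [Algebra k L] [CharZero k]

/-- the derivations of `F` which satisfy finitely many linear conditions -/
def goodSub (F : IntermediateField k L) {J : Type*} (y c x : J → F) :
    Submodule F (Derivation k F F) where
  carrier := {d | ∀ j, d (y j) = c j * d (x j)}
  add_mem' := by
    intro d d' hd hd' j
    show d (y j) + d' (y j) = c j * (d (x j) + d' (x j))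
    rw [hd j, hd' j]
    ring
  zero_mem' := by
    intro j
    show (0 : F) = c j * 0
    ring
  smul_mem' := by
    intro r d hd j
    show r * d (y j) = c j * (r * d (x j))
    rw [hd j]
    ring

omit [CharZero k] in
theorem finite_der (F : IntermediateField k L) (hF : F.FG) : Module.Finite F (Derivation k F F) := by
  have h1 : Algebra.EssFiniteType k F := IntermediateField.essFiniteType_iff.2 hF
  have h2 : Module.Finite F (Ω[F⁄k]) := inferInstance
  exact Module.Finite.equiv (KaehlerDifferential.linearMapEquivDerivation k F)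

omit [CharZero k] in
theorem sum_pow_eq_zero {F : IntermediateField k L} {s : L} (hs : Transcendental F s) {r : ℕ}
    (t : Fin r → F) (h : ∑ i : Fin r, s ^ (i : ℕ) * (t i : L) = 0) (i : Fin r) : t i = 0 := by
  have h1 : Polynomial.aeval s (∑ i : Fin r, Polynomial.monomial (i : ℕ) (t i)) = 0 := by
    rw [map_sum, ← h]
    apply Finset.sum_congr rfl
    intro j _
    rw [Polynomial.aeval_monomial, mul_comm]
    rfl
  have h2 : (∑ i : Fin r, Polynomial.monomial (i : ℕ) (t i)) = 0 := by
    by_contra hne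
    exact hs ⟨_, hne, h1⟩
  have h3 := congrArg (fun p => Polynomial.coeff p (i : ℕ)) h2
  simp only [Polynomial.finsetSum_coeff, Polynomial.coeff_monomial, Polynomial.coeff_zero] at h3
  rw [Finset.sum_eq_single i] at h3
  · simpa using h3
  · intro j _ hj
    rw [if_neg (fun he => hj (Fin.ext he))]
  · intro hi
    exact absurd (Finset.mem_univ i) hi

/-- the generic derivation, abstract form -/
theorem exists_gen (F : IntermediateField k L) (hF : F.FG) {s : L} (hs : Transcendental F s)
    {J : Type*} (y c x : J → F) :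
    ∃ D : Derivation k L L, D s = 0 ∧
      (∀ z ∈ F, D z ∈ IntermediateField.adjoin k ((F : Set L) ∪ {s})) ∧
      (∀ j, D (y j) = c j * D (x j)) ∧
      ∀ z ∈ F, D z = 0 → ∀ δ : Derivation k L L, (∀ j, δ (y j) = c j * δ (x j)) → δ z = 0 := by
  classical
  have hfin := finite_der F hF
  let r := Module.finrank F (goodSub F y c x)
  let b : Module.Basis (Fin r) F (goodSub F y c x) := Module.finBasis F (goodSub F y c x)
  -- extension of derivations, killing `s`
  have hext : ∀ d : Derivation k F F, ∃ D : Derivation k L L, D s = 0 ∧ ∀ z : F, D (z : L) = d z := by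
    intro d
    let φ : F →ₗ[F] L := Algebra.linearMap F L
    obtain ⟨D1, hD1⟩ := exists_ext_der (k := k) (K := F) (L := L) (φ.compDer d)
    obtain ⟨ε, hε⟩ := exists_derivation_ne_zero hs
    refine ⟨D1 - (D1 s / ε s) • (ε.restrictScalars k), ?_, ?_⟩
    · show D1 s - (D1 s / ε s) * ε s = 0
      rw [div_mul_cancel₀ _ hε, sub_self]
    · intro z
      have h1 : D1 (z : L) = (d z : L) := hD1 z
      have h2 : ε (z : L) = 0 := ε.map_algebraMap z
      show D1 (z : L) - (D1 s / ε s) * ε (z : L) = (d z : L)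
      rw [h1, h2, mul_zero, sub_zero]
  choose E hE0 hE using hext
  let D : Derivation k L L := ∑ i : Fin r, (s ^ (i : ℕ)) • E (b i : Derivation k F F)
  have hDap : ∀ z : L, D z = ∑ i : Fin r, s ^ (i : ℕ) * E (b i : Derivation k F F) z := by
    intro z
    have h1 : (D : L → L) z = (Derivation.coeFnAddMonoidHom D) z := rfl
    rw [h1]
    simp only [D, map_sum, Finset.sum_apply, Derivation.coeFnAddMonoidHom_apply]
    rfl
  have hDF : ∀ z : F, D (z : L) = ∑ i : Fin r, s ^ (i : ℕ) * (((b i : Derivation k F F) z : F) : L) := by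
    intro z
    rw [hDap]
    simp only [hE]
  refine ⟨D, ?_, ?_, ?_, ?_⟩
  · rw [hDap]
    simp only [hE0, mul_zero, Finset.sum_const_zero]
  · intro z hz
    rw [show D z = _ from hDF ⟨z, hz⟩]
    refine sum_mem fun i _ => mul_mem (pow_mem ?_ _) ?_
    · exact IntermediateField.subset_adjoin _ _ (Or.inr rfl)
    · exact IntermediateField.subset_adjoin _ _ (Or.inl (Subtype.prop _))
  · intro j
    rw [hDF, hDF, Finset.mul_sum]
    apply Finset.sum_congr rfl
    intro i _
    have := (b i).2 j
    rw [this]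
    push_cast
    ring
  · intro z hz hDz δ hδ
    by_contra hne
    have h0 : ∀ i, (b i : Derivation k F F) ⟨z, hz⟩ = 0 :=
      sum_pow_eq_zero hs _ (by rw [← hDF ⟨z, hz⟩]; exact hDz)
    have h1 : ∀ d ∈ goodSub F y c x, d ⟨z, hz⟩ = 0 := by
      intro d hd
      have h2 := b.sum_repr ⟨d, hd⟩
      have h3 := congrArg (fun e : goodSub F y c x => (e : Derivation k F F) ⟨z, hz⟩) h2
      have h4 : (((∑ i, (b.repr ⟨d, hd⟩) i • b i : goodSub F y c x) : Derivation k F F)) ⟨z, hz⟩ =
          ∑ i, (b.repr ⟨d, hd⟩) i * (b i : Derivation k F F) ⟨z, hz⟩ := by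
        rw [Submodule.coe_sum]
        have h5 : ∀ (f : Derivation k F F), f ⟨z, hz⟩ = (Derivation.coeFnAddMonoidHom f) ⟨z, hz⟩ :=
          fun f => rfl
        rw [h5]
        simp only [map_sum, Finset.sum_apply, Derivation.coeFnAddMonoidHom_apply]
        rfl
      have h6 : (d : Derivation k F F) ⟨z, hz⟩ =
          ∑ i, (b.repr ⟨d, hd⟩) i * (b i : Derivation k F F) ⟨z, hz⟩ := by
        rw [← h4]
        exact h3.symm
      rw [h6]
      simp only [h0, mul_zero, Finset.sum_const_zero]
    have h2 : ∃ φ : L →ₗ[F] F, φ (δ z) ≠ 0 := by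
      by_contra hcon
      push Not at hcon
      exact hne ((Module.forall_dual_apply_eq_zero_iff F (δ z)).1 hcon)
    obtain ⟨φ, hφ⟩ := h2
    apply hφ
    have h3 := h1 (φ.compDer (δ.compAlgebraMap F)) (by
      intro j
      show φ (δ (y j)) = c j * φ (δ (x j))
      rw [hδ j]
      have : (c j : L) * δ (x j) = c j • δ (x j : L) := rfl
      rw [this, map_smul]
      rfl)
    exact h3

/-- a finitely generated extension of a countable field inside `ℂ` does not contain all numbers in
its algebraic closure -/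
theorem exists_transcendental (k0 : Subfield ℂ) (hk : (k0 : Set ℂ).Countable)
    (F : IntermediateField k0 ℂ) (hF : F.FG) : ∃ s : ℂ, Transcendental F s := by
  have h0 : Countable k0 := hk.to_subtype
  obtain ⟨t, rfl⟩ := hF
  have h1 : Countable (IntermediateField.adjoin k0 (t : Set ℂ)) := by
    have : Countable (t : Set ℂ) := inferInstance
    have h2 : Cardinal.mk (IntermediateField.adjoin k0 (t : Set ℂ)) ≤ Cardinal.aleph0 := by
      refine (IntermediateField.cardinalMk_adjoin_le k0 (t : Set ℂ)).trans ?_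
      refine max_le (max_le ?_ ?_) le_rfl
      · exact Cardinal.mk_le_aleph0
      · exact Cardinal.mk_le_aleph0
    exact Cardinal.mk_le_aleph0_iff.1 h2
  by_contra hcon
  push Not at hcon
  have h3 : {x : ℂ | IsAlgebraic (IntermediateField.adjoin k0 (t : Set ℂ)) x}.Countable :=
    Algebraic.countable _ _
  have h4 : {x : ℂ | IsAlgebraic (IntermediateField.adjoin k0 (t : Set ℂ)) x} = Set.univ := by
    apply Set.eq_univ_of_forall
    intro x
    have := hcon x
    unfold Transcendental at this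
    push Not at this
    exact this
  rw [h4] at h3
  exact not_countable_complex h3

end

end FGen

theorem generic_der {a b : ℂ} (h : Ind a b) (k0 : Subfield ℂ) (hk : (k0 : Set ℂ).Countable)
    (h2 : G2 a b ∈ k0) (h3 : G3 a b ∈ k0) {n : ℕ} (p : Fin n → ℂ) (hp : ∀ i, Off a b (p i))
    (e : Finset ℂ) (he : ∀ s ∈ e, Rigid a b k0 s) :
    ∃ (K : IntermediateField k0 ℂ) (D : Derivation k0 ℂ ℂ), K.FG ∧ (∀ x ∈ K, D x ∈ K) ∧
      (∀ i, p i ∈ K ∧ wp a b (p i) ∈ K ∧ wq a b (p i) ∈ K ∧ wz a b (p i) ∈ K) ∧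
      (∀ i, GoodAt a b D (p i)) ∧ (∀ s ∈ e, s ∈ K ∧ D s = 0) ∧
      ∀ α : Fin n → ℂ, (∀ i, α i ∈ k0) → ¬ Rigid a b k0 (∑ i, α i * p i) →
        D (∑ i, α i * p i) ≠ 0 := by
  classical
  choose! W hWoff hW using he
  let V : Finset ℂ := Finset.image p Finset.univ ∪ e.biUnion W
  have hV : ∀ v ∈ V, Off a b v := by
    intro v hv
    rcases Finset.mem_union.1 hv with hv | hv
    · obtain ⟨i, _, rfl⟩ := Finset.mem_image.1 hv
      exact hp i
    · obtain ⟨s, hs, hv⟩ := Finset.mem_biUnion.1 hv
      exact hWoff s hs v hv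
  have hpV : ∀ i, p i ∈ V := fun i =>
    Finset.mem_union_left _ (Finset.mem_image_of_mem p (Finset.mem_univ i))
  let t : Finset ℂ := V ∪ V.image (wp a b) ∪ V.image (wq a b) ∪ V.image (wz a b) ∪ e
  let F : IntermediateField k0 ℂ := IntermediateField.adjoin k0 (t : Set ℂ)
  have hFfg : F.FG := IntermediateField.fg_adjoin_finset t
  have htF : ∀ x ∈ t, x ∈ F := fun x hx => IntermediateField.subset_adjoin _ _ hx
  have hv1 : ∀ v ∈ V, v ∈ F := by
    intro v hv
    apply htF
    simp only [t, Finset.mem_union]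
    exact Or.inl (Or.inl (Or.inl (Or.inl hv)))
  have hv2 : ∀ v ∈ V, wp a b v ∈ F := by
    intro v hv
    apply htF
    simp only [t, Finset.mem_union]
    exact Or.inl (Or.inl (Or.inl (Or.inr (Finset.mem_image_of_mem _ hv))))
  have hv3 : ∀ v ∈ V, wq a b v ∈ F := by
    intro v hv
    apply htF
    simp only [t, Finset.mem_union]
    exact Or.inl (Or.inl (Or.inr (Finset.mem_image_of_mem _ hv)))
  have hv4 : ∀ v ∈ V, wz a b v ∈ F := by
    intro v hv
    apply htF
    simp only [t, Finset.mem_union]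
    exact Or.inl (Or.inr (Finset.mem_image_of_mem _ hv))
  have hve : ∀ s ∈ e, s ∈ F := by
    intro v hv
    apply htF
    simp only [t, Finset.mem_union]
    exact Or.inr hv
  have hk0F : ∀ x ∈ k0, x ∈ F := fun x hx => F.algebraMap_mem ⟨x, hx⟩
  obtain ⟨s, hs⟩ := FGen.exists_transcendental k0 hk F hFfg
  let y : V × Fin 3 → F := fun j => ![⟨wp a b j.1, hv2 _ j.1.2⟩, ⟨wq a b j.1, hv3 _ j.1.2⟩,
    ⟨wz a b j.1, hv4 _ j.1.2⟩] j.2
  let x : V × Fin 3 → F := fun j => ⟨j.1, hv1 _ j.1.2⟩
  let c : V × Fin 3 → F := fun j => ![⟨wq a b j.1, hv3 _ j.1.2⟩,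
    6 * (⟨wp a b j.1, hv2 _ j.1.2⟩ : F) ^ 2 - (⟨G2 a b, hk0F _ h2⟩ : F) / 2,
    -(⟨wp a b j.1, hv2 _ j.1.2⟩ : F)] j.2
  have hgood : ∀ δ : Derivation k0 ℂ ℂ, (∀ v ∈ V, GoodAt a b δ v) ↔
      ∀ j, δ (y j) = c j * δ (x j) := by
    intro δ
    constructor
    · rintro hδ ⟨⟨v, hv⟩, i⟩
      obtain ⟨g1, g2, g3⟩ := hδ v hv
      fin_cases i
      · exact g1
      · exact g2
      · exact g3
    · intro hδ v hv
      exact ⟨hδ (⟨v, hv⟩, 0), hδ (⟨v, hv⟩, 1), hδ (⟨v, hv⟩, 2)⟩
  obtain ⟨D, hDs, hDF, hDg, hDgen⟩ := FGen.exists_gen F hFfg hs y c x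
  have hDV : ∀ v ∈ V, GoodAt a b D v := (hgood D).2 hDg
  let K : IntermediateField k0 ℂ := IntermediateField.adjoin k0 ((F : Set ℂ) ∪ {s})
  have hFK : ∀ z ∈ F, z ∈ K := fun z hz => IntermediateField.subset_adjoin _ _ (Or.inl hz)
  refine ⟨K, D, ?_, ?_, ?_, ?_, ?_, ?_⟩
  · have hK : K = IntermediateField.adjoin k0 ((t : Set ℂ) ∪ {s}) := by
      apply le_antisymm
      · rw [IntermediateField.adjoin_le_iff]
        rintro z (hz | hz)
        · exact IntermediateField.adjoin.mono _ _ _ Set.subset_union_left hz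
        · exact IntermediateField.subset_adjoin _ _ (Or.inr hz)
      · apply IntermediateField.adjoin.mono
        exact Set.union_subset_union_left _ (fun z hz => htF z hz)
    rw [hK]
    exact IntermediateField.fg_adjoin_of_finite ((Finset.finite_toSet t).union (Set.finite_singleton s))
  · intro z hz
    induction hz using IntermediateField.adjoin_induction with
    | mem z hz =>
      rcases hz with hz | hz
      · exact hDF z hz
      · rw [Set.mem_singleton_iff.1 hz, hDs]
        exact zero_mem _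
    | algebraMap c =>
      rw [D.map_algebraMap]
      exact zero_mem _
    | add z w _ _ hz hw => rw [map_add]; exact add_mem hz hw
    | inv z hz0 hz =>
      rw [Derivation.leibniz_inv]
      exact mul_mem (neg_mem (pow_mem (inv_mem hz0) 2)) hz
    | mul z w hz0 hw0 hz hw =>
      rw [Derivation.leibniz]
      exact add_mem (mul_mem hz0 hw) (mul_mem hw0 hz)
  · intro i
    exact ⟨hFK _ (hv1 _ (hpV i)), hFK _ (hv2 _ (hpV i)), hFK _ (hv3 _ (hpV i)),
      hFK _ (hv4 _ (hpV i))⟩
  · intro i
    exact hDV _ (hpV i)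
  · intro s' hs'
    refine ⟨hFK _ (hve _ hs'), hW s' hs' D ?_⟩
    intro v hv
    exact hDV v (Finset.mem_union_right _ (Finset.mem_biUnion.2 ⟨s', hs', hv⟩))
  · intro α hα hR hD0
    apply hR
    refine ⟨V, hV, ?_⟩
    intro δ hδ
    exact hDgen _ (sum_mem fun i _ => mul_mem (hk0F _ (hα i)) (hv1 _ (hpV i))) hD0 δ
      ((hgood δ).1 hδ)

end Pool.Agent.EllSch
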