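import Pool.Agent.EllSch.Fix.Kernel
import Pool.Agent.EllSch.Fix.AxF
import Pool.Agent.EllSch.Fix.FGen

/-! # [FF] The theorem for a fixed lattice -/

open Cardinal

namespace Pool.Agent.EllSch

namespace FFin

theorem countable_closure {S : Set ℂ} (hS : S.Countable) :
    ((Subfield.closure S : Subfield ℂ) : Set ℂ).Countable := by
  have h1 := Subfield.cardinalMk_closure_le_max S
  have h2 : #S ≤ ℵ₀ := Cardinal.mk_le_aleph0_iff.2 hS.to_subtype
  rw [← Set.countable_coe_iff]
  exact Cardinal.mk_le_aleph0_iff.1 (h1.trans (max_le h2 le_rfl))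

/-- a maximal algebraically independent subfamily -/
theorem exists_max' {ι E K : Type*} [Fintype ι] [DecidableEq ι] [Field E] [Field K] [Algebra E K]
    (e : ι → K) :
    ∃ s : Finset ι, AlgebraicIndependent E (fun i : s => e i) ∧
      ∀ i, IsAlgebraic (IntermediateField.adjoin E (e '' s)) (e i) := by
  classical
  let P : Finset (Finset ι) := Finset.univ.filter
    (fun s => AlgebraicIndepOn E e (s : Set ι))
  have hP : P.Nonempty := by
    refine ⟨∅, Finset.mem_filter.2 ⟨Finset.mem_univ _, ?_⟩⟩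
    have h0 : IsEmpty ((∅ : Finset ι) : Set ι) := by simp
    exact (algebraicIndependent_empty_type_iff).2 (algebraMap E K).injective
  obtain ⟨s, hs, hmax⟩ := Finset.exists_max_image P Finset.card hP
  have hs' : AlgebraicIndepOn E e (s : Set ι) := (Finset.mem_filter.1 hs).2
  refine ⟨s, hs', fun i => ?_⟩
  by_cases hi : i ∈ s
  · exact isAlgebraic_algebraMap (⟨e i, IntermediateField.subset_adjoin _ _ ⟨i, hi, rfl⟩⟩ :
      IntermediateField.adjoin E (e '' s))
  · have h1 : insert i s ∉ P := by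
      intro h
      have := hmax _ h
      rw [Finset.card_insert_of_notMem hi] at this
      omega
    have h2 : ¬AlgebraicIndepOn E e (insert i (s : Set ι)) := by
      intro h
      apply h1
      refine Finset.mem_filter.2 ⟨Finset.mem_univ _, ?_⟩
      rw [Finset.coe_insert]
      exact h
    rw [AlgebraicIndepOn.insert_iff (by simpa using hi)] at h2
    have h3 : IsAlgebraic (Algebra.adjoin E (e '' s)) (e i) := by
      by_contra h
      exact h2 ⟨hs', h⟩
    open scoped IntermediateField.algebraAdjoinAdjoin in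
    exact h3.extendScalars (FaithfulSMul.algebraMap_injective _ _)

/-- an element of `E(A)` lies in the field generated by `A` and finitely many elements of `E` -/
theorem exists_fin_of_mem (E : Subfield ℂ) (A : Set ℂ) {x : ℂ}
    (hx : x ∈ IntermediateField.adjoin E A) :
    ∃ e : Finset ℂ, (e : Set ℂ) ⊆ E ∧ x ∈ Subfield.closure ((e : Set ℂ) ∪ A) := by
  classical
  have mono : ∀ {e e' : Finset ℂ}, e ⊆ e' → Subfield.closure ((e : Set ℂ) ∪ A) ≤
      Subfield.closure ((e' : Set ℂ) ∪ A) := fun h =>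
    Subfield.closure_mono (Set.union_subset_union_left _ (by exact_mod_cast h))
  induction hx using IntermediateField.adjoin_induction with
  | mem y hy => exact ⟨∅, by simp, Subfield.subset_closure (Or.inr hy)⟩
  | algebraMap c =>
    exact ⟨{(c : ℂ)}, by simp, Subfield.subset_closure (Or.inl (by simp; rfl))⟩
  | add a b _ _ ha hb =>
    obtain ⟨e, he, hea⟩ := ha
    obtain ⟨e', he', heb⟩ := hb
    exact ⟨e ∪ e', by rw [Finset.coe_union]; exact Set.union_subset he he',
      add_mem (mono Finset.subset_union_left hea) (mono Finset.subset_union_right heb)⟩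
  | inv a _ ha =>
    obtain ⟨e, he, hea⟩ := ha
    exact ⟨e, he, inv_mem hea⟩
  | mul a b _ _ ha hb =>
    obtain ⟨e, he, hea⟩ := ha
    obtain ⟨e', he', heb⟩ := hb
    exact ⟨e ∪ e', by rw [Finset.coe_union]; exact Set.union_subset he he',
      mul_mem (mono Finset.subset_union_left hea) (mono Finset.subset_union_right heb)⟩

/-- algebraicity over a larger subfield -/
theorem alg_up {K : Type*} [Field K] {F G : Subfield K} (h : F ≤ G) {x : K} (hx : IsAlgebraic F x) :
    IsAlgebraic G x :=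
  hx.ringHom_of_comp_eq (Subfield.inclusion h) (RingHom.id K) (Subfield.inclusion h).injective rfl

/-- finitely many elements which are algebraic over `E(A)` are algebraic over the field generated
by `A` and finitely many elements of `E` -/
theorem exists_fin_alg (E : Subfield ℂ) (A : Set ℂ) {x : ℂ}
    (hx : IsAlgebraic (IntermediateField.adjoin E A) x) :
    ∃ e : Finset ℂ, (e : Set ℂ) ⊆ E ∧ IsAlgebraic (Subfield.closure ((e : Set ℂ) ∪ A)) x := by
  classical
  obtain ⟨p, hp0, hp⟩ := hx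
  choose f hf1 hf2 using fun c : IntermediateField.adjoin E A => exists_fin_of_mem E A c.2
  let e : Finset ℂ := p.support.biUnion fun k => f (p.coeff k)
  have he : (e : Set ℂ) ⊆ E := by
    intro c hc
    rw [Finset.mem_coe, Finset.mem_biUnion] at hc
    obtain ⟨k, -, hk⟩ := hc
    exact hf1 _ (by exact_mod_cast hk)
  refine ⟨e, he, ?_⟩
  let G := Subfield.closure ((e : Set ℂ) ∪ A)
  have hcoef : ∀ k, ((p.coeff k : IntermediateField.adjoin E A) : ℂ) ∈ G := by
    intro k
    by_cases hk : k ∈ p.support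
    · refine Subfield.closure_mono (Set.union_subset_union_left _ ?_) (hf2 (p.coeff k))
      intro c hc
      exact Finset.mem_coe.2 (Finset.mem_biUnion.2 ⟨k, hk, by exact_mod_cast hc⟩)
    · rw [Polynomial.notMem_support_iff.1 hk]
      exact zero_mem G
  have hl : p.map (algebraMap (IntermediateField.adjoin E A) ℂ) ∈ Polynomial.lifts G.subtype := by
    rw [Polynomial.lifts_iff_coeff_lifts]
    intro k
    rw [Polynomial.coeff_map]
    exact ⟨⟨_, hcoef k⟩, rfl⟩
  rw [Polynomial.mem_lifts] at hl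
  obtain ⟨q, hq⟩ := hl
  refine ⟨q, ?_, ?_⟩
  · rintro rfl
    rw [Polynomial.map_zero] at hq
    exact hp0 ((Polynomial.map_eq_zero _).1 hq.symm)
  · have h1 : Polynomial.aeval x q = Polynomial.eval x (q.map G.subtype) := by
      rw [Polynomial.eval_map]
      rfl
    rw [h1, hq, Polynomial.eval_map_algebraMap]
    exact hp

/-- algebraicity can be tested after an embedding -/
theorem alg_down {K L : Type*} [Field K] [Field L] (i : K →+* L) (A : Subfield K) {x : K}
    (h : IsAlgebraic (A.map i) (i x)) : IsAlgebraic A x := by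
  let f : A →+* A.map i :=
    { toFun := fun a => ⟨i a, ⟨a, a.2, rfl⟩⟩
      map_one' := Subtype.ext (map_one i)
      map_mul' := fun a b => Subtype.ext (map_mul i _ _)
      map_zero' := Subtype.ext (map_zero i)
      map_add' := fun a b => Subtype.ext (map_add i _ _) }
  refine h.of_ringHom_of_comp_eq f i ?_ i.injective rfl
  rintro ⟨_, a, ha, rfl⟩
  exact ⟨⟨a, ha⟩, rfl⟩


/-- the main step: a derivation with many good properties and few algebraically independent
numbers lead to a contradiction -/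
theorem contra {a b : ℂ} (h : Ind a b) {S : Set ℂ} (hS : CombProp a b S) (k0 : Subfield ℂ)
    (hSk : S ⊆ k0) {n : ℕ} (hn : 0 < n) (p : Fin n → ℂ) (K : IntermediateField k0 ℂ)
    (D : Derivation k0 ℂ ℂ) (hK : K.FG) (hDK : ∀ x ∈ K, D x ∈ K)
    (hpK : ∀ i, p i ∈ K ∧ wp a b (p i) ∈ K ∧ wq a b (p i) ∈ K ∧ wz a b (p i) ∈ K)
    (hgood : ∀ i, GoodAt a b D (p i))
    (hoff : ∀ β : Fin n → ℂ, (∀ i, β i ∈ EndL a b) → β ≠ 0 → Off a b (∑ i, β i * p i))
    (hD0 : ∀ β : Fin n → ℂ, (∀ i, β i ∈ EndL a b) → β ≠ 0 → D (∑ i, β i * p i) ≠ 0)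
    {e : Finset ℂ} (he : ∀ c ∈ e, c ∈ K ∧ D c = 0) {d : ℕ} (hd : d ≤ 2 * n) (t : Fin d → ℂ)
    (ht : ∀ k, t k ∈ K)
    (halg : ∀ i, IsAlgebraic (Subfield.closure ((e : Set ℂ) ∪ Set.range t)) (p i) ∧
      IsAlgebraic (Subfield.closure ((e : Set ℂ) ∪ Set.range t)) (wp a b (p i)) ∧
      IsAlgebraic (Subfield.closure ((e : Set ℂ) ∪ Set.range t)) (wz a b (p i))) : False := by
  classical
  let ι : K →+* ℂ := algebraMap K ℂ
  have hι : Function.Injective ι := (algebraMap K ℂ).injective
  -- the field of constants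
  let C : Subfield K :=
    { carrier := {x | D (x : ℂ) = 0}
      mul_mem' := by
        intro x y hx hy
        have hx' : D (x : ℂ) = 0 := hx
        have hy' : D (y : ℂ) = 0 := hy
        show D ((x : ℂ) * (y : ℂ)) = 0
        rw [Derivation.leibniz, hx', hy', smul_zero, smul_zero, add_zero]
      one_mem' := by
        show D (1 : ℂ) = 0
        exact D.map_one_eq_zero
      add_mem' := by
        intro x y hx hy
        have hx' : D (x : ℂ) = 0 := hx
        have hy' : D (y : ℂ) = 0 := hy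
        show D ((x : ℂ) + (y : ℂ)) = 0
        rw [map_add, hx', hy', add_zero]
      zero_mem' := by
        show D (0 : ℂ) = 0
        exact map_zero D
      neg_mem' := by
        intro x hx
        have hx' : D (x : ℂ) = 0 := hx
        show D (-(x : ℂ)) = 0
        rw [map_neg, hx', neg_zero]
      inv_mem' := by
        intro x hx
        have hx' : D (x : ℂ) = 0 := hx
        show D ((x : ℂ)⁻¹) = 0
        rw [Derivation.leibniz_inv, hx', smul_zero] }
  have memC : ∀ x : K, x ∈ C ↔ D (x : ℂ) = 0 := fun x => Iff.rfl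
  have hk0K : ∀ c ∈ k0, (c : ℂ) ∈ K := fun c hc => K.algebraMap_mem ⟨c, hc⟩
  have hDk0 : ∀ c ∈ k0, D c = 0 := fun c hc => D.map_algebraMap ⟨c, hc⟩
  -- the derivation of `K`
  let DK : Derivation C K K := Derivation.mk'
    { toFun := fun x => ⟨D x, hDK x x.2⟩
      map_add' := fun x y => Subtype.ext (map_add D (x : ℂ) (y : ℂ))
      map_smul' := fun c x => Subtype.ext (by
        have hc : D ((c : K) : ℂ) = 0 := c.2
        show D (((c : K) : ℂ) * (x : ℂ)) = ((c : K) : ℂ) * D (x : ℂ)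
        rw [Derivation.leibniz, hc, smul_zero, add_zero, smul_eq_mul]) } (by
      intro x y
      apply Subtype.ext
      show D ((x : ℂ) * (y : ℂ)) = (x : ℂ) * D (y : ℂ) + (y : ℂ) * D (x : ℂ)
      rw [Derivation.leibniz, smul_eq_mul, smul_eq_mul])
  have hDK' : ∀ x : K, ((DK x : K) : ℂ) = D (x : ℂ) := fun x => rfl
  have hconst : ∀ x, DK x = 0 → x ∈ Set.range (algebraMap C K) := by
    intro x hx
    have : D (x : ℂ) = 0 := congrArg Subtype.val hx
    exact ⟨⟨x, this⟩, rfl⟩
  -- the data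
  let x : Fin n → K := fun i => ⟨wp a b (p i), (hpK i).2.1⟩
  let y : Fin n → K := fun i => ⟨wq a b (p i), (hpK i).2.2.1⟩
  let z : Fin n → K := fun i => ⟨wz a b (p i), (hpK i).2.2.2⟩
  let P : Fin n → K := fun i => ⟨p i, (hpK i).1⟩
  let g2 : C := ⟨⟨G2 a b, hk0K _ (hSk hS.2.1)⟩, hDk0 _ (hSk hS.2.1)⟩
  let g3 : C := ⟨⟨G3 a b, hk0K _ (hSk hS.2.2.1)⟩, hDk0 _ (hSk hS.2.2.1)⟩
  have hsingle : ∀ i (k : ℂ), k ∈ EndL a b → k ≠ 0 → (∀ j, (Pi.single i k : Fin n → ℂ) j ∈ EndL a b) ∧
      (Pi.single i k : Fin n → ℂ) ≠ 0 ∧ ∑ j, (Pi.single i k : Fin n → ℂ) j * p j = k * p i := by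
    intro i k hk hk0
    refine ⟨fun j => ?_, fun h0 => hk0 ?_, ?_⟩
    · by_cases hj : j = i
      · subst hj; rwa [Pi.single_eq_same]
      · rw [Pi.single_eq_of_ne hj]; exact zero_mem _
    · have := congrFun h0 i
      rwa [Pi.single_eq_same] at this
    · rw [Finset.sum_eq_single i]
      · rw [Pi.single_eq_same]
      · intro j _ hj
        rw [Pi.single_eq_of_ne hj, zero_mul]
      · intro hi; exact absurd (Finset.mem_univ i) hi
  have hoffp : ∀ i, Off a b (p i) ∧ Off a b (2 * p i) := by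
    intro i
    obtain ⟨h1, h2, h3⟩ := hsingle i 1 (one_mem _) one_ne_zero
    obtain ⟨h4, h5, h6⟩ := hsingle i 2 (ofNat_mem _ 2) two_ne_zero
    have h7 := hoff _ h1 h2
    have h8 := hoff _ h4 h5
    rw [h3, one_mul] at h7
    rw [h6] at h8
    exact ⟨h7, h8⟩
  have hy0 : ∀ i, y i ≠ 0 := fun i h0 =>
    wq_ne_zero h (hoffp i).2 (congrArg Subtype.val h0)
  have hxy : ∀ i, y i ^ 2 = 4 * x i ^ 3 - algebraMap C K g2 * x i - algebraMap C K g3 :=
    fun i => Subtype.ext (ode h (hoffp i).1)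
  have hx : ∀ i, DK (x i) = y i * DK (P i) := fun i => Subtype.ext (hgood i).1
  have hz : ∀ i, DK (z i) = -(x i * DK (P i)) := fun i => Subtype.ext (by
    have := (hgood i).2.2
    show D (wz a b (p i)) = -(wp a b (p i) * D (p i))
    rw [this]; ring)
  have hp0 : ∃ i, DK (P i) ≠ 0 := by
    refine ⟨⟨0, hn⟩, fun h0 => ?_⟩
    obtain ⟨h1, h2, h3⟩ := hsingle ⟨0, hn⟩ 1 (one_mem _) one_ne_zero
    have h4 := hD0 _ h1 h2
    rw [h3, one_mul] at h4
    exact h4 (congrArg Subtype.val h0)
  let t' : Fin d → K := fun k => ⟨t k, ht k⟩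
  -- algebraicity
  have hle : Subfield.closure ((e : Set ℂ) ∪ Set.range t) ≤
      ((IntermediateField.adjoin C (Set.range t')).toSubfield).map ι := by
    rw [Subfield.closure_le]
    rintro c (hc | ⟨k, rfl⟩)
    · obtain ⟨h1, h2⟩ := he c (by exact_mod_cast hc)
      exact ⟨⟨c, h1⟩, (IntermediateField.adjoin C (Set.range t')).algebraMap_mem
        ⟨⟨c, h1⟩, h2⟩, rfl⟩
    · exact ⟨t' k, IntermediateField.subset_adjoin _ _ ⟨k, rfl⟩, rfl⟩
  have hdown : ∀ k : K, IsAlgebraic (Subfield.closure ((e : Set ℂ) ∪ Set.range t)) (k : ℂ) →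
      IsAlgebraic (IntermediateField.adjoin C (Set.range t')) k := by
    intro k hk
    have h1 : IsAlgebraic (((IntermediateField.adjoin C (Set.range t')).toSubfield).map ι) (ι k) :=
      alg_up hle hk
    exact alg_down ι _ h1
  obtain ⟨c, e', hce, u, hu⟩ := ax_flat DK hconst g2 g3 x y P z hy0 hxy hx hz hp0 hd t'
    (fun i => hdown _ (halg i).2.1) (fun i => hdown _ (halg i).1) (fun i => hdown _ (halg i).2.2)
  -- the theorem of the kernel
  have hSC : ∀ s ∈ S, ∃ c : C, ι (algebraMap C K c) = s := fun s hs =>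
    ⟨⟨⟨s, hk0K s (hSk hs)⟩, hDk0 s (hSk hs)⟩, rfl⟩
  have hfg : (⊤ : IntermediateField C K).FG := by
    obtain ⟨T, hT⟩ := hK
    have hTK : ∀ c ∈ T, c ∈ K := fun c hc => by
      rw [← hT]; exact IntermediateField.subset_adjoin _ _ (by exact_mod_cast hc)
    refine ⟨T.attach.image fun c => (⟨c.1, hTK c.1 c.2⟩ : K), ?_⟩
    rw [eq_top_iff]
    rintro ⟨k, hk⟩ -
    have key : ∀ k : ℂ, k ∈ IntermediateField.adjoin k0 (T : Set ℂ) → ∃ hk : k ∈ K,
        (⟨k, hk⟩ : K) ∈ IntermediateField.adjoin C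
          ((T.attach.image fun c => (⟨c.1, hTK c.1 c.2⟩ : K) : Finset K) : Set K) := by
      intro k hk
      induction hk using IntermediateField.adjoin_induction with
      | mem y hy =>
        refine ⟨hTK y (by exact_mod_cast hy), IntermediateField.subset_adjoin _ _ ?_⟩
        rw [Finset.mem_coe, Finset.mem_image]
        exact ⟨⟨y, by exact_mod_cast hy⟩, Finset.mem_attach _ _, rfl⟩
      | algebraMap c =>
        exact ⟨hk0K _ c.2, IntermediateField.algebraMap_mem _ (⟨⟨c, hk0K _ c.2⟩, hDk0 _ c.2⟩ : C)⟩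
      | add a b _ _ ha hb =>
        obtain ⟨ha1, ha2⟩ := ha
        obtain ⟨hb1, hb2⟩ := hb
        exact ⟨add_mem ha1 hb1, add_mem ha2 hb2⟩
      | inv a _ ha =>
        obtain ⟨ha1, ha2⟩ := ha
        exact ⟨inv_mem ha1, inv_mem ha2⟩
      | mul a b _ _ ha hb =>
        obtain ⟨ha1, ha2⟩ := ha
        obtain ⟨hb1, hb2⟩ := hb
        exact ⟨mul_mem ha1 hb1, mul_mem ha2 hb2⟩
    rw [← hT] at hk
    exact (key k hk).2
  have htr : ∀ β : Fin n → ℂ, (∀ i, β i ∈ EndL a b) → β ≠ 0 → ∀ X : K,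
      ι X = wp a b (∑ i, β i * p i) → Transcendental C X := by
    intro β hβ hβ0 X hX
    choose β' hβ' using fun i => hSC (β i) (hS.1 (hβ i))
    have hsum : ∀ v : Fin n → ℂ, ∑ i, ι (algebraMap C K (β' i)) * v i = ∑ i, β i * v i := fun v =>
      Finset.sum_congr rfl fun i _ => by rw [hβ']
    have hβK : (fun i => algebraMap C K (β' i)) ≠ 0 := by
      intro h0
      apply hβ0
      funext i
      have := congrFun h0 i
      simp only [Pi.zero_apply] at this
      rw [← hβ' i, this, map_zero, Pi.zero_apply]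
    obtain ⟨X', Y', hX', hY', hXY⟩ := hS.2.2.2 K ι (fun s hs => by
      obtain ⟨c, hc⟩ := hSC s hs
      exact ⟨_, hc⟩) n p hoff x y (fun i => rfl) (fun i => rfl)
      (fun i => algebraMap C K (β' i)) (fun i => by rw [hβ']; exact hβ i) hβK
    rw [hsum] at hX'
    obtain rfl : X = X' := hι (hX.trans hX'.symm)
    have h1 := hXY (DK.restrictScalars ℤ) (fun s hs => Subtype.ext (hDk0 _ (hSk hs)))
    intro hcon
    have hbot : IsAlgebraic (IntermediateField.adjoin C (∅ : Set K)) X := hcon.extendScalars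
      (algebraMap C (IntermediateField.adjoin C (∅ : Set K))).injective
    have h2 : DK X = 0 := derivation_eq_zero_of_algebraic (S := ∅) DK (by simp) hbot
    have h3 : (DK.restrictScalars ℤ) X = 0 := h2
    rw [h3, zero_div] at h1
    have h4 := congrArg ι h1
    rw [map_zero, map_sum] at h4
    apply hD0 β hβ hβ0
    rw [map_sum, h4]
    refine Finset.sum_congr rfl fun i _ => ?_
    have e1 : D (β i * p i) = β i * D (p i) := by
      rw [Derivation.leibniz, hDk0 _ (hSk (hS.1 (hβ i))), smul_zero, add_zero, smul_eq_mul]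
    rw [e1, map_mul ι, hβ']
    congr 1
    have h5 : (DK.restrictScalars ℤ) (x i) = y i * DK (P i) := hx i
    rw [h5, mul_comm (y i), mul_div_assoc, div_self (hy0 i), mul_one]
    rfl
  obtain ⟨hc0, he0⟩ := kernel_fix h hS ι hSC hfg p x y (fun i => rfl) (fun i => rfl) hoff htr c e' u hu
  rcases hce with h1 | h1
  · exact h1 hc0
  · exact h1 he0

end FFin

theorem fix_main {a b : ℂ} (h : Ind a b) {A : Set ℂ} (hA : A.Countable) :
    ∃ E : Subfield ℂ, (E : Set ℂ).Countable ∧ A ⊆ E ∧ (∀ x : ℂ, IsAlgebraic E x → x ∈ E) ∧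
      (∀ x, lat a b x ∈ E) ∧ (EndL a b : Set ℂ) ⊆ E ∧ G2 a b ∈ E ∧ G3 a b ∈ E ∧
      (∀ z ∈ E, Off a b z → wp a b z ∈ E ∧ wq a b z ∈ E ∧ wz a b z ∈ E) ∧
      ∀ (n : ℕ) (p : Fin n → ℂ), 0 < n →
        (∀ α : Fin n → ℂ, (∀ i, α i ∈ EndL a b) → ∑ i, α i * p i ∈ E → α = 0) →
        ∃ s : Finset (Fin 3 × Fin n), 2 * n + 1 ≤ s.card ∧
          AlgebraicIndependent E (fun i : s =>
            ![p (i : Fin 3 × Fin n).2, wp a b (p (i : Fin 3 × Fin n).2),
              wz a b (p (i : Fin 3 × Fin n).2)] (i : Fin 3 × Fin n).1) := by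
  classical
  obtain ⟨S, hSc, hS⟩ := exists_comb h
  let k0 : Subfield ℂ := Subfield.closure (S ∪ A)
  have hSk : S ⊆ k0 := Set.subset_union_left.trans Subfield.subset_closure
  have hAk : A ⊆ k0 := Set.subset_union_right.trans Subfield.subset_closure
  have hk : (k0 : Set ℂ).Countable := FFin.countable_closure (hSc.union hA)
  have h2 : G2 a b ∈ k0 := hSk hS.2.1
  have h3 : G3 a b ∈ k0 := hSk hS.2.2.1
  obtain ⟨E, hE, hEc, hkE, hEalg, hElat, hEcl⟩ := rigid_field h k0 hk h2 h3
  refine ⟨E, hEc, fun x hx => hkE (hAk hx), hEalg, hElat, fun α hα => hkE (hSk (hS.1 hα)), hkE h2,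
    hkE h3, hEcl, ?_⟩
  intro n p hn hp
  have hoff : ∀ β : Fin n → ℂ, (∀ i, β i ∈ EndL a b) → β ≠ 0 → Off a b (∑ i, β i * p i) := by
    intro β hβ hβ0 v hv
    exact hβ0 (hp β hβ (by rw [hv]; exact hElat v))
  have hoffp : ∀ i, Off a b (p i) := by
    intro i
    have := hoff (Pi.single i 1) (fun j => by
      by_cases hj : j = i
      · subst hj; rw [Pi.single_eq_same]; exact one_mem _
      · rw [Pi.single_eq_of_ne hj]; exact zero_mem _) (fun h0 => one_ne_zero (α := ℂ) (by
        have := congrFun h0 i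
        rwa [Pi.single_eq_same] at this))
    rw [Finset.sum_eq_single i] at this
    · rwa [Pi.single_eq_same, one_mul] at this
    · intro j _ hj
      rw [Pi.single_eq_of_ne hj, zero_mul]
    · intro hi; exact absurd (Finset.mem_univ i) hi
  let num : Fin 3 × Fin n → ℂ := fun q => ![p q.2, wp a b (p q.2), wz a b (p q.2)] q.1
  obtain ⟨s, hs, hsalg⟩ := FFin.exists_max' (E := E) num
  refine ⟨s, ?_, hs⟩
  by_contra hcard
  have hcard' : s.card ≤ 2 * n := by omega
  -- finitely many elements of `E` suffice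
  choose e he1 he2 using fun q => FFin.exists_fin_alg E (num '' s) (hsalg q)
  let e0 : Finset ℂ := Finset.univ.biUnion e
  have he0 : ∀ c ∈ e0, Rigid a b k0 c := by
    intro c hc
    rw [Finset.mem_biUnion] at hc
    obtain ⟨q, -, hq⟩ := hc
    exact (hE c).1 (he1 q (by exact_mod_cast hq))
  obtain ⟨K, D, hK, hDK, hpK, hgood, heK, hgen⟩ := generic_der h k0 hk h2 h3 p hoffp e0 he0
  let t : Fin s.card → ℂ := fun k => num (s.equivFin.symm k)
  have hrange : Set.range t = num '' s := by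
    ext c
    constructor
    · rintro ⟨k, rfl⟩
      exact ⟨_, (s.equivFin.symm k).2, rfl⟩
    · rintro ⟨q, hq, rfl⟩
      exact ⟨s.equivFin ⟨q, hq⟩, by simp [t]⟩
  have hnumK : ∀ q, num q ∈ K := by
    rintro ⟨j, i⟩
    fin_cases j
    · exact (hpK i).1
    · exact (hpK i).2.1
    · exact (hpK i).2.2.2
  have halg : ∀ q, IsAlgebraic (Subfield.closure ((e0 : Set ℂ) ∪ Set.range t)) (num q) := by
    intro q
    rw [hrange]
    refine FFin.alg_up (Subfield.closure_mono (Set.union_subset_union_left _ ?_)) (he2 q)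
    intro c hc
    exact Finset.mem_coe.2 (Finset.mem_biUnion.2 ⟨q, Finset.mem_univ _, by exact_mod_cast hc⟩)
  refine FFin.contra h hS k0 hSk hn p K D hK hDK hpK hgood hoff ?_ heK hcard' t
    (fun k => hnumK _) (fun i => ⟨halg (0, i), halg (1, i), halg (2, i)⟩)
  intro β hβ hβ0
  refine hgen β (fun i => hSk (hS.1 (hβ i))) fun hr => hβ0 (hp β hβ ((hE _).2 hr))

end Pool.Agent.EllSch
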