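import Pool.Agent.EllSch.Transfer
import Pool.Agent.EllSch.FieldThy
import Pool.Agent.EllSch.Zeta
import Pool.Agent.EllSch.Fix.FDefs
import Pool.Agent.EllSch.Fix.DerExt

/-! # [TR1] The transfer principle for a fixed lattice -/

open MvPolynomial

namespace Pool.Agent.EllSch

/-- `δ` respects the Weierstrass functions of the lattice at the point `v` -/
def GoodAt (a b : ℂ) {k0 : Subfield ℂ} (δ : Derivation k0 ℂ ℂ) (v : ℂ) : Prop :=
  δ (wp a b v) = wq a b v * δ v ∧ δ (wq a b v) = (6 * wp a b v ^ 2 - G2 a b / 2) * δ v ∧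
    δ (wz a b v) = -(wp a b v) * δ v

namespace FTr

theorem strict_of {f f' : ℂ → ℂ} {U : Set ℂ} (hU : IsOpen U) (hf : ∀ z ∈ U, HasDerivAt f (f' z) z)
    {z : ℂ} (hz : z ∈ U) : HasStrictDerivAt f (f' z) z := by
  have h1 : AnalyticOnNhd ℂ f U := DifferentiableOn.analyticOnNhd
    (fun w hw => (hf w hw).differentiableAt.differentiableWithinAt) hU
  have h2 := (h1 z hz).hasStrictDerivAt
  rwa [(hf z hz).deriv] at h2

noncomputable section

/-- the polynomial ring -/
abbrev R0 (k0 : Subfield ℂ) (m : ℕ) : Type := MvPolynomial (Fin m × Fin 4) k0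

variable {a b : ℂ} {k0 : Subfield ℂ} {m : ℕ}

/-- values of the variables -/
def val (a b : ℂ) (v : Fin m → ℂ) (p : Fin m × Fin 4) : ℂ :=
  ![v p.1, wp a b (v p.1), wq a b (v p.1), wz a b (v p.1)] p.2

/-- evaluation -/
def ev (a b : ℂ) (k0 : Subfield ℂ) (v : Fin m → ℂ) : R0 k0 m →ₐ[k0] ℂ := aeval (val a b v)

theorem ev_X (v : Fin m → ℂ) (p : Fin m × Fin 4) : ev a b k0 v (X p) = val a b v p := by
  simp [ev]

theorem ev_C (v : Fin m → ℂ) (c : k0) : ev a b k0 v (C c) = (c : ℂ) := by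
  simp only [ev, aeval_C]
  rfl

/-- values of the derivations on the variables -/
def gen (g2 : k0) (k : Fin m) (p : Fin m × Fin 4) : R0 k0 m :=
  if p.1 = k then ![1, X (p.1, 2), 6 * X (p.1, 1) ^ 2 - C (g2 / 2), -X (p.1, 1)] p.2 else 0

/-- the partial derivatives -/
def dk (g2 : k0) (k : Fin m) : Derivation k0 (R0 k0 m) (R0 k0 m) := mkDerivation k0 (gen g2 k)

theorem dk_X (g2 : k0) (k : Fin m) (p : Fin m × Fin 4) : dk g2 k (X p) = gen g2 k p :=
  mkDerivation_X k0 _ p

theorem dk_C (g2 : k0) (k : Fin m) (c : k0) : dk g2 k (C c) = 0 :=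
  derivation_C (mkDerivation k0 (gen g2 k)) c

/-- a combination of the partial derivatives -/
def dq (g2 : k0) (q : Fin m → R0 k0 m) : Derivation k0 (R0 k0 m) (R0 k0 m) :=
  mkDerivation k0 fun p => ∑ k, q k * gen g2 k p

theorem dq_X (g2 : k0) (q : Fin m → R0 k0 m) (p : Fin m × Fin 4) :
    dq g2 q (X p) = ∑ k, q k * gen g2 k p :=
  mkDerivation_X k0 _ p

theorem dq_apply (g2 : k0) (q : Fin m → R0 k0 m) (h : R0 k0 m) :
    dq g2 q h = ∑ k, q k * dk g2 k h := by
  induction h using MvPolynomial.induction_on with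
  | C c =>
    have h1 : dq g2 q (C c) = 0 := derivation_C _ c
    rw [h1]
    symm
    apply Finset.sum_eq_zero
    intro k _
    rw [dk_C, mul_zero]
  | add p q hp hq =>
    rw [map_add, hp, hq, ← Finset.sum_add_distrib]
    apply Finset.sum_congr rfl
    intro k _
    rw [map_add, mul_add]
  | mul_X p x hp =>
    rw [Derivation.leibniz, hp, dq_X, smul_eq_mul, smul_eq_mul, Finset.mul_sum, Finset.mul_sum,
      ← Finset.sum_add_distrib]
    apply Finset.sum_congr rfl
    intro k _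
    rw [Derivation.leibniz, dk_X, smul_eq_mul, smul_eq_mul]
    ring

/-- one coordinate -/
theorem strict_coord {f : ℂ → ℂ} {f' : ℂ} {v : Fin m → ℂ} (i : Fin m)
    (hf : HasStrictDerivAt f f' (v i)) :
    ∃ L : (Fin m → ℂ) →L[ℂ] ℂ, HasStrictFDerivAt (fun v : Fin m → ℂ => f (v i)) L v ∧
      ∀ k, L (Pi.single k 1) = if i = k then f' else 0 := by
  refine ⟨f' • ContinuousLinearMap.proj i, ?_, fun k => ?_⟩
  · have h1 : HasStrictFDerivAt (fun v : Fin m → ℂ => v i)
        (ContinuousLinearMap.proj (R := ℂ) (φ := fun _ : Fin m => ℂ) i) v :=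
      (ContinuousLinearMap.proj (R := ℂ) (φ := fun _ : Fin m => ℂ) i).hasStrictFDerivAt
    exact hf.comp_hasStrictFDerivAt v h1
  · show f' * (Pi.single k (1 : ℂ) : Fin m → ℂ) i = _
    rw [Pi.single_apply]
    split_ifs <;> simp

theorem strict_X (h : Ind a b) (g2 : k0) (hg2 : (g2 : ℂ) = G2 a b) {v : Fin m → ℂ}
    (hv : ∀ i, Off a b (v i)) (p : Fin m × Fin 4) :
    ∃ L : (Fin m → ℂ) →L[ℂ] ℂ, HasStrictFDerivAt (fun v => ev a b k0 v (X p)) L v ∧
      ∀ k, L (Pi.single k 1) = ev a b k0 v (dk g2 k (X p)) := by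
  obtain ⟨i, j⟩ := p
  have hX : (fun v : Fin m → ℂ => ev a b k0 v (X (i, j))) = fun v => val a b v (i, j) := by
    funext v
    exact ev_X v _
  rw [hX]
  simp only [dk_X, gen]
  fin_cases j
  · obtain ⟨L, hL, hL'⟩ := strict_coord (v := v) i (hasStrictDerivAt_id (v i))
    refine ⟨L, hL, fun k => ?_⟩
    rw [hL' k]
    split_ifs
    · exact (map_one (ev a b k0 v)).symm
    · exact (map_zero (ev a b k0 v)).symm
  · obtain ⟨L, hL, hL'⟩ := strict_coord (v := v) i
      (strict_of (isOpen_off h) (fun z hz => hasDerivAt_wp h hz) (hv i))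
    refine ⟨L, hL, fun k => ?_⟩
    rw [hL' k]
    split_ifs
    · exact (ev_X (k0 := k0) v (i, 2)).symm
    · exact (map_zero (ev a b k0 v)).symm
  · obtain ⟨L, hL, hL'⟩ := strict_coord (v := v) i
      (strict_of (isOpen_off h) (fun z hz => hasDerivAt_wq h hz) (hv i))
    refine ⟨L, hL, fun k => ?_⟩
    rw [hL' k]
    split_ifs
    · show 6 * wp a b (v i) ^ 2 - G2 a b / 2 =
        ev a b k0 v (6 * X (i, 1) ^ 2 - C (g2 / 2))
      simp only [map_sub, map_mul, map_pow, map_ofNat, ev_X, ev_C]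
      have h1 : ((g2 / 2 : k0) : ℂ) = G2 a b / 2 := by
        rw [← hg2]
        push_cast
        rfl
      rw [h1]
      rfl
    · exact (map_zero (ev a b k0 v)).symm
  · obtain ⟨L, hL, hL'⟩ := strict_coord (v := v) i
      (strict_of (isOpen_off h) (fun z hz => hasDerivAt_wz h hz) (hv i))
    refine ⟨L, hL, fun k => ?_⟩
    rw [hL' k]
    split_ifs
    · show -wp a b (v i) = ev a b k0 v (-X (i, 1))
      rw [map_neg, ev_X]
      rfl
    · exact (map_zero (ev a b k0 v)).symm

theorem strict (h : Ind a b) (g2 : k0) (hg2 : (g2 : ℂ) = G2 a b) {v : Fin m → ℂ}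
    (hv : ∀ i, Off a b (v i)) (T : R0 k0 m) :
    ∃ L : (Fin m → ℂ) →L[ℂ] ℂ, HasStrictFDerivAt (fun v => ev a b k0 v T) L v ∧
      ∀ k, L (Pi.single k 1) = ev a b k0 v (dk g2 k T) := by
  induction T using MvPolynomial.induction_on with
  | C c =>
    refine ⟨0, ?_, fun k => ?_⟩
    · simp only [ev_C]
      exact hasStrictFDerivAt_const _ _
    · rw [dk_C, map_zero]; simp
  | add p q hp hq =>
    obtain ⟨L, hL, hL'⟩ := hp
    obtain ⟨M, hM, hM'⟩ := hq
    refine ⟨L + M, ?_, fun k => ?_⟩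
    · simp only [map_add]
      exact hL.add hM
    · rw [_root_.add_apply, hL' k, hM' k, map_add, map_add]
  | mul_X p x hp =>
    obtain ⟨L, hL, hL'⟩ := hp
    obtain ⟨M, hM, hM'⟩ := strict_X h g2 hg2 hv x
    refine ⟨ev a b k0 v p • M + ev a b k0 v (X x) • L, ?_, fun k => ?_⟩
    · simp only [map_mul]
      exact hL.mul hM
    · rw [Derivation.leibniz, map_add, smul_eq_mul, smul_eq_mul, map_mul, map_mul, ← hL' k,
        ← hM' k]
      simp only [_root_.add_apply, _root_.smul_apply, smul_eq_mul]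

open scoped IntermediateField.algebraAdjoinAdjoin TensorProduct in
/-- a derivation of the polynomial ring which preserves the ideal of relations gives a derivation
of `ℂ` -/
theorem exists_of_ring (v : Fin m × Fin 4 → ℂ) (δ : Derivation k0 (R0 k0 m) (R0 k0 m))
    (hδ : ∀ h : R0 k0 m, aeval v h = 0 → aeval v (δ h) = 0) :
    ∃ D : Derivation k0 ℂ ℂ, ∀ h : R0 k0 m, D (aeval v h) = aeval v (δ h) := by
  classical
  let A := Algebra.adjoin k0 (Set.range v)
  let F := IntermediateField.adjoin k0 (Set.range v)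
  have h2 : Algebra.FormallyEtale A F := Algebra.FormallyEtale.of_isLocalization (nonZeroDivisors _)
  have hwell : ∀ h h' : R0 k0 m, aeval v h = aeval v h' → aeval v (δ h) = aeval v (δ h') := by
    intro h h' e
    have := hδ (h - h') (by rw [map_sub, e, sub_self])
    rw [map_sub, map_sub, sub_eq_zero] at this
    exact this
  have hex : ∀ x : A, ∃ h : R0 k0 m, aeval v h = (x : ℂ) := by
    rintro ⟨x, hx⟩
    have hx' : x ∈ Algebra.adjoin k0 (Set.range v) := hx
    rw [Algebra.adjoin_range_eq_range_aeval] at hx'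
    exact hx'
  choose s hs using hex
  let d : Derivation k0 A ℂ := Derivation.mk'
    { toFun := fun x => aeval v (δ (s x))
      map_add' := by
        intro x y
        rw [hwell (s (x + y)) (s x + s y) (by rw [map_add, hs, hs, hs]; rfl), map_add, map_add]
      map_smul' := by
        intro c x
        rw [hwell (s (c • x)) (c • s x) (by rw [map_smul, hs, hs]; rfl), Derivation.map_smul,
          map_smul]
        rfl }
    (by
      intro x y
      show aeval v (δ (s (x * y))) = x • aeval v (δ (s y)) + y • aeval v (δ (s x))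
      rw [hwell (s (x * y)) (s x * s y) (by rw [map_mul, hs, hs, hs]; rfl), Derivation.leibniz,
        map_add, smul_eq_mul, smul_eq_mul, map_mul, map_mul, hs, hs]
      rfl)
  have hd : ∀ x : A, d x = aeval v (δ (s x)) := fun x => rfl
  let e := KaehlerDifferential.tensorKaehlerEquivOfFormallyEtale k0 A F
  let d' : Derivation k0 F ℂ := ((d.liftKaehlerDifferential.liftBaseChange F) ∘ₗ
    e.symm.toLinearMap).compDer (KaehlerDifferential.D k0 F)
  have hd' : ∀ x : A, d' (algebraMap A F x) = d x := by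
    intro x
    have h4 := KaehlerDifferential.tensorKaehlerEquivOfFormallyEtale_symm_D_algebraMap k0 A F x
    show (d.liftKaehlerDifferential.liftBaseChange F)
      (e.symm (KaehlerDifferential.D k0 F (algebraMap A F x))) = d x
    rw [h4, LinearMap.liftBaseChange_tmul, Derivation.liftKaehlerDifferential_comp_D, one_smul]
  obtain ⟨D, hD⟩ := exists_ext_der (k := k0) (K := F) (L := ℂ) d'
  refine ⟨D, fun h => ?_⟩
  have hmem : aeval v h ∈ A := by
    show aeval v h ∈ Algebra.adjoin k0 (Set.range v)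
    rw [Algebra.adjoin_range_eq_range_aeval]
    exact ⟨h, rfl⟩
  have h5 := hD (algebraMap A F ⟨aeval v h, hmem⟩)
  rw [hd', hd] at h5
  rw [hwell _ h (hs _)] at h5
  exact h5

theorem countable_R0 (hk : Countable k0) : Countable (R0 k0 m) := by
  rw [← Cardinal.mk_le_aleph0_iff]
  exact MvPolynomial.cardinalMk_le_max.trans
    (max_le (max_le (Cardinal.mk_le_aleph0_iff.2 hk) Cardinal.mk_le_aleph0) le_rfl)

end

end FTr

/-- outside a countable set of values of the coordinate `v k` there is a derivation of `ℂ` over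
`k0` which respects the Weierstrass functions at all the `v i` and does not kill `v k` -/
theorem transfer_fix {a b : ℂ} (h : Ind a b) (k0 : Subfield ℂ) (hk : (k0 : Set ℂ).Countable)
    (h2 : G2 a b ∈ k0) (h3 : G3 a b ∈ k0) (m : ℕ) (k : Fin m) :
    ∃ S : Set ℂ, S.Countable ∧ ∀ v : Fin m → ℂ, (∀ i, Off a b (v i)) → v k ∉ S →
      ∃ δ : Derivation k0 ℂ ℂ, (∀ i, GoodAt a b δ (v i)) ∧ δ (v k) ≠ 0 := by
  classical
  have hc0 : Countable k0 := hk
  have hcR : Countable (FTr.R0 k0 m) := FTr.countable_R0 hc0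
  let g2 : k0 := ⟨G2 a b, h2⟩
  have hU : IsOpen {v : Fin m → ℂ | ∀ i, Off a b (v i)} := by
    have h1 : {v : Fin m → ℂ | ∀ i, Off a b (v i)} =
        ⋂ i : Fin m, (fun v : Fin m → ℂ => v i) ⁻¹' {z | Off a b z} := by
      ext v
      simp
    rw [h1]
    exact isOpen_iInter_of_finite fun i => (isOpen_off h).preimage (continuous_apply i)
  have hc := transfer (FTr.R0 k0 m) (fun v => (FTr.ev a b k0 v).toRingHom)
    {v : Fin m → ℂ | ∀ i, Off a b (v i)} hU
    (fun j => (FTr.dk g2 j).restrictScalars ℤ) (fun _ => 1) (fun _ _ => one_ne_zero)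
    (fun j => X (j, 0)) (fun v _ j => FTr.ev_X v (j, 0))
    (fun v hv T => by
      obtain ⟨L, hL, hL'⟩ := FTr.strict h g2 rfl hv T
      refine ⟨L, hL, fun j => ?_⟩
      rw [one_mul]
      exact hL' j)
    (fun v => v k) (fun j => if k = j then 1 else 0) (fun _ => 1)
    (fun v hv => by
      obtain ⟨L, hL, hL'⟩ := FTr.strict_coord (v := v) k (hasStrictDerivAt_id (v k))
      refine ⟨L, hL, fun j => ?_⟩
      rw [hL' j, one_mul]
      split_ifs
      · exact (map_one (FTr.ev a b k0 v)).symm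
      · exact (map_zero (FTr.ev a b k0 v)).symm)
  refine ⟨_, hc, fun v hv hS => ?_⟩
  have hq : ∃ q : Fin m → FTr.R0 k0 m,
      (∀ h : FTr.R0 k0 m, FTr.ev a b k0 v h = 0 →
        FTr.ev a b k0 v (∑ j, q j * FTr.dk g2 j h) = 0) ∧
      FTr.ev a b k0 v (∑ j, q j * if k = j then 1 else 0) ≠ 0 := by
    by_contra hcon
    exact hS ⟨v, hv, rfl, hcon⟩
  obtain ⟨q, hq1, hq2⟩ := hq
  obtain ⟨D, hD⟩ := FTr.exists_of_ring (FTr.val a b v) (FTr.dq g2 q) (by
    intro h hh
    rw [FTr.dq_apply]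
    exact hq1 h hh)
  have hX : ∀ (i : Fin m) (j : Fin 4), D (FTr.val a b v (i, j)) =
      FTr.ev a b k0 v (q i) * FTr.ev a b k0 v
        (![1, X (i, 2), 6 * X (i, 1) ^ 2 - C (g2 / 2), -X (i, 1)] j) := by
    intro i j
    have h1 := hD (X (i, j))
    rw [aeval_X] at h1
    rw [h1, FTr.dq_X]
    simp only [FTr.gen]
    rw [Finset.sum_eq_single i, if_pos rfl, ← map_mul]
    · rfl
    · intro l _ hl
      rw [if_neg hl.symm, mul_zero]
    · intro hn
      exact absurd (Finset.mem_univ i) hn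
  have hv0 : ∀ i, D (v i) = FTr.ev a b k0 v (q i) := by
    intro i
    have h1 := hX i 0
    have h5 : FTr.ev a b k0 v
        ((![1, X (i, 2), 6 * X (i, 1) ^ 2 - C (g2 / 2), -X (i, 1)] : Fin 4 → FTr.R0 k0 m) 0) = 1 :=
      map_one _
    rw [h5, mul_one] at h1
    exact h1
  refine ⟨D, fun i => ⟨?_, ?_, ?_⟩, ?_⟩
  · have h1 := hX i 1
    rw [hv0, mul_comm]
    have h5 : FTr.ev a b k0 v
        ((![1, X (i, 2), 6 * X (i, 1) ^ 2 - C (g2 / 2), -X (i, 1)] : Fin 4 → FTr.R0 k0 m) 1) =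
          wq a b (v i) := FTr.ev_X v (i, 2)
    rw [h5] at h1
    exact h1
  · have h1 := hX i 2
    rw [hv0, mul_comm]
    have h5 : FTr.ev a b k0 v
        ((![1, X (i, 2), 6 * X (i, 1) ^ 2 - C (g2 / 2), -X (i, 1)] : Fin 4 → FTr.R0 k0 m) 2) =
          6 * wp a b (v i) ^ 2 - G2 a b / 2 := by
      show FTr.ev a b k0 v (6 * X (i, 1) ^ 2 - C (g2 / 2)) = _
      simp only [map_sub, map_mul, map_pow, map_ofNat, FTr.ev_X, FTr.ev_C]
      have h1 : ((g2 / 2 : k0) : ℂ) = G2 a b / 2 := by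
        push_cast
        rfl
      rw [h1]
      rfl
    rw [h5] at h1
    exact h1
  · have h1 := hX i 3
    rw [hv0, mul_comm]
    have h5 : FTr.ev a b k0 v
        ((![1, X (i, 2), 6 * X (i, 1) ^ 2 - C (g2 / 2), -X (i, 1)] : Fin 4 → FTr.R0 k0 m) 3) =
          -wp a b (v i) := by
      show FTr.ev a b k0 v (-X (i, 1)) = _
      rw [map_neg, FTr.ev_X]
      rfl
    rw [h5] at h1
    exact h1
  · rw [hv0]
    simpa using hq2

end Pool.Agent.EllSch
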