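import Pool.Agent.EllSch.FieldThy

/-! # [FM] A subfield over which a given element generates an extension of finite degree -/

namespace Pool.Agent.EllSch

theorem exists_M {C K : Type*} [Field C] [Field K] [Algebra C K] [CharZero C]
    (hfg : (⊤ : IntermediateField C K).FG) {x : K} (hx : Transcendental C x) (y : K) :
    ∃ M : Subfield K, (∀ c, algebraMap C K c ∈ M) ∧
      (∃ δ : Derivation C K K, (∀ m ∈ M, δ m = 0) ∧ δ x = 1) ∧
      FiniteDimensional (Subfield.closure ((M : Set K) ∪ {x, y})) K := by
  classical
  obtain ⟨s, hxs, hs⟩ : ∃ s : Set K, {x} ⊆ s ∧ IsTranscendenceBasis C ((↑) : s → K) := by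
    have h : AlgebraicIndepOn C id ({x} : Set K) :=
      (algebraicIndependent_unique_type_iff (R := C)
        (x := fun i : ({x} : Set K) => id (i : K))).mpr hx
    obtain ⟨s, h1, h2⟩ := exists_isTranscendenceBasis_superset h
    exact ⟨s, h1, h2⟩
  have hxs' : x ∈ s := hxs rfl
  set M0 : IntermediateField C K := IntermediateField.adjoin C (s \ {x}) with hM0
  have htr : Transcendental M0 x := by
    rw [hM0, IntermediateField.transcendental_adjoin_iff]
    have h := hs.1.transcendental_adjoin (s := {i : s | (i : K) ≠ x}) (i := ⟨x, hxs'⟩) (by simp)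
    have hset : ((fun i : s => (i : K)) '' {i : s | (i : K) ≠ x}) = s \ {x} := by
      ext z
      constructor
      · rintro ⟨i, hi, rfl⟩
        exact ⟨i.2, hi⟩
      · rintro ⟨h1, h2⟩
        exact ⟨⟨z, h1⟩, h2, rfl⟩
    rw [← hset]
    exact h
  refine ⟨M0.toSubfield, fun c => M0.algebraMap_mem c, ?_, ?_⟩
  · obtain ⟨δ, h1, h2⟩ := exists_derivation_eq_one htr
    refine ⟨δ, ?_, h1⟩
    intro m hm
    refine derivation_eq_zero_of_algebraic δ h2 (x := m) ?_
    exact isAlgebraic_algebraMap (⟨m, hm⟩ : M0)
  · set F : Subfield K := Subfield.closure ((M0.toSubfield : Set K) ∪ {x, y}) with hF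
    have hMF : ∀ m ∈ M0, m ∈ F := fun m hm => Subfield.subset_closure (Or.inl hm)
    have hxF : x ∈ F := Subfield.subset_closure (Or.inr (Or.inl rfl))
    have hCF : ∀ c : C, algebraMap C K c ∈ F := fun c => hMF _ (M0.algebraMap_mem c)
    have hsF : ∀ z ∈ s, z ∈ F := by
      intro z hz
      by_cases h : z = x
      · rw [h]; exact hxF
      · exact hMF z (IntermediateField.subset_adjoin C _ ⟨hz, h⟩)
    have hle : ∀ z ∈ IntermediateField.adjoin C s, z ∈ F := by
      intro z hz
      let F' : IntermediateField C K := { F with algebraMap_mem' := hCF }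
      have : IntermediateField.adjoin C s ≤ F' := IntermediateField.adjoin_le_iff.mpr hsF
      exact this hz
    have halg : ∀ z : K, IsAlgebraic F z := by
      intro z
      have hA : Algebra.IsAlgebraic (IntermediateField.adjoin C s) K := by
        have := hs.isAlgebraic_field
        rwa [Subtype.range_coe] at this
      have hz := hA.1 z
      let φ : IntermediateField.adjoin C s →+* F :=
        { toFun := fun w => ⟨w.1, hle w.1 w.2⟩
          map_one' := rfl
          map_mul' := fun _ _ => rfl
          map_zero' := rfl
          map_add' := fun _ _ => rfl }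
      obtain ⟨p, hp0, hp⟩ := hz
      refine ⟨p.map φ, ?_, ?_⟩
      · rwa [Ne, Polynomial.map_eq_zero]
      · rw [Polynomial.aeval_def, Polynomial.eval₂_map]
        exact hp
    obtain ⟨T, hT⟩ := hfg
    have hfin : FiniteDimensional F (IntermediateField.adjoin F (T : Set K)) :=
      IntermediateField.finiteDimensional_adjoin (fun z _ => (halg z).isIntegral)
    have htop : IntermediateField.adjoin F (T : Set K) = ⊤ := by
      rw [eq_top_iff]
      intro z _
      have hz : z ∈ IntermediateField.adjoin C (T : Set K) := by rw [hT]; trivial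
      let G' : IntermediateField C K :=
        { (IntermediateField.adjoin F (T : Set K)).toSubfield with
          algebraMap_mem' := fun c => (IntermediateField.adjoin F (T : Set K)).algebraMap_mem
            ⟨_, hCF c⟩ }
      have h2 : IntermediateField.adjoin C (T : Set K) ≤ G' :=
        IntermediateField.adjoin_le_iff.mpr (IntermediateField.subset_adjoin F _)
      exact h2 hz
    rw [htop] at hfin
    exact IntermediateField.topEquiv.toLinearEquiv.finiteDimensional

end Pool.Agent.EllSch
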