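import Mathlib

/-! # [LI] Linear algebra over a subring of `ℂ` -/

open ComplexConjugate

namespace Pool.Agent.EllSch

theorem lin_zero (O : Subring ℂ) {n : ℕ} (t : (Fin n → ℂ) → Fin n → ℂ)
    (ht : ∀ β : Fin n → ℂ, (∀ i, β i ∈ O) → β ≠ 0 →
      (∀ i, t β i ∈ O) ∧ ∑ i, β i * t β i ≠ 0)
    (c : Fin n → ℂ) (hc : ∀ β : Fin n → ℂ, (∀ i, β i ∈ O) → β ≠ 0 → ∑ i, c i * t β i = 0) :
    c = 0 := by
  classical
  set k : Subfield ℂ := Subfield.closure (O : Set ℂ) with hk
  have hOk : ∀ x ∈ O, x ∈ k := fun x hx => Subfield.subset_closure hx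
  have hfrac : ∀ x ∈ k, ∃ z ∈ O, z ≠ 0 ∧ z * x ∈ O := by
    intro x hx
    obtain ⟨y, hy, z, hz, rfl⟩ := Subfield.mem_closure_iff.mp hx
    rw [Subring.closure_eq] at hy hz
    by_cases h0 : z = 0
    · exact ⟨1, O.one_mem, one_ne_zero, by rw [h0, div_zero, mul_zero]; exact O.zero_mem⟩
    · exact ⟨z, hz, h0, by rw [mul_div_cancel₀ _ h0]; exact hy⟩
  set V : Submodule k (Fin n → k) := Submodule.span k
    {v | ∃ β : Fin n → ℂ, (∀ i, β i ∈ O) ∧ β ≠ 0 ∧ ∀ i, (v i : ℂ) = t β i} with hV
  have htop : V = ⊤ := by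
    by_contra hne
    obtain ⟨f, hf, hVf⟩ := Submodule.exists_le_ker_of_lt_top V (lt_top_iff_ne_top.mpr hne)
    set b : Fin n → k := fun i => f (Pi.single i 1) with hb
    have hfv : ∀ v : Fin n → k, f v = ∑ i, v i * b i := by
      intro v
      rw [LinearMap.pi_apply_eq_sum_univ f v]
      refine Finset.sum_congr rfl fun i _ => ?_
      rw [smul_eq_mul]
      congr 2
      funext j
      simp [Pi.single_apply, eq_comm]
    have hb0 : ∃ i, b i ≠ 0 := by
      by_contra hcon
      push Not at hcon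
      apply hf
      ext i
      simpa [hb] using congrArg (Subtype.val) (hcon i)
    obtain ⟨i0, hi0⟩ := hb0
    choose z hz hz0 hzb using fun i => hfrac (b i) (b i).2
    set d : ℂ := ∏ i, z i with hd
    have hd0 : d ≠ 0 := Finset.prod_ne_zero_iff.mpr fun i _ => hz0 i
    set β : Fin n → ℂ := fun i => d * b i with hβ
    have hβO : ∀ i, β i ∈ O := by
      intro i
      have : β i = (∏ j ∈ Finset.univ.erase i, z j) * (z i * b i) := by
        rw [hβ, hd]
        change (∏ j, z j) * (b i : ℂ) = _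
        rw [← Finset.prod_erase_mul Finset.univ z (Finset.mem_univ i)]
        ring
      rw [this]
      exact O.mul_mem (O.prod_mem fun j _ => hz j) (hzb i)
    have hβ0 : β ≠ 0 := by
      intro h0
      have := congrFun h0 i0
      change d * (b i0 : ℂ) = 0 at this
      rcases mul_eq_zero.mp this with h | h
      · exact hd0 h
      · exact hi0 (Subtype.ext h)
    obtain ⟨htO, hne'⟩ := ht β hβO hβ0
    apply hne'
    have hv : (fun i => (⟨t β i, hOk _ (htO i)⟩ : k)) ∈ V :=
      Submodule.subset_span ⟨β, hβO, hβ0, fun i => rfl⟩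
    have h1 := hVf hv
    rw [LinearMap.mem_ker, hfv] at h1
    have h2 := congrArg (Subtype.val) h1
    simp only [AddSubmonoidClass.coe_finsetSum, MulMemClass.coe_mul, ZeroMemClass.coe_zero] at h2
    calc ∑ i, β i * t β i = d * ∑ i, t β i * (b i : ℂ) := by
          rw [Finset.mul_sum]
          exact Finset.sum_congr rfl fun i _ => by rw [hβ]; ring
      _ = 0 := by rw [h2, mul_zero]
  have hall : ∀ v ∈ V, ∑ i, c i * (v i : ℂ) = 0 := by
    intro v hv
    induction hv using Submodule.span_induction with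
    | mem v hv =>
      obtain ⟨β, hβO, hβ0, hvt⟩ := hv
      rw [← hc β hβO hβ0]
      exact Finset.sum_congr rfl fun i _ => by rw [hvt]
    | zero => simp
    | add v w _ _ hv hw =>
      have : ∑ i, c i * (((v + w) i : k) : ℂ) = ∑ i, c i * (v i : ℂ) + ∑ i, c i * (w i : ℂ) := by
        rw [← Finset.sum_add_distrib]
        exact Finset.sum_congr rfl fun i _ => by rw [Pi.add_apply, AddMemClass.coe_add]; ring
      rw [this, hv, hw, add_zero]
    | smul r v _ hv =>
      have : ∑ i, c i * (((r • v) i : k) : ℂ) = (r : ℂ) * ∑ i, c i * (v i : ℂ) := by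
        rw [Finset.mul_sum]
        exact Finset.sum_congr rfl fun i _ => by
          rw [Pi.smul_apply, smul_eq_mul, MulMemClass.coe_mul]; ring
      rw [this, hv, mul_zero]
  funext j
  have h1 := hall (Pi.single j 1) (htop ▸ Submodule.mem_top)
  rw [Finset.sum_eq_single j] at h1
  · simpa using h1
  · intro i _ hij
    rw [Pi.single_eq_of_ne hij]
    simp
  · simp

theorem lin_zero_conj (O : Subring ℂ) {n : ℕ} (t : (Fin n → ℂ) → Fin n → ℂ)
    (ht : ∀ β : Fin n → ℂ, (∀ i, β i ∈ O) → β ≠ 0 →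
      (∀ i, t β i ∈ O) ∧ ∑ i, β i * t β i ≠ 0)
    (c : Fin n → ℂ)
    (hc : ∀ β : Fin n → ℂ, (∀ i, β i ∈ O) → β ≠ 0 → ∑ i, c i * conj (t β i) = 0) :
    c = 0 := by
  have h := lin_zero O t ht (fun i => conj (c i)) fun β hβ h0 => by
    have h1 := congrArg conj (hc β hβ h0)
    rw [map_sum, map_zero] at h1
    rw [← h1]
    exact Finset.sum_congr rfl fun i _ => by rw [map_mul, Complex.conj_conj]
  funext i
  have h2 := congrFun h i
  simpa using h2

end Pool.Agent.EllSch
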