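import Pool.Agent.EllSch.Fix.Trace
import Pool.Agent.EllSch.Fix.Exact
import Pool.Agent.EllSch.Fix.Comb
import Pool.Agent.EllSch.Fix.Lin
import Pool.Agent.EllSch.Fix.FieldM

/-! # [KT] The theorem of the kernel for a constant curve -/

open ComplexConjugate

namespace Pool.Agent.EllSch

namespace Kernel

/-- restriction of a derivation to a stable subfield -/
theorem exists_restrict {K : Type*} [Field K] (F : Subfield K) (D : Derivation ℤ K K)
    (hF : ∀ x ∈ F, D x ∈ F) : ∃ d : Derivation ℤ F F, ∀ x : F, (d x : K) = D x := by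
  let f : F →ₗ[ℤ] F :=
    { toFun := fun x => ⟨D x, hF x x.2⟩
      map_add' := fun x y => Subtype.ext (by push_cast; exact map_add D _ _)
      map_smul' := fun m x => Subtype.ext (by
        have : D ((m • x : F) : K) = m • D (x : K) := by
          have h1 : ((m • x : F) : K) = m • (x : K) := rfl
          rw [h1, map_zsmul]
        exact this) }
  refine ⟨Derivation.mk' f fun x y => Subtype.ext ?_, fun x => rfl⟩
  have : D ((x * y : F) : K) = (x : K) * D y + (y : K) * D x := by
    have h1 : ((x * y : F) : K) = (x : K) * (y : K) := rfl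
    rw [h1, Derivation.leibniz, smul_eq_mul, smul_eq_mul]
  exact this

/-- a derivation which maps generators into the subfield they generate preserves it -/
theorem stable_closure {K : Type*} [Field K] (D : Derivation ℤ K K) (T : Set K)
    (hT : ∀ x ∈ T, D x ∈ Subfield.closure T) : ∀ x ∈ Subfield.closure T, D x ∈ Subfield.closure T := by
  intro x hx
  induction hx using Subfield.closure_induction with
  | mem x hx => exact hT x hx
  | one => rw [Derivation.map_one_eq_zero]; exact zero_mem _
  | add x y _ _ hx hy => rw [map_add]; exact add_mem hx hy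
  | neg x _ hx => rw [map_neg]; exact neg_mem hx
  | inv x hx' hx =>
    rw [Derivation.leibniz_inv, smul_eq_mul]
    exact mul_mem (neg_mem (pow_mem (inv_mem hx') 2)) hx
  | mul x y hx' hy' hx hy =>
    rw [Derivation.leibniz, smul_eq_mul, smul_eq_mul]
    exact add_mem (mul_mem hx' hy) (mul_mem hy' hx)

/-- the generators of a subfield generate it as an abstract field -/
theorem closure_comap {K : Type*} [Field K] (M : Subfield K) (x y : K)
    (hx : x ∈ Subfield.closure ((M : Set K) ∪ {x, y}))
    (hy : y ∈ Subfield.closure ((M : Set K) ∪ {x, y})) :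
    Subfield.closure (((M.comap (Subfield.closure ((M : Set K) ∪ {x, y})).subtype :
      Subfield (Subfield.closure ((M : Set K) ∪ {x, y}))) :
        Set (Subfield.closure ((M : Set K) ∪ {x, y}))) ∪ {⟨x, hx⟩, ⟨y, hy⟩}) = ⊤ := by
  set F := Subfield.closure ((M : Set K) ∪ {x, y}) with hF
  rw [eq_top_iff]
  rintro ⟨f, hf⟩ -
  have key : ∀ f (hf : f ∈ F), (⟨f, hf⟩ : F) ∈
      Subfield.closure (((M.comap F.subtype : Subfield F) : Set F) ∪ {⟨x, hx⟩, ⟨y, hy⟩}) := by
    intro f hf
    induction hf using Subfield.closure_induction with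
    | mem f hf =>
      apply Subfield.subset_closure
      rcases hf with hf | hf | hf
      · exact Or.inl hf
      · exact Or.inr (Or.inl (Subtype.ext hf))
      · exact Or.inr (Or.inr (Subtype.ext hf))
    | one => exact one_mem _
    | add u v hu' hv' hu hv => exact add_mem hu hv
    | neg u hu' hu => exact neg_mem hu
    | inv u hu' hu => exact inv_mem hu
    | mul u v hu' hv' hu hv => exact mul_mem hu hv
  exact key f hf


/-- the key step: the coefficients attached to one combination of the points -/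
theorem step {a b : ℂ} (h : Ind a b) {S : Set ℂ} (hS : CombProp a b S) {C K : Type}
    [Field C] [Field K] [Algebra C K] (ι : K →+* ℂ)
    (hSC : ∀ s ∈ S, ∃ c : C, ι (algebraMap C K c) = s) (hfg : (⊤ : IntermediateField C K).FG)
    {n : ℕ} (z : Fin n → ℂ) (x y : Fin n → K) (hx : ∀ i, ι (x i) = wp a b (z i))
    (hy : ∀ i, ι (y i) = wq a b (z i))
    (hoff : ∀ β : Fin n → ℂ, (∀ i, β i ∈ EndL a b) → β ≠ 0 → Off a b (∑ i, β i * z i))
    (htr : ∀ β : Fin n → ℂ, (∀ i, β i ∈ EndL a b) → β ≠ 0 → ∀ X : K,
      ι X = wp a b (∑ i, β i * z i) → Transcendental C X)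
    (c e : Fin n → C) (u : K)
    (hu : ∀ δ : Derivation C K K, δ u = ∑ i, (algebraMap C K (c i) * (δ (x i) / y i) -
        algebraMap C K (e i) * (x i * δ (x i) / y i))) (β : Fin n → ℂ)
    (hβ : ∀ i, β i ∈ EndL a b) (hβ0 : β ≠ 0) :
    ∃ t : Fin n → ℂ, (∀ i, t i ∈ EndL a b) ∧ ∑ i, β i * t i ≠ 0 ∧
      ∑ i, ι (algebraMap C K (e i)) * conj (t i) = 0 ∧
      ((∀ i, e i = 0) → ∑ i, ι (algebraMap C K (c i)) * t i = 0) := by
  classical
  have : CharZero K := (RingHom.charZero_iff ι.injective).2 inferInstance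
  have : CharZero C := (RingHom.charZero_iff (algebraMap C K).injective).2 inferInstance
  -- the coefficients as elements of `C`
  choose β' hβ' using fun i => hSC (β i) (hS.1 (hβ i))
  obtain ⟨g2, hg2⟩ := hSC _ hS.2.1
  obtain ⟨g3, hg3⟩ := hSC _ hS.2.2.1
  have hsum : ∀ v : Fin n → ℂ, ∑ i, ι (algebraMap C K (β' i)) * v i = ∑ i, β i * v i := fun v =>
    Finset.sum_congr rfl fun i _ => by rw [hβ']
  have hβK : (fun i => algebraMap C K (β' i)) ≠ 0 := by
    intro h0
    apply hβ0
    funext i
    have := congrFun h0 i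
    simp only [Pi.zero_apply] at this
    rw [← hβ' i, this, map_zero, Pi.zero_apply]
  obtain ⟨X, Y, hX, hY, hXY⟩ := hS.2.2.2 K ι (fun s hs => by
    obtain ⟨c, hc⟩ := hSC s hs
    exact ⟨_, hc⟩) n z hoff x y hx hy (fun i => algebraMap C K (β' i))
    (fun i => by rw [hβ']; exact hβ i) hβK
  rw [hsum] at hX hY
  have hz0 := hoff β hβ hβ0
  have hXt := htr β hβ hβ0 X hX
  -- curve equation for `X`, `Y`
  have hcur : Y ^ 2 = 4 * X ^ 3 - algebraMap C K g2 * X - algebraMap C K g3 := by
    apply ι.injective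
    simp only [map_sub, map_mul, map_pow, map_ofNat]
    rw [hX, hY, hg2, hg3]
    exact ode h hz0
  have hY0 : Y ≠ 0 := by
    intro h0
    apply hXt
    have h1 : IsAlgebraic C X := by
      refine ⟨4 * Polynomial.X ^ 3 - Polynomial.C g2 * Polynomial.X - Polynomial.C g3, ?_, ?_⟩
      · intro h2
        have h3 := congrArg (fun p => Polynomial.coeff p 3) h2
        simp [Polynomial.coeff_ofNat_mul] at h3
      · simp only [map_sub, map_mul, map_pow, map_ofNat, Polynomial.aeval_X, Polynomial.aeval_C]
        rw [← hcur, h0]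
        ring
    exact h1
  obtain ⟨M, hCM, ⟨δ, hδM, hδX⟩, hfin⟩ := exists_M hfg hXt Y
  set D : Derivation ℤ K K := (Y • δ).restrictScalars ℤ with hD
  have hDv : ∀ k, D k = Y * δ k := fun k => rfl
  have hDX : D X = Y := by rw [hDv, hδX, mul_one]
  have hDM : ∀ m ∈ M, D m = 0 := fun m hm => by rw [hDv, hδM m hm, mul_zero]
  have hDC : ∀ c : C, D (algebraMap C K c) = 0 := fun c => hDM _ (hCM c)
  have hDY : D Y = 6 * X ^ 2 - algebraMap C K g2 / 2 := by
    have h1 := congrArg D hcur
    have h4 : D (4 : K) = 0 := by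
      have := D.map_natCast 4
      simpa using this
    simp only [map_sub, Derivation.leibniz, Derivation.leibniz_pow, hDC, hDX, smul_eq_mul,
      h4, nsmul_eq_mul] at h1
    have h2 : (2 * Y) * (D Y) = (2 * Y) * (6 * X ^ 2 - algebraMap C K g2 / 2) := by
      push_cast at h1
      linear_combination h1
    exact mul_left_cancel₀ (mul_ne_zero two_ne_zero hY0) h2
  set T : Set K := (M : Set K) ∪ {X, Y} with hT
  set F := Subfield.closure T with hF
  have hMF : ∀ m ∈ M, m ∈ F := fun m hm => Subfield.subset_closure (Or.inl hm)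
  have hXF : X ∈ F := Subfield.subset_closure (Or.inr (Or.inl rfl))
  have hYF : Y ∈ F := Subfield.subset_closure (Or.inr (Or.inr rfl))
  have hstab : ∀ k ∈ F, D k ∈ F := by
    apply Kernel.stable_closure
    rintro k (hk | hk | hk)
    · rw [hDM k hk]; exact zero_mem _
    · rw [hk, hDX]; exact hYF
    · rw [Set.mem_singleton_iff.1 hk, hDY]
      exact sub_mem (mul_mem (ofNat_mem F 6) (pow_mem hXF 2))
        (div_mem (hMF _ (hCM g2)) (ofNat_mem F 2))
  obtain ⟨d, hd⟩ := Kernel.exists_restrict F D hstab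
  have hdD : ∀ f : F, D (algebraMap F K f) = algebraMap F K (d f) := fun f => (hd f).symm
  let cF : C → F := fun c => ⟨algebraMap C K c, hMF _ (hCM c)⟩
  have hcF : ∀ c, algebraMap F K (cF c) = algebraMap C K c := fun _ => rfl
  have hcF0 : ∀ c, d (cF c) = 0 := fun c => Subtype.ext (by rw [hd]; exact hDC c)
  let M' : Subfield F := M.comap F.subtype
  -- the function field
  have H : EllF a b (ι.comp F.subtype) M' (⟨X, hXF⟩ : F) ⟨Y, hYF⟩ (cF g2) (cF g3) d
      (∑ i, β i * z i) := by
    refine ⟨h, fun m hm => Subtype.ext ?_, hCM g2, hCM g3, hg2, hg3, hz0, hX, hY, ?_, ?_, ?_⟩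
    · rw [hd]; exact hDM _ hm
    · apply Subtype.ext
      rw [hd]
      exact hDX
    · intro h0
      exact hY0 (congrArg Subtype.val h0)
    · exact Kernel.closure_comap M X Y hXF hYF
  have hΔ : (cF g2) ^ 3 - 27 * (cF g3) ^ 2 ≠ 0 := by
    intro h0
    have h1 := congrArg (ι.comp F.subtype) h0
    simp only [map_sub, map_mul, map_pow, map_ofNat, map_zero] at h1
    have e2 : (ι.comp F.subtype) (cF g2) = G2 a b := hg2
    have e3 : (ι.comp F.subtype) (cF g3) = G3 a b := hg3
    rw [e2, e3] at h1
    exact disc_ne_zero h h1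
  -- the individual points
  have hoffz : ∀ i, Off a b (z i) ∧ Off a b (2 * z i) := by
    intro i
    have key : ∀ k : ℂ, k ∈ EndL a b → k ≠ 0 → Off a b (k * z i) := by
      intro k hk hk0
      have := hoff (Pi.single i k) (fun j => by
        by_cases hj : j = i
        · subst hj; rwa [Pi.single_eq_same]
        · rw [Pi.single_eq_of_ne hj]; exact zero_mem _) (fun h0 => hk0 (by
          have := congrFun h0 i
          rwa [Pi.single_eq_same] at this))
      rw [Finset.sum_eq_single i] at this
      · rwa [Pi.single_eq_same] at this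
      · intro j _ hj
        rw [Pi.single_eq_of_ne hj, zero_mul]
      · intro hi; exact absurd (Finset.mem_univ i) hi
    refine ⟨?_, key 2 (ofNat_mem _ 2) two_ne_zero⟩
    have := key 1 (one_mem _) one_ne_zero
    rwa [one_mul] at this
  have hyi : ∀ i, y i ≠ 0 := by
    intro i h0
    have h1 := hy i
    rw [h0, map_zero] at h1
    exact wq_ne_zero h (hoffz i).2 h1.symm
  have hcuri : ∀ i, y i ^ 2 = 4 * x i ^ 3 - algebraMap F K (cF g2) * x i -
      algebraMap F K (cF g3) := by
    intro i
    apply ι.injective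
    simp only [map_sub, map_mul, map_pow, map_ofNat, hcF]
    rw [hx, hy, hg2, hg3]
    exact ode h (hoffz i).1
  choose om et w hom het hpt using fun i => trace_point d D hdD (cF g2) (cF g3) (hcF0 g2)
    (hcF0 g3) hΔ (x i) (y i) (hyi i) (hcuri i)
  -- the relation over `F`
  have hlin : ∀ (c : C) (k : K), Algebra.trace F K (algebraMap C K c * k) =
      cF c * Algebra.trace F K k := by
    intro c k
    have h1 : algebraMap C K c * k = (cF c) • k := by rw [Algebra.smul_def, hcF]
    rw [h1, map_smul, smul_eq_mul]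
  have hU : d (Algebra.trace F K u) = ∑ i, (cF (c i) * om i - cF (e i) * (et i + d (w i))) := by
    rw [← trace_der hdD u]
    have h1 : D u = ∑ i, (algebraMap C K (c i) * (D (x i) / y i) -
        algebraMap C K (e i) * (x i * D (x i) / y i)) := hu (Y • δ)
    rw [h1, map_sum]
    refine Finset.sum_congr rfl fun i _ => ?_
    rw [map_sub, hlin, hlin, hom, het]
  obtain ⟨t, ht1, ht2, ht3, ht4⟩ := exact_rel H om et w (fun i => cF (c i)) (fun i => cF (e i))
    (Algebra.trace F K u) (fun i => hCM _) (fun i => hCM _) hpt hU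
  refine ⟨t, ht1, ?_, ht3, fun he0 => ht4 fun i => Subtype.ext ?_⟩
  · -- `∑ β i * t i` is the degree
    have h1 : ∑ i, cF (β' i) * om i = Algebra.trace F K (1 : K) := by
      have h2 : (1 : K) = ∑ i, algebraMap C K (β' i) * (D (x i) / y i) := by
        rw [← hXY D ?_, hDX, div_self hY0]
        intro s hs
        obtain ⟨c, hc⟩ := hSC _ hs
        rw [← ι.injective hc]
        exact hDC c
      rw [h2, map_sum]
      exact Finset.sum_congr rfl fun i _ => by rw [hlin, hom]
    have h3 : ∑ i, β i * t i = (ι.comp F.subtype) (Algebra.trace F K (1 : K)) := by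
      rw [← h1, map_sum]
      refine Finset.sum_congr rfl fun i _ => ?_
      rw [map_mul, ht2]
      congr 1
      exact (hβ' i).symm
    rw [h3, Algebra.trace_apply]
    have h4 : LinearMap.trace F K (LinearMap.mulLeft F (1 : K)) = (Module.finrank F K : F) := by
      rw [LinearMap.mulLeft_one]
      exact LinearMap.trace_id F K
    intro h5
    have h6 : Algebra.trace F K (1 : K) = (Module.finrank F K : F) := by
      have := Algebra.trace_algebraMap (S := K) (1 : F)
      rw [map_one] at this
      rw [this, nsmul_eq_mul, mul_one]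
    rw [← Algebra.trace_apply, h6, map_natCast, Nat.cast_eq_zero] at h5
    exact (Module.finrank_pos (R := F) (M := K)).ne' h5
  · show algebraMap C K (e i) = 0
    rw [he0 i, map_zero]

end Kernel

theorem kernel_fix {a b : ℂ} (h : Ind a b) {S : Set ℂ} (hS : CombProp a b S) {C K : Type}
    [Field C] [Field K] [Algebra C K] (ι : K →+* ℂ)
    (hSC : ∀ s ∈ S, ∃ c : C, ι (algebraMap C K c) = s) (hfg : (⊤ : IntermediateField C K).FG)
    {n : ℕ} (z : Fin n → ℂ) (x y : Fin n → K) (hx : ∀ i, ι (x i) = wp a b (z i))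
    (hy : ∀ i, ι (y i) = wq a b (z i))
    (hoff : ∀ β : Fin n → ℂ, (∀ i, β i ∈ EndL a b) → β ≠ 0 → Off a b (∑ i, β i * z i))
    (htr : ∀ β : Fin n → ℂ, (∀ i, β i ∈ EndL a b) → β ≠ 0 → ∀ X : K,
      ι X = wp a b (∑ i, β i * z i) → Transcendental C X)
    (c e : Fin n → C) (u : K)
    (hu : ∀ δ : Derivation C K K, δ u = ∑ i, (algebraMap C K (c i) * (δ (x i) / y i) -
        algebraMap C K (e i) * (x i * δ (x i) / y i))) : c = 0 ∧ e = 0 := by
  classical
  have hstep := Kernel.step h hS ι hSC hfg z x y hx hy hoff htr c e u hu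
  choose! t ht using hstep
  have he : (fun i => ι (algebraMap C K (e i))) = 0 :=
    lin_zero_conj (EndL a b) t (fun β hβ hβ0 => ⟨(ht β hβ hβ0).1, (ht β hβ hβ0).2.1⟩) _
      fun β hβ hβ0 => (ht β hβ hβ0).2.2.1
  have he' : ∀ i, e i = 0 := by
    intro i
    have := congrFun he i
    simp only [Pi.zero_apply] at this
    exact (map_eq_zero (algebraMap C K)).1 ((map_eq_zero ι).1 this)
  have hc : (fun i => ι (algebraMap C K (c i))) = 0 :=
    lin_zero (EndL a b) t (fun β hβ hβ0 => ⟨(ht β hβ hβ0).1, (ht β hβ hβ0).2.1⟩) _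
      fun β hβ hβ0 => (ht β hβ hβ0).2.2.2 he'
  refine ⟨funext fun i => ?_, funext he'⟩
  have := congrFun hc i
  simp only [Pi.zero_apply] at this
  exact (map_eq_zero (algebraMap C K)).1 ((map_eq_zero ι).1 this)

end Pool.Agent.EllSch
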