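import Pool.Agent.EllSch.Fix.FDefs

/-! # [RE] Realisation of the function field of an elliptic curve by elliptic functions -/

open Filter Topology

namespace Pool.Agent.EllSch

/-- A subfield `F = M (℘ z₀, ℘' z₀)` of `ℂ` (embedded by `ι`), with the derivation `D` which kills
`M` and maps `x = ℘ z₀` to `y = ℘' z₀`. -/
structure EllF (a b : ℂ) {F : Type} [Field F] (ι : F →+* ℂ) (M : Subfield F) (x y g2 g3 : F)
    (D : Derivation ℤ F F) (z0 : ℂ) : Prop where
  ind : Ind a b
  hM : ∀ m ∈ M, D m = 0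
  hg2 : g2 ∈ M
  hg3 : g3 ∈ M
  e2 : ι g2 = G2 a b
  e3 : ι g3 = G3 a b
  hz0 : Off a b z0
  ex : ι x = wp a b z0
  ey : ι y = wq a b z0
  hDx : D x = y
  hy : y ≠ 0
  htop : Subfield.closure ((M : Set F) ∪ {x, y}) = ⊤

namespace RealM

open MvPolynomial

section
variable {a b : ℂ} {F : Type} [Field F] {ι : F →+* ℂ} {M : Subfield F} {x y g2 g3 : F}
    {D : Derivation ℤ F F} {z0 : ℂ}

/-- polynomial functions of `℘`, `℘'` -/
noncomputable def G (a b : ℂ) (ι : F →+* ℂ) (M : Subfield F) (z : ℂ) :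
    MvPolynomial (Fin 2) M →+* ℂ :=
  MvPolynomial.eval₂Hom (ι.comp M.subtype) ![wp a b z, wq a b z]

/-- evaluation at `x`, `y` -/
noncomputable def ev (M : Subfield F) (x y : F) : MvPolynomial (Fin 2) M →+* F :=
  MvPolynomial.eval₂Hom M.subtype ![x, y]

/-- the formal derivation -/
noncomputable def dd (M : Subfield F) (h : M) :
    Derivation M (MvPolynomial (Fin 2) M) (MvPolynomial (Fin 2) M) :=
  MvPolynomial.mkDerivation M ![X 1, 6 * X 0 ^ 2 - C h]

theorem G_C (z : ℂ) (m : M) : G a b ι M z (C m) = ι m := by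
  simp [G]

theorem G_X0 (z : ℂ) : G a b ι M z (X 0) = wp a b z := by
  simp [G]

theorem G_X1 (z : ℂ) : G a b ι M z (X 1) = wq a b z := by
  simp [G]

theorem ev_C (m : M) : ev M x y (C m) = m := by
  simp [ev]

theorem ev_X0 : ev M x y (X 0) = x := by
  simp [ev]

theorem ev_X1 : ev M x y (X 1) = y := by
  simp [ev]

theorem dd_C (h m : M) : dd M h (C m) = 0 := (dd M h).map_algebraMap m

theorem dd_X0 (h : M) : dd M h (X 0) = X 1 := by
  rw [dd, MvPolynomial.mkDerivation_X]
  rfl

theorem dd_X1 (h : M) : dd M h (X 1) = 6 * X 0 ^ 2 - C h := by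
  rw [dd, MvPolynomial.mkDerivation_X]
  rfl

theorem G_lat (h : Ind a b) (z : ℂ) (v : ℤ × ℤ) : G a b ι M (z + lat a b v) = G a b ι M z := by
  simp only [G, wp_add_lat h, wq_add_lat h]

theorem G_z0 (H : EllF a b ι M x y g2 g3 D z0) (Q : MvPolynomial (Fin 2) M) :
    G a b ι M z0 Q = ι (ev M x y Q) := by
  have : G a b ι M z0 = ι.comp (ev M x y) := by
    apply MvPolynomial.ringHom_ext
    · intro m
      rw [G_C, RingHom.comp_apply, ev_C]
    · intro i
      fin_cases i
      · change G a b ι M z0 (X 0) = ι (ev M x y (X 0))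
        rw [G_X0, ev_X0, H.ex]
      · change G a b ι M z0 (X 1) = ι (ev M x y (X 1))
        rw [G_X1, ev_X1, H.ey]
  rw [this]
  rfl

/-- `g₂ / 2` as an element of `M` -/
noncomputable def gh (H : EllF a b ι M x y g2 g3 D z0) : M := ⟨g2, H.hg2⟩ / 2

theorem coe_gh (H : EllF a b ι M x y g2 g3 D z0) : ((gh H : M) : F) = g2 / 2 := by
  have h2 : ((2 : M) : F) = 2 := map_ofNat M.subtype 2
  change g2 / ((2 : M) : F) = g2 / 2
  rw [h2]

theorem hasDerivAt_G (H : EllF a b ι M x y g2 g3 D z0) (Q : MvPolynomial (Fin 2) M) :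
    ∀ z, Off a b z → HasDerivAt (fun z => G a b ι M z Q) (G a b ι M z (dd M (gh H) Q)) z := by
  intro z hz
  induction Q using MvPolynomial.induction_on with
  | C m =>
    simp only [G_C, dd_C, map_zero]
    exact hasDerivAt_const _ _
  | add p q hp hq =>
    simp only [map_add]
    exact hp.add hq
  | mul_X p i hp =>
    simp only [map_mul, Derivation.leibniz, smul_eq_mul, map_add]
    fin_cases i
    · change HasDerivAt (fun z => G a b ι M z p * G a b ι M z (X 0))
        (G a b ι M z p * G a b ι M z (dd M (gh H) (X 0)) +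
          G a b ι M z (X 0) * G a b ι M z (dd M (gh H) p)) z
      simp only [dd_X0, G_X0, G_X1]
      have := hp.mul (hasDerivAt_wp H.ind hz)
      refine this.congr_deriv ?_
      ring
    · change HasDerivAt (fun z => G a b ι M z p * G a b ι M z (X 1))
        (G a b ι M z p * G a b ι M z (dd M (gh H) (X 1)) +
          G a b ι M z (X 1) * G a b ι M z (dd M (gh H) p)) z
      simp only [dd_X1, G_X1, map_sub, map_mul, map_pow, G_X0, G_C, map_ofNat, coe_gh, map_div₀,
        H.e2]
      have := hp.mul (hasDerivAt_wq H.ind hz)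
      refine this.congr_deriv ?_
      ring

theorem curve (H : EllF a b ι M x y g2 g3 D z0) : y ^ 2 = 4 * x ^ 3 - g2 * x - g3 := by
  apply ι.injective
  simp only [map_sub, map_mul, map_pow, map_ofNat, H.ex, H.ey, H.e2, H.e3]
  exact ode H.ind H.hz0

theorem hDy (H : EllF a b ι M x y g2 g3 D z0) : D y = 6 * x ^ 2 - g2 / 2 := by
  have hc : CharZero F := ι.charZero
  have h4 : D (4 : F) = 0 := by simpa using D.map_natCast 4
  have h := congrArg D (curve H)
  simp only [map_sub, Derivation.leibniz, Derivation.leibniz_pow, smul_eq_mul, nsmul_eq_mul, h4,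
    H.hM _ H.hg2, H.hM _ H.hg3, H.hDx] at h
  push_cast at h
  simp only [pow_one] at h
  have h2y : 2 * y ≠ 0 := by simpa using H.hy
  apply mul_left_cancel₀ h2y
  linear_combination h

theorem ev_dd (H : EllF a b ι M x y g2 g3 D z0) (Q : MvPolynomial (Fin 2) M) :
    ev M x y (dd M (gh H) Q) = D (ev M x y Q) := by
  have hc : CharZero F := ι.charZero
  induction Q using MvPolynomial.induction_on with
  | C m =>
    rw [dd_C, map_zero, ev_C, H.hM _ m.2]
  | add p q hp hq =>
    simp only [map_add, hp, hq]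
  | mul_X p i hp =>
    simp only [map_mul, Derivation.leibniz, smul_eq_mul, map_add, hp]
    congr 1
    fin_cases i
    · change ev M x y p * ev M x y (dd M (gh H) (X 0)) = ev M x y p * D (ev M x y (X 0))
      rw [dd_X0, ev_X0, ev_X1, H.hDx]
    · change ev M x y p * ev M x y (dd M (gh H) (X 1)) = ev M x y p * D (ev M x y (X 1))
      simp only [dd_X1, ev_X1, map_sub, map_mul, map_pow, ev_X0, ev_C, map_ofNat, coe_gh, hDy H]

theorem analyticAt_G (H : EllF a b ι M x y g2 g3 D z0) (Q : MvPolynomial (Fin 2) M) {z : ℂ}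
    (hz : Off a b z) : AnalyticAt ℂ (fun z => G a b ι M z Q) z := by
  rw [Complex.analyticAt_iff_eventually_differentiableAt]
  filter_upwards [(isOpen_off H.ind).mem_nhds hz] with u hu
  exact (hasDerivAt_G H Q u hu).differentiableAt

theorem order_top (H : EllF a b ι M x y g2 g3 D z0) (n : ℕ) :
    ∀ Q : MvPolynomial (Fin 2) M, ev M x y Q = 0 →
      (n : ℕ∞) ≤ analyticOrderAt (fun z => G a b ι M z Q) z0 := by
  induction n with
  | zero => intro Q hQ; simp
  | succ n ih =>
    intro Q hQ
    have h1 : G a b ι M z0 Q = 0 := by rw [G_z0 H, hQ, map_zero]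
    have h2 := (analyticAt_G H Q H.hz0).analyticOrderAt_deriv_add_one
    simp only [h1, sub_zero] at h2
    rw [← h2]
    have h3 : deriv (fun z => G a b ι M z Q) =ᶠ[𝓝 z0] fun z => G a b ι M z (dd M (gh H) Q) := by
      filter_upwards [(isOpen_off H.ind).mem_nhds H.hz0] with u hu
      exact (hasDerivAt_G H Q u hu).deriv
    rw [analyticOrderAt_congr h3]
    have h4 := ih (dd M (gh H) Q) (by rw [ev_dd H, hQ, map_zero])
    push_cast
    gcongr

theorem G_eq_zero_of_eventually (H : EllF a b ι M x y g2 g3 D z0) (Q : MvPolynomial (Fin 2) M)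
    {u : ℂ} (hu : Off a b u) (h : ∀ᶠ z in 𝓝 u, G a b ι M z Q = 0) :
    ∀ z, Off a b z → G a b ι M z Q = 0 := by
  have h1 : AnalyticOnNhd ℂ (fun z => G a b ι M z Q) {z | Off a b z} :=
    fun z hz => analyticAt_G H Q hz
  have h2 := h1.eqOn_zero_of_preconnected_of_eventuallyEq_zero (isPreconnected_off H.ind)
    (z₀ := u) hu h
  exact fun z hz => h2 hz

/-- relations over `M` at `z₀` hold identically -/
theorem G_eq_zero (H : EllF a b ι M x y g2 g3 D z0) (Q : MvPolynomial (Fin 2) M)
    (hQ : ev M x y Q = 0) : ∀ z, Off a b z → G a b ι M z Q = 0 := by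
  have h1 : analyticOrderAt (fun z => G a b ι M z Q) z0 = ⊤ :=
    ENat.eq_top_iff_forall_ge.2 fun n => order_top H n Q hQ
  exact G_eq_zero_of_eventually H Q H.hz0 (analyticOrderAt_eq_top.1 h1)

theorem meromorphicAt_wp (h : Ind a b) (s : ℂ) : MeromorphicAt (wp a b) s := by
  have h1 : wp a b = (pp h).weierstrassP := funext (wp_eq h)
  rw [h1]
  exact (pp h).meromorphic_weierstrassP s

theorem meromorphicAt_wq (h : Ind a b) (s : ℂ) : MeromorphicAt (wq a b) s := by
  have h1 : wq a b = (pp h).derivWeierstrassP := funext (wq_eq h)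
  rw [h1]
  exact (pp h).meromorphic_derivWeierstrassP s

theorem meromorphicAt_G (h : Ind a b) (Q : MvPolynomial (Fin 2) M) (s : ℂ) :
    MeromorphicAt (fun z => G a b ι M z Q) s := by
  induction Q using MvPolynomial.induction_on with
  | C m =>
    simp only [G_C]
    exact MeromorphicAt.const _ _
  | add p q hp hq =>
    simp only [map_add]
    exact hp.add hq
  | mul_X p i hp =>
    simp only [map_mul]
    refine hp.mul ?_
    fin_cases i
    · change MeromorphicAt (fun z => G a b ι M z (X 0)) s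
      simp only [G_X0]
      exact meromorphicAt_wp h s
    · change MeromorphicAt (fun z => G a b ι M z (X 1)) s
      simp only [G_X1]
      exact meromorphicAt_wq h s

theorem cod_ne (H : EllF a b ι M x y g2 g3 D z0) (Q : MvPolynomial (Fin 2) M)
    (hQ : ev M x y Q ≠ 0) : Cod fun z => G a b ι M z Q ≠ 0 := by
  intro s
  rcases (meromorphicAt_G H.ind Q s).eventually_eq_zero_or_eventually_ne_zero with h | h
  · exfalso
    -- a point off the lattice near which the function vanishes
    have h1 := h.and (Basic.eventually_off H.ind s)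
    obtain ⟨U, hU, hUo, hsU⟩ := eventually_nhds_iff.1 (eventually_nhdsWithin_iff.1 h1)
    obtain ⟨u, hu1, hu2⟩ : ∃ u, u ∈ U ∧ u ≠ s := by
      have h5 : ∀ᶠ u in 𝓝[≠] s, u ∈ U := nhdsWithin_le_nhds (hUo.mem_nhds hsU)
      obtain ⟨u, hu⟩ := (h5.and self_mem_nhdsWithin).exists
      exact ⟨u, hu.1, hu.2⟩
    have h2 : ∀ᶠ z in 𝓝 u, G a b ι M z Q = 0 := by
      filter_upwards [hUo.mem_nhds hu1, isOpen_ne.mem_nhds hu2] with z hz hz'
      exact (hU z hz hz').1
    have h3 := G_eq_zero_of_eventually H Q (hU u hu1 hu2).2 h2 z0 H.hz0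
    rw [G_z0 H, map_eq_zero] at h3
    exact hQ h3
  · exact h

theorem exists_frac (H : EllF a b ι M x y g2 g3 D z0) (f : F) :
    ∃ A B : MvPolynomial (Fin 2) M, ev M x y B ≠ 0 ∧ f * ev M x y B = ev M x y A := by
  have hf : f ∈ Subfield.closure ((M : Set F) ∪ {x, y}) := by rw [H.htop]; trivial
  induction hf using Subfield.closure_induction with
  | mem f hf =>
    rcases hf with hf | hf | hf
    · exact ⟨C ⟨f, hf⟩, 1, by simp, by rw [map_one, mul_one, ev_C]⟩
    · exact ⟨X 0, 1, by simp, by rw [map_one, mul_one, ev_X0]; exact hf⟩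
    · exact ⟨X 1, 1, by simp, by rw [map_one, mul_one, ev_X1]; exact hf⟩
  | one => exact ⟨1, 1, by simp, by simp⟩
  | add f g _ _ hf hg =>
    obtain ⟨A, B, hB, h⟩ := hf
    obtain ⟨A', B', hB', h'⟩ := hg
    refine ⟨A * B' + A' * B, B * B', by rw [map_mul]; exact mul_ne_zero hB hB', ?_⟩
    simp only [map_add, map_mul, ← h, ← h']
    ring
  | neg f _ hf =>
    obtain ⟨A, B, hB, h⟩ := hf
    exact ⟨-A, B, hB, by rw [map_neg, ← h, neg_mul]⟩
  | inv f _ hf =>
    obtain ⟨A, B, hB, h⟩ := hf
    by_cases h0 : f = 0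
    · exact ⟨0, 1, by simp, by simp [h0]⟩
    · refine ⟨B, A, by rw [← h]; exact mul_ne_zero h0 hB, ?_⟩
      rw [← h, inv_mul_cancel_left₀ h0]
  | mul f g _ _ hf hg =>
    obtain ⟨A, B, hB, h⟩ := hf
    obtain ⟨A', B', hB', h'⟩ := hg
    refine ⟨A * A', B * B', by rw [map_mul]; exact mul_ne_zero hB hB', ?_⟩
    simp only [map_mul, ← h, ← h']
    ring

open Classical in
/-- numerator -/
noncomputable def nu (H : EllF a b ι M x y g2 g3 D z0) (f : F) : MvPolynomial (Fin 2) M :=
  (exists_frac H f).choose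

open Classical in
/-- denominator -/
noncomputable def de (H : EllF a b ι M x y g2 g3 D z0) (f : F) : MvPolynomial (Fin 2) M :=
  (exists_frac H f).choose_spec.choose

theorem de_ne (H : EllF a b ι M x y g2 g3 D z0) (f : F) : ev M x y (de H f) ≠ 0 :=
  (exists_frac H f).choose_spec.choose_spec.1

theorem nu_eq (H : EllF a b ι M x y g2 g3 D z0) (f : F) :
    f * ev M x y (de H f) = ev M x y (nu H f) :=
  (exists_frac H f).choose_spec.choose_spec.2

/-- the realisation -/
noncomputable def rr (H : EllF a b ι M x y g2 g3 D z0) (f : F) (z : ℂ) : ℂ :=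
  G a b ι M z (nu H f) / G a b ι M z (de H f)

theorem cod_rr (H : EllF a b ι M x y g2 g3 D z0) {f : F} {A B : MvPolynomial (Fin 2) M}
    (hB : ev M x y B ≠ 0) (h : f * ev M x y B = ev M x y A) :
    Cod fun z => Off a b z ∧ G a b ι M z B ≠ 0 ∧ rr H f z = G a b ι M z A / G a b ι M z B := by
  have h1 : ev M x y (nu H f * B - A * de H f) = 0 := by
    rw [map_sub, map_mul, map_mul, ← h, ← nu_eq H f]
    ring
  have h2 := G_eq_zero H _ h1
  refine (((cod_off H.ind).and (cod_ne H B hB)).and (cod_ne H _ (de_ne H f))).mono ?_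
  rintro z ⟨⟨hz, hz1⟩, hz2⟩
  refine ⟨hz, hz1, ?_⟩
  have h3 := h2 z hz
  rw [map_sub, map_mul, map_mul, sub_eq_zero] at h3
  rw [rr, div_eq_div_iff hz2 hz1]
  exact h3

theorem rr_z0 (H : EllF a b ι M x y g2 g3 D z0) (f : F) : rr H f z0 = ι f := by
  rw [rr, G_z0 H, G_z0 H, ← nu_eq H f, map_mul, mul_div_cancel_right₀]
  rw [Ne, map_eq_zero]
  exact de_ne H f

theorem rr_analytic (H : EllF a b ι M x y g2 g3 D z0) (f : F) : AnalyticAt ℂ (rr H f) z0 := by
  refine (analyticAt_G H _ H.hz0).div (analyticAt_G H _ H.hz0) ?_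
  rw [G_z0 H, Ne, map_eq_zero]
  exact de_ne H f

end

end RealM

open RealM in
/-- Every element of `F` is the value at `z₀` of a meromorphic elliptic function, compatibly with
the field operations and with the derivation. -/
theorem realize {a b : ℂ} {F : Type} [Field F] {ι : F →+* ℂ} {M : Subfield F} {x y g2 g3 : F}
    {D : Derivation ℤ F F} {z0 : ℂ} (H : EllF a b ι M x y g2 g3 D z0) :
    ∃ r : F → ℂ → ℂ,
      (∀ f s, MeromorphicAt (r f) s) ∧
      (∀ f v z, r f (z + lat a b v) = r f z) ∧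
      (∀ f, r f z0 = ι f ∧ AnalyticAt ℂ (r f) z0) ∧
      (∀ m ∈ M, Cod fun z => r m z = ι m) ∧
      (∀ f g, Cod fun z => r (f + g) z = r f z + r g z) ∧
      (∀ f g, Cod fun z => r (f * g) z = r f z * r g z) ∧
      (∀ f g, Cod fun z => r (f / g) z = r f z / r g z) ∧
      (∀ f, f ≠ 0 → Cod fun z => r f z ≠ 0) ∧
      (∀ f, Cod fun z => HasDerivAt (r f) (r (D f) z) z) := by
  refine ⟨rr H, ?_, ?_, ?_, ?_, ?_, ?_, ?_, ?_, ?_⟩
  · intro f s
    exact (meromorphicAt_G H.ind _ s).div (meromorphicAt_G H.ind _ s)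
  · intro f v z
    simp only [rr, G_lat H.ind]
  · intro f
    exact ⟨rr_z0 H f, rr_analytic H f⟩
  · intro m hm
    have hA : m * ev M x y 1 = ev M x y (MvPolynomial.C ⟨m, hm⟩) := by
      rw [map_one, mul_one, ev_C]
    refine (cod_rr H (by simp) hA).mono ?_
    rintro z ⟨-, -, hz⟩
    rw [hz, map_one, div_one, G_C]
  · intro f g
    have hA : (f + g) * ev M x y (de H f * de H g) =
        ev M x y (nu H f * de H g + nu H g * de H f) := by
      simp only [map_add, map_mul, ← nu_eq]
      ring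
    refine (cod_rr H (by rw [map_mul]; exact mul_ne_zero (de_ne H f) (de_ne H g)) hA).mono ?_
    rintro z ⟨-, hz1, hz⟩
    rw [map_mul] at hz1
    have z1 := left_ne_zero_of_mul hz1
    have z2 := right_ne_zero_of_mul hz1
    rw [hz, rr, rr, map_add, map_mul, map_mul, map_mul]
    field_simp
  · intro f g
    have hA : (f * g) * ev M x y (de H f * de H g) =
        ev M x y (nu H f * nu H g) := by
      simp only [map_mul, ← nu_eq]
      ring
    refine (cod_rr H (by rw [map_mul]; exact mul_ne_zero (de_ne H f) (de_ne H g)) hA).mono ?_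
    rintro z ⟨-, hz1, hz⟩
    rw [map_mul] at hz1
    have z1 := left_ne_zero_of_mul hz1
    have z2 := right_ne_zero_of_mul hz1
    rw [hz, rr, rr, map_mul, map_mul]
    field_simp
  · intro f g
    by_cases hg : g = 0
    · subst hg
      have h0 : (0 : F) * ev M x y 1 = ev M x y 0 := by simp
      rw [div_zero]
      refine (cod_rr H (by simp) h0).mono ?_
      rintro z ⟨-, -, hz⟩
      rw [hz]
      simp
    · have hng : ev M x y (nu H g) ≠ 0 := by
        rw [← nu_eq]
        exact mul_ne_zero hg (de_ne H g)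
      have hA : (f / g) * ev M x y (de H f * nu H g) = ev M x y (nu H f * de H g) := by
        simp only [map_mul, ← nu_eq]
        field_simp
      refine ((cod_rr H (by rw [map_mul]; exact mul_ne_zero (de_ne H f) hng) hA).and
        (cod_ne H _ (de_ne H g))).mono ?_
      rintro z ⟨⟨-, hz1, hz⟩, hz2⟩
      rw [map_mul] at hz1
      have z1 := left_ne_zero_of_mul hz1
      have z2 := right_ne_zero_of_mul hz1
      rw [hz, rr, rr, map_mul, map_mul]
      field_simp
  · intro f hf
    have hnf : ev M x y (nu H f) ≠ 0 := by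
      rw [← nu_eq]
      exact mul_ne_zero hf (de_ne H f)
    refine ((cod_ne H _ hnf).and (cod_ne H _ (de_ne H f))).mono ?_
    rintro z ⟨h1, h2⟩
    exact div_ne_zero h1 h2
  · intro f
    have hA : D f * ev M x y (de H f * de H f) =
        ev M x y (dd M (gh H) (nu H f) * de H f - nu H f * dd M (gh H) (de H f)) := by
      have h1 := congrArg D (nu_eq H f)
      rw [Derivation.leibniz, smul_eq_mul, smul_eq_mul] at h1
      simp only [map_sub, map_mul, ev_dd]
      rw [← h1, ← nu_eq]
      ring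
    refine (cod_rr H (by rw [map_mul]; exact mul_ne_zero (de_ne H f) (de_ne H f)) hA).mono ?_
    rintro z ⟨hz, hz1, hz2⟩
    rw [map_mul] at hz1
    have z1 := left_ne_zero_of_mul hz1
    have := (hasDerivAt_G H (nu H f) z hz).div (hasDerivAt_G H (de H f) z hz) z1
    refine this.congr_deriv ?_
    rw [hz2, map_sub, map_mul, map_mul, map_mul]
    ring

end Pool.Agent.EllSch
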