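import Pool.Agent.EllSch.Fix.DerZ
import Pool.Agent.EllSch.Final2

/-! # [RD] Reduction of the conjecture for a lattice to the points of a countable field -/

open Cardinal

namespace Pool.Agent.EllSch

/-- the numbers of the conjecture -/
noncomputable def cnum (a b : ℂ) {n : ℕ} (p : Fin n → ℂ) : Fin 2 ⊕ (Fin 3 × Fin n) → ℂ :=
  Sum.elim ![G2 a b, G3 a b] fun q => ![p q.2, wp a b (p q.2), wz a b (p q.2)] q.1

namespace Red

/-- the three conditions on a point with respect to a derivation -/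
def Kil (δ : Derivation ℤ ℂ ℂ) (L H : ℂ →+ ℂ) (z : ℂ) : Prop := δ z = 0 ∧ L z = 0 ∧ H z = 0

theorem kil_of_off {a b : ℂ} {δ : Derivation ℤ ℂ ℂ} {L H : ℂ →+ ℂ} (hLH : LH a b δ L H) {z : ℂ}
    (hz : Off a b z) (h1 : δ z = 0) (h2 : δ (wp a b z) = 0) (h3 : δ (wz a b z) = 0) :
    Kil δ L H z := by
  refine ⟨h1, ?_, ?_⟩
  · rw [hLH.L_off z hz, h2, zero_div]
  · rw [hLH.H_off z hz, h2, h3, zero_div, mul_zero, add_zero]

theorem kil_comb {a b : ℂ} (h : Ind a b) {δ : Derivation ℤ ℂ ℂ} (h2 : δ (G2 a b) = 0)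
    (h3 : δ (G3 a b) = 0) {L H : ℂ →+ ℂ} (hLH : LH a b δ L H) {n : ℕ} {p : Fin n → ℂ}
    (hp : ∀ i, Kil δ L H (p i)) {α : Fin n → ℂ} (hα : ∀ i, α i ∈ EndL a b) :
    Kil δ L H (∑ i, α i * p i) := by
  refine ⟨?_, ?_, ?_⟩
  · rw [map_sum]
    refine Finset.sum_eq_zero fun i _ => ?_
    rw [δ.leibniz, (hp i).1, ((der_end h (hα i)).1 δ).1, smul_zero, smul_zero, add_zero]
  · rw [map_sum]
    refine Finset.sum_eq_zero fun i _ => ?_
    rw [hLH.L_end h h2 h3 (hα i), (hp i).2.1, mul_zero]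
  · rw [map_sum]
    refine Finset.sum_eq_zero fun i _ => ?_
    obtain ⟨s, -, hs⟩ := H_end h (hα i)
    rw [(hs δ L H h2 h3 hLH).2, (hp i).1, (hp i).2.1, (hp i).2.2, sub_zero, mul_zero, mul_zero,
      add_zero]

theorem kil_div {δ : Derivation ℤ ℂ ℂ} {L H : ℂ →+ ℂ} {z : ℂ} {l : ℕ} (hl : 0 < l)
    (hz : Kil δ L H (l * z)) : Kil δ L H z := by
  have hl' : (l : ℂ) ≠ 0 := Nat.cast_ne_zero.2 hl.ne'
  obtain ⟨h1, h2, h3⟩ := hz
  rw [← nsmul_eq_mul] at h1 h2 h3
  rw [map_nsmul, nsmul_eq_mul] at h1 h2 h3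
  exact ⟨(mul_eq_zero.1 h1).resolve_left hl', (mul_eq_zero.1 h2).resolve_left hl',
    (mul_eq_zero.1 h3).resolve_left hl'⟩

/-- the numbers attached to points which are commensurable with combinations of `p` are algebraic
over the numbers of `p` -/
theorem algebraic_cnum {a b : ℂ} (h : Ind a b) {N : ℕ} {p : Fin N → ℂ} (hp : ∀ i, Off a b (p i))
    {m : ℕ} {q : Fin m → ℂ} (hq : ∀ j, Off a b (q j))
    (hpq : ∀ j, ∃ (l : ℕ) (α : Fin N → ℂ), 0 < l ∧ (∀ i, α i ∈ EndL a b) ∧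
        (l : ℂ) * q j = ∑ i, α i * p i) {S : Set ℂ}
    (hS : ∀ i, IsAlgebraic (IntermediateField.adjoin ℚ S) (cnum a b p i)) (j) :
    IsAlgebraic (IntermediateField.adjoin ℚ S) (cnum a b q j) := by
  by_contra hcon
  obtain ⟨δ', hδ', hSδ⟩ := exists_derivation_eq_one hcon
  have hk : ∀ x, IsAlgebraic (IntermediateField.adjoin ℚ S) x → δ' x = 0 := fun x hx =>
    derivation_eq_zero_of_algebraic δ' hSδ hx
  let δ : Derivation ℤ ℂ ℂ := δ'.restrictScalars ℤ
  have hδ : ∀ x, δ x = δ' x := fun x => rfl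
  have h2 : δ (G2 a b) = 0 := hk _ (hS (Sum.inl 0))
  have h3 : δ (G3 a b) = 0 := hk _ (hS (Sum.inl 1))
  obtain ⟨L, H, hLH⟩ := exists_LH h δ h2 h3
  have hkp : ∀ i, Kil δ L H (p i) := fun i =>
    kil_of_off hLH (hp i) (hk _ (hS (Sum.inr (0, i)))) (hk _ (hS (Sum.inr (1, i))))
      (hk _ (hS (Sum.inr (2, i))))
  have hkq : ∀ j, Kil δ L H (q j) := by
    intro j
    obtain ⟨l, α, hl, hα, he⟩ := hpq j
    refine kil_div hl ?_
    rw [he]
    exact kil_comb h h2 h3 hLH hkp hα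
  have h0 : δ' (cnum a b q j) = 0 := by
    rcases j with j | ⟨j, k⟩
    · fin_cases j
      · exact h2
      · exact h3
    · obtain ⟨e1, e2, e3⟩ := LH.vals h h2 h3 hLH (hq k)
      rw [(hkq k).2.1, mul_zero] at e1 e3
      rw [(hkq k).2.2, sub_zero] at e3
      fin_cases j
      · exact (hkq k).1
      · exact e1
      · exact e3
  rw [hδ'] at h0
  exact one_ne_zero h0

/-- a nonzero number has a multiple `z / l` off the lattice -/
theorem exists_div_off {a b : ℂ} (h : Ind a b) {z : ℂ} (hz : z ≠ 0) :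
    ∃ l : ℕ, 0 < l ∧ Off a b (z / l) := by
  by_cases hoff : Off a b z
  · exact ⟨1, one_pos, by simpa using hoff⟩
  · simp only [Off, not_forall, not_not] at hoff
    obtain ⟨x, hx⟩ := hoff
    have hx0 : x ≠ 0 := by
      rintro rfl
      apply hz
      rw [hx]
      simp [lat]
    refine ⟨x.1.natAbs + x.2.natAbs + 1, Nat.succ_pos _, fun y hy => ?_⟩
    set l : ℕ := x.1.natAbs + x.2.natAbs + 1 with hl
    have hl' : (l : ℂ) ≠ 0 := Nat.cast_ne_zero.2 (Nat.succ_ne_zero _)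
    rw [div_eq_iff hl', hx] at hy
    have e : lat a b x = lat a b ((l : ℤ) * y.1, (l : ℤ) * y.2) := by
      rw [hy]
      simp only [lat]
      push_cast
      ring
    have e1 := lat_injective h e
    have e2 : x.1 = (l : ℤ) * y.1 := congrArg Prod.fst e1
    have e3 : x.2 = (l : ℤ) * y.2 := congrArg Prod.snd e1
    have n1 : x.1.natAbs = l * y.1.natAbs := by rw [e2, Int.natAbs_mul, Int.natAbs_natCast]
    have n2 : x.2.natAbs = l * y.2.natAbs := by rw [e3, Int.natAbs_mul, Int.natAbs_natCast]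
    have n3 : l * (y.1.natAbs + y.2.natAbs) < l := by
      rw [mul_add, ← n1, ← n2]
      omega
    have n4 : y.1.natAbs + y.2.natAbs = 0 := by
      by_contra hne
      have : l * 1 ≤ l * (y.1.natAbs + y.2.natAbs) :=
        Nat.mul_le_mul_left _ (Nat.one_le_iff_ne_zero.2 hne)
      omega
    apply hx0
    have n5 : y.1 = 0 := by omega
    have n6 : y.2 = 0 := by omega
    rw [n5, mul_zero] at e2
    rw [n6, mul_zero] at e3
    exact Prod.ext e2 e3

end Red

open Red in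
theorem reduction_fix {a b : ℂ} (h : Ind a b) (E : Subfield ℂ)
    (hEnd : (EndL a b : Set ℂ) ⊆ E) (h2 : G2 a b ∈ E) (h3 : G3 a b ∈ E)
    (hcl : ∀ z ∈ E, Off a b z → wp a b z ∈ E ∧ wq a b z ∈ E ∧ wz a b z ∈ E)
    (hrel : ∀ (n : ℕ) (p : Fin n → ℂ), 0 < n →
        (∀ α : Fin n → ℂ, (∀ i, α i ∈ EndL a b) → ∑ i, α i * p i ∈ E → α = 0) →
        ∃ s : Finset (Fin 3 × Fin n), 2 * n + 1 ≤ s.card ∧
          AlgebraicIndependent E (fun i : s =>
            ![p (i : Fin 3 × Fin n).2, wp a b (p (i : Fin 3 × Fin n).2),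
              wz a b (p (i : Fin 3 × Fin n).2)] (i : Fin 3 × Fin n).1))
    {N : ℕ} (p : Fin N → ℂ) (hp : ∀ i, Off a b (p i))
    (hind : ∀ α : Fin N → ℂ, (∀ i, α i ∈ EndL a b) → ∑ i, α i * p i = 0 → α = 0) :
    ∃ (m : ℕ) (q : Fin m → ℂ), m ≤ N ∧ (∀ j, q j ∈ E ∧ Off a b (q j)) ∧
      (∀ α : Fin m → ℂ, (∀ i, α i ∈ EndL a b) → ∑ i, α i * q i = 0 → α = 0) ∧
      (∀ j, ∃ (l : ℕ) (α : Fin N → ℂ), 0 < l ∧ (∀ i, α i ∈ EndL a b) ∧
        (l : ℂ) * q j = ∑ i, α i * p i) ∧
      (m = N → ∀ i, p i ∈ E) ∧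
      ∀ s : Finset (Fin 2 ⊕ (Fin 3 × Fin m)),
        AlgebraicIndependent ℚ (fun i : s => cnum a b q i) →
        ∃ s' : Finset (Fin 2 ⊕ (Fin 3 × Fin N)),
          s.card + 2 * (N - m) + (if m < N then 1 else 0) ≤ s'.card ∧
          AlgebraicIndependent ℚ (fun i : s' => cnum a b p i) := by
  classical
  -- a maximal independent subfamily modulo `E`
  let PP : Finset (Fin N) → Prop := fun I => ∀ α : Fin N → ℂ, (∀ i, α i ∈ EndL a b) →
    (∀ i, i ∉ I → α i = 0) → ∑ i, α i * p i ∈ E → α = 0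
  have hne : (Finset.univ.filter PP).Nonempty := ⟨∅, Finset.mem_filter.2 ⟨Finset.mem_univ _,
    fun α _ h0 _ => funext fun i => h0 i (Finset.notMem_empty i)⟩⟩
  obtain ⟨I, hI, hmax⟩ := Finset.exists_max_image _ Finset.card hne
  have hIP : PP I := (Finset.mem_filter.1 hI).2
  have hβ : ∀ j : {j // j ∉ I}, ∃ β : Fin N → ℂ, (∀ i, β i ∈ EndL a b) ∧ β j ≠ 0 ∧
      (∀ i, i ∉ I → i ≠ j → β i = 0) ∧ ∑ i, β i * p i ∈ E := by
    rintro ⟨j, hj⟩
    have h1 : ¬ PP (insert j I) := by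
      intro hc
      have := hmax _ (Finset.mem_filter.2 ⟨Finset.mem_univ _, hc⟩)
      rw [Finset.card_insert_of_notMem hj] at this
      omega
    simp only [PP, not_forall] at h1
    obtain ⟨β, hβ1, hβ2, hβ3, hβ4⟩ := h1
    refine ⟨β, hβ1, fun h0 => ?_, fun i hi hij => ?_, hβ3⟩
    · apply hβ4
      refine hIP β hβ1 (fun i hi => ?_) hβ3
      by_cases hij : i = j
      · rw [hij]; exact h0
      · exact hβ2 i (by simp [hij, hi])
    · exact hβ2 i (by simp [hij, hi])
  choose β hβ1 hβ2 hβ3 hβ4 using hβ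
  have hr : ∀ j, ∑ i, β j i * p i ≠ 0 := by
    intro j h0
    exact hβ2 j (congrFun (hind (β j) (hβ1 j) h0) j)
  choose l hl hloff using fun j => exists_div_off h (hr j)
  let r : {j // j ∉ I} → ℂ := fun j => (∑ i, β j i * p i) / l j
  have hrE : ∀ j, r j ∈ E := fun j => div_mem (hβ4 j) (natCast_mem E _)
  have hl' : ∀ j, (l j : ℂ) ≠ 0 := fun j => Nat.cast_ne_zero.2 (hl j).ne'
  have hrl : ∀ j, (l j : ℂ) * r j = ∑ i, β j i * p i := fun j => mul_div_cancel₀ _ (hl' j)
  -- independence of `r`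
  have hrind : ∀ α : {j // j ∉ I} → ℂ, (∀ i, α i ∈ EndL a b) → ∑ i, α i * r i = 0 → α = 0 := by
    intro α hα h0
    let M : {j // j ∉ I} → ℕ := fun j => ∏ k ∈ Finset.univ.erase j, l k
    have hM : ∀ j, ((∏ k, l k : ℕ) : ℂ) = M j * l j := by
      intro j
      rw [← Nat.cast_mul]
      congr 1
      exact (Finset.prod_erase_mul _ _ (Finset.mem_univ j)).symm
    have hM0 : ∀ j, (M j : ℂ) ≠ 0 := fun j => by
      rw [Nat.cast_ne_zero]
      exact (Finset.prod_pos fun k _ => hl k).ne'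
    let γ : Fin N → ℂ := fun i => ∑ j, α j * M j * β j i
    have hγ : ∀ i, γ i ∈ EndL a b := fun i =>
      sum_mem fun j _ => mul_mem (mul_mem (hα j) (natCast_mem _ _)) (hβ1 j i)
    have hs : ∑ i, γ i * p i = 0 := by
      have e1 : ∑ i, γ i * p i = ∑ j, α j * M j * ∑ i, β j i * p i := by
        simp only [γ, Finset.sum_mul, Finset.mul_sum]
        rw [Finset.sum_comm]
        refine Finset.sum_congr rfl fun j _ => Finset.sum_congr rfl fun i _ => ?_
        ring
      rw [e1]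
      have e2 : ∑ j, α j * M j * ∑ i, β j i * p i = ((∏ k, l k : ℕ) : ℂ) * ∑ j, α j * r j := by
        rw [Finset.mul_sum]
        refine Finset.sum_congr rfl fun j _ => ?_
        rw [← hrl j, hM j]
        ring
      rw [e2, h0, mul_zero]
    have hγ0 := hind γ hγ hs
    funext j
    have e3 := congrFun hγ0 (j : Fin N)
    have e4 : γ (j : Fin N) = α j * M j * β j j := by
      simp only [γ]
      rw [Finset.sum_eq_single j]
      · intro k _ hk
        rw [hβ3 k j j.2 (fun he => hk (Subtype.ext he.symm)), mul_zero]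
      · intro hj
        exact absurd (Finset.mem_univ j) hj
    rw [e4] at e3
    have e5 : α j * M j = 0 := (mul_eq_zero.1 e3).resolve_right (hβ2 j)
    exact (mul_eq_zero.1 e5).resolve_right (hM0 j)
  -- numberings
  let m := Fintype.card {j // j ∉ I}
  let em : Fin m ≃ {j // j ∉ I} := (Fintype.equivFin _).symm
  have hmN : m = N - I.card := by
    simp only [m]
    rw [Fintype.card_subtype_compl, Fintype.card_fin, Fintype.card_coe]
  have hIN : I.card ≤ N := by
    have := Finset.card_le_univ I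
    rwa [Fintype.card_fin] at this
  let q : Fin m → ℂ := fun j => r (em j)
  have hq2 : ∀ j, ∃ (l : ℕ) (α : Fin N → ℂ), 0 < l ∧ (∀ i, α i ∈ EndL a b) ∧
        (l : ℂ) * q j = ∑ i, α i * p i := fun j =>
    ⟨l (em j), β (em j), hl _, hβ1 _, hrl _⟩
  have hq1 : ∀ j, q j ∈ E ∧ Off a b (q j) := fun j => ⟨hrE _, hloff _⟩
  refine ⟨m, q, by omega, hq1, ?_, hq2, ?_, ?_⟩
  · intro α hα h0
    have h1 := hrind (fun j => α (em.symm j)) (fun j => hα _) (by
      rw [← h0, ← Equiv.sum_comp em]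
      refine Finset.sum_congr rfl fun j _ => ?_
      rw [Equiv.symm_apply_apply])
    funext j
    have h3 := congrFun h1 (em j)
    simpa using h3
  · intro hmN' i
    have hI0 : I = ∅ := Finset.card_eq_zero.1 (by omega)
    have hi : i ∉ I := by rw [hI0]; exact Finset.notMem_empty i
    have h5 : ∑ k, β ⟨i, hi⟩ k * p k = β ⟨i, hi⟩ i * p i := by
      refine Finset.sum_eq_single i (fun k _ hk => ?_) (fun hk => absurd (Finset.mem_univ i) hk)
      rw [hβ3 ⟨i, hi⟩ k (by rw [hI0]; exact Finset.notMem_empty k) hk, zero_mul]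
    have h6 := hβ4 ⟨i, hi⟩
    rw [h5] at h6
    have h7 : β ⟨i, hi⟩ i ∈ E := hEnd (hβ1 ⟨i, hi⟩ i)
    have h8 := div_mem h6 h7
    rwa [mul_div_cancel_left₀ _ (hβ2 ⟨i, hi⟩)] at h8
  -- the count
  intro s hs
  obtain ⟨s', hs'1, hs'2⟩ := Final2.exists_max2 (E := ℚ) (cnum a b p)
  refine ⟨s', ?_, hs'1⟩
  have hsE : ∀ i, cnum a b q i ∈ E := by
    rintro (j | ⟨j, k⟩)
    · fin_cases j
      · exact h2
      · exact h3
    · obtain ⟨c1, c2, c3⟩ := hcl (q k) (hq1 k).1 (hq1 k).2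
      fin_cases j
      · exact (hq1 k).1
      · exact c1
      · exact c3
  have halgq : ∀ i, IsAlgebraic (IntermediateField.adjoin ℚ (cnum a b p '' s')) (cnum a b q i) :=
    fun i => algebraic_cnum h hp (fun j => (hq1 j).2) hq2 hs'2 i
  by_cases hn : I.card = 0
  · have hmm : ¬ m < N := by omega
    rw [if_neg hmm]
    have hc := Final2.card_le (cnum a b p) s' (fun i : s => cnum a b q i) hs (fun i => halgq i)
    rw [Fintype.card_coe] at hc
    omega
  · have hmm : m < N := by omega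
    rw [if_pos hmm]
    -- the relative statement
    let eI : Fin I.card ≃ I := (Finset.equivFin I).symm
    obtain ⟨t, ht1, ht2⟩ := hrel I.card (fun i => p (eI i)) (Nat.pos_of_ne_zero hn) (by
      intro α hα h0
      let α' : Fin N → ℂ := fun i => if hi : i ∈ I then α (eI.symm ⟨i, hi⟩) else 0
      have e1 : ∑ i, α' i * p i = ∑ i, α i * p (eI i) := by
        rw [← Finset.sum_subset (Finset.subset_univ I)
          (fun i _ hi => by simp only [α', dif_neg hi, zero_mul])]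
        rw [← Finset.sum_coe_sort I (fun i => α' i * p i), ← Equiv.sum_comp eI]
        refine Finset.sum_congr rfl fun i _ => ?_
        simp only [α', dif_pos (eI i).2, Subtype.coe_eta, Equiv.symm_apply_apply]
      have e2 := hIP α' (fun i => by
        by_cases hi : i ∈ I
        · simp only [α', dif_pos hi]; exact hα _
        · simp only [α', dif_neg hi]; exact zero_mem _) (fun i hi => dif_neg hi)
        (by rw [e1]; exact h0)
      funext i
      have e3 := congrFun e2 (eI i)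
      simp only [α', dif_pos (eI i).2, Subtype.coe_eta, Equiv.symm_apply_apply] at e3
      exact e3)
    let y : t → ℂ := fun i => ![p (eI (i : Fin 3 × Fin I.card).2),
      wp a b (p (eI (i : Fin 3 × Fin I.card).2)),
      wz a b (p (eI (i : Fin 3 × Fin I.card).2))] (i : Fin 3 × Fin I.card).1
    have hy : ∀ i : t, y i = cnum a b p (Sum.inr ((i : Fin 3 × Fin I.card).1,
        (eI (i : Fin 3 × Fin I.card).2 : Fin N))) := fun i => rfl
    have hu : AlgebraicIndependent ℚ (Sum.elim y (fun i : s => cnum a b q i)) := by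
      refine hs.sumElim_of_tower (S := E) ?_ ht2
      rintro _ ⟨i, rfl⟩
      exact ⟨⟨_, hsE i⟩, rfl⟩
    have hc := Final2.card_le (cnum a b p) s' (Sum.elim y (fun i : s => cnum a b q i)) hu (by
      rintro (i | i)
      · rw [Sum.elim_inl, hy]
        exact hs'2 _
      · exact halgq i)
    rw [Fintype.card_sum, Fintype.card_coe, Fintype.card_coe] at hc
    omega

end Pool.Agent.EllSch
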