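import Pool.Agent.EllSch.Fix.Om
import Pool.Agent.EllSch.Fix.DerExt

/-! # [TP] The trace of a point of a curve with constant coefficients -/

namespace Pool.Agent.EllSch

namespace TP

lemma pt_inj {L : Type*} [Field L] [CharZero L] [DecidableEq L] {g2 g3 x y x' y' : L}
    (hΔ : g2 ^ 3 - 27 * g3 ^ 2 ≠ 0) (h : y ^ 2 = 4 * x ^ 3 - g2 * x - g3)
    (h' : y' ^ 2 = 4 * x' ^ 3 - g2 * x' - g3) (he : pt g2 g3 x y = pt g2 g3 x' y') :
    x = x' ∧ y = y' := by
  rw [PtMap.pt_some hΔ h, PtMap.pt_some hΔ h'] at he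
  injection he with h1 h2
  refine ⟨h1, ?_⟩
  have h2' : (2 : L) ≠ 0 := two_ne_zero
  field_simp at h2
  exact h2

lemma cases_pt {L : Type*} [Field L] [CharZero L] [DecidableEq L] {g2 g3 : L}
    (P : (crv g2 g3).Point) :
    P = 0 ∨ ∃ X Y : L, Y ^ 2 = 4 * X ^ 3 - g2 * X - g3 ∧ P = pt g2 g3 X Y := by
  cases P with
  | zero => exact Or.inl rfl
  | some X Y h =>
    right
    have h2 : (2 : L) ≠ 0 := two_ne_zero
    have hY : 2 * Y / 2 = Y := by field_simp
    have h' : (crv g2 g3).Nonsingular X (2 * Y / 2) := by rw [hY]; exact h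
    refine ⟨X, 2 * Y, PtMap.crv_of_nonsing h', ?_⟩
    unfold pt
    rw [dif_pos h']
    simp only [hY]

end TP

set_option linter.unusedVariables false in
/-- The trace (from `K` to `F`) of the differentials of a point over `K` are the differentials of
a point over `F` (the sum of the conjugates), up to an exact differential for the second one. -/
theorem trace_point {F K : Type*} [Field F] [Field K] [Algebra F K] [FiniteDimensional F K]
    [CharZero F] (d : Derivation ℤ F F) (D : Derivation ℤ K K)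
    (hD : ∀ f, D (algebraMap F K f) = algebraMap F K (d f)) (g2 g3 : F) (hg2 : d g2 = 0)
    (hg3 : d g3 = 0) (hΔ : g2 ^ 3 - 27 * g3 ^ 2 ≠ 0) (x y : K) (hy : y ≠ 0)
    (hxy : y ^ 2 = 4 * x ^ 3 - algebraMap F K g2 * x - algebraMap F K g3) :
    ∃ om et w : F, Algebra.trace F K (D x / y) = om ∧
      Algebra.trace F K (x * D x / y) = et + d w ∧
      ((om = 0 ∧ et = 0) ∨ ∃ X Y : F, Y ≠ 0 ∧ Y ^ 2 = 4 * X ^ 3 - g2 * X - g3 ∧
        om = d X / Y ∧ et = X * d X / Y) := by
  classical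
  set L := AlgebraicClosure F with hL
  obtain ⟨DL, hDL⟩ := exists_der_ext (F := F) (L := L) d
  have : CharZero L := charZero_of_injective_algebraMap (algebraMap F L).injective
  have hgal : IsGalois F L := IsAlgClosure.isGalois F L
  set G2 : L := algebraMap F L g2 with hG2
  set G3 : L := algebraMap F L g3 with hG3
  have hDG2 : DL G2 = 0 := by rw [hG2, hDL, hg2, map_zero]
  have hDG3 : DL G3 = 0 := by rw [hG3, hDL, hg3, map_zero]
  have hΔL : G2 ^ 3 - 27 * G3 ^ 2 ≠ 0 := by
    have := (map_ne_zero (algebraMap F L)).mpr hΔ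
    simp only [map_sub, map_mul, map_pow, map_ofNat] at this
    exact this
  have hcrv : ∀ σ : K →ₐ[F] L, (σ y) ^ 2 = 4 * (σ x) ^ 3 - G2 * σ x - G3 := by
    intro σ
    have := congrArg σ hxy
    simp only [map_sub, map_mul, map_pow, map_ofNat, AlgHom.commutes] at this
    exact this
  set R : (crv G2 G3).Point := ∑ σ : K →ₐ[F] L, pt G2 G3 (σ x) (σ y) with hR
  -- the differentials of the sum
  have hom : om DL R = algebraMap F L (Algebra.trace F K (D x / y)) := by
    rw [hR, om_sum DL hDG2 hDG3 hΔL, trace_eq_sum_embeddings L]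
    refine Finset.sum_congr rfl fun σ _ => ?_
    rw [om_pt DL hΔL (hcrv σ), der_comm hD hDL σ x, map_div₀]
  obtain ⟨w, hw⟩ := et_sum DL hDG2 hDG3 hΔL Finset.univ
    (fun σ : K →ₐ[F] L => pt G2 G3 (σ x) (σ y))
  have het : et DL R = algebraMap F L (Algebra.trace F K (x * D x / y)) + DL w := by
    rw [hR, hw, trace_eq_sum_embeddings L]
    congr 1
    refine Finset.sum_congr rfl fun σ _ => ?_
    rw [et_pt DL hΔL (hcrv σ), der_comm hD hDL σ x, map_div₀, map_mul]
  -- descent of the exact part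
  have hdesc : ∀ e : F, et DL R = algebraMap F L e →
      ∃ w' : F, Algebra.trace F K (x * D x / y) = e + d w' := by
    intro e he
    have h1 : DL (-w) = algebraMap F L (Algebra.trace F K (x * D x / y) - e) := by
      rw [map_neg, map_sub, ← he, het]
      ring
    obtain ⟨w', hw'⟩ := exact_descend hDL (-w) _ h1
    exact ⟨w', by rw [hw']; ring⟩
  rcases TP.cases_pt R with h0 | ⟨X, Y, hXY, hRXY⟩
  · have h1 : om DL R = 0 := by rw [h0]; rfl
    have h2 : et DL R = algebraMap F L 0 := by rw [h0, map_zero]; rfl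
    obtain ⟨w', hw'⟩ := hdesc 0 h2
    refine ⟨0, 0, w', ?_, hw', Or.inl ⟨rfl, rfl⟩⟩
    rw [hom] at h1
    exact (map_eq_zero (algebraMap F L)).mp h1
  -- the coordinates of the sum are in the base field
  have hinv : ∀ τ : L ≃ₐ[F] L, τ X = X ∧ τ Y = Y := by
    intro τ
    have hXYτ : (τ Y) ^ 2 = 4 * (τ X) ^ 3 - G2 * τ X - G3 := by
      have := congrArg τ hXY
      simp only [map_sub, map_mul, map_pow, map_ofNat, hG2, hG3, AlgEquiv.commutes] at this
      exact this
    refine (TP.pt_inj hΔL hXYτ hXY ?_)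
    set N := Fintype.card (K →ₐ[F] L) with hN
    set e : (K →ₐ[F] L) ≃ Fin N := Fintype.equivFin (K →ₐ[F] L) with he
    have key := sum_pt_map (τ : L →+* L) hΔL (n := N + 1)
      (Fin.cons X fun i => e.symm i x) (Fin.cons Y fun i => e.symm i y) (by
        intro i
        refine Fin.cases ?_ (fun j => ?_) i
        · simpa using hXY
        · simpa using hcrv (e.symm j)) (Fin.cons (-1) fun _ => 1)
    have hτ2 : (τ : L →+* L) G2 = G2 := τ.commutes g2
    have hτ3 : (τ : L →+* L) G3 = G3 := τ.commutes g3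
    rw [Fin.sum_univ_succ, Fin.sum_univ_succ] at key
    simp only [Fin.cons_zero, Fin.cons_succ, neg_smul, one_smul] at key
    have h1 : ∑ i, pt G2 G3 (e.symm i x) (e.symm i y) = R := by
      rw [hR]
      exact e.symm.sum_comp fun σ : K →ₐ[F] L => pt G2 G3 (σ x) (σ y)
    have h2 : ∑ i, pt ((τ : L →+* L) G2) ((τ : L →+* L) G3) ((τ : L →+* L) (e.symm i x))
        ((τ : L →+* L) (e.symm i y)) = ∑ σ : K →ₐ[F] L,
          pt ((τ : L →+* L) G2) ((τ : L →+* L) G3) ((τ : L →+* L) (σ x)) ((τ : L →+* L) (σ y)) :=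
      e.symm.sum_comp fun σ : K →ₐ[F] L =>
        pt ((τ : L →+* L) G2) ((τ : L →+* L) G3) ((τ : L →+* L) (σ x)) ((τ : L →+* L) (σ y))
    rw [h1, h2] at key
    have h3 := key.mpr (by rw [hRXY, neg_add_cancel])
    rw [hτ2, hτ3] at h3
    have h4 : ∑ σ : K →ₐ[F] L, pt G2 G3 ((τ : L →+* L) (σ x)) ((τ : L →+* L) (σ y)) = R := by
      rw [hR]
      refine Fintype.sum_equiv
        (⟨fun σ => (τ : L →ₐ[F] L).comp σ, fun σ => (τ.symm : L →ₐ[F] L).comp σ,
          fun σ => by ext z; simp, fun σ => by ext z; simp⟩ : (K →ₐ[F] L) ≃ (K →ₐ[F] L)) _ _ ?_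
      intro σ
      rfl
    rw [h4] at h3
    have h5 := neg_add_eq_zero.mp h3
    rw [← hRXY]
    exact h5
  have hXm : X ∈ Set.range (algebraMap F L) :=
    (InfiniteGalois.mem_range_algebraMap_iff_fixed X).mpr fun τ => (hinv τ).1
  have hYm : Y ∈ Set.range (algebraMap F L) :=
    (InfiniteGalois.mem_range_algebraMap_iff_fixed Y).mpr fun τ => (hinv τ).2
  obtain ⟨X0, rfl⟩ := hXm
  obtain ⟨Y0, rfl⟩ := hYm
  have hXY0 : Y0 ^ 2 = 4 * X0 ^ 3 - g2 * X0 - g3 := by
    apply (algebraMap F L).injective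
    simp only [map_sub, map_mul, map_pow, map_ofNat]
    exact hXY
  have hom' : om DL R = algebraMap F L (d X0 / Y0) := by
    rw [hRXY, om_pt DL hΔL hXY, hDL, map_div₀]
  have het' : et DL R = algebraMap F L (X0 * d X0 / Y0) := by
    rw [hRXY, et_pt DL hΔL hXY, hDL, map_div₀, map_mul]
  obtain ⟨w', hw'⟩ := hdesc _ het'
  refine ⟨d X0 / Y0, X0 * d X0 / Y0, w', ?_, hw', ?_⟩
  · apply (algebraMap F L).injective
    rw [← hom, hom']
  · by_cases hY0 : Y0 = 0
    · left
      rw [hY0, div_zero, div_zero]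
      exact ⟨rfl, rfl⟩
    · exact Or.inr ⟨X0, Y0, hY0, hXY0, rfl, rfl⟩

end Pool.Agent.EllSch
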